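import Mathlib

/-!
# Arcs of size q (project RN): definitions and basic lemmas

Linear forms on `K^k` are polynomials of degree `< k`; `ev v h = ∑_{i<k} h_i v_i` is the value of
the form `h` at the vector `v` (with coordinates in a `K`-module `L`).
-/

open Polynomial

namespace Pool.Agent.Helper31.RN

noncomputable section

/-- the value at the vector `v` of the linear form with coefficients `h_0, …, h_{k-1}` -/
def ev {R L : Type*} [Semiring R] [AddCommMonoid L] [Module R L] {k : ℕ} (v : Fin k → L)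
    (h : R[X]) : L := ∑ i : Fin k, h.coeff i • v i

/-- `(1, s, …, s^{k-1})` -/
def nu {R : Type*} [Semiring R] (k : ℕ) (s : R) : Fin k → R := fun i => s ^ (i : ℕ)

/-- `(b^{k-1}, a b^{k-2}, …, a^{k-1})` -/
def nuh {R : Type*} [Semiring R] (k : ℕ) (a b : R) : Fin k → R :=
  fun i => a ^ (i : ℕ) * b ^ (k - 1 - (i : ℕ))

/-- a vector over `K` seen over the algebra `L` -/
def bc {K : Type*} (L : Type*) [CommSemiring K] [Semiring L] [Algebra K L] {k : ℕ}
    (v : Fin k → K) : Fin k → L := fun i => algebraMap K L (v i)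

/-- `1, …, k-1` are not zero in `K` -/
def NZ (K : Type*) [Semiring K] (k : ℕ) : Prop := ∀ n : ℕ, 0 < n → n < k → (n : K) ≠ 0

variable {K : Type*} [Field K] {ι : Type*} [DecidableEq ι] {k : ℕ}

/-- the family `p` is in general position on `S`, `D B` is a form with zeros at the points of `B`
(`B` any set of `k-1` points) -/
structure GP (k : ℕ) (S : Finset ι) (p : ι → Fin k → K) (D : Finset ι → K[X]) : Prop where
  deg : ∀ B, (D B).degree < k
  zero : ∀ B ⊆ S, B.card = k - 1 → ∀ b ∈ B, ev (p b) (D B) = 0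
  ne : ∀ B ⊆ S, B.card = k - 1 → ∀ z ∈ S \ B, ev (p z) (D B) ≠ 0

/-- a Segre system on `S` (of level `|S| - 2k + 1`) -/
structure Sys (k : ℕ) (S : Finset ι) (p : ι → Fin k → K) (D : Finset ι → K[X])
    (c : Finset ι → K) : Prop extends GP k S p D where
  cne : ∀ B ⊆ S, B.card = k - 1 → c B ≠ 0
  seg : ∀ G ⊆ S, G.card = 2 * k → ∀ A ⊆ G, A.card = k - 2 →
    ∑ y ∈ G \ A, C (c (insert y A) * ∏ g ∈ S \ G, ev (p g) (D (insert y A))) * D (insert y A) = 0

/-- a system of level one -/
structure L1 (k : ℕ) (G : Finset ι) (p : ι → Fin k → K) (h : Finset ι → K[X]) : Prop where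
  card : G.card = 2 * k
  deg : ∀ B, (h B).degree < k
  zero : ∀ B ⊆ G, B.card = k - 1 → ∀ b ∈ B, ev (p b) (h B) = 0
  seg : ∀ A ⊆ G, A.card = k - 2 → ∑ y ∈ G \ A, h (insert y A) = 0

/-- the forms of the level one system on `G ⊆ S` -/
def hG (S G : Finset ι) (p : ι → Fin k → K) (D : Finset ι → K[X]) (c : Finset ι → K)
    (B : Finset ι) : K[X] := C (c B * ∏ g ∈ S \ G, ev (p g) (D B)) * D B

section ev

variable {R L : Type*}

theorem ev_zero [Semiring R] [AddCommMonoid L] [Module R L] (v : Fin k → L) :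
    ev v (0 : R[X]) = 0 := by simp [ev]

theorem ev_add [Semiring R] [AddCommMonoid L] [Module R L] (v : Fin k → L) (f g : R[X]) :
    ev v (f + g) = ev v f + ev v g := by simp [ev, add_smul, Finset.sum_add_distrib]

theorem ev_neg [Ring R] [AddCommGroup L] [Module R L] (v : Fin k → L) (f : R[X]) :
    ev v (-f) = - ev v f := by simp [ev]

theorem ev_sub [Ring R] [AddCommGroup L] [Module R L] (v : Fin k → L) (f g : R[X]) :
    ev v (f - g) = ev v f - ev v g := by simp [ev, sub_smul]

theorem ev_sum [Semiring R] [AddCommMonoid L] [Module R L] {α : Type*} (v : Fin k → L)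
    (s : Finset α) (f : α → R[X]) : ev v (∑ i ∈ s, f i) = ∑ i ∈ s, ev v (f i) := by
  classical
  induction s using Finset.induction_on with
  | empty => simp [ev_zero]
  | insert a s ha ih => rw [Finset.sum_insert ha, Finset.sum_insert ha, ev_add, ih]

theorem ev_C_mul [Semiring R] [AddCommMonoid L] [Module R L] (v : Fin k → L) (a : R) (f : R[X]) :
    ev v (C a * f) = a • ev v f := by simp [ev, Finset.smul_sum, mul_smul]

theorem ev_smul [Semiring R] [AddCommMonoid L] [Module R L] (v : Fin k → L) (a : R) (f : R[X]) :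
    ev v (a • f) = a • ev v f := by simp [ev, Finset.smul_sum, mul_smul]

theorem ev_zero_vec [Semiring R] [AddCommMonoid L] [Module R L] (f : R[X]) :
    ev (0 : Fin k → L) f = 0 := by simp [ev]

theorem ev_add_vec [Semiring R] [AddCommMonoid L] [Module R L] (v w : Fin k → L) (f : R[X]) :
    ev (v + w) f = ev v f + ev w f := by simp [ev, Finset.sum_add_distrib]

theorem ev_neg_vec [Ring R] [AddCommGroup L] [Module R L] (v : Fin k → L) (f : R[X]) :
    ev (-v) f = - ev v f := by simp [ev]

theorem ev_sub_vec [Ring R] [AddCommGroup L] [Module R L] (v w : Fin k → L) (f : R[X]) :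
    ev (v - w) f = ev v f - ev w f := by simp [ev, smul_sub]

theorem ev_smul_vec [CommSemiring R] [CommSemiring L] [Algebra R L] (a : L) (v : Fin k → L)
    (f : R[X]) : ev (a • v) f = a * ev v f := by
  simp only [ev, Pi.smul_apply, smul_eq_mul, Finset.mul_sum, mul_smul_comm]

theorem ev_sum_vec [Semiring R] [AddCommMonoid L] [Module R L] {α : Type*} (s : Finset α)
    (v : α → Fin k → L) (f : R[X]) : ev (∑ i ∈ s, v i) f = ∑ i ∈ s, ev (v i) f := by
  classical
  induction s using Finset.induction_on with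
  | empty => simp [ev_zero_vec]
  | insert a s ha ih => rw [Finset.sum_insert ha, Finset.sum_insert ha, ev_add_vec, ih]

theorem ev_single [Semiring R] (i : Fin k) (f : R[X]) :
    ev (Pi.single i (1 : R)) f = f.coeff i := by
  simp [ev, Pi.single_apply]

theorem ev_nu [CommSemiring R] (s : R) (f : R[X]) (hf : f.degree < k) :
    ev (nu k s) f = f.eval s := by
  rcases eq_or_ne f 0 with rfl | h0
  · simp [ev_zero]
  have hn : f.natDegree < k := (natDegree_lt_iff_degree_lt h0).mpr hf
  rw [eval_eq_sum_range' hn, ← Fin.sum_univ_eq_sum_range (fun i => f.coeff i * s ^ i)]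
  simp [ev, nu]

theorem ev_nu_alg [CommSemiring R] [CommSemiring L] [Algebra R L] (a : L) (f : R[X])
    (hf : f.degree < k) : ev (nu k a) f = aeval a f := by
  rcases eq_or_ne f 0 with rfl | h0
  · simp [ev_zero]
  have hn : f.natDegree < k := (natDegree_lt_iff_degree_lt h0).mpr hf
  rw [aeval_eq_sum_range' hn, ← Fin.sum_univ_eq_sum_range (fun i => f.coeff i • a ^ i)]
  simp [ev, nu]

theorem ev_map [CommSemiring R] [CommSemiring L] [Algebra R L] (v : Fin k → L) (f : R[X]) :
    ev v (f.map (algebraMap R L)) = ev v f := by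
  simp [ev, Algebra.smul_def]

theorem ev_bc [CommSemiring R] [CommSemiring L] [Algebra R L] (v : Fin k → R) (f : R[X]) :
    ev (bc L v) f = algebraMap R L (ev v f) := by
  simp [ev, bc, Algebra.smul_def]

theorem bc_nu [CommSemiring R] [CommSemiring L] [Algebra R L] (s : R) :
    bc L (nu k s) = nu k (algebraMap R L s) := by
  ext i; simp [bc, nu]

theorem degree_C_mul_lt [CommSemiring R] {n : WithBot ℕ} (a : R) {f : R[X]} (hf : f.degree < n) :
    (C a * f).degree < n := by
  refine lt_of_le_of_lt ?_ hf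
  rw [← smul_eq_C_mul]
  exact degree_smul_le a f

theorem degree_sum_lt' [Semiring R] {α : Type*} {n : ℕ} (s : Finset α) (f : α → R[X])
    (hf : ∀ i ∈ s, (f i).degree < n) : (∑ i ∈ s, f i).degree < n := by
  classical
  have h : ∀ i ∈ s, f i ∈ degreeLT R n := fun i hi => mem_degreeLT.mpr (hf i hi)
  exact mem_degreeLT.mp (Submodule.sum_mem _ h)

end ev

theorem Sys.hG_deg {S G : Finset ι} {p : ι → Fin k → K} {D : Finset ι → K[X]} {c : Finset ι → K}
    (H : GP k S p D) (B : Finset ι) : (hG S G p D c B).degree < k :=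
  degree_C_mul_lt _ (H.deg B)

/-- the level one system on `G ⊆ S`, `|G| = 2k` -/
theorem Sys.toL1 {S : Finset ι} {p : ι → Fin k → K} {D : Finset ι → K[X]} {c : Finset ι → K}
    (H : Sys k S p D c) {G : Finset ι} (hG' : G ⊆ S) (hc : G.card = 2 * k) :
    L1 k G p (hG S G p D c) where
  card := hc
  deg := fun B => Sys.hG_deg H.toGP B
  zero := fun B hB hBc b hb => by
    rw [hG, ev_C_mul, H.zero B (hB.trans hG') hBc b hb, smul_zero]
  seg := fun A hA hAc => H.seg G hG' hc A hA hAc

/-- restriction of a system -/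
theorem Sys.restrict {S : Finset ι} {p : ι → Fin k → K} {D : Finset ι → K[X]} {c : Finset ι → K}
    (H : Sys k S p D c) {S' : Finset ι} (hS : S' ⊆ S) :
    Sys k S' p D (fun B => c B * ∏ g ∈ S \ S', ev (p g) (D B)) where
  deg := H.deg
  zero := fun B hB hc => H.zero B (hB.trans hS) hc
  ne := fun B hB hc z hz => H.ne B (hB.trans hS) hc z (by
    rw [Finset.mem_sdiff] at hz ⊢; exact ⟨hS hz.1, hz.2⟩)
  cne := fun B hB hc => mul_ne_zero (H.cne B (hB.trans hS) hc) (Finset.prod_ne_zero_iff.mpr
    fun g hg => H.ne B (hB.trans hS) hc g (by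
      rw [Finset.mem_sdiff] at hg ⊢; exact ⟨hg.1, fun h => hg.2 (hB h)⟩))
  seg := fun G hG' hc A hA hAc => by
    have h := H.seg G (hG'.trans hS) hc A hA hAc
    rw [← h]
    refine Finset.sum_congr rfl fun y _ => ?_
    have h2 : S \ G = (S \ S') ∪ (S' \ G) := by
      ext x
      simp only [Finset.mem_sdiff, Finset.mem_union]
      constructor
      · rintro ⟨h1, h2⟩
        by_cases h3 : x ∈ S'
        · exact Or.inr ⟨h3, h2⟩
        · exact Or.inl ⟨h1, h3⟩
      · rintro (⟨h1, h2⟩ | ⟨h1, h2⟩)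
        · exact ⟨h1, fun h3 => h2 (hG' h3)⟩
        · exact ⟨hS h1, h2⟩
    have h3 : Disjoint (S \ S') (S' \ G) := by
      rw [Finset.disjoint_left]
      intro x hx hx'
      rw [Finset.mem_sdiff] at hx hx'
      exact hx.2 hx'.1
    rw [h2, Finset.prod_union h3, mul_assoc]

end

end Pool.Agent.Helper31.RN
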