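import Pool.Agent.Helper31.RN.Rank
import Pool.Agent.Helper98.NRC.Main

/-!
# RN-F4: the determinant condition implies that the points are on a normal rational curve

`S = univ`, `q ≥ k+3` points. Let `B = {0, …, k-1} ⊆ Fin q` (as `b_i`), `g` the linear equivalence with `g (Pi.single i 1) = p (b_i)`; the coordinates of `x = p j` (`j ∉ B`) in this basis are
`x_i = D_{B - b_i}(x)/D_{B - b_i}(b_i)` (`interp_vec`), all `≠ 0`. Fix two points `u, v` outside `B`. For a third point `x` and three indices `i₁, i₂, i₃`, `DetZero` with `D0 = B \ {b_{i₁}, b_{i₂}, b_{i₃}}` says that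
the vectors `(1/x_i)`, `(1/u_i)`, `(1/v_i)` restricted to `i₁, i₂, i₃` are dependent; `(1/u_{i₁}, 1/u_{i₂})`, `(1/v_{i₁}, 1/v_{i₂})` are independent (otherwise `D_{..}` : the vectors `u, v` and the `k-2` other basis vectors are dependent).
So `1/x_i = λ/u_i + μ/v_i` for all `i` (`λ, μ` determined by `i₁, i₂`). With `b = u`, `c_i = - u_i/v_i` (injective), `u_i/x_i = λ - μ c_i`: `Pool.Agent.Helper98.NRC.mem_of_formula` if `μ ≠ 0`, and `x = u/λ` if `μ = 0` (`b_mem_Cbc`).
The basis vectors are on the curve by `ev_mem_Cbc`; `Cbc_isNRC`; then apply `isNRC_image` with `g`.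
-/

open Polynomial
open scoped LinearAlgebra.Projectivization

namespace Pool.Agent.Helper31.RN

noncomputable section

/-- the linear equivalence that maps the coordinate vectors to independent vectors -/
private theorem exists_g21 {K : Type*} [Field K] {k : ℕ} (hk : 0 < k) (f : Fin k → Fin k → K)
    (hf : LinearIndependent K f) :
    ∃ g : (Fin k → K) ≃ₗ[K] (Fin k → K), ∀ i, g (Pi.single i 1) = f i := by
  haveI : Nonempty (Fin k) := ⟨⟨0, hk⟩⟩
  let b := basisOfLinearIndependentOfCardEqFinrank hf (by simp)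
  refine ⟨(Pi.basisFun K (Fin k)).equiv b (Equiv.refl _), fun i => ?_⟩
  have h2 : (Pi.single i 1 : Fin k → K) = Pi.basisFun K (Fin k) i := by simp
  rw [h2, Module.Basis.equiv_apply]
  simp [b]

private theorem bc_self21 {K : Type*} [Field K] {k : ℕ} (v : Fin k → K) : bc K v = v := by
  ext i
  simp [bc]

/-- three collinear points -/
private theorem det21 {K : Type*} [Field K] {U1 U2 U3 V1 V2 V3 X1 X2 X3 : K} (h1 : U1 ≠ 0) (h2 : U2 ≠ 0)
    (h3 : U3 ≠ 0) (g1 : V1 ≠ 0) (g2 : V2 ≠ 0) (g3 : V3 ≠ 0) (f1 : X1 ≠ 0) (f2 : X2 ≠ 0) (f3 : X3 ≠ 0)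
    (h : Matrix.det (Matrix.of ![![U1⁻¹, V1⁻¹, X1⁻¹], ![U2⁻¹, V2⁻¹, X2⁻¹], ![U3⁻¹, V3⁻¹, X3⁻¹]]) = 0)
    (hc : -(U1 / V1) ≠ -(U2 / V2)) :
    U3 / X3 = (U1 / X1 + (U2 / X2 - U1 / X1) / (-(U1 / V1) - -(U2 / V2)) * -(U1 / V1)) -
      (U2 / X2 - U1 / X1) / (-(U1 / V1) - -(U2 / V2)) * -(U3 / V3) := by
  have hc' : -(U1 / V1) - -(U2 / V2) ≠ 0 := sub_ne_zero.mpr hc
  rw [Matrix.det_fin_three] at h
  simp only [Matrix.of_apply, Matrix.cons_val', Matrix.cons_val_zero, Matrix.cons_val_one,
    Matrix.cons_val, Matrix.cons_val_fin_one] at h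
  have h' : (U2 / X2 - U1 / X1) * (U3 / V3 - U1 / V1) = (U3 / X3 - U1 / X1) * (U2 / V2 - U1 / V1) := by
    have e : ((U2 / X2 - U1 / X1) * (U3 / V3 - U1 / V1) - (U3 / X3 - U1 / X1) * (U2 / V2 - U1 / V1)) =
        - U1 * U2 * U3 * (U1⁻¹ * V2⁻¹ * X3⁻¹ - U1⁻¹ * X2⁻¹ * V3⁻¹ - V1⁻¹ * U2⁻¹ * X3⁻¹ + V1⁻¹ * X2⁻¹ * U3⁻¹ +
          X1⁻¹ * U2⁻¹ * V3⁻¹ - X1⁻¹ * V2⁻¹ * U3⁻¹) := by
      field_simp
      ring
    rw [h, mul_zero] at e
    linear_combination e
  have h'' : U3 / X3 - U1 / X1 = (U2 / X2 - U1 / X1) / (-(U1 / V1) - -(U2 / V2)) * (U3 / V3 - U1 / V1) := by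
    rw [div_mul_eq_mul_div, eq_div_iff hc', h']
    ring
  linear_combination h''

theorem curve_of_det {K : Type*} [Field K] {k : ℕ} (hk : 3 ≤ k) {q : ℕ} (hq : k + 3 ≤ q)
    {p : Fin q → Fin k → K} {D : Finset (Fin q) → K[X]} (H : GP k Finset.univ p D)
    (h0 : DetZero k Finset.univ p D) (hne : ∀ j, p j ≠ 0) :
    ∃ C : Set (ℙ K (Fin k → K)), Pool.Agent.Helper98.NRC.IsNRC C ∧
      ∀ j, Projectivization.mk K (p j) (hne j) ∈ C := by
  classical
  obtain ⟨β, hβinj, hβv⟩ : ∃ β : Fin k → Fin q, Function.Injective β ∧ ∀ i, (β i : ℕ) = i :=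
    ⟨Fin.castLE (by omega), Fin.castLE_injective _, fun i => rfl⟩
  obtain ⟨B, hB⟩ : ∃ B : Finset (Fin q), B = Finset.univ.image β := ⟨_, rfl⟩
  have hBc : B.card = k := by
    rw [hB, Finset.card_image_of_injective _ hβinj, Finset.card_univ, Fintype.card_fin]
  have hmem : ∀ i, β i ∈ B := fun i => by
    rw [hB]; exact Finset.mem_image_of_mem _ (Finset.mem_univ i)
  have hmem' : ∀ b ∈ B, ∃ i, β i = b := fun b hb => by
    rw [hB] at hb
    obtain ⟨i, -, hi⟩ := Finset.mem_image.mp hb
    exact ⟨i, hi⟩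
  have hnB : ∀ j : Fin q, k ≤ (j : ℕ) → j ∉ B := by
    intro j hj hjB
    obtain ⟨i, hi⟩ := hmem' j hjB
    have h1 := hβv i
    rw [hi] at h1
    have := i.2
    omega
  have hec : ∀ i, (B.erase (β i)).card = k - 1 := fun i => by
    rw [Finset.card_erase_of_mem (hmem i), hBc]
  -- values of the forms
  obtain ⟨E, hE⟩ : ∃ E : Fin q → Fin k → K, ∀ j i, E j i = ev (p j) (D (B.erase (β i))) :=
    ⟨_, fun _ _ => rfl⟩
  have hE0 : ∀ j, j ∉ B → ∀ i, E j i ≠ 0 := by
    intro j hj i
    rw [hE]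
    exact H.ne _ (Finset.subset_univ _) (hec i) _ (Finset.mem_sdiff.mpr ⟨Finset.mem_univ _,
      fun h => hj (Finset.mem_of_mem_erase h)⟩)
  have hEb : ∀ i, E (β i) i ≠ 0 := by
    intro i
    rw [hE]
    exact H.ne _ (Finset.subset_univ _) (hec i) _ (Finset.mem_sdiff.mpr ⟨Finset.mem_univ _,
      Finset.notMem_erase _ _⟩)
  have hEz : ∀ i l, i ≠ l → E (β i) l = 0 := by
    intro i l hil
    rw [hE]
    exact H.zero _ (Finset.subset_univ _) (hec l) _ (Finset.mem_erase.mpr ⟨fun h => hil (hβinj h), hmem i⟩)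
  -- coordinates
  obtain ⟨y, hy⟩ : ∃ y : Fin q → Fin k → K, ∀ j i, y j i = E j i / E (β i) i := ⟨_, fun _ _ => rfl⟩
  have hy0 : ∀ j, j ∉ B → ∀ i, y j i ≠ 0 := fun j hj i => by
    rw [hy]; exact div_ne_zero (hE0 j hj i) (hEb i)
  have hli : LinearIndependent K (fun i : Fin k => p (β i)) :=
    (H.linInd (Finset.subset_univ B) hBc).comp (fun i => ⟨β i, hmem i⟩)
      (fun i j h => hβinj (congrArg Subtype.val h))
  obtain ⟨g, hg⟩ := exists_g21 (by omega) _ hli
  have hgy : ∀ j, g (y j) = p j := by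
    intro j
    have h1 := H.interp_vec (by omega) (L := K) (Finset.subset_univ B) hBc (p j)
    have h2 : y j = ∑ i, y j i • (Pi.single i (1 : K) : Fin k → K) :=
      Pool.Agent.Helper98.NRC.fun_eq_sum (y j)
    rw [h2, map_sum]
    conv_rhs => rw [h1]
    have h3 : (Finset.univ.image β).sum (fun b => (ev (p j) (D (B.erase b)) *
        algebraMap K K (ev (p b) (D (B.erase b)))⁻¹) • bc K (p b)) =
        ∑ i, (ev (p j) (D (B.erase (β i))) *
        algebraMap K K (ev (p (β i)) (D (B.erase (β i))))⁻¹) • bc K (p (β i)) :=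
      Finset.sum_image (fun i _ j _ h => hβinj h)
    rw [← hB] at h3
    rw [h3]
    refine Finset.sum_congr rfl fun i _ => ?_
    rw [map_smul, hg, bc_self21, hy, hE, hE, div_eq_mul_inv]
    rfl
  -- the curve
  obtain ⟨u, hu⟩ : ∃ u : Fin q, (u : ℕ) = k := ⟨⟨k, by omega⟩, rfl⟩
  obtain ⟨v, hv⟩ : ∃ v : Fin q, (v : ℕ) = k + 1 := ⟨⟨k + 1, by omega⟩, rfl⟩
  have huB : u ∉ B := hnB u hu.ge
  have hvB : v ∉ B := hnB v (by omega)
  have huv : u ≠ v := fun h => by rw [h, hv] at hu; omega
  obtain ⟨c, hc⟩ : ∃ c : Fin k → K, ∀ i, c i = -(E u i / E v i) := ⟨_, fun _ => rfl⟩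
  have hcinj : Function.Injective c := by
    intro i l hil
    by_contra hne'
    rw [hc, hc, neg_inj, div_eq_div_iff (hE0 v hvB i) (hE0 v hvB l)] at hil
    -- the form `E v l • D_i - E v i • D_l`
    have h1 : C (E v l) * D (B.erase (β i)) - C (E v i) * D (B.erase (β l)) = 0 := by
      refine H.form_eq_zero (B := insert u (insert v ((B.erase (β i)).erase (β l)))) (Finset.subset_univ _) ?_ ?_ ?_
      · have h2 : β l ∈ B.erase (β i) := Finset.mem_erase.mpr ⟨fun h => hne' (hβinj h).symm, hmem l⟩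
        rw [Finset.card_insert_of_notMem, Finset.card_insert_of_notMem, Finset.card_erase_of_mem h2, hec i]
        · omega
        · intro h
          exact hvB (Finset.mem_of_mem_erase (Finset.mem_of_mem_erase h))
        · intro h
          rcases Finset.mem_insert.mp h with h | h
          · exact huv h
          · exact huB (Finset.mem_of_mem_erase (Finset.mem_of_mem_erase h))
      · exact lt_of_le_of_lt (degree_sub_le _ _) (max_lt (degree_C_mul_lt _ (H.deg _))
          (degree_C_mul_lt _ (H.deg _)))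
      · intro b hb
        rw [ev_sub, ev_C_mul, ev_C_mul, smul_eq_mul, smul_eq_mul]
        rcases Finset.mem_insert.mp hb with rfl | hb
        · rw [← hE, ← hE]
          linear_combination hil
        rcases Finset.mem_insert.mp hb with rfl | hb
        · rw [← hE, ← hE]
          ring
        · obtain ⟨h3, h4⟩ := Finset.mem_erase.mp hb
          obtain ⟨h5, h6⟩ := Finset.mem_erase.mp h4
          rw [H.zero _ (Finset.subset_univ _) (hec i) b (Finset.mem_erase.mpr ⟨h5, h6⟩),
            H.zero _ (Finset.subset_univ _) (hec l) b (Finset.mem_erase.mpr ⟨h3, h6⟩), mul_zero, mul_zero,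
            sub_zero]
    have h2 := congrArg (fun f => ev (p (β i)) f) h1
    simp only [ev_sub, ev_C_mul, smul_eq_mul, ev_zero] at h2
    rw [← hE, ← hE, hEz i l hne', mul_zero, sub_zero] at h2
    exact mul_ne_zero (hE0 v hvB l) (hEb i) h2
  have hby : ∀ i, y u i ≠ 0 := hy0 u huB
  have hC := Pool.Agent.Helper98.NRC.Cbc_isNRC (by omega) (y u) c hby hcinj
  have hyne : ∀ j, y j ≠ 0 := fun j h => hne j (by rw [← hgy j, h, map_zero])
  refine ⟨Pool.Agent.Helper98.NRC.mp g '' Pool.Agent.Helper98.NRC.Cbc (y u) c,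
    Pool.Agent.Helper98.NRC.isNRC_image g _ hC, fun j => ?_⟩
  have hmk : Projectivization.mk K (p j) (hne j) =
      Pool.Agent.Helper98.NRC.mp g (Projectivization.mk K (y j) (hyne j)) := by
    rw [Pool.Agent.Helper98.NRC.mp_mk]
    simp only [hgy]
  rw [hmk]
  refine Set.mem_image_of_mem _ ?_
  have hq1 : ∀ i, y u i / y j i = E u i / E j i := by
    intro i
    rw [hy, hy]
    have := hEb i
    rw [div_div_div_cancel_right₀ this]
  by_cases hjB : j ∈ B
  · obtain ⟨i, hi⟩ := hmem' j hjB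
    have h1 : y j = Pool.Agent.Helper98.NRC.ev K i := by
      ext l
      rw [hy, ← hi, Pool.Agent.Helper98.NRC.ev]
      by_cases h : i = l
      · rw [h, div_self (hEb l), Pi.single_eq_same]
      · rw [hEz i l h, zero_div, Pi.single_eq_of_ne (Ne.symm h)]
    have h2 := Pool.Agent.Helper98.NRC.ev_mem_Cbc (y u) c hby hcinj i
    simp only [h1]
    exact h2
  by_cases hju : j = u
  · subst hju
    exact Pool.Agent.Helper98.NRC.b_mem_Cbc _ _ _
  by_cases hjv : j = v
  · subst hjv
    refine Pool.Agent.Helper98.NRC.mem_of_formula (y u) c hby (y j) (hyne j) 0 1 (hy0 j hjB) (fun i => ?_)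
    rw [hq1, hc]
    ring
  -- a general point
  obtain ⟨i1, hi1⟩ : ∃ i : Fin k, (i : ℕ) = 0 := ⟨⟨0, by omega⟩, rfl⟩
  obtain ⟨i2, hi2⟩ : ∃ i : Fin k, (i : ℕ) = 1 := ⟨⟨1, by omega⟩, rfl⟩
  have h12 : i1 ≠ i2 := fun h => by rw [h, hi2] at hi1; omega
  have hcne : c i1 ≠ c i2 := fun h => h12 (hcinj h)
  obtain ⟨μ, hμ⟩ : ∃ μ : K, μ = (E u i2 / E j i2 - E u i1 / E j i1) / (c i1 - c i2) := ⟨_, rfl⟩
  obtain ⟨lam, hlam⟩ : ∃ lam : K, lam = E u i1 / E j i1 + μ * c i1 := ⟨_, rfl⟩
  have hform : ∀ i, E u i / E j i = lam - μ * c i := by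
    intro i3
    by_cases h13 : i3 = i1
    · rw [h13, hlam]; ring
    by_cases h23 : i3 = i2
    · rw [h23, hlam]
      have h4 : μ * (c i1 - c i2) = E u i2 / E j i2 - E u i1 / E j i1 := by
        rw [hμ, div_mul_cancel₀ _ (sub_ne_zero.mpr hcne)]
      linear_combination -h4
    have hdet := h0 (((B.erase (β i1)).erase (β i2)).erase (β i3)) (Finset.subset_univ _) ?_
      ![β i1, β i2, β i3] ![u, v, j] ?_ ?_ ?_ ?_ ?_
    · have n12 : β i1 ≠ β i2 := fun h => h12 (hβinj h)
      have n13 : β i3 ≠ β i1 := fun h => h13 (hβinj h)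
      have n23 : β i3 ≠ β i2 := fun h => h23 (hβinj h)
      have e1 : insert (β i2) (insert (β i3) (((B.erase (β i1)).erase (β i2)).erase (β i3))) =
          B.erase (β i1) := by
        rw [Finset.insert_erase, Finset.insert_erase]
        · exact Finset.mem_erase.mpr ⟨n12.symm, hmem _⟩
        · exact Finset.mem_erase.mpr ⟨n23, Finset.mem_erase.mpr ⟨n13, hmem _⟩⟩
      have e2 : insert (β i3) (insert (β i1) (((B.erase (β i1)).erase (β i2)).erase (β i3))) =
          B.erase (β i2) := by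
        rw [Finset.insert_comm, Finset.insert_erase, Finset.erase_right_comm, Finset.insert_erase]
        · exact Finset.mem_erase.mpr ⟨n12, hmem _⟩
        · exact Finset.mem_erase.mpr ⟨n23, Finset.mem_erase.mpr ⟨n13, hmem _⟩⟩
      have e3 : insert (β i1) (insert (β i2) (((B.erase (β i1)).erase (β i2)).erase (β i3))) =
          B.erase (β i3) := by
        rw [Finset.erase_right_comm, Finset.erase_right_comm (a := β i1), Finset.insert_erase,
          Finset.insert_erase]
        · exact Finset.mem_erase.mpr ⟨n13.symm, hmem _⟩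
        · refine Finset.mem_erase.mpr ⟨n12.symm, Finset.mem_erase.mpr ⟨n23.symm, hmem _⟩⟩
      have hM : (Matrix.of fun i l : Fin 3 => (ev (p ((![u, v, j] : Fin 3 → Fin q) l))
          (D (insert ((![β i1, β i2, β i3] : Fin 3 → Fin q) (i + 1))
            (insert ((![β i1, β i2, β i3] : Fin 3 → Fin q) (i + 2))
              (((B.erase (β i1)).erase (β i2)).erase (β i3))))))⁻¹) =
          Matrix.of ![![(E u i1)⁻¹, (E v i1)⁻¹, (E j i1)⁻¹], ![(E u i2)⁻¹, (E v i2)⁻¹, (E j i2)⁻¹],
            ![(E u i3)⁻¹, (E v i3)⁻¹, (E j i3)⁻¹]] := by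
        ext i l
        simp only [Matrix.of_apply, hE]
        fin_cases i
        · have : insert ((![β i1, β i2, β i3] : Fin 3 → Fin q) ((0 : Fin 3) + 1))
            (insert ((![β i1, β i2, β i3] : Fin 3 → Fin q) ((0 : Fin 3) + 2))
              (((B.erase (β i1)).erase (β i2)).erase (β i3))) = B.erase (β i1) := e1
          fin_cases l
          · exact congrArg (fun T => (ev (p u) (D T))⁻¹) this
          · exact congrArg (fun T => (ev (p v) (D T))⁻¹) this
          · exact congrArg (fun T => (ev (p j) (D T))⁻¹) this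
        · have : insert ((![β i1, β i2, β i3] : Fin 3 → Fin q) ((1 : Fin 3) + 1))
            (insert ((![β i1, β i2, β i3] : Fin 3 → Fin q) ((1 : Fin 3) + 2))
              (((B.erase (β i1)).erase (β i2)).erase (β i3))) = B.erase (β i2) := e2
          fin_cases l
          · exact congrArg (fun T => (ev (p u) (D T))⁻¹) this
          · exact congrArg (fun T => (ev (p v) (D T))⁻¹) this
          · exact congrArg (fun T => (ev (p j) (D T))⁻¹) this
        · have : insert ((![β i1, β i2, β i3] : Fin 3 → Fin q) ((2 : Fin 3) + 1))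
            (insert ((![β i1, β i2, β i3] : Fin 3 → Fin q) ((2 : Fin 3) + 2))
              (((B.erase (β i1)).erase (β i2)).erase (β i3))) = B.erase (β i3) := e3
          fin_cases l
          · exact congrArg (fun T => (ev (p u) (D T))⁻¹) this
          · exact congrArg (fun T => (ev (p v) (D T))⁻¹) this
          · exact congrArg (fun T => (ev (p j) (D T))⁻¹) this
      rw [hM] at hdet
      have h5 := det21 (hE0 u huB i1) (hE0 u huB i2) (hE0 u huB i3) (hE0 v hvB i1) (hE0 v hvB i2)
        (hE0 v hvB i3) (hE0 j hjB i1) (hE0 j hjB i2) (hE0 j hjB i3) hdet (by rw [← hc, ← hc]; exact hcne)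
      rw [← hc, ← hc, ← hc, ← hμ, ← hlam] at h5
      exact h5
    · have n12 : β i1 ≠ β i2 := fun h => h12 (hβinj h)
      have n13 : β i3 ≠ β i1 := fun h => h13 (hβinj h)
      have n23 : β i3 ≠ β i2 := fun h => h23 (hβinj h)
      rw [Finset.card_erase_of_mem, Finset.card_erase_of_mem, hec i1]
      · omega
      · exact Finset.mem_erase.mpr ⟨n12.symm, hmem _⟩
      · exact Finset.mem_erase.mpr ⟨n23, Finset.mem_erase.mpr ⟨n13, hmem _⟩⟩
    · intro i
      refine Finset.mem_sdiff.mpr ⟨Finset.mem_univ _, ?_⟩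
      fin_cases i
      · intro h
        exact (Finset.notMem_erase _ _) (Finset.mem_of_mem_erase (Finset.mem_of_mem_erase h))
      · intro h
        exact (Finset.notMem_erase _ _) (Finset.mem_of_mem_erase h)
      · intro h
        exact (Finset.notMem_erase _ _) h
    · intro l
      refine Finset.mem_sdiff.mpr ⟨Finset.mem_univ _, fun h => ?_⟩
      have h' := Finset.mem_of_mem_erase (Finset.mem_of_mem_erase (Finset.mem_of_mem_erase h))
      fin_cases l
      · exact huB h'
      · exact hvB h'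
      · exact hjB h'
    · have n12 : β i1 ≠ β i2 := fun h => h12 (hβinj h)
      have n13 : β i3 ≠ β i1 := fun h => h13 (hβinj h)
      have n23 : β i3 ≠ β i2 := fun h => h23 (hβinj h)
      intro a b hab
      fin_cases a <;> fin_cases b
      · rfl
      · exact absurd hab n12
      · exact absurd hab n13.symm
      · exact absurd hab n12.symm
      · rfl
      · exact absurd hab n23.symm
      · exact absurd hab n13
      · exact absurd hab n23
      · rfl
    · intro a b hab
      fin_cases a <;> fin_cases b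
      · rfl
      · exact absurd hab huv
      · exact absurd hab (Ne.symm hju)
      · exact absurd hab huv.symm
      · rfl
      · exact absurd hab (Ne.symm hjv)
      · exact absurd hab hju
      · exact absurd hab hjv
      · rfl
    · intro a b hab
      have hxB : (![u, v, j] : Fin 3 → Fin q) b ∉ B := by
        fin_cases b
        · exact huB
        · exact hvB
        · exact hjB
      apply hxB
      rw [← hab]
      fin_cases a
      · exact hmem _
      · exact hmem _
      · exact hmem _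
  by_cases hμ0 : μ = 0
  · have hlam0 : lam ≠ 0 := by
      intro h
      have h1 := hform i1
      rw [h, hμ0, zero_mul, sub_zero] at h1
      exact div_ne_zero (hE0 u huB i1) (hE0 j hjB i1) h1
    have h1 : Projectivization.mk K (y j) (hyne j) = Projectivization.mk K (y u) (hyne u) := by
      rw [Projectivization.mk_eq_mk_iff']
      refine ⟨lam⁻¹, ?_⟩
      ext i
      have h2 := hform i
      rw [hμ0, zero_mul, sub_zero, ← hq1, div_eq_iff (hy0 j hjB i)] at h2
      rw [Pi.smul_apply, smul_eq_mul, h2, inv_mul_cancel_left₀ hlam0]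
    rw [h1]
    exact Pool.Agent.Helper98.NRC.b_mem_Cbc _ _ _
  · refine Pool.Agent.Helper98.NRC.mem_of_formula (y u) c hby (y j) (hyne j) (lam / μ) μ (hy0 j hjB)
      (fun i => ?_)
    rw [hq1, hform i]
    field_simp

end

end Pool.Agent.Helper31.RN
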