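import Pool.Agent.Helper31.RN.Final0
import Pool.Agent.Helper31.RN.Curve

/-!
# RN-F5: every `q`-arc of `PG(k-1,q)` is rational, `3 ≤ k ≤ p`, `2k+2 ≤ q`

Choose representatives `p : Fin q → Fin k → K` of the points of `A` (`Set.ncard` = `q`: an equivalence `Fin q ≃ A`); `IsArc` gives independence of any `k` different ones. `NZ K k` from `k ≤ char`. `det_arc`, `curve_of_det`.
-/

open Polynomial
open scoped LinearAlgebra.Projectivization

namespace Pool.Agent.Helper31.RN

noncomputable section

theorem arc_rational {K : Type*} [Field K] [Fintype K] {k : ℕ} (hk : 3 ≤ k) {ℓ : ℕ} [CharP K ℓ]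
    (hkl : k ≤ ℓ) (h2k : 2 * k + 2 ≤ Fintype.card K) (A : Set (ℙ K (Fin k → K)))
    (hA : Pool.Agent.Helper98.NRC.IsArc A) (hAc : A.ncard = Fintype.card K) :
    ∃ C : Set (ℙ K (Fin k → K)), Pool.Agent.Helper98.NRC.IsNRC C ∧ A ⊆ C := by
  have hpos : 0 < Fintype.card K := Fintype.card_pos
  have hfin : A.Finite := Set.finite_of_ncard_ne_zero (by rw [hAc]; exact hpos.ne')
  haveI : Finite A := hfin
  have hcard : Nat.card A = Fintype.card K := by rw [Nat.card_coe_set_eq, hAc]
  let e : A ≃ Fin (Fintype.card K) := Finite.equivFinOfCardEq hcard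
  have hNZ : NZ K k := by
    intro n h1 h2 h3
    have h4 := (CharP.cast_eq_zero_iff K ℓ n).1 h3
    have := Nat.le_of_dvd h1 h4
    omega
  have hp : ∀ f : Fin k → Fin (Fintype.card K), Function.Injective f →
      LinearIndependent K (fun i => ((e.symm (f i) : A) : ℙ K (Fin k → K)).rep) := by
    intro f hf
    have h1 := hA (fun i => ((e.symm (f i) : A) : ℙ K (Fin k → K)))
      (fun i j hij => hf (e.symm.injective (Subtype.ext hij))) (fun i => (e.symm (f i)).2)
    exact Projectivization.independent_iff.1 h1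
  obtain ⟨D, H, h0⟩ := det_arc hk hNZ rfl h2k
    (fun j => ((e.symm j : A) : ℙ K (Fin k → K)).rep) hp
  obtain ⟨C, hC, hmem⟩ := curve_of_det hk (by omega) H h0
    (fun j => Projectivization.rep_nonzero _)
  refine ⟨C, hC, fun P hP => ?_⟩
  have h1 := hmem (e ⟨P, hP⟩)
  have h2 : ((e.symm (e ⟨P, hP⟩) : A) : ℙ K (Fin k → K)) = P := by rw [Equiv.symm_apply_apply]
  rw [Projectivization.mk_rep, h2] at h1
  exact h1

end

end Pool.Agent.Helper31.RN
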