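import Pool.Agent.Helper31.RN.Deg

/-!
# RN-2B: (B1)

`G = A ∪ (insert x U)`; `∑_U c_e e = 0`, `c_e ≠ 0`, `∑_U m_e e + x = 0`. The expression `E(m)` of the theorem does not change
under `m ↦ m + l c`: the first sum changes by `2 l h_{A+x}(∑_U m_e e) + l² h_{A+x}(∑_U c_e e) = 2 l h_{A+x}(-x) + 0 = 0`, the second
by `l ∑_U h_{A+e}(x) = - l h_{A+x}(x) = 0` (`seg` for `A`, `G \ A = insert x U`). As `K` is infinite we may assume `m_e ≠ 0` on `U`.
Let `L = K`, `t e = c e / m e` on `U`, `t = 0` on `insert x A`. `fT_sum` with `J = U`, `σ e = m e ^ 2 / c e`, `u = t`, `v = p`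
(`bc K v = v`): the left side is zero (`fT_self`); `∑ σ t e = ∑ m_e e = - x`, `∑ σ t² e = ∑ c_e e = 0`. So
`coeff 0 (fT (∑ (m_e²/c_e) e)) - coeff 1 (fT x) = 0`. Here `coeff 0 (fT v) = ∑_B h_B(v) ∏_{G \ B} t`, only `B ⊇ insert x A` counts, so
it is `h_{A+x}(v) ∏_{e ∈ U} t_e`. And by `fT_eq` (`t x = 0`) `fT x = - X * eT x`, so `coeff 1 (fT x) = - coeff 0 (eT x)`,
`coeff 0 (eT x) = ∑_{B ∌ x} h_B(x) ∏_{(G.erase x) \ B} t`, only `B = insert e A`, `e ∈ U`:
`∑_{e ∈ U} h_{A+e}(x) ∏_{e' ∈ U.erase e} t_{e'}`. Divide by `∏_U t`.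
-/

open Polynomial

namespace Pool.Agent.Helper31.RN

noncomputable section

variable {K : Type*} [Field K] {ι : Type*} [DecidableEq ι] {k : ℕ}

private theorem fT_coeff_zero_h12 (G : Finset ι) (h : Finset ι → K[X]) (t : ι → K)
    (v : Fin k → K) :
    (fT k G h t v).coeff 0 = ∑ B ∈ G.powersetCard (k - 1), ev v (h B) * ∏ x ∈ G \ B, t x := by
  rw [coeff_zero_eq_eval_zero, fT, eval_finsetSum]
  refine Finset.sum_congr rfl fun B _ => ?_
  rw [eval_mul, eval_C, eval_prod]
  simp

private theorem eT_coeff_zero_h12 (G : Finset ι) (h : Finset ι → K[X]) (t : ι → K) (y : ι)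
    (v : Fin k → K) :
    (eT k G h t y v).coeff 0 =
      ∑ B ∈ (G.erase y).powersetCard (k - 1), ev v (h B) * ∏ x ∈ (G.erase y) \ B, t x := by
  rw [coeff_zero_eq_eval_zero, eT, eval_finsetSum]
  refine Finset.sum_congr rfl fun B _ => ?_
  rw [eval_mul, eval_C, eval_prod]
  simp

private theorem fT_c0_h12 (hk : 2 ≤ k) {A U : Finset ι} {x : ι} (h : Finset ι → K[X])
    {t : ι → K} (hAU : Disjoint A U) (hxA : x ∉ A) (hxU : x ∉ U) (hA : A.card = k - 2)
    (ht : ∀ e, e ∉ U → t e = 0) (v : Fin k → K) :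
    (fT k (A ∪ insert x U) h t v).coeff 0 = ev v (h (insert x A)) * ∏ e ∈ U, t e := by
  have hcard : (insert x A).card = k - 1 := by
    rw [Finset.card_insert_of_notMem hxA, hA]; omega
  have hsub : insert x A ⊆ A ∪ insert x U := by
    intro y hy
    rw [Finset.mem_insert] at hy
    rw [Finset.mem_union, Finset.mem_insert]
    tauto
  rw [fT_coeff_zero_h12, Finset.sum_eq_single (insert x A)]
  · have h1 : (A ∪ insert x U) \ insert x A = U := by
      ext y
      simp only [Finset.mem_sdiff, Finset.mem_union, Finset.mem_insert]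
      constructor
      · rintro ⟨h1 | h1 | h1, h2⟩
        · exact absurd (Or.inr h1) h2
        · exact absurd (Or.inl h1) h2
        · exact h1
      · intro hy
        refine ⟨Or.inr (Or.inr hy), ?_⟩
        rintro (rfl | h2)
        · exact hxU hy
        · exact Finset.disjoint_left.mp hAU h2 hy
    rw [h1]
  · intro B hB hne
    rw [Finset.mem_powersetCard] at hB
    have h1 : ¬ insert x A ⊆ B := fun hs =>
      hne (Finset.eq_of_subset_of_card_le hs (by rw [hB.2, hcard])).symm
    obtain ⟨y, hy, hyB⟩ := Finset.not_subset.mp h1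
    have hyU : y ∉ U := by
      intro hyU
      rw [Finset.mem_insert] at hy
      rcases hy with rfl | hy
      · exact hxU hyU
      · exact Finset.disjoint_left.mp hAU hy hyU
    rw [Finset.prod_eq_zero (i := y) (Finset.mem_sdiff.mpr ⟨hsub hy, hyB⟩) (ht y hyU), mul_zero]
  · intro hn
    exact absurd (Finset.mem_powersetCard.mpr ⟨hsub, hcard⟩) hn

private theorem eT_c0_h12 (hk : 2 ≤ k) {A U : Finset ι} {x : ι} (h : Finset ι → K[X])
    {t : ι → K} (hAU : Disjoint A U) (hxA : x ∉ A) (hxU : x ∉ U) (hA : A.card = k - 2)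
    (ht : ∀ e, e ∉ U → t e = 0) (v : Fin k → K) :
    (eT k (A ∪ insert x U) h t x v).coeff 0 =
      ∑ e ∈ U, ev v (h (insert e A)) * ∏ y ∈ U.erase e, t y := by
  have hGx : (A ∪ insert x U).erase x = A ∪ U := by
    ext y
    simp only [Finset.mem_erase, Finset.mem_union, Finset.mem_insert]
    constructor
    · rintro ⟨h1, h2 | h2 | h2⟩
      · exact Or.inl h2
      · exact absurd h2 h1
      · exact Or.inr h2
    · rintro (h2 | h2)
      · exact ⟨fun h3 => hxA (h3 ▸ h2), Or.inl h2⟩
      · exact ⟨fun h3 => hxU (h3 ▸ h2), Or.inr (Or.inr h2)⟩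
  have hnA : ∀ e ∈ U, e ∉ A := fun e he hA' => Finset.disjoint_left.mp hAU hA' he
  rw [eT_coeff_zero_h12, hGx]
  symm
  calc ∑ e ∈ U, ev v (h (insert e A)) * ∏ y ∈ U.erase e, t y
      = ∑ e ∈ U, (fun B => ev v (h B) * ∏ y ∈ (A ∪ U) \ B, t y) (insert e A) := by
        refine Finset.sum_congr rfl fun e he => ?_
        have h1 : (A ∪ U) \ insert e A = U.erase e := by
          ext y
          simp only [Finset.mem_sdiff, Finset.mem_union, Finset.mem_insert, Finset.mem_erase]
          constructor
          · rintro ⟨h2 | h2, h3⟩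
            · exact absurd (Or.inr h2) h3
            · exact ⟨fun h4 => h3 (Or.inl h4), h2⟩
          · rintro ⟨h2, h3⟩
            refine ⟨Or.inr h3, ?_⟩
            rintro (h4 | h4)
            · exact h2 h4
            · exact hnA y h3 h4
        simp only [h1]
    _ = ∑ B ∈ U.image (fun e => insert e A), ev v (h B) * ∏ y ∈ (A ∪ U) \ B, t y := by
        rw [Finset.sum_image]
        intro e he e' he' heq
        have h1 : e ∈ insert e' A := by
          rw [← (show insert e A = insert e' A from heq)]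
          exact Finset.mem_insert_self e A
        rw [Finset.mem_insert] at h1
        rcases h1 with h1 | h1
        · exact h1
        · exact absurd h1 (hnA e he)
    _ = _ := by
        refine Finset.sum_subset ?_ ?_
        · intro B hB
          rw [Finset.mem_image] at hB
          obtain ⟨e, he, rfl⟩ := hB
          rw [Finset.mem_powersetCard]
          refine ⟨?_, ?_⟩
          · intro y hy
            rw [Finset.mem_insert] at hy
            rw [Finset.mem_union]
            rcases hy with rfl | hy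
            · exact Or.inr he
            · exact Or.inl hy
          · rw [Finset.card_insert_of_notMem (hnA e he), hA]; omega
        · intro B hB hne
          rw [Finset.mem_powersetCard] at hB
          have h1 : ¬ A ⊆ B := by
            intro hs
            have h2 : (B \ A).card = 1 := by
              rw [Finset.card_sdiff_of_subset hs, hB.2, hA]; omega
            obtain ⟨e, he⟩ := Finset.card_eq_one.mp h2
            have heB : e ∈ B \ A := by rw [he]; exact Finset.mem_singleton_self e
            rw [Finset.mem_sdiff] at heB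
            apply hne
            rw [Finset.mem_image]
            refine ⟨e, ?_, ?_⟩
            · have h3 := hB.1 heB.1
              rw [Finset.mem_union] at h3
              exact h3.resolve_left heB.2
            · have h3 : insert e A = (B \ A) ∪ A := by rw [he]; rfl
              rw [h3, Finset.sdiff_union_of_subset hs]
          obtain ⟨y, hy, hyB⟩ := Finset.not_subset.mp h1
          have hyU : y ∉ U := fun hyU => Finset.disjoint_left.mp hAU hy hyU
          rw [Finset.prod_eq_zero (i := y)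
            (Finset.mem_sdiff.mpr ⟨Finset.mem_union_left _ hy, hyB⟩) (ht y hyU), mul_zero]

private theorem bc_self_h12 (v : Fin k → K) : bc K v = v := by
  ext i; simp [bc]

/-- the case where no `m_e` is zero -/
private theorem b1_aux_h12 (hk : 2 ≤ k) (hNZ : NZ K k) {A U : Finset ι} {x : ι}
    {p : ι → Fin k → K} {h : Finset ι → K[X]} (hAU : Disjoint A U) (hxA : x ∉ A) (hxU : x ∉ U)
    (hA : A.card = k - 2) (H : L1 k (A ∪ insert x U) p h) {c m : ι → K}
    (hc : ∀ e ∈ U, c e ≠ 0) (hc0 : ∑ e ∈ U, c e • p e = 0)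
    (hm : ∑ e ∈ U, m e • p e + p x = 0) (hm0 : ∀ e ∈ U, m e ≠ 0) :
    ∑ e ∈ U, (m e ^ 2 / c e) * ev (p e) (h (insert x A)) +
      ∑ e ∈ U, (m e / c e) * ev (p x) (h (insert e A)) = 0 := by
  classical
  set t : ι → K := fun e => if e ∈ U then c e / m e else 0 with ht
  have htU : ∀ e ∈ U, t e = c e / m e := fun e he => by simp [ht, he]
  have ht0 : ∀ e, e ∉ U → t e = 0 := fun e he => by simp [ht, he]
  have hx : x ∈ A ∪ insert x U := Finset.mem_union_right _ (Finset.mem_insert_self x U)
  have hUG : U ⊆ A ∪ insert x U := fun e he =>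
    Finset.mem_union_right _ (Finset.mem_insert_of_mem he)
  have hsum := fT_sum hk hNZ H t U (fun e => m e ^ 2 / c e) t p
  have hL : ∑ i ∈ U, (fun e => m e ^ 2 / c e) i *
      (fT k (A ∪ insert x U) h t (p i)).eval (t i) = 0 := by
    refine Finset.sum_eq_zero fun e he => ?_
    have h1 := fT_self (L := K) H t (hUG he)
    rw [bc_self_h12] at h1
    rw [h1, mul_zero]
  rw [hL] at hsum
  have h0 : (∑ i ∈ U, ((fun e => m e ^ 2 / c e) i * t i ^ 0) • p i) =
      ∑ e ∈ U, (m e ^ 2 / c e) • p e := by
    refine Finset.sum_congr rfl fun e _ => ?_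
    simp only [pow_zero, mul_one]
  have h1 : (∑ i ∈ U, ((fun e => m e ^ 2 / c e) i * t i ^ 1) • p i) = - p x := by
    rw [← eq_neg_of_add_eq_zero_left hm]
    refine Finset.sum_congr rfl fun e he => ?_
    have h2 : m e ^ 2 / c e * t e ^ 1 = m e := by
      rw [htU e he]
      have := hc e he
      have := hm0 e he
      field_simp
    simp only [h2]
  have h2 : (∑ i ∈ U, ((fun e => m e ^ 2 / c e) i * t i ^ 2) • p i) = 0 := by
    rw [← hc0]
    refine Finset.sum_congr rfl fun e he => ?_
    have h2 : m e ^ 2 / c e * t e ^ 2 = c e := by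
      rw [htU e he]
      have := hc e he
      have := hm0 e he
      field_simp
    simp only [h2]
  rw [Finset.sum_range_succ, Finset.sum_range_succ, Finset.sum_range_one, h0, h1, h2, fT_zero,
    coeff_zero, add_zero, fT_c0_h12 hk h hAU hxA hxU hA ht0] at hsum
  have h3 : fT k (A ∪ insert x U) h t (- p x) = X * eT k (A ∪ insert x U) h t x (p x) := by
    have h4 := fT_eq (L := K) H t hx
    rw [bc_self_h12, ht0 x hxU, C_0, zero_sub] at h4
    have h5 : fT k (A ∪ insert x U) h t (- p x) = - fT k (A ∪ insert x U) h t (p x) := by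
      rw [fT, fT, ← Finset.sum_neg_distrib]
      refine Finset.sum_congr rfl fun B _ => ?_
      rw [ev_neg_vec, C_neg, neg_mul]
    rw [h5, h4, neg_mul, neg_neg]
  rw [h3, coeff_X_mul, eT_c0_h12 hk h hAU hxA hxU hA ht0] at hsum
  have hP : ∏ e ∈ U, t e ≠ 0 := Finset.prod_ne_zero_iff.mpr fun e he => by
    rw [htU e he]; exact div_ne_zero (hc e he) (hm0 e he)
  have h6 : ∑ e ∈ U, ev (p x) (h (insert e A)) * ∏ y ∈ U.erase e, t y =
      (∑ e ∈ U, (m e / c e) * ev (p x) (h (insert e A))) * ∏ e ∈ U, t e := by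
    rw [Finset.sum_mul]
    refine Finset.sum_congr rfl fun e he => ?_
    rw [← Finset.mul_prod_erase U t he, htU e he]
    have := hc e he
    have := hm0 e he
    field_simp
  rw [h6, ← add_mul] at hsum
  have h7 := (mul_eq_zero.mp hsum.symm).resolve_right hP
  rw [ev_sum_vec] at h7
  have h8 : ∑ e ∈ U, ev ((m e ^ 2 / c e) • p e) (h (insert x A)) =
      ∑ e ∈ U, (m e ^ 2 / c e) * ev (p e) (h (insert x A)) :=
    Finset.sum_congr rfl fun e _ => ev_smul_vec _ _ _
  rw [h8] at h7
  exact h7

theorem b1 [Infinite K] (hk : 2 ≤ k) (hNZ : NZ K k) {A U : Finset ι} {x : ι}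
    {p : ι → Fin k → K} {h : Finset ι → K[X]} (hAU : Disjoint A U) (hxA : x ∉ A) (hxU : x ∉ U)
    (hA : A.card = k - 2) (hU : U.card = k + 1) (H : L1 k (A ∪ insert x U) p h) {c m : ι → K}
    (hc : ∀ e ∈ U, c e ≠ 0) (hc0 : ∑ e ∈ U, c e • p e = 0)
    (hm : ∑ e ∈ U, m e • p e + p x = 0) :
    ∑ e ∈ U, (m e ^ 2 / c e) * ev (p e) (h (insert x A)) +
      ∑ e ∈ U, (m e / c e) * ev (p x) (h (insert e A)) = 0 := by
  classical
  obtain ⟨l, hl⟩ := Infinite.exists_notMem_finset (U.image fun e => - (m e / c e))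
  have hl' : ∀ e ∈ U, m e + l * c e ≠ 0 := by
    intro e he h0
    apply hl
    rw [Finset.mem_image]
    refine ⟨e, he, ?_⟩
    have h1 := hc e he
    field_simp
    linear_combination -h0
  have hx : x ∈ A ∪ insert x U := Finset.mem_union_right _ (Finset.mem_insert_self x U)
  have hsubA : A ⊆ A ∪ insert x U := Finset.subset_union_left
  have hsubxA : insert x A ⊆ A ∪ insert x U := by
    intro y hy
    rw [Finset.mem_insert] at hy
    rw [Finset.mem_union, Finset.mem_insert]
    tauto
  have hcard : (insert x A).card = k - 1 := by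
    rw [Finset.card_insert_of_notMem hxA, hA]; omega
  have hxx : ev (p x) (h (insert x A)) = 0 :=
    H.zero _ hsubxA hcard x (Finset.mem_insert_self x A)
  have hm' : ∑ e ∈ U, (m e + l * c e) • p e + p x = 0 := by
    have h1 : ∑ e ∈ U, (m e + l * c e) • p e = ∑ e ∈ U, m e • p e + l • ∑ e ∈ U, c e • p e := by
      rw [Finset.smul_sum, ← Finset.sum_add_distrib]
      refine Finset.sum_congr rfl fun e _ => ?_
      rw [add_smul, mul_smul]
    rw [h1, hc0, smul_zero, add_zero, hm]
  have key := b1_aux_h12 hk hNZ hAU hxA hxU hA H hc hc0 hm' hl'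
  have hseg : ∑ e ∈ U, ev (p x) (h (insert e A)) = 0 := by
    have h1 := H.seg A hsubA hA
    have h2 : (A ∪ insert x U) \ A = insert x U := by
      ext y
      simp only [Finset.mem_sdiff, Finset.mem_union, Finset.mem_insert]
      constructor
      · rintro ⟨h3 | h3, h4⟩
        · exact absurd h3 h4
        · exact h3
      · intro h3
        refine ⟨Or.inr h3, ?_⟩
        intro h4
        rcases h3 with rfl | h3
        · exact hxA h4
        · exact Finset.disjoint_left.mp hAU h4 h3
    rw [h2, Finset.sum_insert hxU] at h1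
    have h3 := congrArg (ev (p x)) h1
    rw [ev_add, ev_sum, ev_zero, hxx, zero_add] at h3
    exact h3
  have hA1 : ∑ e ∈ U, m e * ev (p e) (h (insert x A)) = 0 := by
    have h1 := congrArg (fun v => ev v (h (insert x A))) hm
    simp only [ev_add_vec, ev_sum_vec, ev_zero_vec, hxx, add_zero] at h1
    rw [← h1]
    exact Finset.sum_congr rfl fun e _ => (ev_smul_vec _ _ _).symm
  have hA2 : ∑ e ∈ U, c e * ev (p e) (h (insert x A)) = 0 := by
    have h1 := congrArg (fun v => ev v (h (insert x A))) hc0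
    simp only [ev_sum_vec, ev_zero_vec] at h1
    rw [← h1]
    exact Finset.sum_congr rfl fun e _ => (ev_smul_vec _ _ _).symm
  have e1 : ∑ e ∈ U, ((m e + l * c e) ^ 2 / c e) * ev (p e) (h (insert x A)) =
      ∑ e ∈ U, (m e ^ 2 / c e) * ev (p e) (h (insert x A)) +
        (2 * l * ∑ e ∈ U, m e * ev (p e) (h (insert x A)) +
          l ^ 2 * ∑ e ∈ U, c e * ev (p e) (h (insert x A))) := by
    rw [Finset.mul_sum, Finset.mul_sum, ← Finset.sum_add_distrib, ← Finset.sum_add_distrib]
    refine Finset.sum_congr rfl fun e he => ?_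
    have := hc e he
    field_simp
    ring
  have e2 : ∑ e ∈ U, ((m e + l * c e) / c e) * ev (p x) (h (insert e A)) =
      ∑ e ∈ U, (m e / c e) * ev (p x) (h (insert e A)) +
        l * ∑ e ∈ U, ev (p x) (h (insert e A)) := by
    rw [Finset.mul_sum, ← Finset.sum_add_distrib]
    refine Finset.sum_congr rfl fun e he => ?_
    have := hc e he
    field_simp
  rw [e1, e2, hA1, hA2, hseg, mul_zero, mul_zero, mul_zero, add_zero, add_zero, add_zero] at key
  exact key

end

end Pool.Agent.Helper31.RN
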