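import Pool.Agent.Helper31.RN.Lin

/-!
# RN-7A: gluing two pencils of relations

`X = insert x U`, `X' = insert y U`. `r` has no zero on `X`: if `r e = 0`, let `e' ∈ X`, `e' ≠ e`; the relation `r (z - z e')` vanishes at `e`, `e'`, so it is zero on `X`
(`rel_zero`, `k` remaining elements), so `r = 0` outside of `e'`, so `r e' • p e' = 0`, and `r e' = 0` (`rel_zero` again): contradiction. The same for `r'`.
`c₁ = r (z - z x)` is a relation on `U` (its value at `x` is zero), `c₂ = r' (z - z y)` also; no zeros on `U`; `k+1` points, so `c₂ = τ c₁`, `τ ≠ 0` (`rel_zero` for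
`c₂(e₀) c₁ - c₁(e₀) c₂`). `ρ = (r̃ - τ⁻¹ r̃')/(z x - z y)`, `r̃ = r` on `X` and `0` at `y`, `r̃' = r'` on `X'` and `0` at `x`. On `U`: `ρ = c₁/((z - z x)(z - z y))`.
`z ρ = (z x r̃ - z y τ⁻¹ r̃')/(z x - z y)`, `z² ρ = c₁ + (z x + z y) z ρ - z x z y ρ` on `insert x (insert y U)` (`c₁` extended by zero).
-/

open Polynomial

namespace Pool.Agent.Helper31.RN

noncomputable section

variable {K : Type*} [Field K] {ι : Type*} [DecidableEq ι] {k : ℕ}

private theorem no_zero99 (hk : 1 ≤ k) {S : Finset ι} {p : ι → Fin k → K} {D : Finset ι → K[X]}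
    (H : GP k S p D) (hS : k ≤ S.card) {T : Finset ι} (hT : T ⊆ S) (hTc : T.card = k + 2) {z r : ι → K}
    (hz : Set.InjOn z T) (hr : ∃ e ∈ T, r e ≠ 0) (h0 : ∑ e ∈ T, r e • p e = 0)
    (h1 : ∑ e ∈ T, (r e * z e) • p e = 0) : ∀ e ∈ T, r e ≠ 0 := by
  intro e he hre
  obtain ⟨e', he', hne⟩ : ∃ e' ∈ T, e' ≠ e := by
    obtain ⟨e', he', hne⟩ := Finset.exists_mem_ne (s := T) (by omega) e
    exact ⟨e', he', hne⟩
  have h2 : ∑ b ∈ T, (r b * (z b - z e')) • p b = 0 := by
    have h3 : ∑ b ∈ T, (r b * (z b - z e')) • p b =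
        ∑ b ∈ T, (r b * z b) • p b - z e' • ∑ b ∈ T, r b • p b := by
      rw [Finset.smul_sum, ← Finset.sum_sub_distrib]
      refine Finset.sum_congr rfl fun b _ => ?_
      rw [smul_smul, ← sub_smul]
      congr 1
      ring
    rw [h3, h0, h1, smul_zero, sub_zero]
  have hRc : ((T.erase e).erase e').card ≤ k := by
    rw [Finset.card_erase_of_mem (Finset.mem_erase.2 ⟨hne, he'⟩), Finset.card_erase_of_mem he]
    omega
  have h4 := H.rel_zero hT hS ((Finset.erase_subset _ _).trans (Finset.erase_subset _ _)) hRc h2 (by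
    intro b hb hb'
    by_cases hbe : b = e
    · rw [hbe, hre, zero_mul]
    · by_cases hbe' : b = e'
      · rw [hbe', sub_self, mul_zero]
      · exact absurd (Finset.mem_erase.2 ⟨hbe', Finset.mem_erase.2 ⟨hbe, hb⟩⟩) hb')
  have h5 : ∀ b ∈ T, b ≠ e' → r b = 0 := by
    intro b hb hbe
    refine (mul_eq_zero.1 (h4 b hb)).resolve_right ?_
    intro h6
    exact hbe (hz hb he' (sub_eq_zero.1 h6))
  have h7 := H.rel_zero hT hS (R := {e'}) (Finset.singleton_subset_iff.2 he')
    (by rw [Finset.card_singleton]; exact hk) h0 (by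
      intro b hb hb'
      exact h5 b hb fun h => hb' (by rw [h]; exact Finset.mem_singleton_self _))
  obtain ⟨b, hb, hrb⟩ := hr
  exact hrb (h7 b hb)

theorem glue (hk : 1 ≤ k) {S : Finset ι} {p : ι → Fin k → K} {D : Finset ι → K[X]}
    (H : GP k S p D) {U : Finset ι} {x y : ι} (hU : U ⊆ S) (hx : x ∈ S) (hy : y ∈ S) (hxU : x ∉ U)
    (hyU : y ∉ U) (hxy : x ≠ y) (hUc : U.card = k + 1) {z : ι → K}
    (hz : Set.InjOn z (insert x (insert y U) : Finset ι)) {r r' : ι → K}
    (hr : ∃ e ∈ insert x U, r e ≠ 0) (hr0 : ∑ e ∈ insert x U, r e • p e = 0)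
    (hr1 : ∑ e ∈ insert x U, (r e * z e) • p e = 0) (hr' : ∃ e ∈ insert y U, r' e ≠ 0)
    (hr'0 : ∑ e ∈ insert y U, r' e • p e = 0) (hr'1 : ∑ e ∈ insert y U, (r' e * z e) • p e = 0) :
    ∃ ρ : ι → K, (∀ e ∈ insert x (insert y U), ρ e ≠ 0) ∧
      ∀ i < 3, ∑ e ∈ insert x (insert y U), (ρ e * z e ^ i) • p e = 0 := by
  have hxyU : x ∉ insert y U := fun h => (Finset.mem_insert.1 h).elim hxy hxU
  have hxV : x ∈ insert x (insert y U) := Finset.mem_insert_self _ _
  have hyV : y ∈ insert x (insert y U) := Finset.mem_insert_of_mem (Finset.mem_insert_self _ _)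
  have hUV : ∀ e ∈ U, e ∈ insert x (insert y U) := fun e he =>
    Finset.mem_insert_of_mem (Finset.mem_insert_of_mem he)
  have hS : k ≤ S.card := by
    have := Finset.card_le_card hU
    omega
  have hzxy : z x - z y ≠ 0 := fun h => hxy (hz hxV hyV (sub_eq_zero.1 h))
  have hzx : ∀ e ∈ U, z e - z x ≠ 0 := fun e he h =>
    hxU (by rw [← hz (hUV e he) hxV (sub_eq_zero.1 h)]; exact he)
  have hzy : ∀ e ∈ U, z e - z y ≠ 0 := fun e he h =>
    hyU (by rw [← hz (hUV e he) hyV (sub_eq_zero.1 h)]; exact he)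
  have nr : ∀ e ∈ insert x U, r e ≠ 0 := no_zero99 hk H hS (Finset.insert_subset hx hU)
    (by rw [Finset.card_insert_of_notMem hxU, hUc]) (hz.mono (by
      intro e he
      rcases Finset.mem_insert.1 (Finset.mem_coe.1 he) with h | h
      · rw [h]
        exact hxV
      · exact hUV e h)) hr hr0 hr1
  have nr' : ∀ e ∈ insert y U, r' e ≠ 0 := no_zero99 hk H hS (Finset.insert_subset hy hU)
    (by rw [Finset.card_insert_of_notMem hyU, hUc]) (hz.mono (by
      intro e he
      rcases Finset.mem_insert.1 (Finset.mem_coe.1 he) with h | h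
      · rw [h]
        exact hyV
      · exact hUV e h)) hr' hr'0 hr'1
  rw [Finset.sum_insert hxU] at hr0 hr1
  rw [Finset.sum_insert hyU] at hr'0 hr'1
  have a0 : ∑ e ∈ U, r e • p e = -(r x • p x) := by
    rw [add_comm] at hr0
    exact eq_neg_of_add_eq_zero_left hr0
  have a1 : ∑ e ∈ U, (r e * z e) • p e = -((r x * z x) • p x) := by
    rw [add_comm] at hr1
    exact eq_neg_of_add_eq_zero_left hr1
  have b0 : ∑ e ∈ U, r' e • p e = -(r' y • p y) := by
    rw [add_comm] at hr'0
    exact eq_neg_of_add_eq_zero_left hr'0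
  have b1 : ∑ e ∈ U, (r' e * z e) • p e = -((r' y * z y) • p y) := by
    rw [add_comm] at hr'1
    exact eq_neg_of_add_eq_zero_left hr'1
  obtain ⟨e0, he0⟩ : U.Nonempty := Finset.card_pos.1 (by omega)
  -- the two relations on `U`
  have c1 : ∑ e ∈ U, (r e * (z e - z x)) • p e = 0 := by
    have h3 : ∑ e ∈ U, (r e * (z e - z x)) • p e = ∑ e ∈ U, (r e * z e) • p e - z x • ∑ e ∈ U, r e • p e := by
      rw [Finset.smul_sum, ← Finset.sum_sub_distrib]
      refine Finset.sum_congr rfl fun b _ => ?_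
      rw [smul_smul, ← sub_smul]
      congr 1
      ring
    rw [h3, a0, a1, smul_neg, smul_smul, mul_comm (z x), sub_self]
  have c2 : ∑ e ∈ U, (r' e * (z e - z y)) • p e = 0 := by
    have h3 : ∑ e ∈ U, (r' e * (z e - z y)) • p e = ∑ e ∈ U, (r' e * z e) • p e - z y • ∑ e ∈ U, r' e • p e := by
      rw [Finset.smul_sum, ← Finset.sum_sub_distrib]
      refine Finset.sum_congr rfl fun b _ => ?_
      rw [smul_smul, ← sub_smul]
      congr 1
      ring
    rw [h3, b0, b1, smul_neg, smul_smul, mul_comm (z y), sub_self]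
  have hc10 : r e0 * (z e0 - z x) ≠ 0 := mul_ne_zero (nr e0 (Finset.mem_insert_of_mem he0)) (hzx e0 he0)
  have hc20 : r' e0 * (z e0 - z y) ≠ 0 := mul_ne_zero (nr' e0 (Finset.mem_insert_of_mem he0)) (hzy e0 he0)
  have c3 : ∀ e ∈ U, (r' e0 * (z e0 - z y)) * (r e * (z e - z x)) -
      (r e0 * (z e0 - z x)) * (r' e * (z e - z y)) = 0 := by
    apply H.rel_zero hU hS (Finset.erase_subset e0 U)
      (by rw [Finset.card_erase_of_mem he0, hUc]; omega)
    · have h3 : ∑ e ∈ U, ((r' e0 * (z e0 - z y)) * (r e * (z e - z x)) -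
          (r e0 * (z e0 - z x)) * (r' e * (z e - z y))) • p e =
          (r' e0 * (z e0 - z y)) • ∑ e ∈ U, (r e * (z e - z x)) • p e -
          (r e0 * (z e0 - z x)) • ∑ e ∈ U, (r' e * (z e - z y)) • p e := by
        rw [Finset.smul_sum, Finset.smul_sum, ← Finset.sum_sub_distrib]
        refine Finset.sum_congr rfl fun b _ => ?_
        rw [smul_smul, smul_smul, ← sub_smul]
      rw [h3, c1, c2, smul_zero, smul_zero, sub_zero]
    · intro b hb hb'
      have hbe : b = e0 := by
        by_contra h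
        exact hb' (Finset.mem_erase.2 ⟨h, hb⟩)
      rw [hbe]
      ring
  obtain ⟨t, ht0, ht⟩ : ∃ t : K, t ≠ 0 ∧ ∀ e ∈ U, t * (r' e * (z e - z y)) = r e * (z e - z x) := by
    refine ⟨(r e0 * (z e0 - z x)) / (r' e0 * (z e0 - z y)), div_ne_zero hc10 hc20, fun e he => ?_⟩
    rw [div_mul_eq_mul_div, div_eq_iff hc20]
    linear_combination -(c3 e he)
  obtain ⟨ρ, hρ⟩ : ∃ ρ : ι → K, ρ = fun e => (z x - z y)⁻¹ *
      ((if e = y then 0 else r e) - (if e = x then 0 else t * r' e)) := ⟨_, rfl⟩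
  have hρx : ρ x = (z x - z y)⁻¹ * r x := by
    rw [hρ]
    simp only [if_neg hxy, if_true, sub_zero]
  have hρy : ρ y = (z x - z y)⁻¹ * (-(t * r' y)) := by
    rw [hρ]
    simp only [if_neg hxy.symm, if_true, zero_sub]
  have hρU : ∀ e ∈ U, ρ e = (z x - z y)⁻¹ * (r e - t * r' e) := by
    intro e he
    rw [hρ]
    have h1 : e ≠ x := fun h => hxU (h ▸ he)
    have h2 : e ≠ y := fun h => hyU (h ▸ he)
    simp only [if_neg h1, if_neg h2]
  have hsum : ∀ (f f' : ι → K) (v v' : Fin k → K), ∑ e ∈ U, f e • p e = v → ∑ e ∈ U, f' e • p e = v' →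
      ∑ e ∈ U, ((z x - z y)⁻¹ * (f e - f' e)) • p e = (z x - z y)⁻¹ • (v - v') := by
    intro f f' v v' hv hv'
    rw [← hv, ← hv', ← Finset.sum_sub_distrib, Finset.smul_sum]
    refine Finset.sum_congr rfl fun b _ => ?_
    rw [← sub_smul, smul_smul]
  have hmul : ∀ (f : ι → K) (v : Fin k → K) (a : K), ∑ e ∈ U, f e • p e = v → ∑ e ∈ U, (a * f e) • p e = a • v := by
    intro f v a hv
    rw [← hv, Finset.smul_sum]
    refine Finset.sum_congr rfl fun b _ => ?_
    rw [smul_smul]
  refine ⟨ρ, ?_, ?_⟩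
  · intro e he
    rcases Finset.mem_insert.1 he with rfl | he
    · rw [hρx]
      exact mul_ne_zero (inv_ne_zero hzxy) (nr _ (Finset.mem_insert_self _ _))
    · rcases Finset.mem_insert.1 he with rfl | he
      · rw [hρy]
        exact mul_ne_zero (inv_ne_zero hzxy) (neg_ne_zero.2 (mul_ne_zero ht0 (nr' _ (Finset.mem_insert_self _ _))))
      · rw [hρU e he]
        refine mul_ne_zero (inv_ne_zero hzxy) ?_
        intro h
        have h1 := ht e he
        have h2 : r e * (z x - z y) = 0 := by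
          linear_combination h1 + (z e - z y) * h
        exact (mul_ne_zero (nr e (Finset.mem_insert_of_mem he)) hzxy) h2
  · intro i hi
    rw [Finset.sum_insert hxyU, Finset.sum_insert hyU, hρx, hρy]
    interval_cases i
    · have h1 : ∑ e ∈ U, (ρ e * z e ^ 0) • p e = (z x - z y)⁻¹ • (-(r x • p x) - t • -(r' y • p y)) := by
        rw [← hsum r (fun e => t * r' e) _ _ a0 (hmul r' _ t b0)]
        refine Finset.sum_congr rfl fun e he => ?_
        rw [hρU e he, pow_zero, mul_one]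
      rw [h1]
      ext j
      simp only [Pi.add_apply, Pi.smul_apply, Pi.sub_apply, Pi.neg_apply, smul_eq_mul, Pi.zero_apply]
      ring
    · have h1 : ∑ e ∈ U, (ρ e * z e ^ 1) • p e =
          (z x - z y)⁻¹ • (-((r x * z x) • p x) - t • -((r' y * z y) • p y)) := by
        rw [← hsum (fun e => r e * z e) (fun e => t * (r' e * z e)) _ _ a1 (hmul _ _ t b1)]
        refine Finset.sum_congr rfl fun e he => ?_
        rw [hρU e he, pow_one]
        congr 1
        ring
      rw [h1]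
      ext j
      simp only [Pi.add_apply, Pi.smul_apply, Pi.sub_apply, Pi.neg_apply, smul_eq_mul, Pi.zero_apply]
      ring
    · have h1 : ∑ e ∈ U, (ρ e * z e ^ 2) • p e =
          (z x - z y)⁻¹ • (z x • -((r x * z x) • p x) - (t * z y) • -((r' y * z y) • p y)) := by
        rw [← hsum (fun e => z x * (r e * z e)) (fun e => (t * z y) * (r' e * z e)) _ _ (hmul _ _ (z x) a1)
          (hmul _ _ (t * z y) b1)]
        refine Finset.sum_congr rfl fun e he => ?_
        rw [hρU e he]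
        congr 1
        linear_combination (-(z x - z y)⁻¹ * z e) * ht e he
      rw [h1]
      ext j
      simp only [Pi.add_apply, Pi.smul_apply, Pi.sub_apply, Pi.neg_apply, smul_eq_mul, Pi.zero_apply]
      ring

end

end Pool.Agent.Helper31.RN
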