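import Pool.Agent.Helper31.RN.S1

/-!
# RN-5: Theorem A in standard coordinates

`p x = nu k (s x)` for `x ∈ insert f W`. `s1` with `F = {f}`, `ζ = s f` (a form that vanishes at `p f` has the root `s f`, `ev_nu`):
for every polynomial `q` of degree `< k-1`: if `ev (p g) ((X - C ζ) * q) = 0` then `ev (p g) q = 0`
(`((X - C ζ) * q) /ₘ (X - C ζ) = q`). So the functional `q ↦ ev (p g) q` on polynomials of degree `< k-1` is a multiple `φ` of
`q ↦ ev (p g) ((X - C ζ) * q)`. With `q = X^i`: `g_i = φ (g_{i+1} - ζ g_i)`, `i ≤ k-2`. If `φ = 0` then `p g = g_{k-1} • nuh k 1 0`, otherwise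
`g_{i+1} = a g_i` with `a = (1 + φ ζ)/φ`, `p g = g_0 • nuh k a 1`.
-/

open Polynomial

namespace Pool.Agent.Helper31.RN

noncomputable section

variable {K : Type*} [Field K] {ι : Type*} [DecidableEq ι] {k : ℕ}

theorem thmA_std [Infinite K] (hk : 3 ≤ k) (hNZ : NZ K k) {S : Finset ι} {p : ι → Fin k → K}
    {D : Finset ι → K[X]} {c : Finset ι → K} (H : Sys k S p D c) (hS : 2 * k + 2 ≤ S.card)
    {W : Finset ι} {f : ι} (hW : W ⊆ S) (hWc : W.card = k + 2) (hf : f ∈ S) (hfW : f ∉ W)
    {s : ι → K} (hs : Set.InjOn s (insert f W : Finset ι))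
    (hp : ∀ x ∈ insert f W, p x = nu k (s x)) {g : ι} (hg : g ∈ S) (hgf : g ≠ f) (hgW : g ∉ W) :
    ∃ c a b : K, p g = c • nuh k a b := by
  -- the key property of polynomials `q` of degree `< k-1`
  have key : ∀ q : K[X], q.degree < ((k - 1 : ℕ) : WithBot ℕ) → ev (p g) ((X - C (s f)) * q) = 0 →
      ev (p g) q = 0 := by
    intro q hq h0
    have hdeg : ((X - C (s f)) * q).degree < ((k : ℕ) : WithBot ℕ) := by
      rcases eq_or_ne q 0 with rfl | hq0
      · rw [mul_zero, degree_zero]
        exact WithBot.bot_lt_coe k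
      · rw [degree_mul, degree_X_sub_C, degree_eq_natDegree hq0]
        rw [degree_eq_natDegree hq0] at hq
        have h1 : q.natDegree < k - 1 := by exact_mod_cast hq
        have h2 : 1 + q.natDegree < k := by omega
        exact_mod_cast h2
    have hpf : p f = nu k (s f) := hp f (Finset.mem_insert_self f W)
    have h := s1 hk hNZ H hS (F := {f}) (W := W) (Finset.singleton_subset_iff.mpr hf) hW
      (Finset.disjoint_singleton_left.mpr hfW) hWc (by rw [Finset.card_singleton]; omega)
      (s := s) (hs.mono (by intro x hx; exact Finset.mem_coe.mpr (Finset.mem_insert_of_mem (Finset.mem_coe.mp hx))))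
      (fun x hx => hp x (Finset.mem_insert_of_mem hx)) (ζ := s f)
      (fun r hr hr0 => by
        have h3 := hr0 f (Finset.mem_singleton_self f)
        rwa [hpf, ev_nu _ _ hr] at h3)
      hg (by rw [Finset.mem_singleton]; exact hgf) hgW (f := (X - C (s f)) * q) hdeg
      (fun a ha => by
        rw [Finset.mem_singleton] at ha
        rw [ha, hpf, ev_nu _ _ hdeg]
        simp)
      h0
    rwa [mul_divByMonic_cancel_left _ (monic_X_sub_C _)] at h
  -- in coordinates
  have hev : ∀ i : Fin k, ev (p g) ((X : K[X]) ^ (i : ℕ)) = p g i := by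
    intro i
    rw [ev, Finset.sum_eq_single i]
    · simp
    · intro j _ hj
      rw [coeff_X_pow, if_neg (fun h => hj (Fin.ext h)), zero_smul]
    · intro h
      exact absurd (Finset.mem_univ i) h
  set G : ℕ → K := fun i => if h : i < k then p g ⟨i, h⟩ else 0 with hG
  have hevG : ∀ i : ℕ, i < k → ev (p g) ((X : K[X]) ^ i) = G i := by
    intro i hi
    rw [hG]
    simp only [dif_pos hi]
    exact hev ⟨i, hi⟩
  have hA : ∀ i : ℕ, i < k - 1 → ev (p g) ((X - C (s f)) * (X : K[X]) ^ i) = G (i + 1) - s f * G i := by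
    intro i hi
    rw [sub_mul, ← pow_succ', ev_sub, ev_C_mul, hevG (i + 1) (by omega), hevG i (by omega), smul_eq_mul]
  have hdegX : ∀ i : ℕ, i < k - 1 → ((X : K[X]) ^ i).degree < ((k - 1 : ℕ) : WithBot ℕ) := by
    intro i hi
    rw [degree_X_pow]
    exact_mod_cast hi
  have hmul : ∃ φ : K, ∀ i, i < k - 1 → G i = φ * (G (i + 1) - s f * G i) := by
    by_cases hB : ∀ i, i < k - 1 → G (i + 1) - s f * G i = 0
    · refine ⟨0, fun i hi => ?_⟩
      rw [zero_mul, ← hevG i (by omega)]
      exact key _ (hdegX i hi) (by rw [hA i hi, hB i hi])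
    · push Not at hB
      obtain ⟨j, hj, hj0⟩ := hB
      refine ⟨G j / (G (j + 1) - s f * G j), fun i hi => ?_⟩
      have h1 := key (X ^ i - C ((G (i + 1) - s f * G i) / (G (j + 1) - s f * G j)) * X ^ j)
        (by
          refine lt_of_le_of_lt (degree_sub_le _ _) (max_lt (hdegX i hi) ?_)
          exact degree_C_mul_lt _ (hdegX j hj))
        (by
          rw [mul_sub, mul_left_comm, ev_sub, ev_C_mul, hA i hi, hA j hj, smul_eq_mul, div_mul_cancel₀ _ hj0,
            sub_self])
      rw [ev_sub, ev_C_mul, hevG i (by omega), hevG j (by omega), smul_eq_mul, sub_eq_zero] at h1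
      exact h1.trans (by ring)
  obtain ⟨φ, hφ⟩ := hmul
  by_cases h0 : φ = 0
  · refine ⟨G (k - 1), 1, 0, ?_⟩
    funext i
    rw [Pi.smul_apply, smul_eq_mul, nuh, one_pow, one_mul]
    by_cases hi : (i : ℕ) = k - 1
    · rw [hi, Nat.sub_self, pow_zero, mul_one, ← hevG (k - 1) (by omega), ← hev i, hi]
    · have h1 : (i : ℕ) < k - 1 := by have := i.2; omega
      have h2 := hφ i h1
      rw [h0, zero_mul] at h2
      rw [zero_pow (by omega), mul_zero, ← hev i, hevG i i.2, h2]
  · refine ⟨G 0, (1 + φ * s f) / φ, 1, ?_⟩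
    have hrec : ∀ i, i < k → G i = G 0 * ((1 + φ * s f) / φ) ^ i := by
      intro i
      induction i with
      | zero => intro _; simp
      | succ i ih =>
        intro hi
        have h1 := ih (by omega)
        have h2 := hφ i (by omega)
        rw [pow_succ, ← mul_assoc, ← h1]
        field_simp
        linear_combination -h2
    funext i
    rw [Pi.smul_apply, smul_eq_mul, nuh, one_pow, mul_one, ← hrec i i.2, ← hevG i i.2, hev i]

end

end Pool.Agent.Helper31.RN
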