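import Pool.Agent.Helper31.RN.Good
import Pool.Agent.Helper31.RN.Glue
import Pool.Agent.Helper31.RN.ThmA

/-!
# RN-7B: one `λ ≠ 0` implies that `S` lies on a normal rational curve

Choose `y ∈ S`, `y ∉ A ∪ W ∪ {z}` (`|A ∪ W| = 2k`). `V = insert y W` (`k+3` points). For `e ∈ V` let
`w e = c (insert e A) * (∏_{g ∈ S \ (A ∪ V)} ev (p g) (D (insert e A))) * δ e ^ 2` and `[e,u] = ev (p e) ψ0 * ev (p u) ψ1 - ev (p e) ψ1 * ev (p u) ψ0`, so
`ev (p u) (D (insert e A)) = δ e * [e,u]`. For `x ∈ V` the `λ` of `V.erase x` is `∑_{e ∈ V.erase x} (w e * [e,x]) • p e = ∑_{e ∈ V} (w e * [e,x]) • p e`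
(`S \ (A ∪ V.erase x) = insert x (S \ (A ∪ V))`). If it were zero for all `x ∈ W` then `∑_V (w e * ev (p e) f) • p e = 0` for all `f ∈ Ψ_A` (for two different
`x` the forms `[·,x]` span `Ψ_A = <ψ0, ψ1>`), so also for `x = y`: but that is the given `λ` of `W = V.erase y`, not zero. So there is `x ∈ W` with `λ ≠ 0` for
`V.erase x = insert y U`, `U = W.erase x`, and `W = insert x U`. `good` for both (the same `z, ψ0, ψ1, δ`), `glue` with the function `ev (p e) ψ1 / ev (p e) ψ0` (injective on `V`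
since `[e,e'] ≠ 0`; `ev (p e) ψ0 ≠ 0` as `e ≠ z`), `std` with `T = V`, `j = 3`: `M, μ, s` with `M (p e) = μ e • nu k (s e)` on `V`. `Sys.transport`, `thmA_std` (`W`, `f = y`)
for the other points; for points of `V`: `nu k s = nuh k s 1`.
-/

open Polynomial

namespace Pool.Agent.Helper31.RN

noncomputable section

variable {K : Type*} [Field K] {ι : Type*} [DecidableEq ι] {k : ℕ}

theorem case1 [IsAlgClosed K] [Infinite K] (hk : 3 ≤ k) (hNZ : NZ K k) {S : Finset ι}
    {p : ι → Fin k → K} {D : Finset ι → K[X]} {c : Finset ι → K} (H : Sys k S p D c)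
    (hS : 2 * k + 2 ≤ S.card) {A W : Finset ι} (hA : A ⊆ S) (hW : W ⊆ S) (hAW : Disjoint A W)
    (hAc : A.card = k - 2) (hWc : W.card = k + 2) {z : ι} (hz : z ∈ S) (hzA : z ∉ A) (hzW : z ∉ W)
    {ψ0 ψ1 : K[X]} {δ : ι → K} (hP : Pen k S A p D z ψ0 ψ1 δ)
    (hlam : ∑ e ∈ W, (c (insert e A) * (∏ g ∈ S \ (A ∪ W), ev (p g) (D (insert e A))) * δ e) • p e
      ≠ 0) :
    ∃ M : (Fin k → K) ≃ₗ[K] (Fin k → K), ∀ g ∈ S, ∃ c a b : K, M (p g) = c • nuh k a b := by
  -- the point `y`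
  obtain ⟨y, hyS, hy⟩ : ∃ y ∈ S, y ∉ insert z (A ∪ W) := by
    by_contra hcon
    push Not at hcon
    have h1 := Finset.card_le_card (show S ⊆ insert z (A ∪ W) from hcon)
    have h2 : (insert z (A ∪ W)).card ≤ (A ∪ W).card + 1 := Finset.card_insert_le _ _
    have h3 : (A ∪ W).card ≤ A.card + W.card := Finset.card_union_le _ _
    omega
  rw [Finset.mem_insert, Finset.mem_union, not_or, not_or] at hy
  obtain ⟨hyz, hyA, hyW⟩ := hy
  obtain ⟨V, hVdef⟩ : ∃ V, V = insert y W := ⟨_, rfl⟩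
  have hVS : V ⊆ S := by rw [hVdef]; exact Finset.insert_subset hyS hW
  have hVc : V.card = k + 3 := by rw [hVdef, Finset.card_insert_of_notMem hyW, hWc]
  have hWV : W ⊆ V := by rw [hVdef]; exact Finset.subset_insert _ _
  have hyV : y ∈ V := by rw [hVdef]; exact Finset.mem_insert_self _ _
  have hAV : ∀ e ∈ V, e ∉ A := by
    intro e he heA
    rw [hVdef, Finset.mem_insert] at he
    rcases he with rfl | he
    · exact hyA heA
    · exact Finset.disjoint_left.1 hAW heA he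
  have hzV : z ∉ V := by
    rw [hVdef, Finset.mem_insert, not_or]
    exact ⟨fun h => hyz h.symm, hzW⟩
  have hVSA : ∀ e ∈ V, e ∈ S \ A := fun e he => Finset.mem_sdiff.2 ⟨hVS he, hAV e he⟩
  have hψ0 : ∀ e ∈ V, ev (p e) ψ0 ≠ 0 := fun e he =>
    hP.ne0 e (hVSA e he) (fun h => hzV (h ▸ he))
  -- the bracket
  obtain ⟨br, hbr⟩ : ∃ br : ι → ι → K,
      br = fun e u => ev (p e) ψ0 * ev (p u) ψ1 - ev (p e) ψ1 * ev (p u) ψ0 := ⟨_, rfl⟩
  have hev : ∀ e ∈ V, ∀ u, ev (p u) (D (insert e A)) = δ e * br e u := by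
    intro e he u
    rw [hP.form e (hVSA e he), ev_C_mul, ev_sub, ev_C_mul, ev_C_mul, hbr]
    simp only [smul_eq_mul]
  have hbrne : ∀ e ∈ V, ∀ u ∈ V, e ≠ u → br e u ≠ 0 := by
    intro e he u hu heu h0
    have hB : insert e A ⊆ S := Finset.insert_subset (hVS he) hA
    have hBc : (insert e A).card = k - 1 := by
      rw [Finset.card_insert_of_notMem (hAV e he), hAc]
      omega
    refine H.ne _ hB hBc u ?_ ?_
    · rw [Finset.mem_sdiff, Finset.mem_insert, not_or]
      exact ⟨hVS hu, fun h => heu h.symm, hAV u hu⟩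
    · rw [hev e he u, h0, mul_zero]
  obtain ⟨w, hw⟩ : ∃ w : ι → K, w = fun e => c (insert e A) *
      (∏ g ∈ S \ (A ∪ V), ev (p g) (D (insert e A))) * δ e ^ 2 := ⟨_, rfl⟩
  have hlamx : ∀ x ∈ V, ∑ e ∈ V.erase x, (c (insert e A) *
      (∏ g ∈ S \ (A ∪ V.erase x), ev (p g) (D (insert e A))) * δ e) • p e =
      ∑ e ∈ V, (w e * br e x) • p e := by
    intro x hx
    have h1 : S \ (A ∪ V.erase x) = insert x (S \ (A ∪ V)) := by
      ext u
      simp only [Finset.mem_sdiff, Finset.mem_union, Finset.mem_erase, Finset.mem_insert]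
      by_cases hux : u = x
      · subst hux
        simp [hVS hx, hAV u hx]
      · simp [hux]
    have h2 : x ∉ S \ (A ∪ V) := by
      simp [hx]
    rw [← Finset.add_sum_erase V _ hx]
    have h3 : br x x = 0 := by
      rw [hbr]
      simp only
      ring
    rw [h3, mul_zero, zero_smul, zero_add]
    refine Finset.sum_congr rfl fun e he => ?_
    rw [h1, Finset.prod_insert h2, hev e (Finset.mem_of_mem_erase he) x, hw]
    congr 1
    simp only
    ring
  have hVy : V.erase y = W := by rw [hVdef, Finset.erase_insert hyW]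
  have hlamy : ∑ e ∈ V, (w e * br e y) • p e ≠ 0 := by
    rw [← hlamx y hyV, hVy]
    exact hlam
  have hF : ∀ u, ∑ e ∈ V, (w e * br e u) • p e =
      ev (p u) ψ1 • ∑ e ∈ V, (w e * ev (p e) ψ0) • p e -
        ev (p u) ψ0 • ∑ e ∈ V, (w e * ev (p e) ψ1) • p e := by
    intro u
    rw [Finset.smul_sum, Finset.smul_sum, ← Finset.sum_sub_distrib]
    refine Finset.sum_congr rfl fun e _ => ?_
    rw [smul_smul, smul_smul, ← sub_smul, hbr]
    congr 1
    simp only
    ring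
  obtain ⟨x, hxW, hx⟩ : ∃ x ∈ W, ∑ e ∈ V, (w e * br e x) • p e ≠ 0 := by
    by_contra hcon
    push Not at hcon
    obtain ⟨x1, hx1⟩ : W.Nonempty := Finset.card_pos.1 (by omega)
    obtain ⟨x2, hx2, hx21⟩ : ∃ x2 ∈ W, x2 ≠ x1 := Finset.exists_mem_ne (by omega) x1
    have h1 := hcon x1 hx1
    have h2 := hcon x2 hx2
    rw [hF] at h1 h2
    have hb := hbrne x1 (hWV hx1) x2 (hWV hx2) hx21.symm
    rw [hbr] at hb
    simp only at hb
    have hd : ev (p x1) ψ0 * ev (p x2) ψ1 - ev (p x1) ψ1 * ev (p x2) ψ0 ≠ 0 := hb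
    generalize ∑ e ∈ V, (w e * ev (p e) ψ0) • p e = F0 at *
    generalize ∑ e ∈ V, (w e * ev (p e) ψ1) • p e = F1 at *
    generalize ev (p x1) ψ0 = a0 at *
    generalize ev (p x1) ψ1 = a1 at *
    generalize ev (p x2) ψ0 = b0 at *
    generalize ev (p x2) ψ1 = b1 at *
    have h3 : F0 = 0 := by
      have h4 : (a0 * b1 - a1 * b0) • F0 = a0 • (b1 • F0 - b0 • F1) - b0 • (a1 • F0 - a0 • F1) := by
        module
      rw [h1, h2, smul_zero, smul_zero, sub_zero] at h4
      exact (smul_eq_zero.1 h4).resolve_left hd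
    have h5 : F1 = 0 := by
      have h4 : (a0 * b1 - a1 * b0) • F1 = a1 • (b1 • F0 - b0 • F1) - b1 • (a1 • F0 - a0 • F1) := by
        module
      rw [h1, h2, smul_zero, smul_zero, sub_zero] at h4
      exact (smul_eq_zero.1 h4).resolve_left hd
    apply hlamy
    rw [hF, h3, h5, smul_zero, smul_zero, sub_zero]
  have hxV : x ∈ V := hWV hxW
  have hyx : y ≠ x := fun h => hyW (h ▸ hxW)
  obtain ⟨U, hU⟩ : ∃ U, U = W.erase x := ⟨_, rfl⟩
  have hxU : x ∉ U := by rw [hU]; exact Finset.notMem_erase _ _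
  have hyU : y ∉ U := by rw [hU]; exact fun h => hyW (Finset.mem_of_mem_erase h)
  have hWU : W = insert x U := by rw [hU, Finset.insert_erase hxW]
  have hVx : V.erase x = insert y U := by
    rw [hVdef, hU, Finset.erase_insert_of_ne hyx]
  have hVU : V = insert x (insert y U) := by
    rw [← hVx, Finset.insert_erase hxV]
  have hUS : U ⊆ S := by rw [hU]; exact (Finset.erase_subset _ _).trans hW
  have hUc : U.card = k + 1 := by rw [hU, Finset.card_erase_of_mem hxW, hWc]; omega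
  obtain ⟨r, hr, hr0, hr1⟩ := good hk hNZ H hS hA hW hAW hAc hWc hz hzA hzW hP hlam
  obtain ⟨r', hr', hr'0, hr'1⟩ := good hk hNZ H hS hA (W := V.erase x)
    ((Finset.erase_subset _ _).trans hVS)
    (Finset.disjoint_left.2 fun e he he' => hAV e (Finset.mem_of_mem_erase he') he) hAc
    (by rw [Finset.card_erase_of_mem hxV, hVc]; omega) hz hzA
    (fun h => hzV (Finset.mem_of_mem_erase h)) hP (by rw [hlamx x hxV]; exact hx)
  rw [hVx] at hr' hr'0 hr'1
  rw [hWU] at hr hr0 hr1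
  have hinj : Set.InjOn (fun e => ev (p e) ψ1 / ev (p e) ψ0) (V : Set ι) := by
    intro e he u hu heu
    by_contra hne
    simp only at heu
    rw [div_eq_div_iff (hψ0 e he) (hψ0 u hu)] at heu
    apply hbrne e he u hu hne
    rw [hbr]
    simp only
    linear_combination -heu
  obtain ⟨ρ, hρ, hrel⟩ := glue (by omega) H.toGP hUS (hW hxW) hyS hxU hyU hyx.symm hUc
    (z := fun e => ev (p e) ψ1 / ev (p e) ψ0) (by rw [← hVU]; exact hinj) hr hr0 hr1 hr' hr'0 hr'1
  rw [← hVU] at hρ hrel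
  obtain ⟨M, μ, hμ, hM⟩ := std (by omega) H.toGP hVS hVc hinj hρ hrel
  refine ⟨M, fun g hg => ?_⟩
  by_cases hgV : g ∈ V
  · refine ⟨μ g, ev (p g) ψ1 / ev (p g) ψ0, 1, ?_⟩
    rw [hM g hgV]
    congr 1
    funext i
    rw [nu, nuh, one_pow, mul_one]
  · have hgy : g ≠ y := fun h => hgV (h ▸ hyV)
    have hgW : g ∉ W := fun h => hgV (hWV h)
    obtain ⟨c', a, b, h⟩ := thmA_std hk hNZ (Sys.transport H M hμ) hS (W := W) (f := y) hW hWc hyS
      hyW (s := fun e => ev (p e) ψ1 / ev (p e) ψ0) (by rw [← hVdef]; exact hinj)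
      (fun e he => by
        rw [← hVdef] at he
        rw [hM e he, smul_smul, inv_mul_cancel₀ (hμ e), one_smul]) (g := g) hg hgy hgW
    refine ⟨μ g * c', a, b, ?_⟩
    rw [mul_smul, ← h]
    rw [smul_smul, mul_inv_cancel₀ (hμ g), one_smul]

end

end Pool.Agent.Helper31.RN
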