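import Pool.Agent.Helper31.RN.Conic

/-!
# RN-8C: the multiplicative case also gives a conic

Forms `X1, X2, X3` on `K³`: `X1(g) = 1, X2(g) = X3(g) = 0`; `X2(g') = 1, X1(g') = X3(g') = 0`, `X3(e) ≠ 0` for `e ∈ Z` (dual basis to `P g, P g', P e₀`).
`x_e = X1(e)/X3(e)`, `y_e = X2(e)/X3(e)`. Up to one common factor `d` (determinant of the base change) `det3 (P e) (P f) (P g) = d X3(e) X3(f) (y_e - y_f)` and
`det3 (P e) (P f) (P g') = - d X3(e) X3(f) (x_e - x_f)`. So `y_e - y_f = - C F_e F_f (x_e - x_f)`, `e ≠ f` in `Z`; `x_e ≠ x_f`. For three points the sum of the left sides is zero; divided by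
`F_e F_f F_h`: `(x_e - x_f)/F_h + (x_f - x_h)/F_e + (x_h - x_e)/F_f = 0`. So with two fixed points of `Z`: `1/F_e = α + β x_e` for all `e ∈ Z`. `β ≠ 0`: otherwise
`y_e - y_f = C' (x_e - x_f)` and three points of `Z` are collinear. Then `y_e + C''/(α + β x_e)` is constant on `Z`, `C'' = - C/β` (sign to be checked), `= γ`:
`(γ - y_e)(α + β x_e) = C''`. Conic `(γ X3 - X2)(α X3 + β X1) - C'' X3²`; zero at `g` and `g'`; value at `P g + P g'` is `- β ≠ 0`.
-/

open Polynomial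

namespace Pool.Agent.Helper31.RN

noncomputable section

variable {K : Type*} [Field K] {ι : Type*} [DecidableEq ι] {k : ℕ}

omit [DecidableEq ι] in
private theorem mult_aux {Z : Finset ι} (hZ : 3 ≤ Z.card) {x y F : ι → K} {C : K}
    (hF : ∀ e ∈ Z, F e ≠ 0) (hx : ∀ e ∈ Z, ∀ f ∈ Z, e ≠ f → x e ≠ x f)
    (hrel : ∀ e ∈ Z, ∀ f ∈ Z, e ≠ f → y e - y f = -C * F e * F f * (x e - x f))
    (hcol : ∀ a ∈ Z, ∀ b ∈ Z, ∀ c ∈ Z, a ≠ b → b ≠ c → a ≠ c →
      (x a - x c) * (y b - y c) - (x b - x c) * (y a - y c) ≠ 0) (hC : C ≠ 0) :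
    ∃ α β γ δ : K, β ≠ 0 ∧ ∀ e ∈ Z, (y e - γ) * (α + β * x e) = δ := by
  classical
  obtain ⟨a, b, c, ha, hb, hc, hab, hac, hbc⟩ := Finset.two_lt_card_iff.1 (show 2 < Z.card by omega)
  have hxab : x a - x b ≠ 0 := sub_ne_zero.2 (hx a ha b hb hab)
  have hFa := hF a ha
  have hFb := hF b hb
  obtain ⟨β, hβ⟩ : ∃ β, β = ((F a)⁻¹ - (F b)⁻¹) / (x a - x b) := ⟨_, rfl⟩
  obtain ⟨α, hα⟩ : ∃ α, α = (x a / F b - x b / F a) / (x a - x b) := ⟨_, rfl⟩
  have hlin : ∀ e ∈ Z, F e * (α + β * x e) = 1 := by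
    intro e he
    have hFe := hF e he
    by_cases hea : e = a
    · rw [hea, hα, hβ]
      field_simp
      ring
    by_cases heb : e = b
    · rw [heb, hα, hβ]
      field_simp
      ring
    have h1 := hrel a ha b hb hab
    have h2 := hrel b hb e he (Ne.symm heb)
    have h3 := hrel e he a ha hea
    have h4 : F a * F b * (x a - x b) + F b * F e * (x b - x e) + F e * F a * (x e - x a) = 0 := by
      apply mul_left_cancel₀ hC
      linear_combination h1 + h2 + h3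
    rw [hα, hβ]
    field_simp
    linear_combination -h4
  have hβ0 : β ≠ 0 := by
    intro h0
    rw [h0] at hlin
    have h1 := hlin a ha
    have h2 := hlin b hb
    have h3 := hlin c hc
    have hα0 : α ≠ 0 := by
      rintro rfl
      simp at h1
    have e1 : F a = F c := by
      apply mul_right_cancel₀ hα0
      linear_combination h1 - h3
    have e2 : F b = F c := by
      apply mul_right_cancel₀ hα0
      linear_combination h2 - h3
    apply hcol a ha b hb c hc hab hbc hac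
    rw [hrel b hb c hc hbc, hrel a ha c hc hac, e1, e2]
    ring
  refine ⟨α, β, y a - C / β * F a, C / β, hβ0, ?_⟩
  intro e he
  have hFe := hF e he
  have hle := hlin e he
  have h5 : y e - y a = C / β * (F e - F a) := by
    by_cases hea : e = a
    · rw [hea]; ring
    rw [hrel e he a ha hea]
    have h6 := hlin a ha
    field_simp
    linear_combination F e * h6 - F a * hle
  have h7 : y e - (y a - C / β * F a) = C / β * F e := by linear_combination h5
  rw [h7, mul_assoc, hle, mul_one]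

theorem conic_of_mult {Z : Finset ι} (hZ : 3 ≤ Z.card) {g g' : ι} (hg : g ∉ Z) (hg' : g' ∉ Z)
    (hgg : g ≠ g') {P : ι → Fin 3 → K}
    (hP : ∀ x ∈ insert g (insert g' Z), ∀ y ∈ insert g (insert g' Z),
      ∀ u ∈ insert g (insert g' Z), x ≠ y → y ≠ u → x ≠ u → det3 (P x) (P y) (P u) ≠ 0)
    {C : K} {F : ι → K} (hC : C ≠ 0) (hF : ∀ x ∈ Z, F x ≠ 0)
    (hrel : ∀ x ∈ Z, ∀ y ∈ Z, x ≠ y →
      det3 (P x) (P y) (P g) = C * F x * F y * det3 (P x) (P y) (P g')) :
    OnConic P (insert g (insert g' Z)) := by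
  classical
  obtain ⟨e0, he0⟩ := Finset.card_pos.1 (show 0 < Z.card by omega)
  have hgm : g ∈ insert g (insert g' Z) := Finset.mem_insert_self _ _
  have hgm' : g' ∈ insert g (insert g' Z) := Finset.mem_insert_of_mem (Finset.mem_insert_self _ _)
  have hzm : ∀ e ∈ Z, e ∈ insert g (insert g' Z) := fun e he =>
    Finset.mem_insert_of_mem (Finset.mem_insert_of_mem he)
  have hng : ∀ e ∈ Z, e ≠ g := fun e he h => hg (h ▸ he)
  have hng' : ∀ e ∈ Z, e ≠ g' := fun e he h => hg' (h ▸ he)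
  obtain ⟨D, hD⟩ : ∃ D, D = det3 (P g) (P g') (P e0) := ⟨_, rfl⟩
  have hD0 : D ≠ 0 := hD ▸ hP g hgm g' hgm' e0 (hzm e0 he0) hgg (hng' e0 he0).symm (hng e0 he0).symm
  -- coordinates, multiplied by `D`
  obtain ⟨X1, hX1⟩ : ∃ X : (Fin 3 → K) → K, ∀ u, X u = det3 u (P g') (P e0) := ⟨_, fun _ => rfl⟩
  obtain ⟨X2, hX2⟩ : ∃ X : (Fin 3 → K) → K, ∀ u, X u = det3 (P g) u (P e0) := ⟨_, fun _ => rfl⟩
  obtain ⟨X3, hX3⟩ : ∃ X : (Fin 3 → K) → K, ∀ u, X u = det3 (P g) (P g') u := ⟨_, fun _ => rfl⟩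
  have hX3e : ∀ e ∈ Z, X3 (P e) ≠ 0 := fun e he => by
    rw [hX3]
    exact hP g hgm g' hgm' e (hzm e he) hgg (hng' e he).symm (hng e he).symm
  have hdg : ∀ u v, D * det3 u v (P g) = X2 u * X3 v - X3 u * X2 v := by
    intro u v
    rw [hD, hX2, hX3, hX2, hX3]
    simp only [det3]
    ring
  have hdg' : ∀ u v, D * det3 u v (P g') = -(X1 u * X3 v - X3 u * X1 v) := by
    intro u v
    rw [hD, hX1, hX3, hX1, hX3]
    simp only [det3]
    ring
  have hdd : ∀ u v w, D ^ 2 * det3 u v w = X1 u * (X2 v * X3 w - X3 v * X2 w) -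
      X2 u * (X1 v * X3 w - X3 v * X1 w) + X3 u * (X1 v * X2 w - X2 v * X1 w) := by
    intro u v w
    rw [hD, hX1, hX1, hX1, hX2, hX2, hX2, hX3, hX3, hX3]
    simp only [det3]
    ring
  obtain ⟨α, β, γ, δ, hβ, hconic⟩ := mult_aux hZ (x := fun e => X1 (P e) / X3 (P e))
    (y := fun e => X2 (P e) / X3 (P e)) (F := F) (C := C) hF (by
      intro e he f hf hef h
      have h1 := hP e (hzm e he) f (hzm f hf) g' hgm' hef (hng' f hf) (hng' e he)
      have h2 := hdg' (P e) (P f)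
      have h3 := hX3e e he
      have h4 := hX3e f hf
      apply h1
      apply mul_left_cancel₀ hD0
      rw [div_eq_div_iff h3 h4] at h
      rw [h2]
      linear_combination -h) (by
      intro e he f hf hef
      have h1 := hrel e he f hf hef
      have h2 := hdg (P e) (P f)
      have h2' := hdg' (P e) (P f)
      have h3 := hX3e e he
      have h4 := hX3e f hf
      field_simp
      linear_combination D * h1 - h2 + C * F e * F f * h2') (by
      intro a ha b hb c hc hab hbc hac h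
      have h1 := hP a (hzm a ha) b (hzm b hb) c (hzm c hc) hab hbc hac
      have h2 := hdd (P a) (P b) (P c)
      have h3 := hX3e a ha
      have h4 := hX3e b hb
      have h5 := hX3e c hc
      apply h1
      apply mul_left_cancel₀ (pow_ne_zero 2 hD0)
      rw [h2, mul_zero]
      field_simp at h
      apply mul_left_cancel₀ h5
      linear_combination h) hC
  -- the conic
  obtain ⟨a1, ha1⟩ : ∃ a : Fin 3 → K, ∀ u, X1 u = ∑ i, a i * u i :=
    ⟨![P g' 1 * P e0 2 - P g' 2 * P e0 1, P g' 2 * P e0 0 - P g' 0 * P e0 2,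
      P g' 0 * P e0 1 - P g' 1 * P e0 0], fun u => by
        rw [hX1, Fin.sum_univ_three]; simp [det3]; ring⟩
  obtain ⟨a2, ha2⟩ : ∃ a : Fin 3 → K, ∀ u, X2 u = ∑ i, a i * u i :=
    ⟨![P e0 1 * P g 2 - P e0 2 * P g 1, P e0 2 * P g 0 - P e0 0 * P g 2,
      P e0 0 * P g 1 - P e0 1 * P g 0], fun u => by
        rw [hX2, Fin.sum_univ_three]; simp [det3]; ring⟩
  obtain ⟨a3, ha3⟩ : ∃ a : Fin 3 → K, ∀ u, X3 u = ∑ i, a i * u i :=
    ⟨![P g 1 * P g' 2 - P g 2 * P g' 1, P g 2 * P g' 0 - P g 0 * P g' 2,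
      P g 0 * P g' 1 - P g 1 * P g' 0], fun u => by
        rw [hX3, Fin.sum_univ_three]; simp [det3]; ring⟩
  have hQ : ∀ u : Fin 3 → K, ∑ i, ∑ j, ((a2 i - γ * a3 i) * (α * a3 j + β * a1 j) - δ * a3 i * a3 j) *
      u i * u j = (X2 u - γ * X3 u) * (α * X3 u + β * X1 u) - δ * X3 u ^ 2 := by
    intro u
    rw [ha1, ha2, ha3]
    simp only [Fin.sum_univ_three]
    ring
  have hgg0 : X2 (P g) = 0 ∧ X3 (P g) = 0 ∧ X1 (P g) = D := by
    rw [hX2, hX3, hX1, hD]
    refine ⟨?_, ?_, ?_⟩ <;> simp only [det3] <;> ring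
  have hgg1 : X1 (P g') = 0 ∧ X3 (P g') = 0 ∧ X2 (P g') = D := by
    rw [hX2, hX3, hX1, hD]
    refine ⟨?_, ?_, ?_⟩ <;> simp only [det3] <;> ring
  refine ⟨fun i j => (a2 i - γ * a3 i) * (α * a3 j + β * a1 j) - δ * a3 i * a3 j, ⟨P g + P g', ?_⟩, ?_⟩
  · rw [hQ]
    have e1 : X1 (P g + P g') = D := by
      rw [← hgg0.2.2, ← add_zero (X1 (P g)), ← hgg1.1, ha1, ha1, ha1, ← Finset.sum_add_distrib]
      exact Finset.sum_congr rfl fun i _ => by rw [Pi.add_apply, mul_add]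
    have e2 : X2 (P g + P g') = D := by
      rw [← hgg1.2.2, ← zero_add (X2 (P g')), ← hgg0.1, ha2, ha2, ha2, ← Finset.sum_add_distrib]
      exact Finset.sum_congr rfl fun i _ => by rw [Pi.add_apply, mul_add]
    have e3 : X3 (P g + P g') = 0 := by
      rw [← hgg1.2.1, ← zero_add (X3 (P g')), ← hgg0.2.1, ha3, ha3, ha3, ← Finset.sum_add_distrib]
      exact Finset.sum_congr rfl fun i _ => by rw [Pi.add_apply, mul_add]
    rw [e1, e2, e3]
    have : (D - γ * 0) * (α * 0 + β * D) - δ * 0 ^ 2 = β * D ^ 2 := by ring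
    rw [this]
    exact mul_ne_zero hβ (pow_ne_zero 2 hD0)
  · intro e he
    rw [hQ]
    rw [Finset.mem_insert, Finset.mem_insert] at he
    rcases he with rfl | rfl | he
    · rw [hgg0.1, hgg0.2.1]; ring
    · rw [hgg1.1, hgg1.2.1]; ring
    · have h1 := hconic e he
      have h2 := hX3e e he
      field_simp at h1
      linear_combination h1

end

end Pool.Agent.Helper31.RN
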