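import Pool.Agent.Helper31.RN.Trans

/-!
# RN-7C: points of a normal rational curve satisfy the determinant condition

`DetZero`: for `|D0| = k-3` and six other points `b_i, x_j` of `S`, `det (1 / D_{D0 + b_{i+1} + b_{i+2}}(x_j)) = 0`.
`det_of_nuh`: by transport we may work with `q e = M (p e) = γ e • nuh k (α e) (β e)` and the forms `pull M (D B)` (`ev_pull`). For `B ⊆ S`, `|B| = k-1`, let
`h_B = ∏_{j ∈ B} (C (β j) * X - C (α j))` (degree `≤ k-1`); for `α, β ∈ K`: `ev (nuh k α β) h_B = ∏_{j ∈ B} (α β_j - α_j β)` (for `β ≠ 0`: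
`nuh k α β = β^{k-1} • nu k (α/β)` and `ev_nu`; for `β = 0` both sides are `α^{k-1}` times the coefficient of `X^{k-1}`). So `h_B` vanishes on `B`, and by `form_unique`
`h_B = C a_B * pull M (D B)`, `a_B ≠ 0` as `h_B ≠ 0` (the `(α_j, β_j)` are not `(0,0)`). So `1/D_B(x) = a_B / (γ x * ∏_{j ∈ B} (α_x β_j - α_j β_x))`. For `B = D0 + b_1 + b_2 + b_3 - b_i` this is
`a_B * (α_x β_{b_i} - α_{b_i} β_x) / (γ x * ∏_{j ∈ D0 + b_1 + b_2 + b_3} (..))` (the last product is not zero, since all `D_B(x) ≠ 0`), so the matrix is a product of diagonal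
matrices and `(α_{x_j} β_{b_i} - α_{b_i} β_{x_j})`, of rank `≤ 2`.
-/

open Polynomial

namespace Pool.Agent.Helper31.RN

noncomputable section

variable {K : Type*} [Field K] {ι : Type*} [DecidableEq ι] {k : ℕ}

/-- the determinant condition: any six points of `S` are, seen from `k-3` other points, on a
conic -/
def DetZero (k : ℕ) (S : Finset ι) (p : ι → Fin k → K) (D : Finset ι → K[X]) : Prop :=
  ∀ D0 ⊆ S, D0.card = k - 3 → ∀ b x : Fin 3 → ι, (∀ i, b i ∈ S \ D0) → (∀ j, x j ∈ S \ D0) →
    Function.Injective b → Function.Injective x → (∀ i j, b i ≠ x j) →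
    Matrix.det (Matrix.of fun i j : Fin 3 =>
      (ev (p (x j)) (D (insert (b (i + 1)) (insert (b (i + 2)) D0))))⁻¹) = 0

/-- the product of the linear factors attached to the points of `B` -/
private def hB76 (α β : ι → K) (B : Finset ι) : K[X] := ∏ j ∈ B, (C (β j) * X - C (α j))

private theorem factor_natDegree76 (a b : K) : (C b * X - C a : K[X]).natDegree ≤ 1 := by
  refine (natDegree_sub_le _ _).trans (max_le ?_ ?_)
  · exact (natDegree_C_mul_le _ _).trans natDegree_X_le
  · rw [natDegree_C]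
    exact zero_le_one

omit [DecidableEq ι] in
private theorem hB_natDegree76 (α β : ι → K) (B : Finset ι) : (hB76 α β B).natDegree ≤ B.card := by
  unfold hB76
  refine (natDegree_prod_le _ _).trans ?_
  refine (Finset.sum_le_sum fun j _ => factor_natDegree76 (α j) (β j)).trans ?_
  simp

omit [DecidableEq ι] in
private theorem hB_degree76 (hk : 1 ≤ k) (α β : ι → K) {B : Finset ι} (hB : B.card = k - 1) :
    (hB76 α β B).degree < k := by
  refine lt_of_le_of_lt degree_le_natDegree ?_
  have h := hB_natDegree76 α β B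
  have h2 : (hB76 α β B).natDegree < k := by omega
  exact_mod_cast h2

omit [DecidableEq ι] in
private theorem ev_nuh76 (hk : 1 ≤ k) (α β : ι → K) {B : Finset ι} (hB : B.card = k - 1) (a b : K) :
    ev (nuh k a b) (hB76 α β B) = ∏ j ∈ B, (a * β j - α j * b) := by
  rcases eq_or_ne b 0 with rfl | hb
  · have h1 : ev (nuh k a 0) (hB76 α β B) = (hB76 α β B).coeff (k - 1) * a ^ (k - 1) := by
      unfold ev nuh
      rw [Finset.sum_eq_single (⟨k - 1, by omega⟩ : Fin k)]
      · simp
      · intro i _ hi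
        have h2 : (i : ℕ) ≠ k - 1 := fun h => hi (Fin.ext h)
        have h3 : k - 1 - (i : ℕ) ≠ 0 := by have := i.2; omega
        rw [zero_pow h3, mul_zero, smul_zero]
      · intro h
        exact absurd (Finset.mem_univ _) h
    have h2 : (hB76 α β B).coeff (k - 1) = ∏ j ∈ B, β j := by
      have h3 := coeff_prod_of_natDegree_le B (fun j => C (β j) * X - C (α j)) 1
        (fun j _ => factor_natDegree76 (α j) (β j))
      rw [mul_one, hB] at h3
      unfold hB76
      rw [h3]
      refine Finset.prod_congr rfl fun j _ => ?_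
      simp [coeff_C]
    rw [h1, h2, ← hB, ← Finset.prod_const, ← Finset.prod_mul_distrib]
    refine Finset.prod_congr rfl fun j _ => ?_
    ring
  · have h1 : nuh k a b = b ^ (k - 1) • nu k (a / b) := by
      ext i
      have hi := i.2
      unfold nuh nu
      rw [Pi.smul_apply, smul_eq_mul, div_pow]
      have h2 : b ^ (k - 1) = b ^ (i : ℕ) * b ^ (k - 1 - (i : ℕ)) := by
        rw [← pow_add]
        congr 1
        omega
      rw [h2]
      have h3 : b ^ (i : ℕ) ≠ 0 := pow_ne_zero _ hb
      field_simp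
    rw [h1, ev_smul_vec, ev_nu _ _ (hB_degree76 hk α β hB)]
    unfold hB76
    rw [eval_prod, ← hB, ← Finset.prod_const, ← Finset.prod_mul_distrib]
    refine Finset.prod_congr rfl fun j _ => ?_
    rw [eval_sub, eval_mul, eval_C, eval_X, eval_C]
    field_simp

theorem det_of_nuh (hk : 3 ≤ k) {S : Finset ι} {p : ι → Fin k → K} {D : Finset ι → K[X]}
    (H : GP k S p D) (M : (Fin k → K) ≃ₗ[K] (Fin k → K))
    (hM : ∀ g ∈ S, ∃ c a b : K, M (p g) = c • nuh k a b) : DetZero k S p D := by
  intro D0 hD0 hD0c b x hb hx hbi hxi hbx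
  have hM' : ∀ g, ∃ c a b : K, g ∈ S → M (p g) = c • nuh k a b := by
    intro g
    by_cases hg : g ∈ S
    · obtain ⟨c, a, b', h⟩ := hM g hg
      exact ⟨c, a, b', fun _ => h⟩
    · exact ⟨0, 0, 0, fun h => absurd h hg⟩
  choose γ α β hγ using hM'
  have hbS : ∀ i, b i ∈ S := fun i => (Finset.mem_sdiff.1 (hb i)).1
  have hbD : ∀ i, b i ∉ D0 := fun i => (Finset.mem_sdiff.1 (hb i)).2
  have hxS : ∀ i, x i ∈ S := fun i => (Finset.mem_sdiff.1 (hx i)).1
  have hxD : ∀ i, x i ∉ D0 := fun i => (Finset.mem_sdiff.1 (hx i)).2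
  have h12 : ∀ i : Fin 3, b (i + 1) ≠ b (i + 2) := by
    intro i h
    have := hbi h
    revert this
    fin_cases i <;> decide
  set B : Fin 3 → Finset ι := fun i => insert (b (i + 1)) (insert (b (i + 2)) D0) with hBdef
  have hBS : ∀ i, B i ⊆ S := fun i =>
    Finset.insert_subset (hbS _) (Finset.insert_subset (hbS _) hD0)
  have hnot1 : ∀ i : Fin 3, b (i + 1) ∉ insert (b (i + 2)) D0 := by
    intro i h
    rcases Finset.mem_insert.1 h with h | h
    · exact h12 i h
    · exact hbD _ h
  have hBc : ∀ i, (B i).card = k - 1 := by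
    intro i
    rw [hBdef]
    simp only
    rw [Finset.card_insert_of_notMem (hnot1 i), Finset.card_insert_of_notMem (hbD _), hD0c]
    omega
  have hxB : ∀ i j, x j ∉ B i := by
    intro i j h
    rcases Finset.mem_insert.1 h with h | h
    · exact hbx _ _ h.symm
    · rcases Finset.mem_insert.1 h with h | h
      · exact hbx _ _ h.symm
      · exact hxD _ h
  have hbB : ∀ i : Fin 3, b i ∉ B i := by
    intro i h
    rcases Finset.mem_insert.1 h with h | h
    · have := hbi h
      revert this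
      fin_cases i <;> decide
    · rcases Finset.mem_insert.1 h with h | h
      · have := hbi h
        revert this
        fin_cases i <;> decide
      · exact hbD _ h
  have hcard : k ≤ S.card := by
    have h1 : (insert (b 0) (B 0)).card = k := by
      rw [Finset.card_insert_of_notMem (hbB 0), hBc 0]
      omega
    rw [← h1]
    exact Finset.card_le_card (Finset.insert_subset (hbS 0) (hBS 0))
  -- points are not zero
  have hpt : ∀ i, ∀ j ∈ B i, ¬ (α j = 0 ∧ β j = 0) := by
    rintro i j hj ⟨h1, h2⟩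
    have hjS : j ∈ S := hBS i hj
    have h3 : p j = 0 := by
      have h4 := hγ j hjS
      rw [h1, h2] at h4
      have h5 : nuh k (0 : K) 0 = 0 := by
        ext t
        have ht := t.2
        unfold nuh
        rw [Pi.zero_apply]
        by_cases h6 : (t : ℕ) = 0
        · rw [h6, pow_zero, one_mul, zero_pow (by omega)]
        · rw [zero_pow h6, zero_mul]
      rw [h5, smul_zero] at h4
      exact (LinearEquiv.map_eq_zero_iff M).1 h4
    -- a set of size k-1 without j
    have h6 : ∃ T ⊆ S, T.card = k - 1 ∧ j ∉ T := by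
      have h7 : k - 1 ≤ (S.erase j).card := by
        rw [Finset.card_erase_of_mem hjS]
        omega
      obtain ⟨T, hT, hTc⟩ := Finset.exists_subset_card_eq h7
      exact ⟨T, hT.trans (Finset.erase_subset _ _), hTc, fun h => Finset.notMem_erase j S (hT h)⟩
    obtain ⟨T, hT, hTc, hjT⟩ := h6
    have h8 := H.ne T hT hTc j (Finset.mem_sdiff.2 ⟨hjS, hjT⟩)
    rw [h3, ev_zero_vec] at h8
    exact h8 rfl
  -- the constants
  have hex : ∀ i, ∃ a : K, a ≠ 0 ∧ ∀ y ∈ S, a * ev (p y) (D (B i)) =
      γ y * ∏ j ∈ B i, (α y * β j - α j * β y) := by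
    intro i
    obtain ⟨a, ha⟩ := H.form_unique (by omega) hcard (hBS i) (hBc i)
      (pull_deg M.symm (hB76 α β (B i))) (by
        intro y hy
        have h1 := ev_pull M.symm (hB76 α β (B i)) (M (p y))
        rw [LinearEquiv.symm_apply_apply] at h1
        rw [h1, hγ y (hBS i hy), ev_smul_vec, ev_nuh76 (by omega) α β (hBc i),
          Finset.prod_eq_zero hy (by ring), mul_zero])
    have hval : ∀ y ∈ S, a * ev (p y) (D (B i)) =
        γ y * ∏ j ∈ B i, (α y * β j - α j * β y) := by
      intro y hy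
      have h1 := ev_pull M.symm (hB76 α β (B i)) (M (p y))
      rw [LinearEquiv.symm_apply_apply, ha, ev_C_mul, smul_eq_mul] at h1
      rw [h1, hγ y hy, ev_smul_vec, ev_nuh76 (by omega) α β (hBc i)]
    refine ⟨a, ?_, hval⟩
    rintro rfl
    have h2 : pull M.symm (hB76 α β (B i)) = 0 := by rw [ha, C_0, zero_mul]
    have h3 : hB76 α β (B i) = 0 := by
      have h4 := pull_symm M (hB76 α β (B i)) (hB_degree76 (by omega) α β (hBc i))
      rw [h2] at h4
      rw [← h4]
      unfold pull
      apply Finset.sum_eq_zero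
      intro t _
      rw [ev_zero, C_0, zero_mul]
    unfold hB76 at h3
    obtain ⟨j, hj, hj0⟩ := Finset.prod_eq_zero_iff.1 h3
    apply hpt i j hj
    constructor
    · have := congrArg (fun f : K[X] => f.coeff 0) hj0
      simpa [coeff_C] using this
    · have := congrArg (fun f : K[X] => f.coeff 1) hj0
      simpa [coeff_C] using this
  choose a ha0 ha using hex
  -- the factors
  set F : Fin 3 → Fin 3 → K := fun j i => α (x j) * β (b i) - α (b i) * β (x j) with hF
  set P : Fin 3 → K := fun j => γ (x j) * ∏ t ∈ D0, (α (x j) * β t - α t * β (x j)) with hP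
  have hid : ∀ i j, a i * ev (p (x j)) (D (B i)) = P j * F j (i + 1) * F j (i + 2) := by
    intro i j
    rw [ha i (x j) (hxS j)]
    have h1 : ∏ t ∈ B i, (α (x j) * β t - α t * β (x j)) =
        F j (i + 1) * (F j (i + 2) * ∏ t ∈ D0, (α (x j) * β t - α t * β (x j))) := by
      rw [hBdef]
      simp only
      rw [Finset.prod_insert (hnot1 i), Finset.prod_insert (hbD _)]
    rw [h1, hP]
    ring
  have hev : ∀ i j, ev (p (x j)) (D (B i)) ≠ 0 := fun i j =>
    H.ne (B i) (hBS i) (hBc i) (x j) (Finset.mem_sdiff.2 ⟨hxS j, hxB i j⟩)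
  have hne : ∀ i j, P j * F j (i + 1) * F j (i + 2) ≠ 0 := fun i j => by
    rw [← hid i j]
    exact mul_ne_zero (ha0 i) (hev i j)
  have hP0 : ∀ j, P j ≠ 0 := fun j => left_ne_zero_of_mul (left_ne_zero_of_mul (hne 0 j))
  have hF1 : ∀ i j, F j (i + 1) ≠ 0 := fun i j => right_ne_zero_of_mul (left_ne_zero_of_mul (hne i j))
  have hF0 : ∀ i j, F j i ≠ 0 := by
    intro i j
    have h1 := hF1 (i + 2) j
    have h2 : i + 2 + 1 = i := by fin_cases i <;> decide
    rwa [h2] at h1
  have hentry : ∀ i j, (ev (p (x j)) (D (B i)))⁻¹ =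
      a i * F j i * (P j * F j 0 * F j 1 * F j 2)⁻¹ := by
    intro i j
    have h1 := hid i j
    have h2 := hev i j
    have h3 := hP0 j
    have h4 := hF0 0 j
    have h5 := hF0 1 j
    have h6 := hF0 2 j
    have h7 := ha0 i
    have h8 : (ev (p (x j)) (D (B i)))⁻¹ = a i * (P j * F j (i + 1) * F j (i + 2))⁻¹ := by
      rw [← h1]
      field_simp
    rw [h8]
    fin_cases i
    · show a 0 * (P j * F j 1 * F j 2)⁻¹ = a 0 * F j 0 * (P j * F j 0 * F j 1 * F j 2)⁻¹
      field_simp
    · show a 1 * (P j * F j 2 * F j 0)⁻¹ = a 1 * F j 1 * (P j * F j 0 * F j 1 * F j 2)⁻¹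
      field_simp
    · show a 2 * (P j * F j 0 * F j 1)⁻¹ = a 2 * F j 2 * (P j * F j 0 * F j 1 * F j 2)⁻¹
      field_simp
  have hmat : (Matrix.of fun i j : Fin 3 => (ev (p (x j)) (D (insert (b (i + 1)) (insert (b (i + 2)) D0))))⁻¹) =
      Matrix.of fun i j : Fin 3 => a i * F j i * (P j * F j 0 * F j 1 * F j 2)⁻¹ := by
    ext i j
    exact hentry i j
  rw [hmat, Matrix.det_fin_three]
  simp only [Matrix.of_apply]
  generalize (P 0 * F 0 0 * F 0 1 * F 0 2)⁻¹ = q0
  generalize (P 1 * F 1 0 * F 1 1 * F 1 2)⁻¹ = q1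
  generalize (P 2 * F 2 0 * F 2 1 * F 2 2)⁻¹ = q2
  simp only [hF]
  ring

end

end Pool.Agent.Helper31.RN
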