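import Pool.Agent.Helper31.RN.Plane

/-!
# RN-8D: six points on a conic

`Q u = ∑_{i,j} m i j u_i u_j`, `Bil u v = ∑ m i j u_i v_j`, `Q(b i) = 0`. `x_j = ∑_i ξ_{ij} • b i`, `ξ_{ij} = det3 (b (i+1)) (b (i+2)) (x j) / det3 (b 0) (b 1) (b 2)` (Cramer), all `≠ 0`.
With `γ_i = Bil (b (i+1)) (b (i+2)) + Bil (b (i+2)) (b (i+1))`: `0 = Q(x_j) = ∑_i γ_i ξ_{i+1,j} ξ_{i+2,j} = ξ_{0j} ξ_{1j} ξ_{2j} ∑_i γ_i / ξ_{ij}`. So `γ` is in the left kernel of the matrix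
(`Matrix.exists_vecMul_eq_zero_iff`), and `γ ≠ 0`: otherwise `Q` is zero on all combinations of the `b i`, i.e. on `K³`, contradiction to `hm`.
-/

open Polynomial

namespace Pool.Agent.Helper31.RN

noncomputable section

variable {K : Type*} [Field K] {ι : Type*} [DecidableEq ι] {k : ℕ}

omit [DecidableEq ι] in
private theorem expand92 (m b : Fin 3 → Fin 3 → K) (u : Fin 3 → K) (D X0 X1 X2 : K)
    (hu : ∀ n, D * u n = X0 * b 0 n + X1 * b 1 n + X2 * b 2 n) :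
    D ^ 2 * (∑ i, ∑ j, m i j * u i * u j) =
      X0 ^ 2 * (∑ i, ∑ j, m i j * b 0 i * b 0 j) + X1 ^ 2 * (∑ i, ∑ j, m i j * b 1 i * b 1 j) +
        X2 ^ 2 * (∑ i, ∑ j, m i j * b 2 i * b 2 j) +
      (X1 * X2 * (∑ i, ∑ j, m i j * (b 1 i * b 2 j + b 2 i * b 1 j)) +
        X0 * X2 * (∑ i, ∑ j, m i j * (b 0 i * b 2 j + b 2 i * b 0 j)) +
        X0 * X1 * (∑ i, ∑ j, m i j * (b 0 i * b 1 j + b 1 i * b 0 j))) := by
  calc D ^ 2 * (∑ i, ∑ j, m i j * u i * u j) = ∑ i, ∑ j, m i j * (D * u i) * (D * u j) := by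
        simp only [Fin.sum_univ_three]
        ring
    _ = ∑ i, ∑ j, m i j * (X0 * b 0 i + X1 * b 1 i + X2 * b 2 i) * (X0 * b 0 j + X1 * b 1 j + X2 * b 2 j) := by
        simp only [hu]
    _ = _ := by
        simp only [Fin.sum_univ_three]
        ring

theorem six {m : Fin 3 → Fin 3 → K} (hm : ∃ u : Fin 3 → K, ∑ i, ∑ j, m i j * u i * u j ≠ 0)
    {b x : Fin 3 → Fin 3 → K} (hb : det3 (b 0) (b 1) (b 2) ≠ 0)
    (hne : ∀ i j : Fin 3, det3 (b (i + 1)) (b (i + 2)) (x j) ≠ 0)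
    (hmb : ∀ l, ∑ i, ∑ j, m i j * b l i * b l j = 0)
    (hmx : ∀ l, ∑ i, ∑ j, m i j * x l i * x l j = 0) :
    Matrix.det (Matrix.of fun i j : Fin 3 => (det3 (b (i + 1)) (b (i + 2)) (x j))⁻¹) = 0 := by
  obtain ⟨g0, hg0⟩ : ∃ g0 : K, g0 = ∑ i, ∑ j, m i j * (b 1 i * b 2 j + b 2 i * b 1 j) := ⟨_, rfl⟩
  obtain ⟨g1, hg1⟩ : ∃ g1 : K, g1 = ∑ i, ∑ j, m i j * (b 0 i * b 2 j + b 2 i * b 0 j) := ⟨_, rfl⟩
  obtain ⟨g2, hg2⟩ : ∃ g2 : K, g2 = ∑ i, ∑ j, m i j * (b 0 i * b 1 j + b 1 i * b 0 j) := ⟨_, rfl⟩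
  have key : ∀ u : Fin 3 → K, det3 (b 0) (b 1) (b 2) ^ 2 * (∑ i, ∑ j, m i j * u i * u j) =
      det3 (b 2) (b 0) u * det3 (b 0) (b 1) u * g0 + det3 (b 1) (b 2) u * det3 (b 0) (b 1) u * g1 +
        det3 (b 1) (b 2) u * det3 (b 2) (b 0) u * g2 := by
    intro u
    have hu : ∀ n, det3 (b 0) (b 1) (b 2) * u n =
        det3 (b 1) (b 2) u * b 0 n + det3 (b 2) (b 0) u * b 1 n + det3 (b 0) (b 1) u * b 2 n := by
      intro n
      fin_cases n <;> simp only [det3, Fin.zero_eta, Fin.mk_one, Fin.reduceFinMk] <;> ring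
    rw [expand92 m b u _ _ _ _ hu, hmb 0, hmb 1, hmb 2, ← hg0, ← hg1, ← hg2]
    ring
  have hg : ![g0, g1, g2] ≠ 0 := by
    intro h0
    have e0 : g0 = 0 := congrFun h0 0
    have e1 : g1 = 0 := congrFun h0 1
    have e2 : g2 = 0 := congrFun h0 2
    obtain ⟨u, hu⟩ := hm
    have h1 := key u
    rw [e0, e1, e2, mul_zero, mul_zero, mul_zero, add_zero, add_zero] at h1
    rcases mul_eq_zero.1 h1 with h2 | h2
    · exact hb (pow_eq_zero_iff (two_ne_zero) |>.1 h2)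
    · exact hu h2
  rw [← Matrix.exists_vecMul_eq_zero_iff]
  refine ⟨![g0, g1, g2], hg, ?_⟩
  ext j
  have n0 : det3 (b 1) (b 2) (x j) ≠ 0 := hne 0 j
  have n1 : det3 (b 2) (b 0) (x j) ≠ 0 := hne 1 j
  have n2 : det3 (b 0) (b 1) (x j) ≠ 0 := hne 2 j
  have hk := key (x j)
  rw [hmx j, mul_zero] at hk
  have hgoal : g0 * (det3 (b 1) (b 2) (x j))⁻¹ + g1 * (det3 (b 2) (b 0) (x j))⁻¹ +
      g2 * (det3 (b 0) (b 1) (x j))⁻¹ = 0 := by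
    field_simp
    linear_combination -hk
  have hv : Matrix.vecMul ![g0, g1, g2]
      (Matrix.of fun i j : Fin 3 => (det3 (b (i + 1)) (b (i + 2)) (x j))⁻¹) j =
      g0 * (det3 (b 1) (b 2) (x j))⁻¹ + g1 * (det3 (b 2) (b 0) (x j))⁻¹ +
      g2 * (det3 (b 0) (b 1) (x j))⁻¹ := by
    rw [Matrix.vecMul, dotProduct, Fin.sum_univ_three]
    rfl
  rw [hv, hgoal]
  rfl

end

end Pool.Agent.Helper31.RN
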