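import Pool.Agent.Helper31.RN.Rel
import Pool.Agent.Helper31.RN.Mult
import Pool.Agent.Helper31.RN.Six
import Pool.Agent.Helper31.RN.Rank

/-!
# RN-8F: all `λ = 0` implies the determinant condition

Given `D0, b, x`; `T = D0 ∪ {b_i} ∪ {x_j}` has `k+3` elements. `|S| ≥ 2k+2 ≥ k+5`: choose `g ≠ g'` in `S \ T` and `T ∪ {g,g'} ⊆ S' ⊆ S` with `|S'| = 2k+2`.
`Z = S' \ (D0 ∪ {g, g'})` (`k+3` elements, contains `b_i, x_j`), `Y = insert g' Z`, `Y' = insert g Z` (`k+4` elements). `P, Δ` from `exists_plane`.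
`R = {r | ∑_{e ∈ Y} r e • p e = 0}` satisfies `hR` of `conic_or_mult` by `rel_zero` (`Y` minus four points has `k` elements); `w = wY ..` is nonzero and symmetric
(`Finset.insert_comm`, `Δ² `); `hrel` from `rel_plane` (`Finset.sum_erase`). So `OnConic P Y` or `wY (D0,Y)` is multiplicative; the same for `Y'`. If one of `Y, Y'` is on a conic: `six` with
`P ∘ b`, `P ∘ x`. If both are multiplicative: for `x ≠ y` in `Z`, `S \ (D0 ∪ Y) = insert g (S \ S')`, `S \ (D0 ∪ Y') = insert g' (S \ S')`, so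
`wY Y x y / wY Y' x y = det3 (P x) (P y) (P g) / det3 (P x) (P y) (P g')`, `conic_of_mult` applies with `F = τ/τ'`, then `six`.
Final step: `(ev (p x_j) (D ..))⁻¹ = (Δ b_{i+1} b_{i+2})⁻¹ * (det3 ..)⁻¹`: row `i` of the matrix is a multiple (`Matrix.det_mul_column`/`det_mul_row`).
-/

open Polynomial

namespace Pool.Agent.Helper31.RN

noncomputable section

variable {K : Type*} [Field K] {ι : Type*} [DecidableEq ι] {k : ℕ}

private theorem det_ne77 (hk : 3 ≤ k) {S : Finset ι} {p : ι → Fin k → K} {D : Finset ι → K[X]}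
    (H : GP k S p D) {D0 : Finset ι} (hD0 : D0 ⊆ S) (hD0c : D0.card = k - 3)
    {P : ι → Fin 3 → K} {Δ : ι → ι → K}
    (hΔ : ∀ x ∈ S \ D0, ∀ y ∈ S \ D0, x ≠ y → Δ x y ≠ 0 ∧ Δ y x = - Δ x y ∧
        ∀ u, ev (p u) (D (insert x (insert y D0))) = Δ x y * det3 (P x) (P y) (P u)) :
    ∀ x ∈ S \ D0, ∀ y ∈ S \ D0, ∀ u ∈ S \ D0, x ≠ y → y ≠ u → x ≠ u →
      det3 (P x) (P y) (P u) ≠ 0 := by
  intro x hx y hy u hu hxy hyu hxu h0
  have h1 := (hΔ x hx y hy hxy).2.2 u
  rw [h0, mul_zero] at h1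
  rw [Finset.mem_sdiff] at hx hy hu
  have hxyD : x ∉ insert y D0 := by
    rw [Finset.mem_insert]
    rintro (h | h)
    · exact hxy h
    · exact hx.2 h
  refine H.ne (insert x (insert y D0)) ?_ ?_ u ?_ h1
  · exact Finset.insert_subset hx.1 (Finset.insert_subset hy.1 hD0)
  · rw [Finset.card_insert_of_notMem hxyD, Finset.card_insert_of_notMem hy.2, hD0c]
    omega
  · rw [Finset.mem_sdiff]
    refine ⟨hu.1, ?_⟩
    rw [Finset.mem_insert, Finset.mem_insert]
    rintro (h | h | h)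
    · exact hxu h.symm
    · exact hyu h.symm
    · exact hu.2 h

private theorem conic_or77 (hk : 3 ≤ k) {S : Finset ι} {p : ι → Fin k → K} {D : Finset ι → K[X]}
    {c : Finset ι → K} (H : Sys k S p D c) (hS : k ≤ S.card) (h0 : LamZero k S p D c)
    {D0 Y : Finset ι}
    (hD0 : D0 ⊆ S) (hY : Y ⊆ S) (hDY : Disjoint D0 Y) (hD0c : D0.card = k - 3)
    (hYc : Y.card = k + 4) {P : ι → Fin 3 → K} {Δ : ι → ι → K}
    (hΔ : ∀ x ∈ S \ D0, ∀ y ∈ S \ D0, x ≠ y → Δ x y ≠ 0 ∧ Δ y x = - Δ x y ∧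
        ∀ u, ev (p u) (D (insert x (insert y D0))) = Δ x y * det3 (P x) (P y) (P u)) :
    OnConic P Y ∨ ∃ (C : K) (τ : ι → K), C ≠ 0 ∧ (∀ x ∈ Y, τ x ≠ 0) ∧
      ∀ x ∈ Y, ∀ y ∈ Y, x ≠ y → wY S p D c D0 Y Δ x y = C * τ x * τ y := by
  have hYS : ∀ x ∈ Y, x ∈ S \ D0 := fun x hx =>
    Finset.mem_sdiff.2 ⟨hY hx, fun h => Finset.disjoint_left.1 hDY h hx⟩
  obtain ⟨R, hR⟩ : ∃ R : Submodule K (ι → K), ∀ r, r ∈ R ↔ ∑ e ∈ Y, r e • p e = 0 := by
    refine ⟨{
      carrier := {r | ∑ e ∈ Y, r e • p e = 0}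
      add_mem' := ?_
      zero_mem' := ?_
      smul_mem' := ?_ }, fun r => Iff.rfl⟩
    · intro r s hr hs
      simp only [Set.mem_setOf_eq, Pi.add_apply, add_smul, Finset.sum_add_distrib] at hr hs ⊢
      rw [hr, hs, add_zero]
    · simp
    · intro a r hr
      simp only [Set.mem_setOf_eq, Pi.smul_apply, smul_eq_mul, mul_smul] at hr ⊢
      rw [← Finset.smul_sum, hr, smul_zero]
  have hins : ∀ x ∈ Y, ∀ y ∈ Y, x ≠ y → insert x (insert y D0) ⊆ S ∧
      (insert x (insert y D0)).card = k - 1 := by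
    intro x hx y hy hxy
    have hx' := Finset.mem_sdiff.1 (hYS x hx)
    have hy' := Finset.mem_sdiff.1 (hYS y hy)
    have hxyD : x ∉ insert y D0 := by
      rw [Finset.mem_insert]
      rintro (h | h)
      · exact hxy h
      · exact hx'.2 h
    refine ⟨Finset.insert_subset hx'.1 (Finset.insert_subset hy'.1 hD0), ?_⟩
    rw [Finset.card_insert_of_notMem hxyD, Finset.card_insert_of_notMem hy'.2, hD0c]
    omega
  refine conic_or_mult (R := R) (by omega) ?_ ?_ ?_ ?_ ?_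
  · intro x hx y hy u hu
    exact det_ne77 hk H.toGP hD0 hD0c hΔ x (hYS x hx) y (hYS y hy) u (hYS u hu)
  · intro r hr Z hZ hZc hZ0
    rw [hR] at hr
    refine H.toGP.rel_zero hY hS (R := Y \ Z) Finset.sdiff_subset ?_ hr ?_
    · rw [Finset.card_sdiff_of_subset hZ]
      omega
    · intro b hb hbZ
      apply hZ0
      by_contra h
      exact hbZ (Finset.mem_sdiff.2 ⟨hb, h⟩)
  · intro x hx y hy hxy
    obtain ⟨h1, h2⟩ := hins x hx y hy hxy
    refine mul_ne_zero (mul_ne_zero (H.cne _ h1 h2) (Finset.prod_ne_zero_iff.2 fun g hg => ?_))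
      (pow_ne_zero 2 (hΔ x (hYS x hx) y (hYS y hy) hxy).1)
    have hg' := Finset.mem_sdiff.1 hg
    refine H.ne _ h1 h2 g (Finset.mem_sdiff.2 ⟨hg'.1, ?_⟩)
    rw [Finset.mem_insert, Finset.mem_insert]
    rintro (h | h | h)
    · exact hg'.2 (Finset.mem_union_right _ (h ▸ hx))
    · exact hg'.2 (Finset.mem_union_right _ (h ▸ hy))
    · exact hg'.2 (Finset.mem_union_left _ h)
  · intro x hx y hy hxy
    unfold wY
    rw [Finset.insert_comm x y D0, (hΔ x (hYS x hx) y (hYS y hy) hxy).2.1]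
    ring
  · intro b hb ψ hψ
    rw [hR]
    have h1 := rel_plane hk H h0 hD0 hY hDY hD0c hYc hΔ hb hψ
    rw [← Finset.add_sum_erase Y _ hb]
    rw [if_pos rfl, zero_smul, zero_add, ← h1]
    refine Finset.sum_congr rfl fun e he => ?_
    rw [if_neg (Finset.ne_of_mem_erase he)]

private theorem fin77 (hk : 3 ≤ k) {S : Finset ι} {p : ι → Fin k → K} {D : Finset ι → K[X]}
    (H : GP k S p D) {D0 Y : Finset ι} (hD0 : D0 ⊆ S) (hD0c : D0.card = k - 3)
    {P : ι → Fin 3 → K} {Δ : ι → ι → K}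
    (hΔ : ∀ x ∈ S \ D0, ∀ y ∈ S \ D0, x ≠ y → Δ x y ≠ 0 ∧ Δ y x = - Δ x y ∧
        ∀ u, ev (p u) (D (insert x (insert y D0))) = Δ x y * det3 (P x) (P y) (P u))
    {b x : Fin 3 → ι} (hb : ∀ i, b i ∈ S \ D0) (hx : ∀ j, x j ∈ S \ D0)
    (hbi : Function.Injective b) (hbx : ∀ i j, b i ≠ x j) (hO : OnConic P Y)
    (hbY : ∀ i, b i ∈ Y) (hxY : ∀ j, x j ∈ Y) :
    Matrix.det (Matrix.of fun i j : Fin 3 =>
      (ev (p (x j)) (D (insert (b (i + 1)) (insert (b (i + 2)) D0))))⁻¹) = 0 := by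
  obtain ⟨m, hm, hm0⟩ := hO
  have hne := det_ne77 hk H hD0 hD0c hΔ
  have h12 : ∀ i : Fin 3, i + 1 ≠ i + 2 := by decide
  have h6 := six (b := fun i => P (b i)) (x := fun j => P (x j)) hm
    (hne _ (hb 0) _ (hb 1) _ (hb 2) (hbi.ne (by decide)) (hbi.ne (by decide))
      (hbi.ne (by decide)))
    (fun i j => hne _ (hb _) _ (hb _) _ (hx j) (hbi.ne (h12 i)) (hbx _ _) (hbx _ _))
    (fun l => hm0 _ (hbY l)) (fun l => hm0 _ (hxY l))
  have h7 : (Matrix.of fun i j : Fin 3 =>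
      (ev (p (x j)) (D (insert (b (i + 1)) (insert (b (i + 2)) D0))))⁻¹) =
      Matrix.of fun i j : Fin 3 => (fun i : Fin 3 => (Δ (b (i + 1)) (b (i + 2)))⁻¹) i *
        (Matrix.of fun i j : Fin 3 => (det3 (P (b (i + 1))) (P (b (i + 2))) (P (x j)))⁻¹) i j := by
    ext i j
    simp only [Matrix.of_apply]
    rw [(hΔ _ (hb (i + 1)) _ (hb (i + 2)) (hbi.ne (h12 i))).2.2 (x j), mul_inv]
  rw [h7, Matrix.det_mul_column, h6, mul_zero]

theorem case2 (hk : 3 ≤ k) {S : Finset ι} {p : ι → Fin k → K} {D : Finset ι → K[X]}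
    {c : Finset ι → K} (H : Sys k S p D c) (hS : 2 * k + 2 ≤ S.card) (h0 : LamZero k S p D c) :
    DetZero k S p D := by
  intro D0 hD0 hD0c b x hb hx hbi hxi hbx
  obtain ⟨P, Δ, hΔ⟩ := exists_plane hk H.toGP (by omega) hD0 hD0c
  have hne := det_ne77 hk H.toGP hD0 hD0c hΔ
  have hSD : (S \ D0).card = S.card - (k - 3) := by
    rw [Finset.card_sdiff_of_subset hD0, hD0c]
  obtain ⟨Z, hUZ, hZS, hZc⟩ := Finset.exists_subsuperset_card_eq
    (s := Finset.univ.image b ∪ Finset.univ.image x) (t := S \ D0) (n := k + 3)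
    (by
      intro u hu
      rcases Finset.mem_union.1 hu with h | h
      · obtain ⟨i, -, rfl⟩ := Finset.mem_image.1 h
        exact hb i
      · obtain ⟨i, -, rfl⟩ := Finset.mem_image.1 h
        exact hx i)
    (by
      refine (Finset.card_union_le _ _).trans ?_
      have h1 : (Finset.univ.image b).card ≤ 3 := Finset.card_image_le.trans (by simp)
      have h2 : (Finset.univ.image x).card ≤ 3 := Finset.card_image_le.trans (by simp)
      omega)
    (by omega)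
  have hbZ : ∀ i, b i ∈ Z := fun i =>
    hUZ (Finset.mem_union_left _ (Finset.mem_image_of_mem b (Finset.mem_univ i)))
  have hxZ : ∀ i, x i ∈ Z := fun i =>
    hUZ (Finset.mem_union_right _ (Finset.mem_image_of_mem x (Finset.mem_univ i)))
  obtain ⟨g, hg, g', hg', hgg⟩ : ∃ g ∈ (S \ D0) \ Z, ∃ g' ∈ (S \ D0) \ Z, g ≠ g' := by
    apply Finset.one_lt_card.1
    rw [Finset.card_sdiff_of_subset hZS]
    omega
  rw [Finset.mem_sdiff] at hg hg'
  have hgS := Finset.mem_sdiff.1 hg.1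
  have hgS' := Finset.mem_sdiff.1 hg'.1
  have hZD : ∀ z ∈ Z, z ∉ D0 := fun z hz => (Finset.mem_sdiff.1 (hZS hz)).2
  have hYa : ∀ u ∈ (S \ D0) \ Z, insert u Z ⊆ S ∧ Disjoint D0 (insert u Z) ∧
      (insert u Z).card = k + 4 := by
    intro u hu
    rw [Finset.mem_sdiff] at hu
    have hu' := Finset.mem_sdiff.1 hu.1
    refine ⟨Finset.insert_subset hu'.1 (hZS.trans Finset.sdiff_subset), ?_, ?_⟩
    · rw [Finset.disjoint_right]
      intro v hv
      rcases Finset.mem_insert.1 hv with rfl | hv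
      · exact hu'.2
      · exact hZD v hv
    · rw [Finset.card_insert_of_notMem hu.2, hZc]
  obtain ⟨y1, y2, y3⟩ := hYa g' (Finset.mem_sdiff.2 hg')
  obtain ⟨y1', y2', y3'⟩ := hYa g (Finset.mem_sdiff.2 hg)
  rcases conic_or77 hk H (by omega) h0 hD0 y1 y2 hD0c y3 hΔ with hO | ⟨C, τ, hC, hτ, hw⟩
  · exact fin77 hk H.toGP hD0 hD0c hΔ hb hx hbi hbx hO
      (fun i => Finset.mem_insert_of_mem (hbZ i)) (fun i => Finset.mem_insert_of_mem (hxZ i))
  rcases conic_or77 hk H (by omega) h0 hD0 y1' y2' hD0c y3' hΔ with hO | ⟨C', τ', hC', hτ', hw'⟩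
  · exact fin77 hk H.toGP hD0 hD0c hΔ hb hx hbi hbx hO
      (fun i => Finset.mem_insert_of_mem (hbZ i)) (fun i => Finset.mem_insert_of_mem (hxZ i))
  have hprod : ∀ u v, u ∈ S → u ∉ D0 → u ∉ Z → u ≠ v → ∀ f : ι → K,
      ∏ e ∈ S \ (D0 ∪ insert v Z), f e =
        f u * ∏ e ∈ S \ (D0 ∪ insert u (insert v Z)), f e := by
    intro u v hu1 hu2 hu3 huv f
    have h1 : S \ (D0 ∪ insert v Z) = insert u (S \ (D0 ∪ insert u (insert v Z))) := by
      ext e
      simp only [Finset.mem_sdiff, Finset.mem_union, Finset.mem_insert, not_or]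
      constructor
      · rintro ⟨h1, h2, h3, h4⟩
        by_cases h5 : e = u
        · exact Or.inl h5
        · exact Or.inr ⟨h1, h2, h5, h3, h4⟩
      · rintro (rfl | ⟨h1, h2, h3, h4, h5⟩)
        · exact ⟨hu1, hu2, huv, hu3⟩
        · exact ⟨h1, h2, h4, h5⟩
    rw [h1, Finset.prod_insert]
    simp
  have hO : OnConic P (insert g (insert g' Z)) := by
    have hmemS : ∀ u ∈ insert g (insert g' Z), u ∈ S \ D0 := by
      intro u hu
      rcases Finset.mem_insert.1 hu with rfl | hu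
      · exact hg.1
      rcases Finset.mem_insert.1 hu with rfl | hu
      · exact hg'.1
      exact hZS hu
    refine conic_of_mult (by omega) hg.2 hg'.2 hgg (C := C / C') (F := fun u => τ u / τ' u)
      (fun u hu v hv w hw => hne u (hmemS u hu) v (hmemS v hv) w (hmemS w hw))
      (div_ne_zero hC hC') (fun u hu => div_ne_zero (hτ u (Finset.mem_insert_of_mem hu))
        (hτ' u (Finset.mem_insert_of_mem hu))) ?_
    intro u hu v hv huv
    have e1 := hw u (Finset.mem_insert_of_mem hu) v (Finset.mem_insert_of_mem hv) huv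
    have e2 := hw' u (Finset.mem_insert_of_mem hu) v (Finset.mem_insert_of_mem hv) huv
    unfold wY at e1 e2
    rw [hprod g g' hgS.1 hgS.2 hg.2 hgg] at e1
    rw [hprod g' g hgS'.1 hgS'.2 hg'.2 hgg.symm, Finset.insert_comm g' g] at e2
    obtain ⟨hd, -, hd2⟩ := hΔ u (hZS hu) v (hZS hv) huv
    rw [hd2 g] at e1
    rw [hd2 g'] at e2
    have hu' := hτ' u (Finset.mem_insert_of_mem hu)
    have hv' := hτ' v (Finset.mem_insert_of_mem hv)
    have hdg : det3 (P u) (P v) (P g') ≠ 0 := hne u (hZS hu) v (hZS hv) g' hg'.1 huv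
      (fun h => hg'.2 (h ▸ hv)) (fun h => hg'.2 (h ▸ hu))
    have hQ : c (insert u (insert v D0)) *
        (∏ e ∈ S \ (D0 ∪ insert g (insert g' Z)), ev (p e) (D (insert u (insert v D0)))) ≠ 0 := by
      intro h
      have h3 : C' * τ' u * τ' v = 0 := by
        rw [← e2]
        linear_combination Δ u v ^ 3 * det3 (P u) (P v) (P g') * h
      exact mul_ne_zero (mul_ne_zero hC' hu') hv' h3
    obtain ⟨q, hq⟩ : ∃ q, q = c (insert u (insert v D0)) *
        (∏ e ∈ S \ (D0 ∪ insert g (insert g' Z)), ev (p e) (D (insert u (insert v D0)))) :=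
      ⟨_, rfl⟩
    rw [← hq] at hQ
    have e1' : q * Δ u v ^ 3 * det3 (P u) (P v) (P g) = C * τ u * τ v := by
      rw [← e1, hq]
      ring
    have e2' : q * Δ u v ^ 3 * det3 (P u) (P v) (P g') = C' * τ' u * τ' v := by
      rw [← e2, hq]
      ring
    have hqd : q * Δ u v ^ 3 ≠ 0 := mul_ne_zero hQ (pow_ne_zero 3 hd)
    apply mul_left_cancel₀ hqd
    rw [e1']
    have e3 : q * Δ u v ^ 3 * (C / C' * (τ u / τ' u) * (τ v / τ' v) * det3 (P u) (P v) (P g')) =
        C / C' * (τ u / τ' u) * (τ v / τ' v) *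
          (q * Δ u v ^ 3 * det3 (P u) (P v) (P g')) := by ring
    rw [e3, e2']
    field_simp
  exact fin77 hk H.toGP hD0 hD0c hΔ hb hx hbi hbx hO
    (fun i => Finset.mem_insert_of_mem (Finset.mem_insert_of_mem (hbZ i)))
    (fun i => Finset.mem_insert_of_mem (Finset.mem_insert_of_mem (hxZ i)))

end

end Pool.Agent.Helper31.RN
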