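import Pool.Agent.Helper31.RN.Defs

/-!
# RN-1A: sums over the sets `B` disjoint from `I`

For `J ⊆ G`, `|J| ≤ k-2`, put `H(J) = ∑_{J ⊆ B} h B` (`B ⊆ G`, `|B| = k-1`). `H(J) = 0` by descending
induction on `|J|`: for `|J| = k-2` this is `seg`; for `|J| < k-2`,
`(k-1-|J|) H(J) = ∑_{y ∈ G \ J} H(insert y J)` (each `B ⊇ J` contains `k-1-|J|` elements outside `J`) and
`0 < k-1-|J| < k`, so `(k-1-|J| : K) ≠ 0` (`NZ`). Then `T(J,I) = ∑_{J ⊆ B, B ∩ I = ∅} h B = 0` for `|J|+|I| ≤ k-2`
by induction on `|I|`: `T(J, insert y I) = T(J,I) - T(insert y J, I)` for `y ∉ J`, `y ∉ I`. Take `J = ∅`.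
-/

open Polynomial

namespace Pool.Agent.Helper31.RN

noncomputable section

variable {K : Type*} [Field K] {ι : Type*} [DecidableEq ι] {k : ℕ}

/-- double counting over the sets containing `J` -/
theorem compl_count {M : Type*} [AddCommGroup M] {n : ℕ} (G : Finset ι)
    (h : Finset ι → M) (J : Finset ι) (_hJ : J.card ≤ n) :
    ∑ y ∈ G \ J, ∑ B ∈ (G.powersetCard n).filter (fun B => insert y J ⊆ B), h B =
      (n - J.card) • ∑ B ∈ (G.powersetCard n).filter (fun B => J ⊆ B), h B := by
  classical
  simp only [Finset.sum_filter]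
  rw [Finset.sum_comm, Finset.smul_sum]
  refine Finset.sum_congr rfl fun B hB => ?_
  rw [Finset.mem_powersetCard] at hB
  by_cases hJB : J ⊆ B
  · rw [if_pos hJB, ← Finset.sum_filter, Finset.sum_const]
    congr 1
    have : (G \ J).filter (fun y => insert y J ⊆ B) = B \ J := by
      ext y
      simp only [Finset.mem_filter, Finset.mem_sdiff, Finset.insert_subset_iff]
      constructor
      · rintro ⟨⟨_, h2⟩, h3, _⟩
        exact ⟨h3, h2⟩
      · rintro ⟨h1, h2⟩
        exact ⟨⟨hB.1 h1, h2⟩, h1, hJB⟩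
    rw [this, Finset.card_sdiff_of_subset hJB, hB.2]
  · rw [if_neg hJB, smul_zero]
    refine Finset.sum_eq_zero fun y _ => ?_
    rw [if_neg fun h' => hJB ((Finset.subset_insert y J).trans h')]

/-- the sum over all sets containing `J` is zero -/
theorem compl_H {M : Type*} [AddCommGroup M] [Module K M] (hk : 2 ≤ k) (hNZ : NZ K k)
    (G : Finset ι) (h : Finset ι → M)
    (hseg : ∀ A ⊆ G, A.card = k - 2 → ∑ y ∈ G \ A, h (insert y A) = 0) (d : ℕ) :
    ∀ J ⊆ G, J.card + d = k - 2 →
      ∑ B ∈ (G.powersetCard (k - 1)).filter (fun B => J ⊆ B), h B = 0 := by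
  classical
  induction d with
  | zero =>
    intro J hJ hc
    have h1 := compl_count (n := k - 1) G h J (by omega)
    have h2 : k - 1 - J.card = 1 := by omega
    rw [h2, one_smul] at h1
    rw [← h1, ← hseg J hJ (by omega)]
    refine Finset.sum_congr rfl fun y hy => ?_
    rw [Finset.mem_sdiff] at hy
    have h3 : (G.powersetCard (k - 1)).filter (fun B => insert y J ⊆ B) = {insert y J} := by
      ext B
      rw [Finset.mem_filter, Finset.mem_powersetCard, Finset.mem_singleton]
      constructor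
      · rintro ⟨⟨_, h4⟩, h5⟩
        refine (Finset.eq_of_subset_of_card_le h5 ?_).symm
        rw [Finset.card_insert_of_notMem hy.2]
        omega
      · rintro rfl
        refine ⟨⟨Finset.insert_subset hy.1 hJ, ?_⟩, subset_rfl⟩
        rw [Finset.card_insert_of_notMem hy.2]
        omega
    rw [h3, Finset.sum_singleton]
  | succ d ih =>
    intro J hJ hc
    have h1 := compl_count (n := k - 1) G h J (by omega)
    have h2 : ∑ y ∈ G \ J, ∑ B ∈ (G.powersetCard (k - 1)).filter (fun B => insert y J ⊆ B),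
        h B = 0 := by
      refine Finset.sum_eq_zero fun y hy => ?_
      rw [Finset.mem_sdiff] at hy
      refine ih _ (Finset.insert_subset hy.1 hJ) ?_
      rw [Finset.card_insert_of_notMem hy.2]
      omega
    rw [h2, ← Nat.cast_smul_eq_nsmul K] at h1
    rcases smul_eq_zero.mp h1.symm with h3 | h3
    · exact absurd h3 (hNZ _ (by omega) (by omega))
    · exact h3

/-- inclusion and exclusion -/
theorem compl_T {M : Type*} [AddCommGroup M] [Module K M] (hk : 2 ≤ k) (hNZ : NZ K k)
    (G : Finset ι) (h : Finset ι → M)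
    (hseg : ∀ A ⊆ G, A.card = k - 2 → ∑ y ∈ G \ A, h (insert y A) = 0) (I : Finset ι) :
    I ⊆ G → ∀ J ⊆ G, J.card + I.card ≤ k - 2 →
      ∑ B ∈ (G.powersetCard (k - 1)).filter (fun B => J ⊆ B ∧ Disjoint B I), h B = 0 := by
  classical
  induction I using Finset.induction_on with
  | empty =>
    intro _ J hJ hc
    simp only [Finset.disjoint_empty_right, and_true]
    rw [Finset.card_empty] at hc
    exact compl_H hk hNZ G h hseg (k - 2 - J.card) J hJ (by omega)
  | insert y I hy ih =>
    intro hI J hJ hc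
    rw [Finset.card_insert_of_notMem hy] at hc
    have hI' : I ⊆ G := (Finset.subset_insert y I).trans hI
    have hyG : y ∈ G := hI (Finset.mem_insert_self y I)
    have h1 := ih hI' J hJ (by omega)
    have h2 := ih hI' (insert y J) (Finset.insert_subset hyG hJ) (by
      have := Finset.card_insert_le y J
      omega)
    rw [← Finset.sum_filter_add_sum_filter_not _ (fun B => y ∈ B)] at h1
    rw [Finset.filter_filter, Finset.filter_filter] at h1
    have h3 : (G.powersetCard (k - 1)).filter (fun B => (J ⊆ B ∧ Disjoint B I) ∧ y ∈ B) =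
        (G.powersetCard (k - 1)).filter (fun B => insert y J ⊆ B ∧ Disjoint B I) := by
      refine Finset.filter_congr fun B _ => ?_
      rw [Finset.insert_subset_iff]
      tauto
    have h4 : (G.powersetCard (k - 1)).filter (fun B => (J ⊆ B ∧ Disjoint B I) ∧ ¬ y ∈ B) =
        (G.powersetCard (k - 1)).filter (fun B => J ⊆ B ∧ Disjoint B (insert y I)) := by
      refine Finset.filter_congr fun B _ => ?_
      rw [Finset.disjoint_insert_right]
      tauto
    rw [h3, h4, h2, zero_add] at h1
    exact h1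

theorem L1.sum_compl {G : Finset ι} {p : ι → Fin k → K} {h : Finset ι → K[X]} (hk : 2 ≤ k)
    (hNZ : NZ K k) (H : L1 k G p h) {I : Finset ι} (hI : I ⊆ G) (hIc : I.card ≤ k - 2) :
    ∑ B ∈ (G \ I).powersetCard (k - 1), h B = 0 := by
  classical
  have h1 := compl_T hk hNZ G h H.seg I hI ∅ (Finset.empty_subset G) (by simpa using hIc)
  rw [← h1]
  refine Finset.sum_congr ?_ fun _ _ => rfl
  ext B
  rw [Finset.mem_filter, Finset.mem_powersetCard, Finset.mem_powersetCard,
    Finset.subset_sdiff]
  constructor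
  · rintro ⟨⟨h2, h3⟩, h4⟩
    exact ⟨⟨h2, h4⟩, Finset.empty_subset B, h3⟩
  · rintro ⟨⟨h2, h4⟩, _, h3⟩
    exact ⟨⟨h2, h3⟩, h4⟩

end

end Pool.Agent.Helper31.RN
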