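import Pool.Agent.Helper31.RN.Plane

/-!
# RN-8B: multiplicative or on a conic

`Y` points of the plane (vectors `P e`), no three collinear, `|Y| ≥ 5`; `R` a space of functions on `Y` such that a function of `R` with four zeros in `Y` is zero on `Y`;
`w` symmetric and nonzero off the diagonal; for `b ∈ Y` and every form `ψ` of `K³` with `ψ(P b) = 0` the function `e ↦ w b e ψ(P e)` (zero at `b`) is in `R`.
If for all `b ≠ b'` in `Y` the function `w b' e / w b e` is constant on `Y \ {b, b'}` then `w` is multiplicative: fix `z ∈ Y`, `w x y = c_x w z y` for `y ≠ x, z`, symmetry gives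
`c_x w z y = c_y w z x`, so `w z x = C c_x`, put `c_z = 1`. Otherwise fix `b ≠ b'` with `t e = w b' e / w b e` not constant on `X = Y \ {b, b'}`.
Forms `X1, X2, X3` on `K³` with `X1(b) = 1, X2(b) = 0, X3(b) = 0`, `X1(b') = 0, X2(b') = 1, X3(b') = 0`, `X3(e) ≠ 0` for `e ∈ X`
(dual basis to `P b, P b', P e₀` for some `e₀ ∈ X`; `X3` is proportional to `det3 (P b) (P b') ·`). `x_e = X1(e)/X3(e)`, `y_e = X2(e)/X3(e)`. `ω = w b b'`, `v_e = w b e * X3(e)`. In `R`:
 `r1`: `v_e` on `X`, `0` at `b, b'`;  `r2`: `t_e v_e` on `X`, `0` at `b, b'`;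
 `r3`: `v_e y_e` on `X`, `0` at `b`, `ω` at `b'`;  `r4`: `t_e v_e x_e` on `X`, `ω` at `b`, `0` at `b'`
(from `b` with `X3`, `b'` with `X3`, `b` with `X2`, `b'` with `X1`). `t` is injective on `X`: `r2 - t_c r1` vanishes at `b, b', c`; one more zero would make it zero, so `t` constant.
For `c ∈ X`, `ψ = X2 - y_c X3`: the function `w c e X3(e) (y_e - y_c)` on `X` (`0` at `c`), `0` at `b`, `w c b' = t_c w b c` at `b'`. Subtract `γ_c r3` with `γ_c = t_c (w b c)/ω` and
`α r1 + β_c r2` chosen so that it vanishes at `c` and at one more point `e₀ ∈ X`: four zeros `b, b', c, e₀`, so (dividing by `X3(e)`)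
 (I) `w c e (y_e - y_c) = w b e (β_c (t_e - t_c) + γ_c (y_e - y_c))` for `e ∈ X`.
For `ψ = X1 - x_c X3`: `w c b` at `b`, `0` at `b'`; subtract `δ_c r4`, `δ_c = (w b c)/ω`:
 (II) `w c e (x_e - x_c) = w b e (β'_c (t_e - t_c) + δ_c (x_e t_e - x_c t_c))`.
`y_e ≠ y_c`, `x_e ≠ x_c` for `e ≠ c` in `X` (`det3 (P b) (P c) (P e) ≠ 0`, `det3 (P b') ..`). With `m(c,e) = ω w c e / (w b c * w b e)` (symmetric), `B_c = ω β_c / w b c`, `B'_c = x_c + ω β'_c / w b c`:
 `m(c,e) = t_c + B_c (t_e - t_c)/(y_e - y_c) = t_e + B'_c (t_e - t_c)/(x_e - x_c)`.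
Symmetry in `(c,e)`: `B_c + y_c = β` and `B'_c - x_c = - β'` are constant. Equality of both: `(β - y_c)/(y_e - y_c) = (x_e - β')/(x_e - x_c)`, i.e.
`(x_e - β')(β - y_e) = (x_c - β')(β - y_c) = C`. The conic `(X1 - β' X3)(β X3 - X2) - C X3²` contains `P e` for `e ∈ Y` (`b`, `b'`: both products are zero), and its value at
`P b + P b'` is `-1`.
-/

open Polynomial

namespace Pool.Agent.Helper31.RN

noncomputable section

variable {K : Type*} [Field K] {ι : Type*} [DecidableEq ι] {k : ℕ}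

/-- the vectors `P e`, `e ∈ Y`, lie on a conic (a nonzero quadratic form `∑ m_{ij} u_i u_j`) -/
def OnConic (P : ι → Fin 3 → K) (Y : Finset ι) : Prop :=
  ∃ m : Fin 3 → Fin 3 → K, (∃ u : Fin 3 → K, ∑ i, ∑ j, m i j * u i * u j ≠ 0) ∧
    ∀ e ∈ Y, ∑ i, ∑ j, m i j * P e i * P e j = 0

private theorem core38 {X : Finset ι} {b b' : ι} (hbb : b ≠ b') (hbX : b ∉ X) (hb'X : b' ∉ X)
    {R : Submodule K (ι → K)}
    (hR : ∀ r ∈ R, r b = 0 → r b' = 0 → ∀ c ∈ X, ∀ e ∈ X, c ≠ e → r c = 0 → r e = 0 →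
      ∀ u ∈ X, r u = 0)
    {w : ι → ι → K} {x1 x2 x3 : ι → K}
    (hrel : ∀ c, (c = b ∨ c = b' ∨ c ∈ X) → ∀ α β γ : K, α * x1 c + β * x2 c + γ * x3 c = 0 →
      (fun e => if e = c then 0 else w c e * (α * x1 e + β * x2 e + γ * x3 e)) ∈ R)
    (hb1 : x1 b = 1) (hb2 : x2 b = 0) (hb3 : x3 b = 0)
    (hc1 : x1 b' = 0) (hc2 : x2 b' = 1) (hc3 : x3 b' = 0)
    (h3 : ∀ e ∈ X, x3 e ≠ 0)
    (hω : w b b' ≠ 0) (hwb : ∀ e ∈ X, w b e ≠ 0) (hsω : w b' b = w b b')
    (hsb : ∀ e ∈ X, w e b = w b e) (hsb' : ∀ e ∈ X, w e b' = w b' e)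
    (hs : ∀ c ∈ X, ∀ e ∈ X, c ≠ e → w c e = w e c)
    (ht : ∃ e ∈ X, ∃ e' ∈ X, w b' e * w b e' ≠ w b' e' * w b e) :
    ∃ β β' C : K, ∀ e ∈ X, (x1 e - β' * x3 e) * (β * x3 e - x2 e) = C * x3 e ^ 2 := by
  obtain ⟨t, htd⟩ : ∃ t : ι → K, ∀ e ∈ X, w b' e = t e * w b e :=
    ⟨fun e => w b' e / w b e, fun e he => (div_mul_cancel₀ _ (hwb e he)).symm⟩
  obtain ⟨x, hx⟩ : ∃ x : ι → K, ∀ e ∈ X, x1 e = x e * x3 e :=
    ⟨fun e => x1 e / x3 e, fun e he => (div_mul_cancel₀ _ (h3 e he)).symm⟩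
  obtain ⟨y, hy⟩ : ∃ y : ι → K, ∀ e ∈ X, x2 e = y e * x3 e :=
    ⟨fun e => x2 e / x3 e, fun e he => (div_mul_cancel₀ _ (h3 e he)).symm⟩
  have neb : ∀ e ∈ X, e ≠ b := fun e he h => hbX (h ▸ he)
  have neb' : ∀ e ∈ X, e ≠ b' := fun e he h => hb'X (h ▸ he)
  -- the relations `r1`, `r2`, `r3`, `r4`
  have r1 := hrel b (Or.inl rfl) 0 0 1 (by rw [hb3]; ring)
  have r2 := hrel b' (Or.inr (Or.inl rfl)) 0 0 1 (by rw [hc3]; ring)
  have r3 := hrel b (Or.inl rfl) 0 1 0 (by rw [hb2]; ring)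
  have r4 := hrel b' (Or.inr (Or.inl rfl)) 1 0 0 (by rw [hc1]; ring)
  -- `t` is injective
  have hinj : ∀ c ∈ X, ∀ e ∈ X, c ≠ e → t e - t c ≠ 0 := by
    intro c hc e he hce h0
    have hr := R.sub_mem r2 (R.smul_mem (t c) r1)
    have key : ∀ u ∈ X, w b' u = t c * w b u := by
      intro u hu
      have h := hR _ hr ?_ ?_ c hc e he hce ?_ ?_ u hu
      · simp only [Pi.sub_apply, Pi.smul_apply, smul_eq_mul, if_neg (neb u hu),
          if_neg (neb' u hu), zero_mul, zero_add, one_mul] at h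
        have h' : (w b' u - t c * w b u) * x3 u = 0 := by linear_combination h
        exact sub_eq_zero.1 ((mul_eq_zero.1 h').resolve_right (h3 u hu))
      · simp [hbb, hb3]
      · simp [hbb.symm, hc3]
      · simp only [Pi.sub_apply, Pi.smul_apply, smul_eq_mul, if_neg (neb c hc),
          if_neg (neb' c hc), zero_mul, zero_add, one_mul, htd c hc]
        ring
      · simp only [Pi.sub_apply, Pi.smul_apply, smul_eq_mul, if_neg (neb e he),
          if_neg (neb' e he), zero_mul, zero_add, one_mul, htd e he]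
        linear_combination (w b e * x3 e) * h0
    obtain ⟨e1, he1, e2, he2, hne⟩ := ht
    apply hne
    rw [key e1 he1, key e2 he2]
    ring
  obtain ⟨c0, hc0, e0, he0, hce0⟩ : ∃ c ∈ X, ∃ e ∈ X, c ≠ e := by
    obtain ⟨e1, he1, e2, he2, hne⟩ := ht
    exact ⟨e1, he1, e2, he2, fun h => hne (by rw [h])⟩
  -- elements of `R` with zeros at `b`, `b'`
  have lemA : ∀ r ∈ R, r b = 0 → r b' = 0 →
      ∃ α β : K, ∀ e ∈ X, r e = w b e * x3 e * (α + β * t e) := by
    intro r hr hrb hrb'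
    have hv : ∀ e ∈ X, w b e * x3 e ≠ 0 := fun e he => mul_ne_zero (hwb e he) (h3 e he)
    obtain ⟨p, hp⟩ : ∃ p : K, r c0 = w b c0 * x3 c0 * p :=
      ⟨r c0 / (w b c0 * x3 c0), (mul_div_cancel₀ _ (hv c0 hc0)).symm⟩
    obtain ⟨q, hq⟩ : ∃ q : K, r e0 = w b e0 * x3 e0 * q :=
      ⟨r e0 / (w b e0 * x3 e0), (mul_div_cancel₀ _ (hv e0 he0)).symm⟩
    have hd := hinj c0 hc0 e0 he0 hce0
    obtain ⟨β, hβ⟩ : ∃ β : K, q - p = β * (t e0 - t c0) :=
      ⟨(q - p) / (t e0 - t c0), (div_mul_cancel₀ _ hd).symm⟩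
    refine ⟨p - β * t c0, β, ?_⟩
    have hr' := R.sub_mem hr (R.add_mem (R.smul_mem (p - β * t c0) r1) (R.smul_mem β r2))
    intro e he
    have h := hR _ hr' ?_ ?_ c0 hc0 e0 he0 hce0 ?_ ?_ e he
    · simp only [Pi.sub_apply, Pi.add_apply, Pi.smul_apply, smul_eq_mul, if_neg (neb e he),
          if_neg (neb' e he), zero_mul, zero_add, one_mul, htd e he] at h
      linear_combination h
    · simp [hbb, hb3, hrb]
    · simp [hbb.symm, hc3, hrb']
    · simp only [Pi.sub_apply, Pi.add_apply, Pi.smul_apply, smul_eq_mul, if_neg (neb c0 hc0),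
          if_neg (neb' c0 hc0), zero_mul, zero_add, one_mul, htd c0 hc0, hp]
      ring
    · simp only [Pi.sub_apply, Pi.add_apply, Pi.smul_apply, smul_eq_mul, if_neg (neb e0 he0),
          if_neg (neb' e0 he0), zero_mul, zero_add, one_mul, htd e0 he0, hq]
      linear_combination (w b e0 * x3 e0) * hβ
  -- (I)
  have hI : ∀ c ∈ X, ∃ B : K, ∀ e ∈ X, e ≠ c → w b b' * w c e * (y e - y c) =
      w b c * w b e * (t c * (y e - y c) + B * (t e - t c)) := by
    intro c hc
    have hp := hrel c (Or.inr (Or.inr hc)) 0 1 (- y c) (by rw [hy c hc]; ring)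
    obtain ⟨γ, hγ⟩ : ∃ γ : K, w c b' = γ * w b b' :=
      ⟨w c b' / w b b', (div_mul_cancel₀ _ hω).symm⟩
    have hr := R.sub_mem hp (R.smul_mem γ r3)
    obtain ⟨α, β, hA⟩ := lemA _ hr (by simp [(neb c hc).symm, hb2, hb3])
      (by simp [(neb' c hc).symm, hbb.symm, hc2, hc3, hγ])
    obtain ⟨B, hB⟩ : ∃ B : K, w b b' * β = B * w b c :=
      ⟨w b b' * β / w b c, (div_mul_cancel₀ _ (hwb c hc)).symm⟩
    refine ⟨B, fun e he hec => ?_⟩
    have h1 := hA e he
    have h2 := hA c hc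
    simp only [Pi.sub_apply, Pi.smul_apply, smul_eq_mul, if_neg (neb e he), if_neg hec,
      zero_mul, zero_add, one_mul, add_zero, hy e he] at h1
    simp only [Pi.sub_apply, Pi.smul_apply, smul_eq_mul, if_neg (neb c hc), if_true,
      zero_mul, zero_add, one_mul, add_zero, hy c hc] at h2
    have h2' : α = - γ * y c - β * t c := by
      have h : w b c * x3 c * (α - (- γ * y c - β * t c)) = 0 := by linear_combination - h2
      exact sub_eq_zero.1 ((mul_eq_zero.1 h).resolve_left (mul_ne_zero (hwb c hc) (h3 c hc)))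
    have h1' : w c e * (y e - y c) = w b e * (γ * (y e - y c) + β * (t e - t c)) := by
      have h : x3 e * (w c e * (y e - y c) - w b e * (γ * (y e - y c) + β * (t e - t c))) = 0 := by
        linear_combination h1 + w b e * x3 e * h2'
      exact sub_eq_zero.1 ((mul_eq_zero.1 h).resolve_left (h3 e he))
    rw [hsb' c hc, htd c hc] at hγ
    linear_combination w b b' * h1' + w b e * (t e - t c) * hB - w b e * (y e - y c) * hγ
  -- (II)
  have hII : ∀ c ∈ X, ∃ B : K, ∀ e ∈ X, e ≠ c → w b b' * w c e * (x e - x c) =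
      w b c * w b e * (t e * (x e - x c) + B * (t e - t c)) := by
    intro c hc
    have hp := hrel c (Or.inr (Or.inr hc)) 1 0 (- x c) (by rw [hx c hc]; ring)
    obtain ⟨δ, hδ⟩ : ∃ δ : K, w c b = δ * w b b' :=
      ⟨w c b / w b b', (div_mul_cancel₀ _ hω).symm⟩
    have hr := R.sub_mem hp (R.smul_mem δ r4)
    obtain ⟨α, β, hA⟩ := lemA _ hr (by simp [(neb c hc).symm, hbb, hb1, hb3, hsω, hδ])
      (by simp [(neb' c hc).symm, hc1, hc3])
    obtain ⟨B, hB⟩ : ∃ B : K, w b b' * β = B * w b c :=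
      ⟨w b b' * β / w b c, (div_mul_cancel₀ _ (hwb c hc)).symm⟩
    refine ⟨x c + B, fun e he hec => ?_⟩
    have h1 := hA e he
    have h2 := hA c hc
    simp only [Pi.sub_apply, Pi.smul_apply, smul_eq_mul, if_neg (neb' e he), if_neg hec,
      zero_mul, one_mul, add_zero, hx e he, htd e he] at h1
    simp only [Pi.sub_apply, Pi.smul_apply, smul_eq_mul, if_neg (neb' c hc), if_true,
      zero_mul, one_mul, add_zero, hx c hc, htd c hc] at h2
    have h2' : α = - δ * t c * x c - β * t c := by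
      have h : w b c * x3 c * (α - (- δ * t c * x c - β * t c)) = 0 := by linear_combination - h2
      exact sub_eq_zero.1 ((mul_eq_zero.1 h).resolve_left (mul_ne_zero (hwb c hc) (h3 c hc)))
    have h1' : w c e * (x e - x c) = w b e * (δ * (t e * x e - t c * x c) + β * (t e - t c)) := by
      have h : x3 e * (w c e * (x e - x c) -
          w b e * (δ * (t e * x e - t c * x c) + β * (t e - t c))) = 0 := by
        linear_combination h1 + w b e * x3 e * h2'
      exact sub_eq_zero.1 ((mul_eq_zero.1 h).resolve_left (h3 e he))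
    rw [hsb c hc] at hδ
    linear_combination w b b' * h1' + w b e * (t e - t c) * hB -
      w b e * (t e * x e - t c * x c) * hδ
  choose! B hB using hI
  choose! B' hB' using hII
  have hm : ∀ c ∈ X, ∀ e ∈ X, c ≠ e → B e + y e = B c + y c ∧ B' e - x e = B' c - x c ∧
      (x e - x c) * B c = (y e - y c) * (x e - x c + B' c) := by
    intro c hc e he hce
    have hd := hinj c hc e he hce
    have hv : w b c * w b e * (t e - t c) ≠ 0 :=
      mul_ne_zero (mul_ne_zero (hwb c hc) (hwb e he)) hd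
    have a1 := hB c hc e he hce.symm
    have a2 := hB e he c hc hce
    have a3 := hB' c hc e he hce.symm
    have a4 := hB' e he c hc hce
    rw [hs e he c hc hce.symm] at a2 a4
    refine ⟨?_, ?_, ?_⟩
    · have h : w b c * w b e * (t e - t c) * ((B e + y e) - (B c + y c)) = 0 := by
        linear_combination a1 + a2
      exact sub_eq_zero.1 ((mul_eq_zero.1 h).resolve_left hv)
    · have h : w b c * w b e * (t e - t c) * ((B' e - x e) - (B' c - x c)) = 0 := by
        linear_combination a3 + a4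
      exact sub_eq_zero.1 ((mul_eq_zero.1 h).resolve_left hv)
    · have h : w b c * w b e * (t e - t c) *
          ((x e - x c) * B c - (y e - y c) * (x e - x c + B' c)) = 0 := by
        linear_combination (y e - y c) * a3 - (x e - x c) * a1
      exact sub_eq_zero.1 ((mul_eq_zero.1 h).resolve_left hv)
  refine ⟨B c0 + y c0, x c0 - B' c0, B' c0 * B c0, fun e he => ?_⟩
  rw [hx e he, hy e he]
  by_cases hec : e = c0
  · rw [hec]
    ring
  · obtain ⟨-, -, m3⟩ := hm c0 hc0 e he (fun h => hec h.symm)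
    linear_combination x3 e ^ 2 * m3

private theorem mult38 {Y : Finset ι} (hY : 3 ≤ Y.card) {w : ι → ι → K}
    (hw : ∀ x ∈ Y, ∀ y ∈ Y, x ≠ y → w x y ≠ 0)
    (hsym : ∀ x ∈ Y, ∀ y ∈ Y, x ≠ y → w x y = w y x)
    (h : ∀ b ∈ Y, ∀ b' ∈ Y, b ≠ b' → ∀ e ∈ Y, ∀ e' ∈ Y, e ≠ b → e ≠ b' → e' ≠ b → e' ≠ b' →
      w b' e * w b e' = w b' e' * w b e) :
    ∃ (C : K) (τ : ι → K), C ≠ 0 ∧ (∀ x ∈ Y, τ x ≠ 0) ∧
      ∀ x ∈ Y, ∀ y ∈ Y, x ≠ y → w x y = C * τ x * τ y := by
  obtain ⟨z, a, a', hz, ha, ha', hza, hza', haa'⟩ := Finset.two_lt_card_iff.1 hY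
  have w1 := hw a ha z hz hza.symm
  have w2 := hw a' ha' z hz hza'.symm
  have w3 := hw a ha a' ha' haa'
  -- constancy
  have k1 : ∀ x ∈ Y, x ≠ z → x ≠ a → w a x * w a' z = w a a' * w x z := by
    intro x hx hxz hxa
    by_cases hxa' : x = a'
    · rw [hxa']
    · have h1 := h a ha z hz hza.symm x hx a' ha' hxa hxz haa'.symm hza'.symm
      rw [hsym z hz x hx hxz.symm, hsym z hz a' ha' hza'] at h1
      linear_combination - h1
  have k2 : ∀ x ∈ Y, ∀ y ∈ Y, x ≠ y → x ≠ z → y ≠ z →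
      w x y * (w a z * w a' z) = w a a' * w x z * w y z := by
    intro x hx y hy hxy hxz hyz
    by_cases hxa : x = a
    · subst hxa
      have h1 := k1 y hy hyz hxy.symm
      linear_combination w x z * h1
    · by_cases hya : y = a
      · subst hya
        have h1 := k1 x hx hxz hxy
        rw [hsym x hx y hy hxy]
        linear_combination w y z * h1
      · have h1 := h x hx z hz hxz y hy a ha hxy.symm hyz (fun h => hxa h.symm) hza.symm
        rw [hsym z hz y hy hyz.symm, hsym z hz a ha hza, hsym x hx a ha hxa] at h1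
        have h2 := k1 x hx hxz hxa
        linear_combination - w a' z * h1 + w y z * h2
  have hC : w a a' / (w a z * w a' z) ≠ 0 := div_ne_zero w3 (mul_ne_zero w1 w2)
  refine ⟨w a a' / (w a z * w a' z),
    fun x => if x = z then (w a a' / (w a z * w a' z))⁻¹ else w x z, hC, ?_, ?_⟩
  · intro x hx
    simp only
    split_ifs with hxz
    · exact inv_ne_zero hC
    · exact hw x hx z hz hxz
  · intro x hx y hy hxy
    simp only
    split_ifs with hxz hyz hyz
    · exact absurd (hxz.trans hyz.symm) hxy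
    · rw [mul_inv_cancel₀ hC, one_mul, hxz, hsym z hz y hy (fun h => hyz h.symm)]
    · rw [mul_assoc, mul_comm (w x z), ← mul_assoc, mul_inv_cancel₀ hC, one_mul, hyz]
    · rw [div_mul_eq_mul_div, div_mul_eq_mul_div, eq_div_iff (mul_ne_zero w1 w2)]
      exact k2 x hx y hy hxy hxz hyz

/-- the form `det3 · v w` -/
private def cf38 (v w : Fin 3 → K) : Fin 3 → K :=
  ![v 1 * w 2 - v 2 * w 1, v 2 * w 0 - v 0 * w 2, v 0 * w 1 - v 1 * w 0]

private theorem cf_apply38 (u v w : Fin 3 → K) : ∑ i, cf38 v w i * u i = det3 u v w := by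
  simp only [cf38, det3, Fin.sum_univ_three, Matrix.cons_val_zero, Matrix.cons_val_one,
    Matrix.cons_val]
  ring

theorem conic_or_mult {Y : Finset ι} (hY : 5 ≤ Y.card) {P : ι → Fin 3 → K}
    (hP : ∀ x ∈ Y, ∀ y ∈ Y, ∀ u ∈ Y, x ≠ y → y ≠ u → x ≠ u → det3 (P x) (P y) (P u) ≠ 0)
    {R : Submodule K (ι → K)}
    (hR : ∀ r ∈ R, ∀ Z ⊆ Y, Z.card = 4 → (∀ e ∈ Z, r e = 0) → ∀ e ∈ Y, r e = 0)
    {w : ι → ι → K} (hw : ∀ x ∈ Y, ∀ y ∈ Y, x ≠ y → w x y ≠ 0)
    (hsym : ∀ x ∈ Y, ∀ y ∈ Y, x ≠ y → w x y = w y x)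
    (hrel : ∀ b ∈ Y, ∀ ψ : Fin 3 → K, ∑ i, ψ i * P b i = 0 →
      (fun e => if e = b then 0 else w b e * ∑ i, ψ i * P e i) ∈ R) :
    OnConic P Y ∨ ∃ (C : K) (τ : ι → K), C ≠ 0 ∧ (∀ x ∈ Y, τ x ≠ 0) ∧
      ∀ x ∈ Y, ∀ y ∈ Y, x ≠ y → w x y = C * τ x * τ y := by
  by_cases hall : ∀ b ∈ Y, ∀ b' ∈ Y, b ≠ b' → ∀ e ∈ Y, ∀ e' ∈ Y, e ≠ b → e ≠ b' → e' ≠ b →
      e' ≠ b' → w b' e * w b e' = w b' e' * w b e
  · exact Or.inr (mult38 (by omega) hw hsym hall)
  left
  push Not at hall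
  obtain ⟨b, hb, b', hb', hbb, e1, he1, e2, he2, h1b, h1b', h2b, h2b', hne⟩ := hall
  -- the coordinates
  have hd : det3 (P b) (P b') (P e1) ≠ 0 := hP b hb b' hb' e1 he1 hbb h1b'.symm h1b.symm
  set d := det3 (P b) (P b') (P e1) with hdef
  set a1 : Fin 3 → K := fun i => d⁻¹ * cf38 (P b') (P e1) i with ha1
  set a2 : Fin 3 → K := fun i => d⁻¹ * cf38 (P e1) (P b) i with ha2
  set a3 : Fin 3 → K := fun i => d⁻¹ * cf38 (P b) (P b') i with ha3
  have f1 : ∀ u : Fin 3 → K, ∑ i, a1 i * u i = d⁻¹ * det3 u (P b') (P e1) := by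
    intro u
    rw [← cf_apply38, Finset.mul_sum]
    exact Finset.sum_congr rfl fun i _ => by rw [ha1]; ring
  have f2 : ∀ u : Fin 3 → K, ∑ i, a2 i * u i = d⁻¹ * det3 u (P e1) (P b) := by
    intro u
    rw [← cf_apply38, Finset.mul_sum]
    exact Finset.sum_congr rfl fun i _ => by rw [ha2]; ring
  have f3 : ∀ u : Fin 3 → K, ∑ i, a3 i * u i = d⁻¹ * det3 u (P b) (P b') := by
    intro u
    rw [← cf_apply38, Finset.mul_sum]
    exact Finset.sum_congr rfl fun i _ => by rw [ha3]; ring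
  have hX : ∀ e, e ∈ (Y.erase b).erase b' ↔ e ≠ b' ∧ e ≠ b ∧ e ∈ Y := by
    intro e
    rw [Finset.mem_erase, Finset.mem_erase]
  have v1b : ∑ i, a1 i * P b i = 1 := by rw [f1]; exact inv_mul_cancel₀ hd
  have v1b' : ∑ i, a1 i * P b' i = 0 := by rw [f1]; simp only [det3]; ring
  have v2b : ∑ i, a2 i * P b i = 0 := by rw [f2]; simp only [det3]; ring
  have v2b' : ∑ i, a2 i * P b' i = 1 := by
    rw [f2]
    have : det3 (P b') (P e1) (P b) = d := by rw [hdef]; simp only [det3]; ring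
    rw [this]
    exact inv_mul_cancel₀ hd
  have v3b : ∑ i, a3 i * P b i = 0 := by rw [f3]; simp only [det3]; ring
  have v3b' : ∑ i, a3 i * P b' i = 0 := by rw [f3]; simp only [det3]; ring
  have hlin : ∀ (α β γ : K) (u : Fin 3 → K),
      ∑ i, (α * a1 i + β * a2 i + γ * a3 i) * u i =
        α * ∑ i, a1 i * u i + β * ∑ i, a2 i * u i + γ * ∑ i, a3 i * u i := by
    intro α β γ u
    rw [Finset.mul_sum, Finset.mul_sum, Finset.mul_sum, ← Finset.sum_add_distrib,
      ← Finset.sum_add_distrib]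
    exact Finset.sum_congr rfl fun i _ => by ring
  obtain ⟨β, β', C, hC⟩ := core38 (X := (Y.erase b).erase b') (b := b) (b' := b') (R := R)
    (w := w) (x1 := fun e => ∑ i, a1 i * P e i) (x2 := fun e => ∑ i, a2 i * P e i)
    (x3 := fun e => ∑ i, a3 i * P e i) hbb
    (fun h => ((hX b).1 h).2.1 rfl) (fun h => ((hX b').1 h).1 rfl)
    (by
      intro r hr hrb hrb' c hc e he hce hrc hre u hu
      rw [hX] at hc he hu
      refine hR r hr {b, b', c, e} ?_ ?_ ?_ u hu.2.2
      · intro z hz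
        simp only [Finset.mem_insert, Finset.mem_singleton] at hz
        rcases hz with rfl | rfl | rfl | rfl
        · exact hb
        · exact hb'
        · exact hc.2.2
        · exact he.2.2
      · rw [Finset.card_insert_of_notMem, Finset.card_insert_of_notMem,
          Finset.card_insert_of_notMem, Finset.card_singleton]
        · simpa using hce
        · simp only [Finset.mem_insert, Finset.mem_singleton, not_or]
          exact ⟨hc.1.symm, he.1.symm⟩
        · simp only [Finset.mem_insert, Finset.mem_singleton, not_or]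
          exact ⟨hbb, hc.2.1.symm, he.2.1.symm⟩
      · intro z hz
        simp only [Finset.mem_insert, Finset.mem_singleton] at hz
        rcases hz with rfl | rfl | rfl | rfl
        · exact hrb
        · exact hrb'
        · exact hrc
        · exact hre)
    (by
      intro c hc α β γ h0
      have hcY : c ∈ Y := by
        rcases hc with rfl | rfl | hc
        · exact hb
        · exact hb'
        · exact ((hX c).1 hc).2.2
      have h := hrel c hcY (fun i => α * a1 i + β * a2 i + γ * a3 i) (by rw [hlin]; exact h0)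
      simpa only [hlin] using h)
    v1b v2b v3b v1b' v2b' v3b'
    (by
      intro e he
      rw [hX] at he
      simp only [f3]
      refine mul_ne_zero (inv_ne_zero hd) ?_
      have := hP b hb b' hb' e he.2.2 hbb he.1.symm he.2.1.symm
      intro h
      apply this
      rw [← h]
      simp only [det3]
      ring)
    (hw b hb b' hb' hbb)
    (fun e he => hw b hb e ((hX e).1 he).2.2 ((hX e).1 he).2.1.symm)
    (hsym b' hb' b hb hbb.symm)
    (fun e he => hsym e ((hX e).1 he).2.2 b hb ((hX e).1 he).2.1)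
    (fun e he => hsym e ((hX e).1 he).2.2 b' hb' ((hX e).1 he).1)
    (fun c hc e he hce => hsym c ((hX c).1 hc).2.2 e ((hX e).1 he).2.2 hce)
    ⟨e1, (hX e1).2 ⟨h1b', h1b, he1⟩, e2, (hX e2).2 ⟨h2b', h2b, he2⟩, hne⟩
  have hquad : ∀ u : Fin 3 → K,
      ∑ i, ∑ j, ((a1 i - β' * a3 i) * (β * a3 j - a2 j) - C * a3 i * a3 j) * u i * u j =
        (∑ i, a1 i * u i - β' * ∑ i, a3 i * u i) * (β * ∑ i, a3 i * u i - ∑ i, a2 i * u i) -
          C * (∑ i, a3 i * u i) ^ 2 := by
    intro u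
    simp only [Fin.sum_univ_three]
    ring
  refine ⟨fun i j => (a1 i - β' * a3 i) * (β * a3 j - a2 j) - C * a3 i * a3 j,
    ⟨P b + P b', ?_⟩, ?_⟩
  · rw [hquad]
    have g : ∀ a : Fin 3 → K, ∑ i, a i * (P b + P b') i = ∑ i, a i * P b i + ∑ i, a i * P b' i := by
      intro a
      rw [← Finset.sum_add_distrib]
      exact Finset.sum_congr rfl fun i _ => by rw [Pi.add_apply]; ring
    rw [g, g, g, v1b, v1b', v2b, v2b', v3b, v3b']
    simp
  · intro e he
    rw [hquad]
    by_cases heb : e = b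
    · rw [heb, v1b, v2b, v3b]
      ring
    · by_cases heb' : e = b'
      · rw [heb', v1b', v2b', v3b']
        ring
      · rw [hC e ((hX e).2 ⟨heb', heb, he⟩)]
        ring

end

end Pool.Agent.Helper31.RN
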