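import Pool.Agent.Helper31.RN.Lin

/-!
# RN-T: change of coordinates

`pull M h` is the form `h ∘ M⁻¹`. `ev_pull`: `ev (M v) (pull M h) = ∑_i ev (M⁻¹ e_i) h • (M v)_i = ev (M⁻¹ M v) h` (linearity).
`GP.transport`, `Sys.transport`: `ev ((μ e)⁻¹ • M (p e)) (pull M f) = (μ e)⁻¹ * ev (p e) f`; in `seg` all terms get the same factor
`∏_{g ∈ S \ G} (μ g)⁻¹`, and `pull M` is linear.
`exists_inv`: `M v = (i ↦ ev v ((X - C a)^(k-1-i)))`. Injective: if all `ev v ((X - C a)^j)`, `j < k`, vanish then `ev v f = 0` for all `f`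
of degree `< k` (`f` is a combination of the `(X - C a)^j`, Taylor: `Polynomial.sum_taylor_eq` or `taylor`), so `v = 0` (`ev_single`-like
with `f = X^i`). `M (nu k s) i = (s-a)^(k-1-i)` (`ev_nu`).
-/

open Polynomial

namespace Pool.Agent.Helper31.RN

noncomputable section

variable {K : Type*} [Field K] {ι : Type*} [DecidableEq ι] {k : ℕ}

/-- the form `h ∘ M⁻¹` -/
def pull (M : (Fin k → K) ≃ₗ[K] (Fin k → K)) (f : K[X]) : K[X] :=
  ∑ i : Fin k, C (ev (M.symm (Pi.single i 1)) f) * X ^ (i : ℕ)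

theorem pull_deg (M : (Fin k → K) ≃ₗ[K] (Fin k → K)) (f : K[X]) : (pull M f).degree < k := by
  unfold pull
  refine degree_sum_lt' _ _ fun i _ => degree_C_mul_lt _ ?_
  rw [degree_X_pow]
  exact_mod_cast i.2

private theorem pull_coeff56 (M : (Fin k → K) ≃ₗ[K] (Fin k → K)) (f : K[X]) (i : Fin k) :
    (pull M f).coeff (i : ℕ) = ev (M.symm (Pi.single i 1)) f := by
  unfold pull
  rw [finsetSum_coeff, Finset.sum_eq_single i]
  · rw [coeff_C_mul, coeff_X_pow, if_pos rfl, mul_one]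
  · intro j _ hj
    rw [coeff_C_mul, coeff_X_pow, if_neg (fun h => hj (Fin.ext h.symm)), mul_zero]
  · intro h
    exact absurd (Finset.mem_univ i) h

private theorem ev_ext56 {f g : K[X]} (hf : f.degree < k) (hg : g.degree < k)
    (h : ∀ v : Fin k → K, ev v f = ev v g) : f = g := by
  ext n
  by_cases hn : n < k
  · have h1 := h (Pi.single ⟨n, hn⟩ 1)
    rw [ev_single, ev_single] at h1
    exact h1
  · have hk : (k : WithBot ℕ) ≤ (n : WithBot ℕ) := by exact_mod_cast not_lt.1 hn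
    rw [coeff_eq_zero_of_degree_lt (lt_of_lt_of_le hf hk), coeff_eq_zero_of_degree_lt (lt_of_lt_of_le hg hk)]

theorem ev_pull (M : (Fin k → K) ≃ₗ[K] (Fin k → K)) (f : K[X]) (v : Fin k → K) :
    ev (M v) (pull M f) = ev v f := by
  have h1 : v = ∑ i : Fin k, (M v) i • M.symm (Pi.single i 1) := by
    apply M.injective
    rw [map_sum]
    ext j
    rw [Finset.sum_apply, Finset.sum_eq_single j]
    · rw [map_smul, LinearEquiv.apply_symm_apply, Pi.smul_apply, Pi.single_eq_same, smul_eq_mul, mul_one]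
    · intro i _ hij
      rw [map_smul, LinearEquiv.apply_symm_apply, Pi.smul_apply, Pi.single_eq_of_ne hij.symm, smul_zero]
    · intro h
      exact absurd (Finset.mem_univ j) h
  conv_rhs => rw [h1]
  rw [ev_sum_vec]
  unfold ev
  refine Finset.sum_congr rfl fun i _ => ?_
  rw [pull_coeff56, smul_eq_mul, mul_comm]
  have h2 := ev_smul_vec ((M v) i) (M.symm (Pi.single i 1)) f
  unfold ev at h2 ⊢
  rw [h2]

theorem pull_add (M : (Fin k → K) ≃ₗ[K] (Fin k → K)) (f g : K[X]) :
    pull M (f + g) = pull M f + pull M g := by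
  unfold pull
  rw [← Finset.sum_add_distrib]
  refine Finset.sum_congr rfl fun i _ => ?_
  rw [ev_add, C_add, add_mul]

theorem pull_sub (M : (Fin k → K) ≃ₗ[K] (Fin k → K)) (f g : K[X]) :
    pull M (f - g) = pull M f - pull M g := by
  unfold pull
  rw [← Finset.sum_sub_distrib]
  refine Finset.sum_congr rfl fun i _ => ?_
  rw [ev_sub, C_sub, sub_mul]

theorem pull_C_mul (M : (Fin k → K) ≃ₗ[K] (Fin k → K)) (a : K) (f : K[X]) :
    pull M (C a * f) = C a * pull M f := by
  unfold pull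
  rw [Finset.mul_sum]
  refine Finset.sum_congr rfl fun i _ => ?_
  rw [ev_C_mul, smul_eq_mul, C_mul, mul_assoc]

theorem pull_symm (M : (Fin k → K) ≃ₗ[K] (Fin k → K)) (f : K[X]) (hf : f.degree < k) :
    pull M (pull M.symm f) = f := by
  apply ev_ext56 (pull_deg _ _) hf
  intro v
  have h1 := ev_pull M (pull M.symm f) (M.symm v)
  rw [LinearEquiv.apply_symm_apply] at h1
  rw [h1, ev_pull]

private theorem pull_sum56 (M : (Fin k → K) ≃ₗ[K] (Fin k → K)) {α : Type*} (s : Finset α) (f : α → K[X]) :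
    pull M (∑ i ∈ s, f i) = ∑ i ∈ s, pull M (f i) := by
  unfold pull
  rw [Finset.sum_comm]
  refine Finset.sum_congr rfl fun i _ => ?_
  rw [ev_sum, map_sum, Finset.sum_mul]

private theorem ev_tr56 (M : (Fin k → K) ≃ₗ[K] (Fin k → K)) (a : K) (v : Fin k → K) (f : K[X]) :
    ev (a • M v) (pull M f) = a * ev v f := by
  rw [ev_smul_vec, ev_pull]

variable {S : Finset ι} {p : ι → Fin k → K} {D : Finset ι → K[X]} {c : Finset ι → K}

theorem GP.transport (H : GP k S p D) (M : (Fin k → K) ≃ₗ[K] (Fin k → K)) {μ : ι → K}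
    (hμ : ∀ e, μ e ≠ 0) :
    GP k S (fun e => (μ e)⁻¹ • M (p e)) (fun B => pull M (D B)) := by
  refine ⟨fun B => pull_deg M _, ?_, ?_⟩
  · intro B hB hBc b hb
    rw [ev_tr56, H.zero B hB hBc b hb, mul_zero]
  · intro B hB hBc z hz
    rw [ev_tr56]
    exact mul_ne_zero (inv_ne_zero (hμ z)) (H.ne B hB hBc z hz)

theorem Sys.transport (H : Sys k S p D c) (M : (Fin k → K) ≃ₗ[K] (Fin k → K)) {μ : ι → K}
    (hμ : ∀ e, μ e ≠ 0) :
    Sys k S (fun e => (μ e)⁻¹ • M (p e)) (fun B => pull M (D B)) c := by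
  refine ⟨H.toGP.transport M hμ, H.cne, ?_⟩
  intro G hG hGc A hA hAc
  have h1 := congrArg (fun f => C (∏ g ∈ S \ G, (μ g)⁻¹) * pull M f) (H.seg G hG hGc A hA hAc)
  have h0 : pull M (0 : K[X]) = 0 := by
    unfold pull
    apply Finset.sum_eq_zero
    intro i _
    rw [ev_zero, C_0, zero_mul]
  simp only [h0, mul_zero, pull_sum56, Finset.mul_sum] at h1
  rw [← h1]
  refine Finset.sum_congr rfl fun y _ => ?_
  simp only [ev_tr56]
  rw [pull_C_mul, Finset.prod_mul_distrib]
  simp only [C_mul]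
  ring

theorem exists_inv (hk : 1 ≤ k) (a : K) : ∃ M : (Fin k → K) ≃ₗ[K] (Fin k → K),
    (∀ s, s ≠ a → M (nu k s) = (s - a) ^ (k - 1) • nu k (s - a)⁻¹) ∧
      M (nu k a) = Pi.single (⟨k - 1, by omega⟩ : Fin k) 1 := by
  have hdeg : ∀ n : ℕ, n < k → ((X - C a) ^ n : K[X]).degree < k := by
    intro n hn
    rw [degree_pow, degree_X_sub_C, nsmul_eq_mul, mul_one]
    exact_mod_cast hn
  obtain ⟨T, hT⟩ : ∃ T : (Fin k → K) →ₗ[K] (Fin k → K), ∀ v i, T v i = ev v ((X - C a) ^ (k - 1 - (i : ℕ))) :=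
    ⟨{ toFun := fun v i => ev v ((X - C a) ^ (k - 1 - (i : ℕ)))
       map_add' := fun v w => by
        ext i
        exact ev_add_vec v w _
       map_smul' := fun b v => by
        ext i
        exact ev_smul_vec b v _ }, fun _ _ => rfl⟩
  have hinj : Function.Injective T := by
    rw [← LinearMap.ker_eq_bot, LinearMap.ker_eq_bot']
    intro v hv
    have h0 : ∀ n : ℕ, n < k → ev v ((X - C a) ^ n : K[X]) = 0 := by
      intro n hn
      have h1 := hT v ⟨k - 1 - n, by omega⟩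
      rw [hv] at h1
      have h2 : k - 1 - (k - 1 - n) = n := by omega
      simp only [h2] at h1
      rw [← h1]
      rfl
    ext i
    have h3 : ev v ((X : K[X]) ^ (i : ℕ)) = v i := by
      unfold ev
      rw [Finset.sum_eq_single i]
      · rw [coeff_X_pow, if_pos rfl, one_smul]
      · intro l _ hl
        rw [coeff_X_pow, if_neg (fun h => hl (Fin.ext h)), zero_smul]
      · intro h
        exact absurd (Finset.mem_univ i) h
    have h4 : (X : K[X]) ^ (i : ℕ) = ∑ m ∈ Finset.range ((i : ℕ) + 1),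
        C (a ^ ((i : ℕ) - m) * ((i : ℕ).choose m : K)) * (X - C a) ^ m := by
      have h5 : (X : K[X]) ^ (i : ℕ) = ((X - C a) + C a) ^ (i : ℕ) := by rw [sub_add_cancel]
      rw [h5, add_pow]
      refine Finset.sum_congr rfl fun m _ => ?_
      rw [C_mul, C_pow, C_eq_natCast]
      ring
    rw [← h3, h4, ev_sum, Pi.zero_apply]
    apply Finset.sum_eq_zero
    intro m hm
    rw [ev_C_mul, h0 m (by have := Finset.mem_range.1 hm; have := i.2; omega), smul_zero]
  refine ⟨LinearEquiv.ofInjectiveEndo T hinj, ?_, ?_⟩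
  · intro s hs
    ext i
    have hi := i.2
    rw [LinearEquiv.coe_ofInjectiveEndo, hT, ev_nu _ _ (hdeg _ (by omega)), eval_pow, eval_sub, eval_X, eval_C,
      Pi.smul_apply, smul_eq_mul]
    unfold nu
    have h1 : k - 1 = (k - 1 - (i : ℕ)) + (i : ℕ) := by omega
    have h2 : s - a ≠ 0 := sub_ne_zero.2 hs
    conv_rhs => rw [h1]
    rw [pow_add, mul_assoc, ← mul_pow, mul_inv_cancel₀ h2, one_pow, mul_one]
  · ext i
    have hi := i.2
    rw [LinearEquiv.coe_ofInjectiveEndo, hT, ev_nu _ _ (hdeg _ (by omega)), eval_pow, eval_sub, eval_X, eval_C,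
      sub_self]
    by_cases h : (i : ℕ) = k - 1
    · have h1 : i = ⟨k - 1, by omega⟩ := Fin.ext h
      rw [h1, Pi.single_eq_same]
      simp
    · rw [Pi.single_eq_of_ne (fun h1 => h (by rw [h1])), zero_pow (by omega)]

end

end Pool.Agent.Helper31.RN
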