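import Pool.Agent.Helper31.RN.Std
import Pool.Agent.Helper31.RN.Trans

/-!
# RN-SA: standard coordinates with the point at infinity outside of `<A>`

`exists_kappa` and `std` (`T = W`, `j = 2`, `ρ = κ`) give `M₁, μ₁, z` with `M₁ (p e) = μ₁ e • nu k (z e)` on `W`. Let
`f₀ = pull M₁ (D (insert y A))` for some `y ∈ W`; it is not zero (`ev (M₁ (p y'))` of it is not zero for `y' ∈ W`, `y' ≠ y`), degree `< k`, and vanishes
at `M₁ (p a)`, `a ∈ A`. Choose `a₀ ∈ K` with `f₀(a₀) ≠ 0` and `a₀ ≠ z e` for all `e ∈ W` (`K` infinite). With `M₂` from `exists_inv a₀` put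
`M = M₁.trans M₂`, `s e = (z e - a₀)⁻¹`, `μ e = μ₁ e (z e - a₀)^{k-1}` on `W` (`1` outside `W`), `f = pull M₂ f₀`:
`f.coeff (k-1) = ev (Pi.single (k-1) 1) f = ev (M₂ (nu k a₀)) (pull M₂ f₀) = ev (nu k a₀) f₀ = f₀(a₀) ≠ 0`.
-/

open Polynomial

namespace Pool.Agent.Helper31.RN

noncomputable section

variable {K : Type*} [Field K] {ι : Type*} [DecidableEq ι] {k : ℕ}

theorem exists_coord [Infinite K] (hk : 2 ≤ k) {S : Finset ι} {p : ι → Fin k → K}
    {D : Finset ι → K[X]} (H : GP k S p D) {A W : Finset ι} (hA : A ⊆ S) (hW : W ⊆ S)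
    (hAW : Disjoint A W) (hAc : A.card = k - 2) (hWc : W.card = k + 2) :
    ∃ (M : (Fin k → K) ≃ₗ[K] (Fin k → K)) (μ s : ι → K), (∀ e, μ e ≠ 0) ∧ Set.InjOn s W ∧
      (∀ e ∈ W, M (p e) = μ e • nu k (s e)) ∧
      ∃ f : K[X], f.degree < k ∧ (∀ a ∈ A, ev (M (p a)) f = 0) ∧ f.coeff (k - 1) ≠ 0 := by
  classical
  obtain ⟨κ, z, hz, hκ, h1, h2⟩ := exists_kappa (by omega) H hW hWc
  have hrel : ∀ i < 2, ∑ e ∈ W, (κ e * z e ^ i) • p e = 0 := by
    intro i hi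
    interval_cases i
    · simpa using h1
    · simpa using h2
  obtain ⟨M₁, μ₁, hμ₁, hM₁⟩ := std (by omega) H hW hWc hz hκ hrel
  obtain ⟨y, hy⟩ : W.Nonempty := Finset.card_pos.1 (by omega)
  obtain ⟨y', hy', hyy'⟩ : ∃ y' ∈ W, y' ≠ y :=
    Finset.exists_mem_ne (by omega) y
  have hyA : y ∉ A := fun h => (Finset.disjoint_left.1 hAW h) hy
  have hyA' : y' ∉ A := fun h => (Finset.disjoint_left.1 hAW h) hy'
  have hB : insert y A ⊆ S := Finset.insert_subset (hW hy) hA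
  have hBc : (insert y A).card = k - 1 := by
    rw [Finset.card_insert_of_notMem hyA, hAc]
    omega
  obtain ⟨f₀, hf₀⟩ : ∃ f₀, f₀ = pull M₁ (D (insert y A)) := ⟨_, rfl⟩
  have hf₀0 : f₀ ≠ 0 := by
    intro h0
    have h3 := H.ne _ hB hBc y' (by
      rw [Finset.mem_sdiff, Finset.mem_insert, not_or]
      exact ⟨hW hy', hyy', hyA'⟩)
    rw [← ev_pull M₁, ← hf₀, h0, ev_zero] at h3
    exact h3 rfl
  obtain ⟨a₀, ha₀⟩ : ∃ a₀ : K, a₀ ∉ (f₀.roots.toFinset ∪ W.image z) :=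
    Infinite.exists_notMem_finset _
  rw [Finset.mem_union, not_or, Multiset.mem_toFinset, mem_roots hf₀0, Finset.mem_image] at ha₀
  obtain ⟨ha₁, ha₂⟩ := ha₀
  have hza : ∀ e ∈ W, z e ≠ a₀ := fun e he h => ha₂ ⟨e, he, h⟩
  obtain ⟨M₂, hM₂, hM₂'⟩ := exists_inv (K := K) (k := k) (by omega) a₀
  refine ⟨M₁.trans M₂, fun e => if e ∈ W then μ₁ e * (z e - a₀) ^ (k - 1) else 1,
    fun e => (z e - a₀)⁻¹, ?_, ?_, ?_, pull M₂ f₀, pull_deg _ _, ?_, ?_⟩
  · intro e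
    by_cases he : e ∈ W
    · simp only [he, if_true]
      exact mul_ne_zero (hμ₁ e) (pow_ne_zero _ (sub_ne_zero.2 (hza e he)))
    · simp only [he, if_false]
      exact one_ne_zero
  · intro e he e' he' h3
    apply hz he he'
    have h4 : z e - a₀ = z e' - a₀ := inv_injective h3
    exact sub_left_injective h4
  · intro e he
    simp only [he, if_true]
    rw [LinearEquiv.trans_apply, hM₁ e he, map_smul, hM₂ _ (hza e he), smul_smul]
  · intro a ha
    rw [LinearEquiv.trans_apply, ev_pull, hf₀, ev_pull]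
    exact H.zero _ hB hBc a (Finset.mem_insert_of_mem ha)
  · have h3 : ev (M₂ (nu k a₀)) (pull M₂ f₀) = f₀.eval a₀ := by
      rw [ev_pull, ev_nu]
      rw [hf₀]
      exact pull_deg _ _
    rw [hM₂', ev_single] at h3
    change (pull M₂ f₀).coeff (k - 1) = _ at h3
    rw [h3]
    exact ha₁

end

end Pool.Agent.Helper31.RN
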