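import Pool.Agent.Helper31.RN.Compl

/-!
# RN-1B: the polynomials `f_t(v; u)` and `e_{t,y}(v; u)` have degree at most two in `u`

`L` is a commutative `K`-algebra, `t : ι → L`, `v : Fin k → L`; the variable of `L[X]` is `u`.
Degree: by `Finset.prod_add` (or `Finset.prod_sub`), `∏_{x ∈ G \ B} (t_x - u) = ∑_{I ⊆ G \ B} (∏_I t) (-u)^{k+1-|I|}`
(`|G \ B| = 2k-(k-1) = k+1`); exchange the sums: `f_t(v;u) = ∑_{I ⊆ G} (∏_I t)(-u)^{k+1-|I|} ∑_{B ⊆ G \ I} h_B(v)`, and the
inner sum is zero for `|I| ≤ k-2` (`L1.sum_compl`, `ev_sum`, `ev_zero`); the other exponents are `≤ 2`.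
For `e_{t,y}`: `|(G.erase y) \ B| = k`, `I ⊆ G.erase y`, inner sum over `B ⊆ G \ (insert y I)`, zero for `|I| + 1 ≤ k-2`,
i.e. for exponents `k - |I| ≥ 3`.
`fT_self`: in every term either `x ∈ B`, `ev (p x) (h B) = 0`, or a factor `t_x - t_x`. `fT_eq`: the terms with `y ∈ B` are
zero at `v = p y`, the others have the factor `t_y - u`.
`fT_sum`: `fT` is linear in `v` and `f = ∑_{j<3} (coeff f j) X^j`.
-/

open Polynomial

namespace Pool.Agent.Helper31.RN

noncomputable section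

variable {K : Type*} [Field K] {ι : Type*} [DecidableEq ι] {k : ℕ}

variable {L : Type*} [CommRing L] [Algebra K L]

/-- `f_t(v; u)` as a polynomial in `u` -/
def fT (k : ℕ) (G : Finset ι) (h : Finset ι → K[X]) (t : ι → L) (v : Fin k → L) : L[X] :=
  ∑ B ∈ G.powersetCard (k - 1), C (ev v (h B)) * ∏ x ∈ G \ B, (C (t x) - X)

/-- `e_{t,y}(v; u)` as a polynomial in `u` -/
def eT (k : ℕ) (G : Finset ι) (h : Finset ι → K[X]) (t : ι → L) (y : ι) (v : Fin k → L) : L[X] :=
  ∑ B ∈ (G.erase y).powersetCard (k - 1), C (ev v (h B)) * ∏ x ∈ (G.erase y) \ B, (C (t x) - X)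

variable {G : Finset ι} {p : ι → Fin k → K} {h : Finset ι → K[X]}

theorem fT_expand (A : Finset ι) (N : ℕ) (hA : A.card = N + (k - 1)) (h : Finset ι → K[X])
    (t : ι → L) (v : Fin k → L) :
    fT k A h t v = ∑ I ∈ A.powerset, (∏ i ∈ I, C (t i)) * (-X) ^ (N - I.card) *
      C (ev v (∑ B ∈ (A \ I).powersetCard (k - 1), h B)) := by
  have h1 : fT k A h t v = ∑ B ∈ A.powersetCard (k - 1), ∑ I ∈ (A \ B).powerset,
      (∏ i ∈ I, C (t i)) * (-X) ^ (N - I.card) * C (ev v (h B)) := by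
    rw [fT]
    refine Finset.sum_congr rfl fun B hB => ?_
    rw [Finset.mem_powersetCard] at hB
    have h2 : ∏ x ∈ A \ B, (C (t x) - X) = ∑ I ∈ (A \ B).powerset,
        (∏ i ∈ I, C (t i)) * (-X) ^ (N - I.card) := by
      simp only [sub_eq_add_neg]
      rw [Finset.prod_add]
      refine Finset.sum_congr rfl fun I hI => ?_
      rw [Finset.mem_powerset] at hI
      rw [Finset.prod_const, Finset.card_sdiff_of_subset hI, Finset.card_sdiff_of_subset hB.1, hB.2, hA,
        Nat.add_sub_cancel]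
    rw [h2, Finset.mul_sum]
    refine Finset.sum_congr rfl fun I _ => ?_
    ring
  rw [h1]
  have h3 : ∀ I ∈ A.powerset, (∏ i ∈ I, C (t i)) * (-X) ^ (N - I.card) *
      C (ev v (∑ B ∈ (A \ I).powersetCard (k - 1), h B)) =
      ∑ B ∈ (A \ I).powersetCard (k - 1),
        (∏ i ∈ I, C (t i)) * (-X) ^ (N - I.card) * C (ev v (h B)) := by
    intro I _
    rw [ev_sum, map_sum, Finset.mul_sum]
  rw [Finset.sum_congr rfl h3]
  refine Finset.sum_comm' fun B I => ?_
  simp only [Finset.mem_powersetCard, Finset.mem_powerset]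
  constructor
  · rintro ⟨⟨h4, h5⟩, h6⟩
    refine ⟨⟨fun x hx => Finset.mem_sdiff.mpr ⟨h4 hx, fun h7 => ?_⟩, h5⟩, fun x hx => ?_⟩
    · exact (Finset.mem_sdiff.mp (h6 h7)).2 hx
    · exact (Finset.mem_sdiff.mp (h6 hx)).1
  · rintro ⟨⟨h4, h5⟩, h6⟩
    refine ⟨⟨fun x hx => (Finset.mem_sdiff.mp (h4 hx)).1, h5⟩, fun x hx =>
      Finset.mem_sdiff.mpr ⟨h6 hx, fun h7 => (Finset.mem_sdiff.mp (h4 h7)).2 hx⟩⟩

theorem fT_natDegree_aux (A : Finset ι) (N : ℕ) (hA : A.card = N + (k - 1)) (h : Finset ι → K[X])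
    (t : ι → L) (v : Fin k → L)
    (hz : ∀ I ⊆ A, I.card + 3 ≤ N → ∑ B ∈ (A \ I).powersetCard (k - 1), h B = 0) :
    (fT k A h t v).natDegree ≤ 2 := by
  rw [fT_expand A N hA]
  refine natDegree_sum_le_of_forall_le _ _ fun I hI => ?_
  rw [Finset.mem_powerset] at hI
  by_cases h1 : I.card + 3 ≤ N
  · rw [hz I hI h1, ev_zero, C_0, mul_zero, natDegree_zero]
    exact Nat.zero_le _
  · have h2 : (∏ i ∈ I, C (t i) : L[X]) = C (∏ i ∈ I, t i) := (map_prod C _ _).symm
    rw [h2]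
    refine (natDegree_mul_C_le _ _).trans ((natDegree_C_mul_le _ _).trans ?_)
    refine natDegree_pow_le.trans ?_
    have h3 : (-X : L[X]).natDegree ≤ 1 := by
      rw [natDegree_neg]
      exact natDegree_X_le
    calc (N - I.card) * (-X : L[X]).natDegree ≤ (N - I.card) * 1 := Nat.mul_le_mul_left _ h3
      _ ≤ 2 := by omega

theorem fT_coeff (A : Finset ι) (h : Finset ι → K[X]) (t : ι → L) (v : Fin k → L) (j : ℕ) :
    (fT k A h t v).coeff j = ∑ B ∈ A.powersetCard (k - 1),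
      ev v (h B) * (∏ x ∈ A \ B, (C (t x) - X)).coeff j := by
  rw [fT, finsetSum_coeff]
  refine Finset.sum_congr rfl fun B _ => ?_
  rw [coeff_C_mul]

theorem fT_sum_aux (A : Finset ι) (h : Finset ι → K[X]) (t : ι → L)
    (hd : ∀ v : Fin k → L, (fT k A h t v).natDegree ≤ 2) {α : Type*}
    (J : Finset α) (σ u : α → L) (v : α → Fin k → L) :
    ∑ i ∈ J, σ i * (fT k A h t (v i)).eval (u i) =
      ∑ j ∈ Finset.range 3, (fT k A h t (∑ i ∈ J, (σ i * u i ^ j) • v i)).coeff j := by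
  have h1 : ∀ i ∈ J, σ i * (fT k A h t (v i)).eval (u i) =
      ∑ j ∈ Finset.range 3, (σ i * u i ^ j) * (fT k A h t (v i)).coeff j := by
    intro i _
    rw [eval_eq_sum_range' (Nat.lt_succ_of_le (hd (v i))), Finset.mul_sum]
    refine Finset.sum_congr rfl fun j _ => ?_
    ring
  rw [Finset.sum_congr rfl h1, Finset.sum_comm]
  refine Finset.sum_congr rfl fun j _ => ?_
  rw [fT_coeff]
  have h2 : ∀ i ∈ J, (σ i * u i ^ j) * (fT k A h t (v i)).coeff j =
      ∑ B ∈ A.powersetCard (k - 1), (σ i * u i ^ j) * (ev (v i) (h B)) *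
        (∏ x ∈ A \ B, (C (t x) - X)).coeff j := by
    intro i _
    rw [fT_coeff, Finset.mul_sum]
    refine Finset.sum_congr rfl fun B _ => ?_
    ring
  rw [Finset.sum_congr rfl h2, Finset.sum_comm]
  refine Finset.sum_congr rfl fun B _ => ?_
  rw [← Finset.sum_mul, ev_sum_vec]
  congr 1
  refine Finset.sum_congr rfl fun i _ => ?_
  rw [ev_smul_vec]

theorem fT_natDegree (hk : 2 ≤ k) (hNZ : NZ K k) (H : L1 k G p h) (t : ι → L) (v : Fin k → L) :
    (fT k G h t v).natDegree ≤ 2 := by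
  refine fT_natDegree_aux G (k + 1) (by rw [H.card]; omega) h t v fun I hI hc => ?_
  exact H.sum_compl hk hNZ hI (by omega)

theorem eT_natDegree (hk : 2 ≤ k) (hNZ : NZ K k) (H : L1 k G p h) (t : ι → L) {y : ι} (hy : y ∈ G)
    (v : Fin k → L) : (eT k G h t y v).natDegree ≤ 2 := by
  have h0 : eT k G h t y v = fT k (G.erase y) h t v := rfl
  rw [h0]
  refine fT_natDegree_aux (G.erase y) k (by rw [Finset.card_erase_of_mem hy, H.card]; omega) h t v
    fun I hI hc => ?_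
  have h1 : (G.erase y) \ I = G \ (insert y I) := by
    ext x
    simp only [Finset.mem_sdiff, Finset.mem_erase, Finset.mem_insert]
    tauto
  rw [h1]
  have h2 : insert y I ⊆ G := by
    intro x hx
    rcases Finset.mem_insert.mp hx with rfl | hx
    · exact hy
    · exact Finset.mem_of_mem_erase (hI hx)
  have h3 := Finset.card_insert_le y I
  exact H.sum_compl hk hNZ h2 (by omega)

theorem fT_sum (hk : 2 ≤ k) (hNZ : NZ K k) (H : L1 k G p h) (t : ι → L) {α : Type*}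
    (J : Finset α) (σ u : α → L) (v : α → Fin k → L) :
    ∑ i ∈ J, σ i * (fT k G h t (v i)).eval (u i) =
      ∑ j ∈ Finset.range 3, (fT k G h t (∑ i ∈ J, (σ i * u i ^ j) • v i)).coeff j :=
  fT_sum_aux G h t (fun v => fT_natDegree hk hNZ H t v) J σ u v

theorem eT_sum (hk : 2 ≤ k) (hNZ : NZ K k) (H : L1 k G p h) (t : ι → L) {y : ι} (hy : y ∈ G)
    {α : Type*} (J : Finset α) (σ u : α → L) (v : α → Fin k → L) :
    ∑ i ∈ J, σ i * (eT k G h t y (v i)).eval (u i) =
      ∑ j ∈ Finset.range 3, (eT k G h t y (∑ i ∈ J, (σ i * u i ^ j) • v i)).coeff j :=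
  fT_sum_aux (G.erase y) h t (fun v => eT_natDegree hk hNZ H t hy v) J σ u v

theorem fT_zero (t : ι → L) : fT k G h t (0 : Fin k → L) = 0 := by
  simp [fT, ev_zero_vec]

theorem eT_zero (t : ι → L) (y : ι) : eT k G h t y (0 : Fin k → L) = 0 := by
  simp [eT, ev_zero_vec]

theorem fT_self_aux (A : Finset ι) (hA : A ⊆ G) (H : L1 k G p h) (t : ι → L) {x : ι}
    (hx : x ∈ A) : (fT k A h t (bc L (p x))).eval (t x) = 0 := by
  rw [fT, eval_finsetSum]
  refine Finset.sum_eq_zero fun B hB => ?_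
  rw [Finset.mem_powersetCard] at hB
  rw [eval_mul, eval_C]
  by_cases h1 : x ∈ B
  · rw [ev_bc, H.zero B (hB.1.trans hA) hB.2 x h1, map_zero, zero_mul]
  · rw [eval_prod, Finset.prod_eq_zero (Finset.mem_sdiff.mpr ⟨hx, h1⟩) (by simp), mul_zero]

theorem fT_self (H : L1 k G p h) (t : ι → L) {x : ι} (hx : x ∈ G) :
    (fT k G h t (bc L (p x))).eval (t x) = 0 :=
  fT_self_aux G (Finset.Subset.refl G) H t hx

theorem eT_self (H : L1 k G p h) (t : ι → L) {x y : ι} (hx : x ∈ G) (hxy : x ≠ y) :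
    (eT k G h t y (bc L (p x))).eval (t x) = 0 :=
  fT_self_aux (G.erase y) (Finset.erase_subset y G) H t (Finset.mem_erase.mpr ⟨hxy, hx⟩)

theorem fT_eq (H : L1 k G p h) (t : ι → L) {y : ι} (hy : y ∈ G) :
    fT k G h t (bc L (p y)) = (C (t y) - X) * eT k G h t y (bc L (p y)) := by
  rw [fT, eT, Finset.mul_sum]
  symm
  have hsub : (G.erase y).powersetCard (k - 1) ⊆ G.powersetCard (k - 1) :=
    Finset.powersetCard_mono (Finset.erase_subset y G)
  refine Eq.trans (Finset.sum_congr rfl fun B hB => ?_) (Finset.sum_subset hsub fun B hB hB' => ?_)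
  · rw [Finset.mem_powersetCard] at hB
    have h1 : y ∉ B := fun h => Finset.notMem_erase y G (hB.1 h)
    have h2 : G \ B = insert y ((G.erase y) \ B) := by
      ext x
      simp only [Finset.mem_sdiff, Finset.mem_insert, Finset.mem_erase]
      constructor
      · rintro ⟨h3, h4⟩
        by_cases h5 : x = y
        · exact Or.inl h5
        · exact Or.inr ⟨⟨h5, h3⟩, h4⟩
      · rintro (rfl | ⟨⟨_, h3⟩, h4⟩)
        · exact ⟨hy, h1⟩
        · exact ⟨h3, h4⟩
    rw [h2, Finset.prod_insert (by simp)]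
    ring
  · rw [Finset.mem_powersetCard] at hB hB'
    have h1 : y ∈ B := by
      by_contra h1
      exact hB' ⟨fun x hx => Finset.mem_erase.mpr ⟨fun h => h1 (h ▸ hx), hB.1 hx⟩, hB.2⟩
    rw [ev_bc, H.zero B hB.1 hB.2 y h1, map_zero, C_0, zero_mul]

end

end Pool.Agent.Helper31.RN
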