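import Pool.Agent.Helper31.RN.Defs

/-!
# RN-6C: from `L = K[X]/((X - ζ)^(M+1))` to `K`

`L = AdjoinRoot ((X - C ζ)^(M+1))`, `a` the root, `ε = a - ζ`, `ε^(M+1) = 0`, `ε^M ≠ 0`. Multiply `hb` by `C ε`: `(X - C a)^2 * (C ε * b) = 0`, and
`(X - C a)^2` is monic, so `C ε * b = 0`. Hence `(X - C a) * b = (X - C ζ) * b` (the coefficients of `b` are killed by `ε`),
`(X - C a)^2 * b = (X - C ζ)^2 * b`, and `aeval a f * b_i = f(ζ) b_i` for `f : K[X]` (`f - f(ζ) = (X - ζ) g`). Let `θ : L →ₗ[K] K` with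
`θ (ε^M) = 1` and `b0 = ∑_i C (θ (b.coeff i)) X^i`. Apply `θ` coefficientwise.
-/

open Polynomial

namespace Pool.Agent.Helper31.RN

noncomputable section

variable {K : Type*} [Field K] {ι : Type*} [DecidableEq ι] {k : ℕ}

private lemma root_eps_pow65 (ζ : K) (M : ℕ) :
    (AdjoinRoot.root ((X - C ζ) ^ (M + 1) : K[X]) -
      algebraMap K (AdjoinRoot ((X - C ζ) ^ (M + 1) : K[X])) ζ) ^ (M + 1) = 0 := by
  have h := AdjoinRoot.mk_self (f := ((X - C ζ) ^ (M + 1) : K[X]))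
  rw [map_pow, map_sub, AdjoinRoot.mk_X, AdjoinRoot.mk_C] at h
  exact h

private lemma root_eps_ne65 (ζ : K) (M : ℕ) :
    (AdjoinRoot.root ((X - C ζ) ^ (M + 1) : K[X]) -
      algebraMap K (AdjoinRoot ((X - C ζ) ^ (M + 1) : K[X])) ζ) ^ M ≠ 0 := by
  intro h
  have h2 : AdjoinRoot.mk ((X - C ζ) ^ (M + 1) : K[X]) ((X - C ζ) ^ M) = 0 := by
    rw [map_pow, map_sub, AdjoinRoot.mk_X, AdjoinRoot.mk_C]
    exact h
  rw [AdjoinRoot.mk_eq_zero] at h2
  have h3 := Polynomial.natDegree_le_of_dvd h2 (pow_ne_zero _ (X_sub_C_ne_zero ζ))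
  rw [natDegree_pow, natDegree_pow, natDegree_X_sub_C] at h3
  omega

private lemma exists_theta65 {L : Type*} [CommRing L] [Algebra K L] {v : L} (hv : v ≠ 0) :
    ∃ θ : L →ₗ[K] K, θ v = 1 := by
  by_contra hcon
  apply hv
  rw [← Module.forall_dual_apply_eq_zero_iff K v]
  intro φ
  by_contra hφ
  exact hcon ⟨(φ v)⁻¹ • φ, by simp [hφ]⟩

private lemma exists_coef65 {L : Type*} [CommRing L] [Algebra K L] (θ : L →ₗ[K] K) (b : L[X]) :
    ∃ b0 : K[X], ∀ n, b0.coeff n = θ (b.coeff n) := by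
  refine ⟨∑ i ∈ Finset.range (b.natDegree + 1), monomial i (θ (b.coeff i)), fun n => ?_⟩
  rw [finsetSum_coeff]
  simp only [coeff_monomial]
  rw [Finset.sum_ite_eq']
  split_ifs with h
  · rfl
  · rw [coeff_eq_zero_of_natDegree_lt (by rw [Finset.mem_range] at h; omega), map_zero]

private lemma coef_mul65 {L : Type*} [CommRing L] [Algebra K L] (θ : L →ₗ[K] K) (b : L[X])
    (b0 : K[X]) (h0 : ∀ n, b0.coeff n = θ (b.coeff n)) (f : K[X]) (n : ℕ) :
    (f * b0).coeff n = θ ((f.map (algebraMap K L) * b).coeff n) := by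
  rw [coeff_mul, coeff_mul, map_sum]
  refine Finset.sum_congr rfl fun x _ => ?_
  rw [coeff_map, ← Algebra.smul_def, map_smul, h0, smul_eq_mul]

private lemma ev_theta65 {L : Type*} [CommRing L] [Algebra K L] (θ : L →ₗ[K] K) (b : L[X])
    (b0 : K[X]) (h0 : ∀ n, b0.coeff n = θ (b.coeff n)) (v : Fin k → K) :
    ev v b0 = θ (ev (bc L v) b) := by
  unfold ev bc
  rw [map_sum]
  refine Finset.sum_congr rfl fun i _ => ?_
  rw [h0, smul_eq_mul, smul_eq_mul, mul_comm (b.coeff _), ← Algebra.smul_def, map_smul,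
    smul_eq_mul, mul_comm]

omit [DecidableEq ι] in
private lemma exists_b0_aux65 {L : Type*} [CommRing L] [Algebra K L] {ζ : K} {M : ℕ} {A : Finset ι}
    {p : ι → Fin k → K} {Φ : K[X]} (a z : L) (hz : z = algebraMap K L ζ)
    (he0 : (a - z) ^ (M + 1) = 0) (he1 : (a - z) ^ M ≠ 0) (b : L[X])
    (hb : (X - C a) ^ 2 * b = C ((a - z) ^ M) * Φ.map (algebraMap K L))
    (R : ι → K[X])
    (hr : ∀ y ∈ A, aeval a (R y) * ev (bc L (p y)) ((X - C a) * b) = 0) :
    ∃ b0 : K[X], (X - C ζ) ^ 2 * b0 = Φ ∧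
      ∀ y ∈ A, (R y).eval ζ * ev (p y) ((X - C ζ) * b0) = 0 := by
  have hCb : C (a - z) * b = 0 := by
    have h1 : (X - C a) ^ 2 * (C (a - z) * b) = 0 := by
      have h2 : (X - C a) ^ 2 * (C (a - z) * b) = C (a - z) * ((X - C a) ^ 2 * b) := by ring
      rw [h2, hb, ← mul_assoc, ← C_mul, ← pow_succ', he0, C_0, zero_mul]
    exact (((monic_X_sub_C a).pow 2).mul_right_eq_zero_iff).mp h1
  have hXb : (X - C a) * b = (X - C z) * b := by
    have h1 : (X - C a : L[X]) = (X - C z) - C (a - z) := by rw [C_sub]; ring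
    rw [h1, sub_mul, hCb, sub_zero]
  have hXb2 : (X - C a) ^ 2 * b = (X - C z) ^ 2 * b := by
    calc (X - C a) ^ 2 * b = (X - C a) * ((X - C a) * b) := by ring
      _ = (X - C a) * ((X - C z) * b) := by rw [hXb]
      _ = (X - C z) * ((X - C a) * b) := by ring
      _ = (X - C z) * ((X - C z) * b) := by rw [hXb]
      _ = (X - C z) ^ 2 * b := by ring
  obtain ⟨θ, hθ⟩ := exists_theta65 (K := K) he1
  obtain ⟨b0, h0⟩ := exists_coef65 θ b
  refine ⟨b0, ?_, ?_⟩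
  · ext n
    rw [coef_mul65 θ b b0 h0]
    have h1 : ((X - C ζ) ^ 2 : K[X]).map (algebraMap K L) = (X - C z) ^ 2 := by
      rw [Polynomial.map_pow, Polynomial.map_sub, map_X, map_C, hz]
    rw [h1, ← hXb2, hb, coeff_C_mul, coeff_map, mul_comm, ← Algebra.smul_def, map_smul, hθ,
      smul_eq_mul, mul_one]
  · intro y hy
    have h1 := hr y hy
    rw [hXb] at h1
    have h2 : ∀ n, ((X - C ζ) * b0).coeff n = θ (((X - C z) * b).coeff n) := by
      intro n
      rw [coef_mul65 θ b b0 h0, Polynomial.map_sub, map_X, map_C, hz]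
    rw [ev_theta65 θ _ _ h2, ← smul_eq_mul, ← map_smul]
    set t := ev (bc L (p y)) ((X - C z) * b) with ht
    have h3 : (a - z) * t = 0 := by
      rw [ht, ← smul_eq_mul, ← ev_C_mul]
      have h4 : C (a - z) * ((X - C z) * b) = 0 := by
        have : C (a - z) * ((X - C z) * b) = (X - C z) * (C (a - z) * b) := by ring
        rw [this, hCb, mul_zero]
      rw [h4, ev_zero]
    have h5 : (R y).eval ζ • t = aeval a (R y) * t := by
      obtain ⟨g, hg⟩ : (X - C ζ) ∣ R y - C ((R y).eval ζ) := by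
        rw [dvd_iff_isRoot]
        simp
      have h6 : R y = C ((R y).eval ζ) + (X - C ζ) * g := by rw [← hg]; ring
      have h7 : aeval a (R y) = algebraMap K L ((R y).eval ζ) + (a - z) * aeval a g := by
        conv_lhs => rw [h6]
        simp [hz]
      rw [h7, add_mul, mul_right_comm, h3, zero_mul, add_zero, Algebra.smul_def]
    rw [h5, h1, map_zero]

theorem exists_b0 {ζ : K} {M : ℕ} {A : Finset ι} {p : ι → Fin k → K} {Φ : K[X]}
    (b : (AdjoinRoot ((X - C ζ) ^ (M + 1) : K[X]))[X])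
    (hb : (X - C (AdjoinRoot.root ((X - C ζ) ^ (M + 1) : K[X]))) ^ 2 * b =
      C ((AdjoinRoot.root ((X - C ζ) ^ (M + 1) : K[X]) -
        algebraMap K (AdjoinRoot ((X - C ζ) ^ (M + 1) : K[X])) ζ) ^ M) *
      Φ.map (algebraMap K (AdjoinRoot ((X - C ζ) ^ (M + 1) : K[X]))))
    (R : ι → K[X])
    (hr : ∀ y ∈ A, aeval (AdjoinRoot.root ((X - C ζ) ^ (M + 1) : K[X])) (R y) *
      ev (bc (AdjoinRoot ((X - C ζ) ^ (M + 1) : K[X])) (p y))
        ((X - C (AdjoinRoot.root ((X - C ζ) ^ (M + 1) : K[X]))) * b) = 0) :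
    ∃ b0 : K[X], (X - C ζ) ^ 2 * b0 = Φ ∧
      ∀ y ∈ A, (R y).eval ζ * ev (p y) ((X - C ζ) * b0) = 0 := by
  exact exists_b0_aux65 _ _ rfl (root_eps_pow65 ζ M) (root_eps_ne65 ζ M) b hb R hr

end

end Pool.Agent.Helper31.RN
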