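import Pool.Agent.Helper31.RN.Arc
import Pool.Agent.Helper98.NRC.Main

/-!
# RN-D: duality: if all `q`-arcs of `PG(k-1,q)` are rational then all `q`-arcs of `PG(k'-1,q)`, `k + k' = q`, are rational

`p' : Fin q → Fin k' → K` representatives of the arc `A`, any `k'` of them independent. The space of relations `R = {r : Fin q → K | ∑ r_j p'_j = 0}` has dimension `q - k' = k`; a basis `r_1, …, r_k` gives
`p j = (r_1(j), …, r_k(j))`, any `k` of the `p j` are independent (a relation supported on the complementary `k'` points is zero). They are different points, an arc with `q` points, so on a curve: `p j = μ_j • g (nu k t_j)` or `g (nuInf)`.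
By `exists_param` (a point of the curve outside of the arc moved to infinity: the curve has `q+1` points, the arc `q`; see `Helper98/NRC/Main`, `Curve`) we may assume that all `t_j` are in `K` (a bijection `Fin q → K`). So
`R = {(μ_j f(t_j)) : deg f < k}` (order of the powers reversed in `nu`, irrelevant) and the row space `{(ψ(p' j))_j}` of `p'` is the orthogonal space of `R`, of dimension `k'`, so it is `{(μ_j⁻¹ f(t_j))_j : deg f < k'}`
(`∑_j f(t_j) h(t_j) = ∑_{t ∈ K} (f h)(t) = 0` if `deg (f h) ≤ k + k' - 2 < q - 1`, `FiniteField.sum_pow_lt_card_sub_one`). So there are `k'` forms `ψ_i` with `ψ_i(p' j) = μ_j⁻¹ t_j^{k'-1-i}`, a linear equivalence, and `p' j` is on a normal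
rational curve.
-/

open Polynomial
open scoped LinearAlgebra.Projectivization

namespace Pool.Agent.Helper31.RNDual

noncomputable section

open Pool.Agent.Helper98.NRC

variable {K : Type*} [Field K] {k : ℕ}

/-- parameters in `K ∪ {∞}` -/
def gp (g : V K k ≃ₗ[K] V K k) : Option K → V K k
  | none => g (nuInf K k)
  | some t => g (nu k t)

theorem gp_inj (hk : 2 ≤ k) (g : V K k ≃ₗ[K] V K k) (a b : Option K) (c : K)
    (h : c • gp g a = gp g b) : a = b := by
  have hinf : ∀ (t : K) (a : K), a • g (nu k t) ≠ g (nuInf K k) := by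
    intro t a h
    rw [← map_smul] at h
    have h1 := g.injective h
    have h2 := congrFun h1 ⟨k - 1, by omega⟩
    have h4 := congrFun h1 ⟨0, by omega⟩
    have h5 : ¬ (k - 1 = 0) := by omega
    simp [nu, nuInf, h5] at h2 h4
    simp [h2] at h4
  rcases a with _ | x <;> rcases b with _ | y
  · rfl
  · simp only [gp] at h
    have hc : c ≠ 0 := by
      rintro rfl
      rw [zero_smul, eq_comm, LinearEquiv.map_eq_zero_iff] at h
      exact nu_ne (by omega) y h
    refine absurd ?_ (hinf y c⁻¹)
    rw [← h, smul_smul, inv_mul_cancel₀ hc, one_smul]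
  · exact absurd h (hinf x c)
  · simp only [gp] at h
    rw [← map_smul] at h
    have h1 := g.injective h
    have h2 := congrFun h1 ⟨k - 1, by omega⟩
    have h4 := congrFun h1 ⟨k - 2, by omega⟩
    have h6 : k - 1 - (k - 2) = 1 := by omega
    simp [nu, h6] at h2 h4
    rw [h2] at h4
    simpa using h4

theorem li_of_functional {n : ℕ} (v : Fin n → Fin n → K)
    (h : ∀ L : (Fin n → K) →ₗ[K] K, (∀ i, L (v i) = 0) → L = 0) : LinearIndependent K v := by
  have hs : ⊤ ≤ Submodule.span K (Set.range v) := by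
    by_contra hne
    obtain ⟨f, hf, hle⟩ := Submodule.exists_le_ker_of_lt_top (Submodule.span K (Set.range v))
      (lt_top_iff_ne_top.mpr (fun h => hne (by rw [h])))
    exact hf (h f fun i => hle (Submodule.subset_span (Set.mem_range_self i)))
  exact linearIndependent_of_top_le_span_of_card_eq_finrank hs (by simp)

theorem functional_of_li {n : ℕ} (v : Fin n → Fin n → K) (h : LinearIndependent K v)
    (L : (Fin n → K) →ₗ[K] K) (hL : ∀ i, L (v i) = 0) : L = 0 := by
  have h2 := h.span_eq_top_of_card_eq_finrank' (by simp)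
  exact LinearMap.ext_on_range h2 (by simpa using hL)

/-- an injection of `Fin n` with a given range -/
theorem exists_inj {ι : Type*} [Fintype ι] [DecidableEq ι] (s : Finset ι) {n : ℕ} (hs : s.card = n) :
    ∃ f : Fin n → ι, Function.Injective f ∧ ∀ i, i ∈ s ↔ ∃ a, f a = i := by
  let e := s.equivFinOfCardEq hs
  refine ⟨fun a => (e.symm a : ι), Subtype.val_injective.comp e.symm.injective, fun i => ?_⟩
  constructor
  · intro hi
    exact ⟨e ⟨i, hi⟩, by simp⟩
  · rintro ⟨a, rfl⟩
    exact (e.symm a).2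

variable {ι : Type*} [Fintype ι] [DecidableEq ι]

/-- the Gale dual -/
theorem gale [Fintype K] {k' : ℕ} (hkk : k + k' = Fintype.card K)
    (hι : Fintype.card ι = Fintype.card K) (p' : ι → Fin k' → K)
    (hp' : ∀ f : Fin k' → ι, Function.Injective f → LinearIndependent K (fun i => p' (f i))) :
    ∃ p : ι → Fin k → K, (∀ L : (Fin k → K) →ₗ[K] K, ∑ j, L (p j) • p' j = 0) ∧
      ∀ f : Fin k → ι, Function.Injective f → LinearIndependent K (fun i => p (f i)) := by
  classical
  let Φ : (ι → K) →ₗ[K] (Fin k' → K) := Fintype.linearCombination K p'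
  have hΦ : ∀ r, Φ r = ∑ j, r j • p' j := fun r => Fintype.linearCombination_apply K p' r
  have hsurj : LinearMap.range Φ = ⊤ := by
    obtain ⟨s, -, hs⟩ := Finset.exists_subset_card_eq (s := (Finset.univ : Finset ι)) (n := k')
      (by rw [Finset.card_univ]; omega)
    obtain ⟨f, hf, -⟩ := exists_inj s hs
    have h2 := (hp' f hf).span_eq_top_of_card_eq_finrank' (by simp)
    rw [eq_top_iff, ← h2, Submodule.span_le]
    rintro _ ⟨i, rfl⟩
    refine ⟨Pi.single (f i) 1, ?_⟩
    rw [hΦ]
    simp [Pi.single_apply, ite_smul]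
  have hdim : Module.finrank K (LinearMap.ker Φ) = k := by
    have h1 := LinearMap.finrank_range_add_finrank_ker Φ
    rw [hsurj, finrank_top] at h1
    simp only [Module.finrank_fintype_fun_eq_card, Fintype.card_fin] at h1
    omega
  let r := Module.finBasisOfFinrankEq K (LinearMap.ker Φ) hdim
  let p : ι → Fin k → K := fun j i => (r i : ι → K) j
  have hcomb : ∀ L : (Fin k → K) →ₗ[K] K,
      (fun j => L (p j)) = ((∑ i, L (Pi.single i 1) • r i : LinearMap.ker Φ) : ι → K) := by
    intro L
    ext j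
    rw [l_apply]
    simp [p, mul_comm]
  have hrel : ∀ L : (Fin k → K) →ₗ[K] K, ∑ j, L (p j) • p' j = 0 := by
    intro L
    have h1 := (∑ i, L (Pi.single i 1) • r i : LinearMap.ker Φ).2
    rw [← hcomb L, LinearMap.mem_ker, hΦ] at h1
    exact h1
  refine ⟨p, hrel, fun f hf => li_of_functional _ fun L hL => ?_⟩
  have hz : ∀ j, L (p j) = 0 := by
    let s : Finset ι := Finset.univ.image f
    have hs : s.card = k := by
      rw [Finset.card_image_of_injective _ hf]; simp
    have hsc : sᶜ.card = k' := by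
      rw [Finset.card_compl, hs]; omega
    obtain ⟨f', hf', hm⟩ := exists_inj sᶜ hsc
    have h0 : ∀ j ∈ s, L (p j) = 0 := by
      intro j hj
      obtain ⟨a, -, rfl⟩ := Finset.mem_image.mp hj
      exact hL a
    have h1 := hrel L
    rw [← Finset.sum_add_sum_compl s, Finset.sum_eq_zero (s := s)
      (fun j hj => by rw [h0 j hj, zero_smul]), zero_add] at h1
    have h2 : ∑ a, L (p (f' a)) • p' (f' a) = 0 := by
      rw [← h1]
      refine Finset.sum_bij (fun a _ => f' a) (fun a _ => (hm _).mpr ⟨a, rfl⟩)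
        (fun a _ b _ hab => hf' hab) (fun j hj => ?_) (fun a _ => rfl)
      obtain ⟨a, ha⟩ := (hm j).mp hj
      exact ⟨a, Finset.mem_univ _, ha⟩
    have h3 := Fintype.linearIndependent_iff.mp (hp' f' hf') _ h2
    intro j
    by_cases hj : j ∈ s
    · exact h0 j hj
    · obtain ⟨a, rfl⟩ := (hm j).mp (Finset.mem_compl.mpr hj)
      exact h3 a
  have h4 : (∑ i, L (Pi.single i 1) • r i : LinearMap.ker Φ) = 0 := by
    apply Subtype.ext
    rw [← hcomb L]
    ext j
    simpa using hz j
  have h5 := Fintype.linearIndependent_iff.mp r.linearIndependent _ h4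
  apply LinearMap.ext
  intro v
  rw [l_apply]
  simp [h5]

/-- points of a Gale dual are in general position in the projective sense -/
theorem proj_inj (hk : 2 ≤ k) (hq : k ≤ Fintype.card ι) (p : ι → Fin k → K)
    (hp : ∀ f : Fin k → ι, Function.Injective f → LinearIndependent K (fun i => p (f i)))
    (i j : ι) (hij : i ≠ j) (c : K) (h : c • p i = p j) : False := by
  obtain ⟨s, hs1, hs2⟩ := Finset.exists_superset_card_eq (s := ({i, j} : Finset ι)) (n := k)
    (by rw [Finset.card_pair hij]; exact hk) hq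
  obtain ⟨f, hf, hm⟩ := exists_inj s hs2
  obtain ⟨a, ha⟩ := (hm i).mp (hs1 (by simp))
  obtain ⟨b, hb⟩ := (hm j).mp (hs1 (by simp))
  have hab : a ≠ b := by
    rintro rfl
    exact hij (ha.symm.trans hb)
  have h1 := Fintype.linearIndependent_iff.mp (hp f hf) (Pi.single a c - Pi.single b 1) (by
    simp only [Pi.sub_apply, sub_smul, Finset.sum_sub_distrib, Pi.single_apply, ite_smul, zero_smul,
      one_smul, Finset.sum_ite_eq', Finset.mem_univ, if_true, ha, hb, h, sub_self])
  have h2 := h1 b
  simp [hab.symm] at h2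

/-- the parametrised form: no point at infinity -/
theorem exists_finite_param [Fintype K] (hk : 2 ≤ k) (hkq : k ≤ Fintype.card K)
    (hι : Fintype.card ι = Fintype.card K) (p : ι → Fin k → K)
    (hpne : ∀ j, p j ≠ 0) (hinj : ∀ i j, i ≠ j → ∀ c : K, c • p i ≠ p j)
    (C : Set (ℙ K (Fin k → K))) (hC : IsNRC C)
    (hCp : ∀ j, Projectivization.mk K (p j) (hpne j) ∈ C) :
    ∃ (g : V K k ≃ₗ[K] V K k) (t μ : ι → K), ∀ j, p j = μ j • g (nu k (t j)) := by
  have hk0 : 0 < k := by omega
  obtain ⟨g, rfl⟩ := (isNRC_iff C).mp hC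
  have h1 : ∀ j, ∃ (T : Option K) (μ : K), p j = μ • gp g T := by
    intro j
    rcases (mem_cur hk0 g (p j) (hpne j)).mp (hCp j) with ⟨t, μ, h⟩ | ⟨μ, h⟩
    · exact ⟨some t, μ, h⟩
    · exact ⟨none, μ, h⟩
  choose T μ hT using h1
  have hμ : ∀ j, μ j ≠ 0 := by
    intro j h0
    exact hpne j (by rw [hT j, h0, zero_smul])
  have hTinj : Function.Injective T := by
    intro i j hij
    by_contra hne
    refine hinj i j hne (μ j * (μ i)⁻¹) ?_
    rw [hT i, smul_smul, mul_assoc, inv_mul_cancel₀ (hμ i), mul_one, hij, ← hT j]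
  have hns : ¬ Function.Surjective T := by
    intro hs
    have h2 := Fintype.card_le_of_surjective T hs
    rw [Fintype.card_option, hι] at h2
    omega
  have h3 : ∃ a, ∀ j, T j ≠ a := by
    by_contra hcon
    push Not at hcon
    exact hns hcon
  obtain ⟨a, ha⟩ := h3
  rcases a with _ | a
  · have h4 : ∀ j, ∃ t, T j = some t := fun j => Option.ne_none_iff_exists'.mp (ha j)
    choose t ht using h4
    refine ⟨g, t, μ, fun j => ?_⟩
    rw [hT j, ht j, gp]
  · obtain ⟨g', hg1, hg2⟩ := reparam hk0 hkq g a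
    have h4 : ∀ j, ∃ t ν : K, p j = ν • g' (nu k t) := by
      intro j
      have h5 := hCp j
      rw [← hg1] at h5
      rcases (mem_cur hk0 g' (p j) (hpne j)).mp h5 with ⟨t, ν, h⟩ | ⟨ν, h⟩
      · exact ⟨t, ν, h⟩
      · exfalso
        refine ha j (gp_inj hk g (T j) (some a) (ν⁻¹ * μ j) ?_)
        have hν : ν ≠ 0 := by
          rintro rfl
          exact hpne j (by rw [h, zero_smul])
        rw [mul_smul, ← hT j, h, hg2, smul_smul, inv_mul_cancel₀ hν, one_smul, gp]
    choose t ν h using h4
    exact ⟨g', t, ν, h⟩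

omit [DecidableEq ι] in
/-- interpolation: the other side -/
theorem interp [Fintype K] {k' : ℕ} (hk' : 1 ≤ k') (hkk : k + k' = Fintype.card K)
    (p' : ι → Fin k' → K) (t μ : ι → K) (ht : Function.Injective t)
    (hrel : ∀ e < k, ∑ j, (μ j * t j ^ e) • p' j = 0) :
    ∃ M : (Fin k' → K) →ₗ[K] (Fin k' → K), ∀ j, M (nu k' (t j)) = μ j • p' j := by
  set q := Fintype.card K with hqdef
  have hq2 : 1 < q := Fintype.one_lt_card
  let f : Fin k' → K[X] := fun i => ∑ j, C (μ j * p' j i) * (1 - (X + C (-t j)) ^ (q - 1))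
  have hev : ∀ i m, (f i).eval (t m) = μ m * p' m i := by
    intro i m
    simp only [f, eval_finsetSum, eval_mul, eval_C, eval_sub, eval_one, eval_pow, eval_add, eval_X]
    rw [Finset.sum_eq_single m]
    · rw [add_neg_cancel, zero_pow (by omega), sub_zero, mul_one]
    · intro j _ hj
      have h1 : t m + -t j ≠ 0 := by
        rw [← sub_eq_add_neg]
        exact sub_ne_zero.mpr (fun h => hj (ht h).symm)
      rw [FiniteField.pow_card_sub_one_eq_one _ h1, sub_self, mul_zero]
    · intro h
      exact absurd (Finset.mem_univ m) h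
  have hdeg : ∀ i, (f i).natDegree ≤ k' - 1 := by
    intro i
    rw [natDegree_le_iff_coeff_eq_zero]
    intro n hn
    simp only [f, finsetSum_coeff, coeff_C_mul, coeff_sub, coeff_X_add_C_pow, coeff_one]
    have hn0 : n ≠ 0 := by omega
    rw [if_neg hn0]
    rcases Nat.lt_or_ge (q - 1) n with h1 | h1
    · refine Finset.sum_eq_zero fun j _ => ?_
      rw [Nat.choose_eq_zero_of_lt h1]
      simp
    · have h2 : q - 1 - n < k := by omega
      have h3 := congrFun (hrel _ h2) i
      simp only [Finset.sum_apply, Pi.smul_apply, smul_eq_mul, Pi.zero_apply] at h3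
      have h4 : ∀ j, μ j * p' j i * (0 - (-t j) ^ (q - 1 - n) * ((q - 1).choose n : K)) =
          -((-1) ^ (q - 1 - n) * ((q - 1).choose n : K)) * (μ j * t j ^ (q - 1 - n) * p' j i) := by
        intro j
        rw [neg_pow (t j)]
        ring
      rw [Finset.sum_congr rfl (fun j _ => h4 j), ← Finset.mul_sum, h3, mul_zero]
  refine ⟨Lmap f, fun j => ?_⟩
  ext i
  rw [Lmap_nu (by omega) f hdeg, hev]
  rfl

/-- the dual statement for vectors -/
theorem core [Fintype K] {k' : ℕ} (hk : 2 ≤ k) (hk' : 2 ≤ k')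
    (hkk : k + k' = Fintype.card K) (hι : Fintype.card ι = Fintype.card K) (p' : ι → Fin k' → K)
    (hp' : ∀ f : Fin k' → ι, Function.Injective f → LinearIndependent K (fun i => p' (f i)))
    (h : ∀ A : Set (ℙ K (Fin k → K)), IsArc A → A.ncard = Fintype.card K →
        ∃ C : Set (ℙ K (Fin k → K)), IsNRC C ∧ A ⊆ C) :
    ∃ g : V K k' ≃ₗ[K] V K k', ∀ j, ∃ t μ : K, p' j = μ • g (nu k' t) := by
  classical
  obtain ⟨p, hrel, hp⟩ := gale hkk hι p' hp'
  have hk0 : 0 < k := by omega
  have hinj : ∀ i j, i ≠ j → ∀ c : K, c • p i ≠ p j := fun i j hij c hc =>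
    proj_inj hk (by omega) p hp i j hij c hc
  have hpne : ∀ j, p j ≠ 0 := by
    intro j h0
    obtain ⟨i, hi⟩ : ∃ i, i ≠ j := by
      by_contra hcon
      push Not at hcon
      have h1 : Fintype.card ι ≤ 1 := Fintype.card_le_one_iff.mpr (fun a b => by rw [hcon a, hcon b])
      omega
    exact hinj i j hi 0 (by rw [zero_smul, h0])
  let P : ι → ℙ K (Fin k → K) := fun j => Projectivization.mk K (p j) (hpne j)
  have hPinj : Function.Injective P := by
    intro i j hij
    by_contra hne
    simp only [P] at hij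
    rw [eq_comm, Projectivization.mk_eq_mk_iff'] at hij
    obtain ⟨c, hc⟩ := hij
    exact hinj i j hne c hc
  obtain ⟨C, hC, hAC⟩ := h (Set.range P) (by
      intro Q hQ hQA
      choose f hf using hQA
      have hfi : Function.Injective f := by
        intro a b hab
        exact hQ (by rw [← hf a, ← hf b, hab])
      have h1 : (fun a => P (f a)) = Q := funext hf
      rw [← h1]
      exact Projectivization.Independent.mk (fun a => p (f a)) (fun a => hpne _) (hp f hfi))
    (by
      rw [← Set.image_univ, Set.ncard_image_of_injective _ hPinj, Set.ncard_univ,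
        Nat.card_eq_fintype_card, hι])
  obtain ⟨g, t, μ, hg⟩ := exists_finite_param hk (by omega) hι p hpne hinj C hC
    (fun j => hAC ⟨j, rfl⟩)
  have hμ : ∀ j, μ j ≠ 0 := by
    intro j h0
    exact hpne j (by rw [hg j, h0, zero_smul])
  have ht : Function.Injective t := by
    intro i j hij
    by_contra hne
    refine hinj i j hne (μ j * (μ i)⁻¹) ?_
    rw [hg i, smul_smul, mul_assoc, inv_mul_cancel₀ (hμ i), mul_one, hij, ← hg j]
  have hrel' : ∀ e < k, ∑ j, (μ j * t j ^ e) • p' j = 0 := by
    intro e he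
    have h1 := hrel ((LinearMap.proj (⟨k - 1 - e, by omega⟩ : Fin k)).comp
      (g.symm : V K k →ₗ[K] V K k))
    rw [← h1]
    refine Finset.sum_congr rfl fun j _ => ?_
    congr 1
    rw [LinearMap.comp_apply, LinearEquiv.coe_coe, hg j, map_smul, LinearEquiv.symm_apply_apply,
      LinearMap.proj_apply, Pi.smul_apply, smul_eq_mul, nu]
    congr 2
    simp only
    omega
  obtain ⟨M, hM⟩ := interp (by omega) hkk p' t μ ht hrel'
  have hMs : Function.Surjective M := by
    refine surj_of M fun l hl => ?_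
    obtain ⟨s, -, hs⟩ := Finset.exists_subset_card_eq (s := (Finset.univ : Finset ι)) (n := k')
      (by rw [Finset.card_univ]; omega)
    obtain ⟨f, hf, -⟩ := exists_inj s hs
    refine functional_of_li _ (hp' f hf) l fun i => ?_
    have h1 := hl (nu k' (t (f i)))
    rw [hM, map_smul, smul_eq_mul] at h1
    exact (mul_eq_zero.mp h1).resolve_left (hμ _)
  refine ⟨eqv M hMs, fun j => ⟨t j, (μ j)⁻¹, ?_⟩⟩
  rw [eqv_apply, hM, smul_smul, inv_mul_cancel₀ (hμ j), one_smul]

end

end Pool.Agent.Helper31.RNDual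

namespace Pool.Agent.Helper31.RN

noncomputable section

theorem dual {K : Type*} [Field K] [Fintype K] {k k' : ℕ} (hk : 2 ≤ k) (hk' : 2 ≤ k')
    (hkk : k + k' = Fintype.card K)
    (h : ∀ A : Set (ℙ K (Fin k → K)), Pool.Agent.Helper98.NRC.IsArc A →
      A.ncard = Fintype.card K →
        ∃ C : Set (ℙ K (Fin k → K)), Pool.Agent.Helper98.NRC.IsNRC C ∧ A ⊆ C)
    (A : Set (ℙ K (Fin k' → K))) (hA : Pool.Agent.Helper98.NRC.IsArc A)
    (hAc : A.ncard = Fintype.card K) :
    ∃ C : Set (ℙ K (Fin k' → K)), Pool.Agent.Helper98.NRC.IsNRC C ∧ A ⊆ C := by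
  classical
  have hfin : A.Finite := Set.finite_of_ncard_ne_zero (by rw [hAc]; exact Fintype.card_ne_zero)
  have : Fintype A := hfin.fintype
  have hcard : Fintype.card A = Fintype.card K := by
    rw [← hAc, Set.ncard_eq_toFinset_card', Set.toFinset_card]
  obtain ⟨g, hg⟩ := RNDual.core hk hk' hkk hcard (fun P : A => (P : ℙ K (Fin k' → K)).rep)
    (by
      intro f hf
      have h1 := hA (fun i => (f i : ℙ K (Fin k' → K))) (Subtype.val_injective.comp hf)
        (fun i => (f i).2)
      rw [Projectivization.independent_iff] at h1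
      exact h1) h
  refine ⟨Pool.Agent.Helper98.NRC.cur g, (Pool.Agent.Helper98.NRC.isNRC_iff _).mpr ⟨g, rfl⟩, ?_⟩
  intro P hP
  obtain ⟨t, μ, h1⟩ := hg ⟨P, hP⟩
  rw [← P.mk_rep]
  exact (Pool.Agent.Helper98.NRC.mem_cur (by omega) g P.rep P.rep_nonzero).mpr (Or.inl ⟨t, μ, h1⟩)

end

end Pool.Agent.Helper31.RN
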