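import Pool.Agent.Helper31.RN.Defs

/-!
# RN-LIN: linear algebra of a family in general position

Let `B ⊆ S`, `|B| = k`. If `∑_{b ∈ B} r_b p_b = 0` then `r = 0` (apply `ev _ (D (B.erase b))`), so the `p_b` are a basis.
`form_eq_zero`: all coordinates `f.coeff i = ev (Pi.single i 1) f` are zero since `Pi.single i 1` is a combination of the `p_b`,
and `f` has degree `< k`.
`interp_form`: the difference vanishes at the points of `B`. `interp_vec` (over `L`): write `v` as combination of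
`Pi.single i 1`; or: the `p_b` span, so `v = ∑_b r_b p_b` with `r_b ∈ L`, and apply `ev _ (D (B.erase b))`.
`rel_zero`: `R` is a subset of `T` with at most `k` elements outside of which `r` vanishes; enlarge `R` to a `k`-subset of `S`.
`form_unique`: `f - C (f(z)/D_B(z)) * D_B` vanishes on `insert z B`.
`exists_pen`: pick `x ∈ S \ A`, `x ≠ z`; `ψ0 = D (insert z A)`, `ψ1 = C a * D (insert x A)` with `a` such that `ev (p z) ψ1 = 1`; the form
`C (ev (p e) ψ0) * ψ1 - C (ev (p e) ψ1) * ψ0` vanishes on `insert e A` and is not zero, use `form_unique`.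
-/

open Polynomial

namespace Pool.Agent.Helper31.RN

noncomputable section

variable {K : Type*} [Field K] {ι : Type*} [DecidableEq ι] {k : ℕ}

variable {S : Finset ι} {p : ι → Fin k → K} {D : Finset ι → K[X]}

theorem GP.coeff_zero (H : GP k S p D) {B : Finset ι} (hB : B ⊆ S) (hBc : B.card = k)
    {r : ι → K} (hr : ∑ b ∈ B, r b • p b = 0) : ∀ b ∈ B, r b = 0 := by
  intro b hb
  have h1 : ev (∑ b' ∈ B, r b' • p b') (D (B.erase b)) = 0 := by rw [hr, ev_zero_vec]
  have hsub : B.erase b ⊆ S := (Finset.erase_subset _ _).trans hB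
  have hc : (B.erase b).card = k - 1 := by rw [Finset.card_erase_of_mem hb, hBc]
  rw [ev_sum_vec, Finset.sum_eq_single_of_mem b hb, ev_smul_vec] at h1
  · exact (mul_eq_zero.1 h1).resolve_right (H.ne _ hsub hc b
      (Finset.mem_sdiff.2 ⟨hB hb, Finset.notMem_erase b B⟩))
  · intro b' hb' hne
    rw [ev_smul_vec, H.zero _ hsub hc b' (Finset.mem_erase.2 ⟨hne, hb'⟩), mul_zero]

theorem GP.linInd (H : GP k S p D) {B : Finset ι} (hB : B ⊆ S) (hBc : B.card = k) :
    LinearIndependent K (fun b : B => p b) := by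
  rw [Fintype.linearIndependent_iff]
  intro g hg i
  have h1 := H.coeff_zero hB hBc (r := fun b => if h : b ∈ B then g ⟨b, h⟩ else 0) ?_ i.1 i.2
  · rw [dif_pos i.2] at h1
    exact h1
  · rw [← hg, ← Finset.sum_coe_sort B]
    refine Finset.sum_congr rfl fun b _ => ?_
    rw [dif_pos b.2]

theorem GP.rel_zero (H : GP k S p D) {T R : Finset ι} (hT : T ⊆ S) (hS : k ≤ S.card) (hR : R ⊆ T)
    (hRc : R.card ≤ k) {r : ι → K} (hr : ∑ b ∈ T, r b • p b = 0) (hr0 : ∀ b ∈ T, b ∉ R → r b = 0) :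
    ∀ b ∈ T, r b = 0 := by
  obtain ⟨B, hRB, hBS, hBc⟩ := Finset.exists_subsuperset_card_eq (hR.trans hT) hRc hS
  intro b hb
  by_cases hbR : b ∈ R
  · have h1 := H.coeff_zero hBS hBc (r := fun b => if b ∈ R then r b else 0) ?_ b (hRB hbR)
    · rw [if_pos hbR] at h1
      exact h1
    · have e1 : ∑ b' ∈ R, (if b' ∈ R then r b' else 0) • p b' =
          ∑ b' ∈ B, (if b' ∈ R then r b' else 0) • p b' :=
        Finset.sum_subset hRB fun b' _ hb' => by rw [if_neg hb', zero_smul]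
      have e2 : ∑ b' ∈ R, r b' • p b' = ∑ b' ∈ T, r b' • p b' :=
        Finset.sum_subset hR fun b' hb' hb'' => by rw [hr0 b' hb' hb'', zero_smul]
      rw [← hr, ← e2, ← e1]
      refine Finset.sum_congr rfl fun b' hb' => ?_
      rw [if_pos hb']
  · exact hr0 b hb hbR

theorem GP.form_eq_zero (H : GP k S p D) {B : Finset ι} (hB : B ⊆ S) (hBc : B.card = k)
    {f : K[X]} (hf : f.degree < k) (hf0 : ∀ b ∈ B, ev (p b) f = 0) : f = 0 := by
  have hspan : Submodule.span K (Set.range (fun b : B => p b)) = ⊤ := by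
    apply (H.linInd hB hBc).span_eq_top_of_card_eq_finrank'
    rw [Fintype.card_coe, hBc, Module.finrank_fin_fun]
  obtain ⟨φ, hφ⟩ : ∃ φ : (Fin k → K) →ₗ[K] K, ∀ v, φ v = ev v f :=
    ⟨{ toFun := fun v => ev v f
       map_add' := fun v w => ev_add_vec v w f
       map_smul' := fun a v => ev_smul_vec a v f }, fun _ => rfl⟩
  have h0 : φ = 0 := by
    apply LinearMap.ext_on_range hspan
    intro b
    rw [hφ, hf0 b.1 b.2, LinearMap.zero_apply]
  ext n
  rw [Polynomial.coeff_zero]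
  by_cases hn : n < k
  · have h1 := hφ (Pi.single ⟨n, hn⟩ 1)
    rw [h0, LinearMap.zero_apply, ev_single] at h1
    exact h1.symm
  · apply coeff_eq_zero_of_degree_lt
    refine lt_of_lt_of_le hf ?_
    exact_mod_cast not_lt.1 hn

theorem GP.interp_form (hk : 1 ≤ k) (H : GP k S p D) {B : Finset ι} (hB : B ⊆ S)
    (hBc : B.card = k) {f : K[X]} (hf : f.degree < k) :
    f = ∑ b ∈ B, C (ev (p b) f / ev (p b) (D (B.erase b))) * D (B.erase b) := by
  rw [← sub_eq_zero]
  apply H.form_eq_zero hB hBc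
  · refine lt_of_le_of_lt (degree_sub_le _ _) (max_lt hf ?_)
    exact degree_sum_lt' _ _ fun b _ => degree_C_mul_lt _ (H.deg _)
  · intro b hb
    have hsub : ∀ b', B.erase b' ⊆ S := fun b' => (Finset.erase_subset _ _).trans hB
    have hc : ∀ b' ∈ B, (B.erase b').card = k - 1 := fun b' hb' => by
      rw [Finset.card_erase_of_mem hb', hBc]
    rw [ev_sub, ev_sum, Finset.sum_eq_single_of_mem b hb, ev_C_mul, smul_eq_mul, div_mul_cancel₀, sub_self]
    · exact H.ne _ (hsub b) (hc b hb) b (Finset.mem_sdiff.2 ⟨hB hb, Finset.notMem_erase b B⟩)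
    · intro b' hb' hne
      rw [ev_C_mul, H.zero _ (hsub b') (hc b' hb') b (Finset.mem_erase.2 ⟨hne.symm, hb⟩), smul_zero]

theorem GP.interp_vec (hk : 1 ≤ k) {L : Type*} [CommRing L] [Algebra K L] (H : GP k S p D)
    {B : Finset ι} (hB : B ⊆ S) (hBc : B.card = k) (v : Fin k → L) :
    v = ∑ b ∈ B, (ev v (D (B.erase b)) *
      algebraMap K L (ev (p b) (D (B.erase b)))⁻¹) • bc L (p b) := by
  have key : ∀ i j : Fin k, ∑ b ∈ B, (ev (p b) (D (B.erase b)))⁻¹ * (D (B.erase b)).coeff j * p b i =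
      if i = j then 1 else 0 := by
    intro i j
    have h1 : ((X : K[X]) ^ (i : ℕ)).degree < (k : WithBot ℕ) := by
      rw [degree_X_pow]
      exact_mod_cast i.2
    have h2 := congrArg (fun f => coeff f (j : ℕ)) (H.interp_form hk hB hBc h1)
    have h3 : ∀ b, ev (p b) ((X : K[X]) ^ (i : ℕ)) = p b i := by
      intro b
      unfold ev
      rw [Finset.sum_eq_single i]
      · rw [coeff_X_pow, if_pos rfl, one_smul]
      · intro l _ hl
        rw [coeff_X_pow, if_neg (fun h => hl (Fin.ext h)), zero_smul]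
      · intro h
        exact absurd (Finset.mem_univ i) h
    simp only [finsetSum_coeff, coeff_C_mul, coeff_X_pow, h3] at h2
    have h4 : (if i = j then (1 : K) else 0) = if (j : ℕ) = (i : ℕ) then 1 else 0 := by
      by_cases hij : i = j
      · rw [if_pos hij, if_pos (by rw [hij])]
      · rw [if_neg hij, if_neg (fun h => hij (Fin.ext h.symm))]
    rw [h4, h2]
    refine Finset.sum_congr rfl fun b _ => ?_
    ring
  ext i
  rw [Finset.sum_apply]
  have h5 : ∀ b ∈ B, ((ev v (D (B.erase b)) * algebraMap K L (ev (p b) (D (B.erase b)))⁻¹) • bc L (p b)) i =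
      ∑ j : Fin k, algebraMap K L ((ev (p b) (D (B.erase b)))⁻¹ * (D (B.erase b)).coeff j * p b i) * v j := by
    intro b _
    rw [Pi.smul_apply, smul_eq_mul]
    unfold bc
    rw [mul_assoc, ← map_mul]
    unfold ev
    rw [Finset.sum_mul]
    refine Finset.sum_congr rfl fun j _ => ?_
    rw [Algebra.smul_def, mul_right_comm, ← map_mul]
    congr 2
    ring
  rw [Finset.sum_congr rfl h5, Finset.sum_comm]
  have h6 : ∀ j : Fin k, ∑ b ∈ B, algebraMap K L ((ev (p b) (D (B.erase b)))⁻¹ * (D (B.erase b)).coeff j * p b i) *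
      v j = (if i = j then 1 else 0) * v j := by
    intro j
    rw [← Finset.sum_mul, ← map_sum, key i j]
    split_ifs <;> simp
  rw [Finset.sum_congr rfl fun j _ => h6 j]
  simp

theorem GP.form_unique (hk : 1 ≤ k) (H : GP k S p D) (hS : k ≤ S.card) {B : Finset ι}
    (hB : B ⊆ S) (hBc : B.card = k - 1) {f : K[X]} (hf : f.degree < k)
    (hf0 : ∀ b ∈ B, ev (p b) f = 0) : ∃ a : K, f = C a * D B := by
  obtain ⟨z, hz⟩ : ∃ z ∈ S, z ∉ B := by
    by_contra hcon
    push Not at hcon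
    have := Finset.card_le_card (show S ⊆ B from hcon)
    omega
  have hD := H.ne B hB hBc z (Finset.mem_sdiff.2 hz)
  refine ⟨ev (p z) f / ev (p z) (D B), ?_⟩
  rw [← sub_eq_zero]
  apply H.form_eq_zero (B := insert z B) (Finset.insert_subset hz.1 hB)
    (by rw [Finset.card_insert_of_notMem hz.2, hBc]; omega)
  · exact lt_of_le_of_lt (degree_sub_le _ _) (max_lt hf (degree_C_mul_lt _ (H.deg _)))
  · intro b hb
    rw [ev_sub, ev_C_mul, smul_eq_mul]
    rcases Finset.mem_insert.1 hb with rfl | hb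
    · rw [div_mul_cancel₀ _ hD, sub_self]
    · rw [hf0 b hb, H.zero B hB hBc b hb, mul_zero, sub_zero]

/-- a normalised basis of the forms that vanish on `A`, `|A| = k-2` -/
structure Pen (k : ℕ) (S A : Finset ι) (p : ι → Fin k → K) (D : Finset ι → K[X]) (z : ι)
    (ψ0 ψ1 : K[X]) (δ : ι → K) : Prop where
  deg0 : ψ0.degree < k
  deg1 : ψ1.degree < k
  zero0 : ∀ a ∈ A, ev (p a) ψ0 = 0
  zero1 : ∀ a ∈ A, ev (p a) ψ1 = 0
  z0 : ev (p z) ψ0 = 0
  z1 : ev (p z) ψ1 = 1
  ne0 : ∀ e ∈ S \ A, e ≠ z → ev (p e) ψ0 ≠ 0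
  dne : ∀ e ∈ S \ A, δ e ≠ 0
  form : ∀ e ∈ S \ A, D (insert e A) =
    C (δ e) * (C (ev (p e) ψ0) * ψ1 - C (ev (p e) ψ1) * ψ0)
  span : ∀ f : K[X], f.degree < k → (∀ a ∈ A, ev (p a) f = 0) → ∃ a b : K, f = C a * ψ0 + C b * ψ1

theorem GP.exists_pen (hk : 2 ≤ k) (H : GP k S p D) (hS : k ≤ S.card) {A : Finset ι} (hA : A ⊆ S)
    (hAc : A.card = k - 2) {z : ι} (hz : z ∈ S) (hzA : z ∉ A) :
    ∃ (ψ1 : K[X]) (δ : ι → K), Pen k S A p D z (D (insert z A)) ψ1 δ := by
  have hcard : ∀ e, e ∉ A → (insert e A).card = k - 1 := fun e he => by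
    rw [Finset.card_insert_of_notMem he, hAc]; omega
  have hsub : ∀ e ∈ S, insert e A ⊆ S := fun e he => Finset.insert_subset he hA
  obtain ⟨x, hxS, hx⟩ : ∃ x ∈ S, x ∉ insert z A := by
    by_contra hcon
    push Not at hcon
    have := Finset.card_le_card (show S ⊆ insert z A from hcon)
    rw [hcard z hzA] at this
    omega
  have hxA : x ∉ A := fun h => hx (Finset.mem_insert_of_mem h)
  have hxz : x ≠ z := fun h => hx (by rw [h]; exact Finset.mem_insert_self _ _)
  have hx1 : ev (p z) (D (insert x A)) ≠ 0 := H.ne _ (hsub x hxS) (hcard x hxA) z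
    (Finset.mem_sdiff.2 ⟨hz, fun h => (Finset.mem_insert.1 h).elim (fun h => hxz h.symm) hzA⟩)
  have hx0 : ev (p x) (D (insert z A)) ≠ 0 := H.ne _ (hsub z hz) (hcard z hzA) x
    (Finset.mem_sdiff.2 ⟨hxS, hx⟩)
  obtain ⟨ψ1, hψ1⟩ : ∃ ψ1, ψ1 = C (ev (p z) (D (insert x A)))⁻¹ * D (insert x A) := ⟨_, rfl⟩
  have deg1 : ψ1.degree < k := by rw [hψ1]; exact degree_C_mul_lt _ (H.deg _)
  have zero1 : ∀ a ∈ A, ev (p a) ψ1 = 0 := fun a ha => by
    rw [hψ1, ev_C_mul, H.zero _ (hsub x hxS) (hcard x hxA) a (Finset.mem_insert_of_mem ha), smul_zero]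
  have zero0 : ∀ a ∈ A, ev (p a) (D (insert z A)) = 0 := fun a ha =>
    H.zero _ (hsub z hz) (hcard z hzA) a (Finset.mem_insert_of_mem ha)
  have z0 : ev (p z) (D (insert z A)) = 0 := H.zero _ (hsub z hz) (hcard z hzA) z (Finset.mem_insert_self _ _)
  have z1 : ev (p z) ψ1 = 1 := by rw [hψ1, ev_C_mul, smul_eq_mul, inv_mul_cancel₀ hx1]
  have ne0 : ∀ e ∈ S \ A, e ≠ z → ev (p e) (D (insert z A)) ≠ 0 := fun e he hez =>
    H.ne _ (hsub z hz) (hcard z hzA) e (Finset.mem_sdiff.2 ⟨(Finset.mem_sdiff.1 he).1, fun h =>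
      (Finset.mem_insert.1 h).elim hez (Finset.mem_sdiff.1 he).2⟩)
  have hδ : ∀ e ∈ S \ A, ∃ d : K, d ≠ 0 ∧ D (insert e A) =
      C d * (C (ev (p e) (D (insert z A))) * ψ1 - C (ev (p e) ψ1) * D (insert z A)) := by
    intro e he
    have he' := Finset.mem_sdiff.1 he
    obtain ⟨a, ha⟩ := H.form_unique (by omega) hS (hsub e he'.1) (hcard e he'.2)
      (f := C (ev (p e) (D (insert z A))) * ψ1 - C (ev (p e) ψ1) * D (insert z A))
      (lt_of_le_of_lt (degree_sub_le _ _) (max_lt (degree_C_mul_lt _ deg1) (degree_C_mul_lt _ (H.deg _))))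
      (by
        intro b hb
        rw [ev_sub, ev_C_mul, ev_C_mul, smul_eq_mul, smul_eq_mul]
        rcases Finset.mem_insert.1 hb with rfl | hb
        · ring
        · rw [zero0 b hb, zero1 b hb]
          ring)
    have ha0 : a ≠ 0 := by
      intro h0
      rw [h0, C_0, zero_mul] at ha
      by_cases hez : e = z
      · have h1 := congrArg (ev (p x)) ha
        rw [ev_sub, ev_C_mul, ev_C_mul, smul_eq_mul, smul_eq_mul, hez, z0, z1, zero_mul, one_mul, zero_sub,
          ev_zero, neg_eq_zero] at h1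
        exact hx0 h1
      · have h1 := congrArg (ev (p z)) ha
        rw [ev_sub, ev_C_mul, ev_C_mul, smul_eq_mul, smul_eq_mul, z0, z1, mul_one, mul_zero, sub_zero,
          ev_zero] at h1
        exact ne0 e he hez h1
    refine ⟨a⁻¹, inv_ne_zero ha0, ?_⟩
    rw [ha, ← mul_assoc, ← C_mul, inv_mul_cancel₀ ha0, C_1, one_mul]
  choose! δ hδ0 hδ1 using hδ
  refine ⟨ψ1, δ, ⟨H.deg _, deg1, zero0, zero1, z0, z1, ne0, hδ0, hδ1, ?_⟩⟩
  intro f hf hf0
  obtain ⟨a, ha⟩ := H.form_unique (by omega) hS (hsub z hz) (hcard z hzA) (f := f - C (ev (p z) f) * ψ1)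
    (lt_of_le_of_lt (degree_sub_le _ _) (max_lt hf (degree_C_mul_lt _ deg1)))
    (by
      intro b hb
      rw [ev_sub, ev_C_mul, smul_eq_mul]
      rcases Finset.mem_insert.1 hb with rfl | hb
      · rw [z1, mul_one, sub_self]
      · rw [hf0 b hb, zero1 b hb, mul_zero, sub_zero])
  refine ⟨a, ev (p z) f, ?_⟩
  rw [← ha]
  ring

end

end Pool.Agent.Helper31.RN
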