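import Pool.Agent.Helper31.RN.Planar
import Pool.Agent.Helper31.RN.Lin

/-!
# RN-F2: the Segre system of a `q`-arc

`ι = Fin q`. For `|B| = k-1` let `D B` be the form `v ↦ det (rows p (B_0), …, p (B_{k-2}), v)` (`B_i` the elements of `B` in increasing order, `Finset.orderEmbOfFin`),
`D B = ∑_i C (det (.., Pi.single i 1)) X^i`. `c B = ∏_{z ∉ B} (ev (p z) (D B))⁻²`. The square `Δ²(T) = det(p(T_i))²`, `|T| = k`, does not depend on the order of the rows
(`Matrix.det_permute`), so `(ev (p z) (D B))² = Δ²(insert z B)`.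
`seg`: let `|A| = k-2`, `J = univ \ A`, `n = |J| = q-k+2`. `[u,v] = det (rows p (A_0), …, p (A_{k-3}), u, v)`, alternating, `[p_y, p_z]² = Δ²(A+y+z)`; the form `[p_y, ·]` vanishes on `insert y A`, so (`k` points)
`ev v (D (insert y A)) = ε_y [p_y, v]` and `ε_y² = 1` (compare the squares at some `p z`). `m = q - 2k + 1 = |univ \ G| + 1` linear forms: each term of `seg`, evaluated at `v`, is
`ε_y^m ∏_{g ∉ G} [y,g] · [y,v] / ∏_{z ∈ J.erase y} [y,z]²` (`c` has only squares), and `ε_y^m = 1`: `q` odd: `m` even; `q` even: `ε_y = 1` since `-1 = 1`. The sum over `G \ A` equals the sum over `J`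
(for `y ∉ G` the factor `[y,y]` is zero). Choose forms `φ_0, φ_1` that vanish on `A` with `[u,v] = d (φ_0(u) φ_1(v) - φ_1(u) φ_0(v))` and `φ_1(y) ≠ 0` for all `y ∈ J`: the two-dimensional space of forms that vanish on `A` has
`q+1` lines, each `y ∈ J` excludes one of them, `|J| ≤ q`. Then `planar` with `a = φ_0(p y)`, `b = φ_1(p y)`: `T` with `q-2k+1` elements, `T.card + q + 3 = 2 (q-k+2)`.
-/

open Polynomial

namespace Pool.Agent.Helper31.RN

noncomputable section

section formOf

variable {K : Type*} [Field K] {k : ℕ}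

/-- the form of a linear functional -/
def formOf (φ : (Fin k → K) →ₗ[K] K) : K[X] := ∑ i : Fin k, C (φ (Pi.single i 1)) * X ^ (i : ℕ)

theorem formOf_degree (φ : (Fin k → K) →ₗ[K] K) : (formOf φ).degree < k := by
  refine degree_sum_lt' _ _ fun i _ => degree_C_mul_lt _ ?_
  rw [degree_X_pow]
  exact_mod_cast i.2

theorem formOf_coeff (φ : (Fin k → K) →ₗ[K] K) (i : Fin k) :
    (formOf φ).coeff i = φ (Pi.single i 1) := by
  rw [formOf, finsetSum_coeff, Finset.sum_eq_single i]
  · rw [coeff_C_mul, coeff_X_pow, if_pos rfl, mul_one]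
  · intro j _ hj
    rw [coeff_C_mul, coeff_X_pow, if_neg (fun h => hj (Fin.ext h.symm)), mul_zero]
  · intro h
    exact absurd (Finset.mem_univ i) h

theorem ev_formOf (φ : (Fin k → K) →ₗ[K] K) (v : Fin k → K) : ev v (formOf φ) = φ v := by
  rw [ev]
  conv_rhs => rw [pi_eq_sum_univ' v, map_sum]
  refine Finset.sum_congr rfl fun i _ => ?_
  rw [formOf_coeff, map_smul, smul_eq_mul, smul_eq_mul, mul_comm]

theorem eq_zero_of_ev {f : K[X]} (hf : f.degree < k) (h : ∀ v : Fin k → K, ev v f = 0) :
    f = 0 := by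
  ext n
  rw [Polynomial.coeff_zero]
  by_cases hn : n < k
  · have h1 := h (Pi.single ⟨n, hn⟩ 1)
    rw [ev_single] at h1
    exact h1
  · apply coeff_eq_zero_of_degree_lt
    refine lt_of_lt_of_le hf ?_
    exact_mod_cast not_lt.1 hn

end formOf

section perm

theorem exists_perm_of_range {m : ℕ} {α : Type*} {F G : Fin m → α} (hF : Function.Injective F)
    (hG : Function.Injective G) (h : Set.range F = Set.range G) :
    ∃ σ : Equiv.Perm (Fin m), F = G ∘ σ := by
  refine ⟨((Equiv.ofInjective F hF).trans (Equiv.setCongr h)).trans (Equiv.ofInjective G hG).symm, ?_⟩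
  funext i
  have h1 := Equiv.apply_ofInjective_symm hG (Equiv.setCongr h (Equiv.ofInjective F hF i))
  simp only [Function.comp_apply, Equiv.trans_apply]
  rw [h1]
  rfl

theorem det_rows_perm {K : Type*} [Field K] {m : ℕ} {α : Type*} {F G : Fin m → α}
    (hF : Function.Injective F) (hG : Function.Injective G) (h : Set.range F = Set.range G) :
    ∃ ε : K, ε * ε = 1 ∧ (ε = 1 ∨ ε = -1) ∧ ∀ P : α → Fin m → K,
      Matrix.det (Matrix.of (fun i => P (F i))) = ε * Matrix.det (Matrix.of (fun i => P (G i))) := by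
  obtain ⟨σ, hσ⟩ := exists_perm_of_range hF hG h
  refine ⟨((Equiv.Perm.sign σ : ℤ) : K), ?_, ?_, ?_⟩
  · rcases Int.units_eq_one_or (Equiv.Perm.sign σ) with h1 | h1 <;> rw [h1] <;> simp
  · rcases Int.units_eq_one_or (Equiv.Perm.sign σ) with h1 | h1 <;> rw [h1] <;> simp
  · intro P
    rw [← Matrix.det_permute, hσ]
    rfl

end perm

section pen

variable {K : Type*} [Field K] {n : ℕ}

/-- the determinant with two free rows -/
def br (r : Fin n → Fin (n + 2) → K) (u v : Fin (n + 2) → K) : K :=
  Matrix.det (Matrix.of (Fin.snoc (α := fun _ => Fin (n + 2) → K)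
    (Fin.snoc (α := fun _ => Fin (n + 2) → K) r u) v))

theorem br_update_last (r : Fin n → Fin (n + 2) → K) (u v : Fin (n + 2) → K) :
    br r u v = Matrix.detRowAlternating (Function.update (Fin.snoc (α := fun _ => Fin (n + 2) → K)
      (Fin.snoc (α := fun _ => Fin (n + 2) → K) r u) 0) (Fin.last _) v) := by
  rw [Fin.update_snoc_last]
  rfl

theorem br_update_left (r : Fin n → Fin (n + 2) → K) (u v : Fin (n + 2) → K) :
    br r u v = Matrix.detRowAlternating (Function.update (Fin.snoc (α := fun _ => Fin (n + 2) → K)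
      (Fin.snoc (α := fun _ => Fin (n + 2) → K) r 0) v) (Fin.castSucc (Fin.last _)) u) := by
  rw [← Fin.snoc_update, Fin.update_snoc_last]
  rfl

/-- `br` as a bilinear map -/
def brL (r : Fin n → Fin (n + 2) → K) : (Fin (n + 2) → K) →ₗ[K] (Fin (n + 2) → K) →ₗ[K] K :=
  LinearMap.mk₂ K (br r)
    (fun a b v => by
      rw [br_update_left, br_update_left, br_update_left, AlternatingMap.map_update_add])
    (fun c a v => by
      rw [br_update_left, br_update_left, AlternatingMap.map_update_smul])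
    (fun u a b => by
      rw [br_update_last, br_update_last, br_update_last, AlternatingMap.map_update_add])
    (fun c u a => by
      rw [br_update_last, br_update_last, AlternatingMap.map_update_smul])

theorem brL_apply (r : Fin n → Fin (n + 2) → K) (u v : Fin (n + 2) → K) : brL r u v = br r u v := rfl

theorem br_self (r : Fin n → Fin (n + 2) → K) (u : Fin (n + 2) → K) : br r u u = 0 := by
  refine Matrix.detRowAlternating.map_eq_zero_of_eq (i := Fin.castSucc (Fin.last n))
    (j := Fin.last (n + 1)) (Fin.snoc (α := fun _ => Fin (n + 2) → K)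
    (Fin.snoc (α := fun _ => Fin (n + 2) → K) r u) u) ?_ ?_
  · rw [Fin.snoc_castSucc, Fin.snoc_last, Fin.snoc_last]
  · exact (Fin.castSucc_lt_last _).ne

theorem br_left (r : Fin n → Fin (n + 2) → K) (i : Fin n) (v : Fin (n + 2) → K) :
    br r (r i) v = 0 := by
  refine Matrix.detRowAlternating.map_eq_zero_of_eq (i := Fin.castSucc (Fin.castSucc i))
    (j := Fin.castSucc (Fin.last n)) (Fin.snoc (α := fun _ => Fin (n + 2) → K)
    (Fin.snoc (α := fun _ => Fin (n + 2) → K) r (r i)) v) ?_ ?_
  · rw [Fin.snoc_castSucc, Fin.snoc_castSucc, Fin.snoc_castSucc, Fin.snoc_last]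
  · intro h
    exact (Fin.castSucc_lt_last i).ne (Fin.castSucc_injective _ h)

theorem br_right (r : Fin n → Fin (n + 2) → K) (i : Fin n) (u : Fin (n + 2) → K) :
    br r u (r i) = 0 := by
  refine Matrix.detRowAlternating.map_eq_zero_of_eq (i := Fin.castSucc (Fin.castSucc i))
    (j := Fin.last (n + 1)) (Fin.snoc (α := fun _ => Fin (n + 2) → K)
    (Fin.snoc (α := fun _ => Fin (n + 2) → K) r u) (r i)) ?_ ?_
  · rw [Fin.snoc_castSucc, Fin.snoc_castSucc, Fin.snoc_last]
  · exact (Fin.castSucc_lt_last _).ne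

theorem br_swap (r : Fin n → Fin (n + 2) → K) (u v : Fin (n + 2) → K) : br r u v = - br r v u := by
  have h := br_self r (u + v)
  rw [← brL_apply, map_add, map_add, LinearMap.add_apply, LinearMap.add_apply, brL_apply, brL_apply,
    brL_apply, brL_apply, br_self, br_self, zero_add, add_zero] at h
  exact eq_neg_of_add_eq_zero_right h

/-- the Plücker relation -/
theorem br_plucker (r : Fin n → Fin (n + 2) → K) (u0 u1 : Fin (n + 2) → K)
    (h0 : br r u0 u1 ≠ 0) (u v : Fin (n + 2) → K) :
    br r u v * br r u0 u1 = br r u u1 * br r u0 v - br r u0 u * br r v u1 := by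
  have hli : LinearIndependent K (Fin.snoc (α := fun _ => Fin (n + 2) → K)
      (Fin.snoc (α := fun _ => Fin (n + 2) → K) r u0) u1) := by
    have := Matrix.linearIndependent_rows_of_det_ne_zero (A := Matrix.of (Fin.snoc (α := fun _ => Fin (n + 2) → K)
      (Fin.snoc (α := fun _ => Fin (n + 2) → K) r u0) u1)) h0
    exact this
  have hspan : Submodule.span K (Set.range (Fin.snoc (α := fun _ => Fin (n + 2) → K)
      (Fin.snoc (α := fun _ => Fin (n + 2) → K) r u0) u1)) = ⊤ := by
    apply hli.span_eq_top_of_card_eq_finrank'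
    rw [Module.finrank_fin_fun, Fintype.card_fin]
  have key : br r u0 u1 • (brL r).flip v = (br r u0 v) • (brL r).flip u1 - (br r v u1) • (brL r u0) := by
    apply LinearMap.ext_on_range hspan
    intro i
    simp only [LinearMap.smul_apply, LinearMap.sub_apply, LinearMap.flip_apply, brL_apply, smul_eq_mul]
    induction i using Fin.lastCases with
    | last =>
      rw [Fin.snoc_last, br_self, mul_zero, zero_sub, br_swap r u1 v]
      ring
    | cast i =>
      rw [Fin.snoc_castSucc]
      induction i using Fin.lastCases with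
      | last =>
        rw [Fin.snoc_last, br_self]
        ring
      | cast i =>
        rw [Fin.snoc_castSucc, br_left, br_left, br_right]
        ring
  have h1 := congrArg (fun φ => φ u) key
  simp only [LinearMap.smul_apply, LinearMap.sub_apply, LinearMap.flip_apply, brL_apply, smul_eq_mul] at h1
  linear_combination h1

end pen

section sys

variable {K : Type*} [Field K] {n q : ℕ}

/-- the functional `v ↦ det (rows p b, b ∈ B, then v)` -/
def Dfun (p : Fin q → Fin (n + 2) → K) (B : Finset (Fin q)) : (Fin (n + 2) → K) →ₗ[K] K :=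
  if h : B.card = n + 1 then
    Matrix.detRowAlternating.toMultilinearMap.toLinearMap
      (Fin.snoc (α := fun _ => Fin (n + 2) → K) (fun i => p (B.orderEmbOfFin h i)) 0) (Fin.last _)
  else 0

theorem Dfun_apply (p : Fin q → Fin (n + 2) → K) {B : Finset (Fin q)} (h : B.card = n + 1)
    (v : Fin (n + 2) → K) : Dfun p B v = Matrix.det (Matrix.of
      (fun i => (fun o : Option (Fin q) => o.elim v p)
        (Fin.snoc (α := fun _ => Option (Fin q)) (fun i => some (B.orderEmbOfFin h i)) none i))) := by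
  rw [Dfun, dif_pos h, MultilinearMap.toLinearMap_apply, Fin.update_snoc_last]
  have h1 : (Fin.snoc (α := fun _ => Fin (n + 2) → K) (fun i => p (B.orderEmbOfFin h i)) v :
      Fin (n + 2) → Fin (n + 2) → K) = (fun i => (fun o : Option (Fin q) => o.elim v p)
        (Fin.snoc (α := fun _ => Option (Fin q)) (fun i => some (B.orderEmbOfFin h i)) none i)) := by
    funext i
    induction i using Fin.lastCases with
    | last => simp only [Fin.snoc_last]; rfl
    | cast i => simp only [Fin.snoc_castSucc]; rfl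
  rw [h1]
  rfl

theorem det_arc_ne {p : Fin q → Fin (n + 2) → K}
    (hp : ∀ f : Fin (n + 2) → Fin q, Function.Injective f → LinearIndependent K (fun i => p (f i)))
    {f : Fin (n + 2) → Fin q} (hf : Function.Injective f) :
    Matrix.det (Matrix.of (fun i => p (f i))) ≠ 0 := by
  have h1 : LinearIndependent K (Matrix.of (fun i => p (f i))).row := hp f hf
  rw [Matrix.linearIndependent_rows_iff_isUnit, Matrix.isUnit_iff_isUnit_det] at h1
  exact h1.ne_zero

theorem Dfun_mem (p : Fin q → Fin (n + 2) → K) {B : Finset (Fin q)} (h : B.card = n + 1)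
    {b : Fin q} (hb : b ∈ B) : Dfun p B (p b) = 0 := by
  obtain ⟨i, hi⟩ : b ∈ Set.range (B.orderEmbOfFin h) := by
    rw [Finset.range_orderEmbOfFin]
    exact hb
  rw [Dfun, dif_pos h, MultilinearMap.toLinearMap_apply, Fin.update_snoc_last]
  refine Matrix.detRowAlternating.map_eq_zero_of_eq (i := Fin.castSucc i)
    (j := Fin.last (n + 1)) (Fin.snoc (α := fun _ => Fin (n + 2) → K)
      (fun i => p (B.orderEmbOfFin h i)) (p b)) ?_ ?_
  · rw [Fin.snoc_castSucc, Fin.snoc_last, hi]
  · exact (Fin.castSucc_lt_last _).ne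

theorem Dfun_ne {p : Fin q → Fin (n + 2) → K}
    (hp : ∀ f : Fin (n + 2) → Fin q, Function.Injective f → LinearIndependent K (fun i => p (f i)))
    {B : Finset (Fin q)} (h : B.card = n + 1)
    {z : Fin q} (hz : z ∉ B) : Dfun p B (p z) ≠ 0 := by
  have hinj : Function.Injective (Fin.snoc (α := fun _ => Fin q) (B.orderEmbOfFin h) z :
      Fin (n + 2) → Fin q) := by
    rw [Fin.snoc_injective_iff]
    refine ⟨(B.orderEmbOfFin h).injective, ?_⟩
    rw [Finset.range_orderEmbOfFin]
    exact hz
  have h1 := det_arc_ne hp hinj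
  rw [Dfun, dif_pos h, MultilinearMap.toLinearMap_apply, Fin.update_snoc_last]
  have h2 : (Fin.snoc (α := fun _ => Fin (n + 2) → K) (fun i => p (B.orderEmbOfFin h i)) (p z) :
      Fin (n + 2) → Fin (n + 2) → K) = (fun i => p (Fin.snoc (α := fun _ => Fin q) (B.orderEmbOfFin h) z i)) := by
    funext i
    induction i using Fin.lastCases with
    | last => simp only [Fin.snoc_last]
    | cast i => simp only [Fin.snoc_castSucc]
  rw [h2]
  exact h1

theorem br_ne {p : Fin q → Fin (n + 2) → K}
    (hp : ∀ f : Fin (n + 2) → Fin q, Function.Injective f → LinearIndependent K (fun i => p (f i)))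
    {A : Finset (Fin q)} (hA : A.card = n) {y z : Fin q} (hy : y ∉ A) (hz : z ∉ A) (hyz : y ≠ z) :
    br (fun i => p (A.orderEmbOfFin hA i)) (p y) (p z) ≠ 0 := by
  have hinj : Function.Injective (Fin.snoc (α := fun _ => Fin q)
      (Fin.snoc (α := fun _ => Fin q) (A.orderEmbOfFin hA) y : Fin (n + 1) → Fin q) z :
      Fin (n + 2) → Fin q) := by
    rw [Fin.snoc_injective_iff, Fin.snoc_injective_iff]
    refine ⟨⟨(A.orderEmbOfFin hA).injective, ?_⟩, ?_⟩
    · rw [Finset.range_orderEmbOfFin]
      exact hy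
    · rw [Fin.range_snoc, Finset.range_orderEmbOfFin, Set.mem_insert_iff, not_or]
      exact ⟨hyz.symm, hz⟩
  have h1 := det_arc_ne hp hinj
  have h2 : (Fin.snoc (α := fun _ => Fin (n + 2) → K) (Fin.snoc (α := fun _ => Fin (n + 2) → K)
      (fun i => p (A.orderEmbOfFin hA i)) (p y)) (p z) :
      Fin (n + 2) → Fin (n + 2) → K) = (fun i => p (Fin.snoc (α := fun _ => Fin q)
      (Fin.snoc (α := fun _ => Fin q) (A.orderEmbOfFin hA) y) z i)) := by
    funext i
    induction i using Fin.lastCases with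
    | last => simp only [Fin.snoc_last]
    | cast i =>
      simp only [Fin.snoc_castSucc]
      induction i using Fin.lastCases with
      | last => simp only [Fin.snoc_last]
      | cast i => simp only [Fin.snoc_castSucc]
  rw [br, h2]
  exact h1

theorem Dfun_insert (p : Fin q → Fin (n + 2) → K) {A : Finset (Fin q)} (hA : A.card = n)
    {y : Fin q} (hy : y ∉ A) : ∃ ε : K, ε * ε = 1 ∧ (ε = 1 ∨ ε = -1) ∧ ∀ v,
      Dfun p (insert y A) v = ε * br (fun i => p (A.orderEmbOfFin hA i)) (p y) v := by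
  have hB : (insert y A).card = n + 1 := by rw [Finset.card_insert_of_notMem hy, hA]
  have hF : Function.Injective (Fin.snoc (α := fun _ => Option (Fin q))
      (fun i => some ((insert y A).orderEmbOfFin hB i)) none : Fin (n + 2) → Option (Fin q)) := by
    rw [Fin.snoc_injective_iff]
    refine ⟨(Option.some_injective _).comp (Finset.orderEmbOfFin _ hB).injective, ?_⟩
    rintro ⟨i, hi⟩
    exact Option.some_ne_none _ hi
  have hG : Function.Injective (Fin.snoc (α := fun _ => Option (Fin q))
      (Fin.snoc (α := fun _ => Option (Fin q)) (fun i => some (A.orderEmbOfFin hA i)) (some y) :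
        Fin (n + 1) → Option (Fin q)) none : Fin (n + 2) → Option (Fin q)) := by
    rw [Fin.snoc_injective_iff, Fin.snoc_injective_iff]
    refine ⟨⟨(Option.some_injective _).comp (Finset.orderEmbOfFin _ hA).injective, ?_⟩, ?_⟩
    · rintro ⟨i, hi⟩
      have h1 := Option.some_injective _ hi
      exact hy (h1 ▸ Finset.orderEmbOfFin_mem A hA i)
    · rw [Fin.range_snoc]
      rintro (h | ⟨i, hi⟩)
      · exact Option.some_ne_none _ h.symm
      · exact Option.some_ne_none _ hi
  have hR : Set.range (Fin.snoc (α := fun _ => Option (Fin q))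
      (fun i => some ((insert y A).orderEmbOfFin hB i)) none : Fin (n + 2) → Option (Fin q)) =
      Set.range (Fin.snoc (α := fun _ => Option (Fin q))
      (Fin.snoc (α := fun _ => Option (Fin q)) (fun i => some (A.orderEmbOfFin hA i)) (some y) :
        Fin (n + 1) → Option (Fin q)) none : Fin (n + 2) → Option (Fin q)) := by
    rw [Fin.range_snoc, Fin.range_snoc, Fin.range_snoc]
    have h1 : Set.range (fun i => some ((insert y A).orderEmbOfFin hB i)) =
        some '' (↑(insert y A) : Set (Fin q)) := by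
      rw [← Finset.range_orderEmbOfFin _ hB, ← Set.range_comp]
      rfl
    have h2 : Set.range (fun i => some (A.orderEmbOfFin hA i)) = some '' (↑A : Set (Fin q)) := by
      rw [← Finset.range_orderEmbOfFin _ hA, ← Set.range_comp]
      rfl
    rw [h1, h2, Finset.coe_insert, Set.image_insert_eq]
  obtain ⟨ε, h1, h2, h3⟩ := det_rows_perm (K := K) hF hG hR
  refine ⟨ε, h1, h2, fun v => ?_⟩
  rw [Dfun_apply p hB, h3 (fun o => o.elim v p), br]
  congr 3
  funext i
  induction i using Fin.lastCases with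
  | last => simp only [Fin.snoc_last]; rfl
  | cast i =>
    simp only [Fin.snoc_castSucc]
    induction i using Fin.lastCases with
    | last => simp only [Fin.snoc_last]; rfl
    | cast i => simp only [Fin.snoc_castSucc]; rfl

theorem exists_good {p : Fin q → Fin (n + 2) → K} [Fintype K] (hq : Fintype.card K = q)
    (hp : ∀ f : Fin (n + 2) → Fin q, Function.Injective f → LinearIndependent K (fun i => p (f i)))
    {A : Finset (Fin q)} (hA : A.card = n) {y0 y1 : Fin q} (hy0 : y0 ∉ A) (hy1 : y1 ∉ A)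
    (h01 : y0 ≠ y1) : ∃ s : K, ∀ y ∉ A,
      br (fun i => p (A.orderEmbOfFin hA i)) (p y0 + s • p y1) (p y) ≠ 0 := by
  classical
  obtain ⟨r, hr⟩ : ∃ r, r = (fun i => p (A.orderEmbOfFin hA i)) := ⟨_, rfl⟩
  rw [← hr]
  by_contra hcon
  push Not at hcon
  have hsub : (Finset.univ : Finset K) ⊆ ((Finset.univ \ A).erase y1).image
      (fun y => - br r (p y0) (p y) / br r (p y1) (p y)) := by
    intro s _
    obtain ⟨y, hy, hs⟩ := hcon s
    rw [← brL_apply, map_add, map_smul, LinearMap.add_apply, LinearMap.smul_apply, brL_apply, brL_apply,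
      smul_eq_mul] at hs
    have hne : y ≠ y1 := by
      rintro rfl
      rw [br_self, mul_zero, add_zero, hr] at hs
      exact br_ne hp hA hy0 hy1 h01 hs
    have h1 : br r (p y1) (p y) ≠ 0 := by
      rw [hr]
      exact br_ne hp hA hy1 hy hne.symm
    refine Finset.mem_image.2 ⟨y, Finset.mem_erase.2 ⟨hne, Finset.mem_sdiff.2 ⟨Finset.mem_univ _, hy⟩⟩, ?_⟩
    rw [div_eq_iff h1]
    linear_combination -hs
  have h1 := Finset.card_le_card hsub
  have h2 := Finset.card_image_le (s := (Finset.univ \ A).erase y1)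
    (f := fun y => - br r (p y0) (p y) / br r (p y1) (p y))
  have h3 : ((Finset.univ \ A).erase y1).card < (Finset.univ \ A).card :=
    Finset.card_erase_lt_of_mem (Finset.mem_sdiff.2 ⟨Finset.mem_univ _, hy1⟩)
  have h4 : (Finset.univ \ A).card ≤ q := by
    have := Finset.card_le_univ (Finset.univ \ A)
    rwa [Fintype.card_fin] at this
  rw [Finset.card_univ, hq] at h1
  omega

theorem seg_sum {p : Fin q → Fin (n + 2) → K} [Fintype K] (hq : Fintype.card K = q)
    (hp : ∀ f : Fin (n + 2) → Fin q, Function.Injective f → LinearIndependent K (fun i => p (f i)))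
    (h2k : 2 * (n + 2) ≤ q) {A G : Finset (Fin q)} (hA : A.card = n) (hG : G.card = 2 * (n + 2))
    (v : Fin (n + 2) → K) :
    ∑ j ∈ G \ A, (∏ g ∈ Finset.univ \ G, br (fun i => p (A.orderEmbOfFin hA i)) (p j) (p g)) *
      br (fun i => p (A.orderEmbOfFin hA i)) (p j) v *
      (∏ i ∈ (Finset.univ \ A).erase j, br (fun i => p (A.orderEmbOfFin hA i)) (p i) (p j) ^ 2)⁻¹ = 0 := by
  classical
  have hJc : (Finset.univ \ A).card = q - n := by
    rw [Finset.card_sdiff_of_subset (Finset.subset_univ _), Finset.card_univ, Fintype.card_fin, hA]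
  obtain ⟨y0, hy0, y1, hy1, h01⟩ : ∃ y0 ∈ Finset.univ \ A, ∃ y1 ∈ Finset.univ \ A, y0 ≠ y1 :=
    Finset.one_lt_card.1 (by omega)
  have hmem : ∀ y, y ∈ Finset.univ \ A ↔ y ∉ A := fun y => by
    rw [Finset.mem_sdiff]
    exact ⟨fun h => h.2, fun h => ⟨Finset.mem_univ _, h⟩⟩
  obtain ⟨s, hs⟩ := exists_good hq hp hA ((hmem _).1 hy0) ((hmem _).1 hy1) h01
  obtain ⟨r, hr⟩ : ∃ r, r = (fun i => p (A.orderEmbOfFin hA i)) := ⟨_, rfl⟩
  rw [← hr] at hs ⊢
  have hbr : ∀ i ∉ A, ∀ j ∉ A, i ≠ j → br r (p i) (p j) ≠ 0 := fun i hi j hj hij => by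
    rw [hr]
    exact br_ne hp hA hi hj hij
  obtain ⟨u0, hu0⟩ : ∃ u0, u0 = p y0 + s • p y1 := ⟨_, rfl⟩
  rw [← hu0] at hs
  have hd0 : br r u0 (p y1) ≠ 0 := hs y1 ((hmem _).1 hy1)
  obtain ⟨d, hd⟩ : ∃ d, d = br r u0 (p y1) := ⟨_, rfl⟩
  rw [← hd] at hd0
  have hpl : ∀ u v, br r u v * d = br r u (p y1) * br r u0 v - br r u0 u * br r v (p y1) := by
    intro u v
    rw [hd]
    exact br_plucker r u0 (p y1) (hd ▸ hd0) u v
  obtain ⟨w, hw⟩ : ∃ w : Option (Fin q) → Fin (n + 2) → K, w = fun o => o.elim v p := ⟨_, rfl⟩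
  have hpla := planar (K := K) (J := Finset.univ \ A) (a := fun j => br r (p j) (p y1))
    (b := fun j => br r u0 (p j)) (fun j hj => hs j ((hmem _).1 hj))
    (fun i hi j hj hij => by
      have h1 := hpl (p i) (p j)
      have h2 : br r (p i) (p j) * d ≠ 0 :=
        mul_ne_zero (hbr i ((hmem _).1 hi) j ((hmem _).1 hj) hij) hd0
      rw [h1] at h2
      intro h3
      apply h2
      linear_combination h3) (Finset.insertNone (Finset.univ \ G))
    (by
      rw [Finset.card_insertNone, Finset.card_sdiff_of_subset (Finset.subset_univ _), Finset.card_univ,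
        Fintype.card_fin, hG, hJc, hq]
      omega) (fun l => d⁻¹ * br r u0 (w l)) (fun l => - (d⁻¹ * br r (w l) (p y1)))
  have hterm : ∀ j ∈ Finset.univ \ A,
      (∏ l ∈ Finset.insertNone (Finset.univ \ G), (d⁻¹ * br r u0 (w l) * br r (p j) (p y1) +
        - (d⁻¹ * br r (w l) (p y1)) * br r u0 (p j))) *
        (∏ i ∈ (Finset.univ \ A).erase j, (br r (p i) (p y1) * br r u0 (p j) -
          br r (p j) (p y1) * br r u0 (p i)) ^ 2)⁻¹ =
      ((d ^ 2) ^ (q - n - 1))⁻¹ * ((∏ g ∈ Finset.univ \ G, br r (p j) (p g)) * br r (p j) v *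
      (∏ i ∈ (Finset.univ \ A).erase j, br r (p i) (p j) ^ 2)⁻¹) := by
    intro j hj
    have e1 : ∀ l, d⁻¹ * br r u0 (w l) * br r (p j) (p y1) +
        - (d⁻¹ * br r (w l) (p y1)) * br r u0 (p j) = br r (p j) (w l) := by
      intro l
      have h1 := hpl (p j) (w l)
      have h2 : br r (p j) (w l) = d⁻¹ * (br r (p j) (w l) * d) := by
        field_simp
      rw [h2, h1]
      ring
    have e2 : ∀ i, (br r (p i) (p y1) * br r u0 (p j) -
          br r (p j) (p y1) * br r u0 (p i)) ^ 2 = d ^ 2 * br r (p i) (p j) ^ 2 := by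
      intro i
      have h1 := hpl (p i) (p j)
      have h2 : br r (p i) (p y1) * br r u0 (p j) -
          br r (p j) (p y1) * br r u0 (p i) = d * br r (p i) (p j) := by
        linear_combination -h1
      rw [h2]
      ring
    rw [Finset.prod_congr rfl fun l _ => e1 l, Finset.prod_congr rfl fun i _ => e2 i,
      Finset.prod_mul_distrib, Finset.prod_const, Finset.card_erase_of_mem hj, hJc, Finset.prod_insertNone,
      mul_inv]
    have e3 : br r (p j) (w none) = br r (p j) v := by rw [hw]; rfl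
    have e4 : ∀ g, br r (p j) (w (some g)) = br r (p j) (p g) := fun g => by rw [hw]; rfl
    rw [e3, Finset.prod_congr rfl fun g _ => e4 g]
    ring
  rw [Finset.sum_congr rfl hterm, ← Finset.mul_sum] at hpla
  have h3 := (mul_eq_zero.1 hpla).resolve_left (inv_ne_zero (pow_ne_zero _ (pow_ne_zero _ hd0)))
  rw [← h3]
  refine Finset.sum_subset (Finset.sdiff_subset_sdiff (Finset.subset_univ _) (Finset.Subset.refl _)) ?_
  intro j hj hjG
  have hjG' : j ∉ G := fun h => hjG (Finset.mem_sdiff.2 ⟨h, (hmem _).1 hj⟩)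
  rw [Finset.prod_eq_zero (i := j) (Finset.mem_sdiff.2 ⟨Finset.mem_univ _, hjG'⟩) (br_self _ _), zero_mul,
    zero_mul]

end sys

theorem exists_sys_aux {K : Type*} [Field K] [Fintype K] {n q : ℕ}
    (hq : Fintype.card K = q) (h2k : 2 * (n + 2) ≤ q) (p : Fin q → Fin (n + 2) → K)
    (hp : ∀ f : Fin (n + 2) → Fin q, Function.Injective f → LinearIndependent K (fun i => p (f i))) :
    ∃ (D : Finset (Fin q) → K[X]) (c : Finset (Fin q) → K), Sys (n + 2) Finset.univ p D c := by
  classical
  refine ⟨fun B => formOf (Dfun p B), fun B => ∏ z ∈ Finset.univ \ B, (Dfun p B (p z) ^ 2)⁻¹,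
    ⟨⟨fun B => formOf_degree _, ?_, ?_⟩, ?_, ?_⟩⟩
  · intro B _ hB b hb
    rw [ev_formOf, Dfun_mem p hB hb]
  · intro B _ hB z hz
    rw [ev_formOf]
    exact Dfun_ne hp hB (Finset.mem_sdiff.1 hz).2
  · intro B _ hB
    refine Finset.prod_ne_zero_iff.2 fun z hz => inv_ne_zero (pow_ne_zero _ ?_)
    exact Dfun_ne hp hB (Finset.mem_sdiff.1 hz).2
  · intro G _ hG A hAG hA
    have hA' : A.card = n := hA
    apply eq_zero_of_ev (degree_sum_lt' _ _ fun y _ => degree_C_mul_lt _ (formOf_degree _))
    intro v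
    rw [ev_sum, ← seg_sum hq hp h2k hA' hG v]
    refine Finset.sum_congr rfl fun y hy => ?_
    have hyA : y ∉ A := (Finset.mem_sdiff.1 hy).2
    obtain ⟨ε, h1, h2, h3⟩ := Dfun_insert p hA' hyA
    rw [ev_C_mul, ev_formOf, smul_eq_mul, h3]
    have e1 : ∏ z ∈ Finset.univ \ insert y A, (Dfun p (insert y A) (p z) ^ 2)⁻¹ =
        (∏ i ∈ (Finset.univ \ A).erase y, br (fun i => p (A.orderEmbOfFin hA' i)) (p i) (p y) ^ 2)⁻¹ := by
      rw [← Finset.prod_inv_distrib]
      have h4 : Finset.univ \ insert y A = (Finset.univ \ A).erase y := by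
        ext x
        simp only [Finset.mem_sdiff, Finset.mem_univ, true_and, Finset.mem_insert, not_or,
          Finset.mem_erase, ne_eq]
      rw [h4]
      refine Finset.prod_congr rfl fun z _ => ?_
      rw [h3, br_swap _ (p y) (p z), mul_pow, neg_sq, pow_two ε, h1, one_mul]
    have e2 : ∏ g ∈ Finset.univ \ G, ev (p g) (formOf (Dfun p (insert y A))) =
        ε ^ (q - 2 * (n + 2)) * ∏ g ∈ Finset.univ \ G, br (fun i => p (A.orderEmbOfFin hA' i)) (p y) (p g) := by
      rw [Finset.prod_congr rfl fun g _ => by rw [ev_formOf, h3], Finset.prod_mul_distrib, Finset.prod_const,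
        Finset.card_sdiff_of_subset (Finset.subset_univ _), Finset.card_univ, Fintype.card_fin, hG]
    have e3 : ε ^ (q - 2 * (n + 2)) * ε = 1 := by
      have h5 : ε ^ (q - 2 * (n + 2)) * ε ^ (2 * (n + 2)) = ε := by
        rw [← pow_add, Nat.sub_add_cancel h2k]
        rw [← hq]
        exact FiniteField.pow_card ε
      rw [pow_mul, pow_two, h1, one_pow, mul_one] at h5
      rw [h5, h1]
    rw [e1, e2]
    linear_combination (∏ g ∈ Finset.univ \ G, br (fun i => p (A.orderEmbOfFin hA' i)) (p y) (p g)) *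
      br (fun i => p (A.orderEmbOfFin hA' i)) (p y) v *
      (∏ i ∈ (Finset.univ \ A).erase y, br (fun i => p (A.orderEmbOfFin hA' i)) (p i) (p y) ^ 2)⁻¹ * e3

theorem exists_sys {K : Type*} [Field K] [Fintype K] {k : ℕ} (hk : 2 ≤ k) {q : ℕ}
    (hq : Fintype.card K = q) (h2k : 2 * k ≤ q) (p : Fin q → Fin k → K)
    (hp : ∀ f : Fin k → Fin q, Function.Injective f → LinearIndependent K (fun i => p (f i))) :
    ∃ (D : Finset (Fin q) → K[X]) (c : Finset (Fin q) → K), Sys k Finset.univ p D c := by
  obtain ⟨n, rfl⟩ : ∃ n, k = n + 2 := ⟨k - 2, by omega⟩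
  exact exists_sys_aux hq h2k p hp

end

end Pool.Agent.Helper31.RN
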