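import Pool.Agent.Helper31.RN.Main
import Pool.Agent.Helper31.RN.FromArc

/-!
# RN-F3: the determinant condition over the finite field

`GP.bcast`, `Sys.bcast`: base change to `L = AlgebraicClosure K` (`ev_bc`, `ev_map`, `Polynomial.map_sum`, injectivity of `algebraMap`). `det_arc`: `exists_sys`, `Sys.bcast`, `main`, and the determinant over
`L` is the image of the determinant over `K` (`RingHom.map_det`, `map_inv₀`).
-/

open Polynomial

namespace Pool.Agent.Helper31.RN

noncomputable section

private theorem ev_bc_map {K L : Type*} [Field K] [Field L] [Algebra K L] {k : ℕ} (v : Fin k → K) (f : K[X]) :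
    ev (bc L v) (f.map (algebraMap K L)) = algebraMap K L (ev v f) := by
  rw [ev_map, ev_bc]

theorem Sys.bcast {K : Type*} [Field K] {ι : Type*} [DecidableEq ι] {k : ℕ} {S : Finset ι}
    {p : ι → Fin k → K} {D : Finset ι → K[X]} {c : Finset ι → K} (H : Sys k S p D c)
    (L : Type*) [Field L] [Algebra K L] :
    Sys k S (fun e => bc L (p e)) (fun B => (D B).map (algebraMap K L))
      (fun B => algebraMap K L (c B)) where
  deg := fun B => lt_of_le_of_lt degree_map_le (H.deg B)
  zero := fun B hB hc b hb => by
    rw [ev_bc_map, H.zero B hB hc b hb, map_zero]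
  ne := fun B hB hc z hz => by
    rw [ev_bc_map]
    exact (_root_.map_ne_zero _).2 (H.ne B hB hc z hz)
  cne := fun B hB hc => (_root_.map_ne_zero _).2 (H.cne B hB hc)
  seg := fun G hG hc A hA hAc => by
    have h := congrArg (Polynomial.map (algebraMap K L)) (H.seg G hG hc A hA hAc)
    rw [Polynomial.map_sum, Polynomial.map_zero] at h
    rw [← h]
    refine Finset.sum_congr rfl fun y _ => ?_
    rw [Polynomial.map_mul, Polynomial.map_C]
    simp only [ev_bc_map]
    rw [_root_.map_mul (algebraMap K L), _root_.map_prod (algebraMap K L)]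

theorem det_arc {K : Type*} [Field K] [Fintype K] {k : ℕ} (hk : 3 ≤ k) (hNZ : NZ K k) {q : ℕ}
    (hq : Fintype.card K = q) (h2k : 2 * k + 2 ≤ q) (p : Fin q → Fin k → K)
    (hp : ∀ f : Fin k → Fin q, Function.Injective f → LinearIndependent K (fun i => p (f i))) :
    ∃ D : Finset (Fin q) → K[X], GP k Finset.univ p D ∧ DetZero k Finset.univ p D := by
  obtain ⟨D, c, H⟩ := exists_sys (by omega) hq (by omega) p hp
  refine ⟨D, H.toGP, ?_⟩
  have hNZ' : NZ (AlgebraicClosure K) k := by
    intro n h1 h2 h3
    apply hNZ n h1 h2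
    apply (algebraMap K (AlgebraicClosure K)).injective
    rw [map_natCast, h3, map_zero]
  have h := main hk hNZ' (H.bcast (AlgebraicClosure K)) (by rw [Finset.card_univ, Fintype.card_fin]; exact h2k)
  intro D0 hD0 hDc b x hb hx hbi hxi hbx
  have h' := h D0 hD0 hDc b x hb hx hbi hxi hbx
  simp only [ev_bc_map] at h'
  apply (algebraMap K (AlgebraicClosure K)).injective
  rw [RingHom.map_det, map_zero, ← h']
  congr 1
  ext i j
  simp only [RingHom.mapMatrix_apply, Matrix.map_apply, Matrix.of_apply, map_inv₀]

end

end Pool.Agent.Helper31.RN
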