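import Pool.Agent.Helper31.RN.Lag

/-!
# RN-6A: a pole or a linear factor

`E0 * ψ1 = E1 * ψ0` where `E_i = ∑_e (ω_e ψ_i(s_e)) ∏_{e' ≠ e} (X - s_{e'})`. Let `d = gcd ψ0 ψ1` (`≠ 0`), `ψ_i = d φ_i`, `φ_0, φ_1` coprime, so
`E0 φ1 = E1 φ0`, `E0 = φ0 l`, `E1 = φ1 l`. Case 1: `d ∣ E0` and `d ∣ E1`. Then `d ∣ l` (`φ0, φ1` coprime), `l = d l'`, `E_i = ψ_i l'`. `E_i` has degree `≤ k`
(the coefficient of `X^{k+1}` is `∑_e ω_e ψ_i(s_e) = 0`), and one of the `ψ_i` has degree exactly `k-1`, so `deg l' ≤ 1`. Evaluate at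
`s_x`: `ω_x ψ_i(s_x) (kap W s x)⁻¹ = ψ_i(s_x) l'(s_x)`, and one of `ψ_0(s_x)`, `ψ_1(s_x)` is not zero: `ω_x = kap W s x * l'(s_x)`, so the
sum `∑ ω_x • nu k (s_x)` is zero by `sum_kap_nu` (coefficients of `l'`), contradiction. Case 2: `d` does not divide both, i.e. it does not divide
`g = gcd E0 E1`; `K` is algebraically closed (`d` splits), so there is `ζ` with `rootMultiplicity ζ g < rootMultiplicity ζ d` (`g ≠ 0`); `M =` the former.
-/

open Polynomial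

namespace Pool.Agent.Helper31.RN

noncomputable section

variable {K : Type*} [Field K] {ι : Type*} [DecidableEq ι] {k : ℕ}

/-- `∑_e (ω_e ψ(s_e)) ∏_{e' ≠ e} (X - s_{e'})` -/
def EE (W : Finset ι) (s ω : ι → K) (ψ : K[X]) : K[X] :=
  ∑ e ∈ W, C (ω e * ψ.eval (s e)) * ∏ e' ∈ W.erase e, (X - C (s e'))

private theorem coeff_EE32 {W : Finset ι} (hW : W.card = k + 2) {s ω : ι → K} {ψ : K[X]}
    (h0 : ∑ e ∈ W, ω e * ψ.eval (s e) = 0) : (EE W s ω ψ).natDegree ≤ k := by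
  rw [natDegree_le_iff_coeff_eq_zero]
  intro m hm
  unfold EE
  rw [finsetSum_coeff]
  have hmon : ∀ e, (∏ e' ∈ W.erase e, (X - C (s e'))).Monic := fun e =>
    monic_prod_of_monic _ _ fun i _ => monic_X_sub_C _
  have hdeg : ∀ e ∈ W, (∏ e' ∈ W.erase e, (X - C (s e'))).natDegree = k + 1 := by
    intro e he
    rw [natDegree_prod_of_monic _ _ (fun i _ => monic_X_sub_C _)]
    simp only [natDegree_X_sub_C, Finset.sum_const, smul_eq_mul, mul_one]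
    rw [Finset.card_erase_of_mem he, hW]
    omega
  by_cases hmk : m = k + 1
  · subst hmk
    rw [← h0]
    refine Finset.sum_congr rfl fun e he => ?_
    rw [coeff_C_mul]
    have h1 := (hmon e).coeff_natDegree
    rw [hdeg e he] at h1
    rw [h1, mul_one]
  · refine Finset.sum_eq_zero fun e he => ?_
    rw [coeff_C_mul, coeff_eq_zero_of_natDegree_lt, mul_zero]
    rw [hdeg e he]
    omega

private theorem eval_EE32 {W : Finset ι} {s ω : ι → K} {ψ : K[X]} {x : ι} (hx : x ∈ W) :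
    (EE W s ω ψ).eval (s x) = ω x * ψ.eval (s x) * ∏ e' ∈ W.erase x, (s x - s e') := by
  unfold EE
  rw [eval_finsetSum, Finset.sum_eq_single x]
  · rw [eval_mul, eval_C, eval_prod]
    simp only [eval_sub, eval_X, eval_C]
  · intro e he hne
    rw [eval_mul, eval_prod, Finset.prod_eq_zero (Finset.mem_erase.2 ⟨hne.symm, hx⟩), mul_zero]
    simp
  · intro h
    exact absurd hx h

omit [DecidableEq ι] in
private theorem deg_l32 (hk : 1 ≤ k) {ψ l E : K[X]} (h1 : ψ.degree < k) (h2 : ψ.coeff (k - 1) ≠ 0)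
    (h3 : E = ψ * l) (h4 : E.natDegree ≤ k) : l.natDegree ≤ 1 := by
  by_cases hl : l = 0
  · rw [hl]; simp
  have hψ : ψ ≠ 0 := by
    rintro rfl
    simp at h2
  have h5 : k - 1 ≤ ψ.natDegree := le_natDegree_of_ne_zero h2
  rw [h3, natDegree_mul hψ hl] at h4
  omega

theorem exists_pole [IsAlgClosed K] (hk : 1 ≤ k) {W : Finset ι} (hW : W.card = k + 2)
    {s : ι → K} (hs : Set.InjOn s W) {ω : ι → K} {ψ0 ψ1 : K[X]} (hd0 : ψ0.degree < k)
    (hd1 : ψ1.degree < k) (htop : ψ0.coeff (k - 1) ≠ 0 ∨ ψ1.coeff (k - 1) ≠ 0)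
    (hne : ∀ e ∈ W, ψ0.eval (s e) ≠ 0 ∨ ψ1.eval (s e) ≠ 0)
    (h0 : ∑ e ∈ W, ω e * ψ0.eval (s e) = 0) (h1 : ∑ e ∈ W, ω e * ψ1.eval (s e) = 0)
    (hE : EE W s ω ψ0 * ψ1 = EE W s ω ψ1 * ψ0) (hω : ∑ e ∈ W, ω e • nu k (s e) ≠ 0) :
    ∃ (ζ : K) (M : ℕ), (X - C ζ) ^ (M + 1) ∣ ψ0 ∧ (X - C ζ) ^ (M + 1) ∣ ψ1 ∧
      (X - C ζ) ^ M ∣ EE W s ω ψ0 ∧ (X - C ζ) ^ M ∣ EE W s ω ψ1 ∧
      ¬ ((X - C ζ) ^ (M + 1) ∣ EE W s ω ψ0 ∧ (X - C ζ) ^ (M + 1) ∣ EE W s ω ψ1) := by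
  classical
  obtain ⟨d, hd⟩ : ∃ d : K[X], d = EuclideanDomain.gcd ψ0 ψ1 := ⟨_, rfl⟩
  obtain ⟨A, B, hAB⟩ : ∃ A B : K[X], d = ψ0 * A + ψ1 * B :=
    ⟨_, _, hd.trans (EuclideanDomain.gcd_eq_gcd_ab ψ0 ψ1)⟩
  obtain ⟨φ0, hφ0⟩ : d ∣ ψ0 := hd ▸ EuclideanDomain.gcd_dvd_left ψ0 ψ1
  obtain ⟨φ1, hφ1⟩ : d ∣ ψ1 := hd ▸ EuclideanDomain.gcd_dvd_right ψ0 ψ1
  have hd00 : d ≠ 0 := by
    intro h
    rw [h, zero_mul] at hφ0 hφ1
    rw [hφ0, hφ1] at htop
    simp at htop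
  have hbez : φ0 * A + φ1 * B = 1 := by
    apply mul_left_cancel₀ hd00
    rw [mul_one]
    conv_rhs => rw [hAB, hφ0, hφ1]
    ring
  obtain ⟨E0, hE0⟩ : ∃ E0 : K[X], E0 = EE W s ω ψ0 := ⟨_, rfl⟩
  obtain ⟨E1, hE1⟩ : ∃ E1 : K[X], E1 = EE W s ω ψ1 := ⟨_, rfl⟩
  rw [← hE0, ← hE1] at hE ⊢
  have hE' : E0 * φ1 = E1 * φ0 := by
    apply mul_left_cancel₀ hd00
    rw [hφ0, hφ1] at hE
    linear_combination hE
  obtain ⟨l, hl⟩ : ∃ l : K[X], l = A * E0 + B * E1 := ⟨_, rfl⟩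
  have hl0 : φ0 * l = E0 := by
    rw [hl]
    linear_combination E0 * hbez - B * hE'
  have hl1 : φ1 * l = E1 := by
    rw [hl]
    linear_combination E1 * hbez + A * hE'
  by_cases hcase : d ∣ E0 ∧ d ∣ E1
  · -- case 1
    exfalso
    obtain ⟨⟨e0, he0⟩, ⟨e1, he1⟩⟩ := hcase
    obtain ⟨l', hl'⟩ : ∃ l' : K[X], l = d * l' := by
      refine ⟨A * e0 + B * e1, ?_⟩
      rw [hl, he0, he1]
      ring
    have f0 : E0 = ψ0 * l' := by rw [← hl0, hl', hφ0]; ring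
    have f1 : E1 = ψ1 * l' := by rw [← hl1, hl', hφ1]; ring
    have n0 : E0.natDegree ≤ k := hE0 ▸ coeff_EE32 hW h0
    have n1 : E1.natDegree ≤ k := hE1 ▸ coeff_EE32 hW h1
    have hdeg : l'.natDegree ≤ 1 := by
      rcases htop with h | h
      · exact deg_l32 hk hd0 h f0 n0
      · exact deg_l32 hk hd1 h f1 n1
    obtain ⟨a, b, hab⟩ := exists_eq_X_add_C_of_natDegree_le_one hdeg
    have hval : ∀ x ∈ W, ω x = kap W s x * (a * s x + b) := by
      intro x hx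
      have hP : ∏ e' ∈ W.erase x, (s x - s e') ≠ 0 := by
        refine Finset.prod_ne_zero_iff.2 fun e' he' => sub_ne_zero.2 fun h => ?_
        exact (Finset.ne_of_mem_erase he').symm (hs hx (Finset.mem_of_mem_erase he') h)
      have hlx : l'.eval (s x) = a * s x + b := by rw [hab]; simp
      have key : ∀ ψ E : K[X], E = EE W s ω ψ → E = ψ * l' → ψ.eval (s x) ≠ 0 →
          ω x = kap W s x * (a * s x + b) := by
        intro ψ E h1 h2 h3
        have h4 := eval_EE32 (ω := ω) (s := s) (ψ := ψ) hx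
        rw [← h1, h2, eval_mul, hlx] at h4
        unfold kap
        rw [eq_comm, inv_mul_eq_iff_eq_mul₀ hP]
        apply mul_left_cancel₀ h3
        linear_combination h4
      rcases hne x hx with h | h
      · exact key ψ0 E0 hE0 f0 h
      · exact key ψ1 E1 hE1 f1 h
    apply hω
    have s0 := sum_kap_nu (k := k) hW hs (j := 0) (by norm_num)
    have s1 := sum_kap_nu (k := k) hW hs (j := 1) (by norm_num)
    have h5 : ∑ e ∈ W, ω e • nu k (s e) = a • (∑ e ∈ W, (kap W s e * s e ^ 1) • nu k (s e)) +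
        b • (∑ e ∈ W, (kap W s e * s e ^ 0) • nu k (s e)) := by
      rw [Finset.smul_sum, Finset.smul_sum, ← Finset.sum_add_distrib]
      refine Finset.sum_congr rfl fun e he => ?_
      rw [smul_smul, smul_smul, ← add_smul, hval e he]
      congr 1
      ring
    rw [h5, s0, s1, smul_zero, smul_zero, add_zero]
  · -- case 2
    obtain ⟨g, hg⟩ : ∃ g : K[X], g = EuclideanDomain.gcd E0 E1 := ⟨_, rfl⟩
    have hg0 : g ∣ E0 := hg ▸ EuclideanDomain.gcd_dvd_left E0 E1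
    have hg1 : g ∣ E1 := hg ▸ EuclideanDomain.gcd_dvd_right E0 E1
    have hdg : ¬ d ∣ g := fun h => hcase ⟨h.trans hg0, h.trans hg1⟩
    have hgne : g ≠ 0 := by
      intro h
      apply hdg
      rw [h]
      exact dvd_zero _
    have hex : ∃ ζ : K, rootMultiplicity ζ g < rootMultiplicity ζ d := by
      by_contra hcon
      push Not at hcon
      apply hdg
      apply (IsAlgClosed.splits d).dvd_of_roots_le_roots hd00
      rw [Multiset.le_iff_count]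
      intro ζ
      rw [count_roots, count_roots]
      exact hcon ζ
    obtain ⟨ζ, hζ⟩ := hex
    have hdd : (X - C ζ) ^ (rootMultiplicity ζ g + 1) ∣ d :=
      (pow_dvd_pow _ hζ).trans (pow_rootMultiplicity_dvd d ζ)
    refine ⟨ζ, rootMultiplicity ζ g, ?_, ?_, ?_, ?_, ?_⟩
    · exact hdd.trans ⟨φ0, hφ0⟩
    · exact hdd.trans ⟨φ1, hφ1⟩
    · exact (pow_rootMultiplicity_dvd g ζ).trans hg0
    · exact (pow_rootMultiplicity_dvd g ζ).trans hg1
    · rintro ⟨h3, h4⟩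
      have h5 := EuclideanDomain.dvd_gcd h3 h4
      rw [← hg] at h5
      have h6 := (le_rootMultiplicity_iff hgne).2 h5
      omega

end

end Pool.Agent.Helper31.RN
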