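import Pool.Agent.Helper31.RN.Pole
import Pool.Agent.Helper31.RN.Coord

/-!
# RN-6E: `λ ≠ 0` gives two relations (coordinate free)

`exists_coord` gives `M, μ, s, f`. `p' e = (μ e)⁻¹ • M (p e)`, `D' = pull M ∘ D`, system `Sys.transport`. `p' e = nu k (s e)` on `W`.
`ψ0' = pull M ψ0`, `ψ1' = C (μ z) * pull M ψ1`, `δ' e = δ e * μ e / μ z` is a `Pen` for the new system (`ev (p' e) (pull M f) = (μ e)⁻¹ * ev (p e) f`; `span`
with `pull_symm`). The new `λ` is `(∏_{g ∈ S \ (A ∪ W)} (μ g)⁻¹) * (μ z)⁻¹ • M λ ≠ 0`. `htop`: `f` (scalars `μ`). `pole_std` gives `ζ, b`. `φ0 = (X - C ζ) * b`,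
`φ1 = (X - C ζ)^2 * b` are independent (degrees) elements of `Ψ_A`, so (`Pen.span`, 2x2 inverse) `ψ0' = C α * φ0 + C β * φ1 = (α + β (X - ζ)) φ0`,
`ψ1' = (γ + ε (X - ζ)) φ0`. Let `κ = kap W s`, `r' e = κ e * (α + β (s e - ζ))`: `∑ r' e • nu k (s e) = 0` (`sum_kap_nu`), not zero since `ψ0'(s e) ≠ 0`, and
`r' e * ψ1'(s e) / ψ0'(s e) = κ e * (γ + ε (s e - ζ))` also gives a relation. `r e = r' e * (μ e)⁻¹`; `ψ1'(s e)/ψ0'(s e) = μ z * ev (p e) ψ1 / ev (p e) ψ0`.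
-/

open Polynomial

namespace Pool.Agent.Helper31.RN

noncomputable section

variable {K : Type*} [Field K] {ι : Type*} [DecidableEq ι] {k : ℕ}

private theorem ev_sc (M : (Fin k → K) ≃ₗ[K] (Fin k → K)) (m : K) (v : Fin k → K) (g : K[X]) :
    ev (m • M v) (pull M g) = m * ev v g := by
  rw [ev_smul_vec, ev_pull]

private theorem Pen.transport {S A : Finset ι} {p : ι → Fin k → K} {D : Finset ι → K[X]} {z : ι}
    {ψ0 ψ1 : K[X]} {δ : ι → K} (hP : Pen k S A p D z ψ0 ψ1 δ)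
    (M : (Fin k → K) ≃ₗ[K] (Fin k → K)) {μ : ι → K} (hμ : ∀ e, μ e ≠ 0) :
    Pen k S A (fun e => (μ e)⁻¹ • M (p e)) (fun B => pull M (D B)) z (pull M ψ0)
      (C (μ z) * pull M ψ1) (fun e => δ e * μ e * (μ z)⁻¹) where
  deg0 := pull_deg M ψ0
  deg1 := degree_C_mul_lt _ (pull_deg M ψ1)
  zero0 := fun a ha => by
    show ev ((μ a)⁻¹ • M (p a)) (pull M ψ0) = 0
    rw [ev_sc, hP.zero0 a ha, mul_zero]
  zero1 := fun a ha => by
    show ev ((μ a)⁻¹ • M (p a)) (C (μ z) * pull M ψ1) = 0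
    rw [ev_C_mul, ev_sc, hP.zero1 a ha, mul_zero, smul_zero]
  z0 := by
    show ev ((μ z)⁻¹ • M (p z)) (pull M ψ0) = 0
    rw [ev_sc, hP.z0, mul_zero]
  z1 := by
    show ev ((μ z)⁻¹ • M (p z)) (C (μ z) * pull M ψ1) = 1
    rw [ev_C_mul, ev_sc, hP.z1, mul_one, smul_eq_mul, mul_inv_cancel₀ (hμ z)]
  ne0 := fun e he hez => by
    show ev ((μ e)⁻¹ • M (p e)) (pull M ψ0) ≠ 0
    rw [ev_sc]
    exact mul_ne_zero (inv_ne_zero (hμ e)) (hP.ne0 e he hez)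
  dne := fun e he => mul_ne_zero (mul_ne_zero (hP.dne e he) (hμ e)) (inv_ne_zero (hμ z))
  form := fun e he => by
    show pull M (D (insert e A)) = C (δ e * μ e * (μ z)⁻¹) *
      (C (ev ((μ e)⁻¹ • M (p e)) (pull M ψ0)) * (C (μ z) * pull M ψ1) -
        C (ev ((μ e)⁻¹ • M (p e)) (C (μ z) * pull M ψ1)) * pull M ψ0)
    rw [hP.form e he, pull_C_mul, pull_sub, pull_C_mul, pull_C_mul, ev_C_mul, ev_sc, ev_sc]
    have h1 : (C (μ e) * C (μ e)⁻¹ : K[X]) = 1 := by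
      rw [← C_mul, mul_inv_cancel₀ (hμ e), C_1]
    have h2 : (C (μ z) * C (μ z)⁻¹ : K[X]) = 1 := by
      rw [← C_mul, mul_inv_cancel₀ (hμ z), C_1]
    simp only [smul_eq_mul, C_mul]
    generalize pull M ψ0 = a at *
    generalize pull M ψ1 = b at *
    generalize ev (p e) ψ0 = u at *
    generalize ev (p e) ψ1 = w at *
    have h3 : (C (μ e) * C (μ e)⁻¹ * (C (μ z) * C (μ z)⁻¹) : K[X]) = 1 := by rw [h1, h2, mul_one]
    linear_combination (-(C (δ e) * (C u * b - C w * a))) * h3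
  span := fun f hf h => by
    obtain ⟨a, b, hab⟩ := hP.span (pull M.symm f) (pull_deg _ _) (fun x hx => by
      have h1 := h x hx
      have h2 : ev ((μ x)⁻¹ • M (p x)) (pull M (pull M.symm f)) = 0 := by
        rw [pull_symm M f hf]; exact h1
      rw [ev_sc] at h2
      exact (mul_eq_zero.1 h2).resolve_left (inv_ne_zero (hμ x)))
    refine ⟨a, b * (μ z)⁻¹, ?_⟩
    have h2 : (C (μ z)⁻¹ * C (μ z) : K[X]) = 1 := by
      rw [← C_mul, inv_mul_cancel₀ (hμ z), C_1]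
    rw [← pull_symm M f hf, hab, pull_add, pull_C_mul, pull_C_mul, C_mul]
    linear_combination (-(C b * pull M ψ1)) * h2

theorem good [IsAlgClosed K] [Infinite K] (hk : 3 ≤ k) (hNZ : NZ K k) {S : Finset ι}
    {p : ι → Fin k → K} {D : Finset ι → K[X]} {c : Finset ι → K} (H : Sys k S p D c)
    (hS : 2 * k + 2 ≤ S.card) {A W : Finset ι} (hA : A ⊆ S) (hW : W ⊆ S) (hAW : Disjoint A W)
    (hAc : A.card = k - 2) (hWc : W.card = k + 2) {z : ι} (hz : z ∈ S) (hzA : z ∉ A) (hzW : z ∉ W)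
    {ψ0 ψ1 : K[X]} {δ : ι → K} (hP : Pen k S A p D z ψ0 ψ1 δ)
    (hlam : ∑ e ∈ W, (c (insert e A) * (∏ g ∈ S \ (A ∪ W), ev (p g) (D (insert e A))) * δ e) • p e
      ≠ 0) :
    ∃ r : ι → K, (∃ e ∈ W, r e ≠ 0) ∧ ∑ e ∈ W, r e • p e = 0 ∧
      ∑ e ∈ W, (r e * (ev (p e) ψ1 / ev (p e) ψ0)) • p e = 0 := by
  obtain ⟨M, μ, s, hμ, hs, hM, f, hfd, hfA, hfc⟩ :=
    exists_coord (by omega) H.toGP hA hW hAW hAc hWc
  have hH := H.transport M hμ
  have hQ := hP.transport M hμ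
  have hp : ∀ x ∈ W, (fun e => (μ e)⁻¹ • M (p e)) x = nu k (s x) := fun x hx => by
    show (μ x)⁻¹ • M (p x) = nu k (s x)
    rw [hM x hx, smul_smul, inv_mul_cancel₀ (hμ x), one_smul]
  have htop : ∃ f : K[X], f.degree < k ∧ (∀ a ∈ A, ev ((fun e => (μ e)⁻¹ • M (p e)) a) f = 0) ∧
      f.coeff (k - 1) ≠ 0 := by
    refine ⟨f, hfd, fun a ha => ?_, hfc⟩
    show ev ((μ a)⁻¹ • M (p a)) f = 0
    rw [ev_smul_vec, hfA a ha, mul_zero]
  have hlam' : ∑ e ∈ W, (c (insert e A) * (∏ g ∈ S \ (A ∪ W),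
      ev ((fun e => (μ e)⁻¹ • M (p e)) g) ((fun B => pull M (D B)) (insert e A))) *
        (fun e => δ e * μ e * (μ z)⁻¹) e) • (fun e => (μ e)⁻¹ • M (p e)) e ≠ 0 := by
    intro h0
    apply hlam
    have h1 : ∑ e ∈ W, (c (insert e A) * (∏ g ∈ S \ (A ∪ W),
      ev ((fun e => (μ e)⁻¹ • M (p e)) g) ((fun B => pull M (D B)) (insert e A))) *
        (fun e => δ e * μ e * (μ z)⁻¹) e) • (fun e => (μ e)⁻¹ • M (p e)) e =
        ((∏ g ∈ S \ (A ∪ W), (μ g)⁻¹) * (μ z)⁻¹) • M (∑ e ∈ W, (c (insert e A) *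
          (∏ g ∈ S \ (A ∪ W), ev (p g) (D (insert e A))) * δ e) • p e) := by
      rw [map_sum, Finset.smul_sum]
      refine Finset.sum_congr rfl fun e _ => ?_
      have h2 : ∏ g ∈ S \ (A ∪ W), ev ((fun e => (μ e)⁻¹ • M (p e)) g)
          ((fun B => pull M (D B)) (insert e A)) =
          (∏ g ∈ S \ (A ∪ W), (μ g)⁻¹) * ∏ g ∈ S \ (A ∪ W), ev (p g) (D (insert e A)) := by
        rw [← Finset.prod_mul_distrib]
        refine Finset.prod_congr rfl fun g _ => ?_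
        show ev ((μ g)⁻¹ • M (p g)) (pull M (D (insert e A))) = _
        rw [ev_sc]
      rw [h2, map_smul]
      simp only [smul_smul]
      congr 1
      have h3 : μ e * (μ e)⁻¹ = 1 := mul_inv_cancel₀ (hμ e)
      linear_combination (c (insert e A) * ((∏ g ∈ S \ (A ∪ W), (μ g)⁻¹) *
        ∏ g ∈ S \ (A ∪ W), ev (p g) (D (insert e A))) * δ e * (μ z)⁻¹) * h3
    rw [h1] at h0
    have h4 : (∏ g ∈ S \ (A ∪ W), (μ g)⁻¹) * (μ z)⁻¹ ≠ 0 :=
      mul_ne_zero (Finset.prod_ne_zero_iff.2 fun g _ => inv_ne_zero (hμ g)) (inv_ne_zero (hμ z))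
    have h5 := (smul_eq_zero.1 h0).resolve_left h4
    exact (M.map_eq_zero_iff).1 h5
  obtain ⟨ζ, b, hb, hbd, hb1, hb2⟩ := pole_std hk hNZ hH hS hA hW hAW hAc hWc hs hp hz hzA hzW hQ
    htop hlam'
  have hdeg1 : ((X - C ζ) * b).degree < (k : WithBot ℕ) := by
    rw [degree_mul, degree_X_sub_C]
    rw [degree_eq_natDegree hb] at hbd ⊢
    have h2 : b.natDegree < k - 2 := by exact_mod_cast hbd
    exact_mod_cast (by omega : 1 + b.natDegree < k)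
  have hdeg2 : ((X - C ζ) ^ 2 * b).degree < (k : WithBot ℕ) := by
    rw [degree_mul, degree_pow, degree_X_sub_C]
    rw [degree_eq_natDegree hb] at hbd ⊢
    have h2 : b.natDegree < k - 2 := by exact_mod_cast hbd
    rw [two_nsmul]
    exact_mod_cast (by omega : 1 + 1 + b.natDegree < k)
  obtain ⟨a0, b0, e0⟩ := hQ.span _ hdeg1 hb1
  obtain ⟨a1, b1, e1⟩ := hQ.span _ hdeg2 hb2
  set P0 := pull M ψ0 with hP0
  set P1 := C (μ z) * pull M ψ1 with hP1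
  have hφ : ((X - C ζ) * b) ≠ 0 := mul_ne_zero (X_sub_C_ne_zero ζ) hb
  -- independence
  have hind : ∀ u v : K, C u * ((X - C ζ) * b) = C v * ((X - C ζ) ^ 2 * b) → u = 0 ∧ v = 0 := by
    intro u v h
    have h1 : ((X - C ζ) * b) * (C u - C v * (X - C ζ)) = 0 := by linear_combination h
    have h2 := (mul_eq_zero.1 h1).resolve_left hφ
    have h3 := congrArg (fun g : K[X] => g.eval ζ) h2
    simp only [eval_sub, eval_mul, eval_C, eval_X, sub_self, mul_zero, sub_zero, eval_zero] at h3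
    refine ⟨h3, ?_⟩
    rw [h3, C_0, zero_sub, neg_eq_zero] at h2
    have h4 := (mul_eq_zero.1 h2).resolve_right (X_sub_C_ne_zero ζ)
    exact C_eq_zero.1 h4
  have hΔ : a0 * b1 - a1 * b0 ≠ 0 := by
    intro h0
    have h1 : C b1 * ((X - C ζ) * b) = C b0 * ((X - C ζ) ^ 2 * b) := by
      rw [e0, e1]
      have h2 : (C a0 * C b1 - C a1 * C b0 : K[X]) = 0 := by rw [← C_mul, ← C_mul, ← C_sub, h0, C_0]
      linear_combination P0 * h2
    have h3 : C a1 * ((X - C ζ) * b) = C a0 * ((X - C ζ) ^ 2 * b) := by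
      rw [e0, e1]
      have h2 : (C a0 * C b1 - C a1 * C b0 : K[X]) = 0 := by rw [← C_mul, ← C_mul, ← C_sub, h0, C_0]
      linear_combination (-P1) * h2
    obtain ⟨_, h5⟩ := hind _ _ h1
    obtain ⟨_, h6⟩ := hind _ _ h3
    rw [h5, h6, C_0, zero_mul, zero_mul, add_zero] at e0
    exact hφ e0
  set Δ := a0 * b1 - a1 * b0 with hΔd
  have hCΔ : (C Δ⁻¹ * (C a0 * C b1 - C a1 * C b0) : K[X]) = 1 := by
    rw [← C_mul, ← C_mul, ← C_sub, ← C_mul, ← hΔd, inv_mul_cancel₀ hΔ, C_1]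
  have hq0 : P0 = (C (Δ⁻¹ * b1) - C (Δ⁻¹ * b0) * (X - C ζ)) * ((X - C ζ) * b) := by
    have h1 : (C (Δ⁻¹ * b1) - C (Δ⁻¹ * b0) * (X - C ζ)) * ((X - C ζ) * b) =
        C Δ⁻¹ * (C b1 * ((X - C ζ) * b) - C b0 * ((X - C ζ) ^ 2 * b)) := by
      rw [C_mul, C_mul]; ring
    rw [h1, e0, e1]
    linear_combination (-P0) * hCΔ
  have hq1 : P1 = (-C (Δ⁻¹ * a1) + C (Δ⁻¹ * a0) * (X - C ζ)) * ((X - C ζ) * b) := by
    have h1 : (-C (Δ⁻¹ * a1) + C (Δ⁻¹ * a0) * (X - C ζ)) * ((X - C ζ) * b) =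
        C Δ⁻¹ * (-(C a1 * ((X - C ζ) * b)) + C a0 * ((X - C ζ) ^ 2 * b)) := by
      rw [C_mul, C_mul]; ring
    rw [h1, e0, e1]
    linear_combination (-P1) * hCΔ
  -- evaluation at the points of `W`
  have hWA : ∀ e ∈ W, e ∈ S \ A := fun e he => Finset.mem_sdiff.2
    ⟨hW he, fun h => Finset.disjoint_left.1 hAW h he⟩
  have hWz : ∀ e ∈ W, e ≠ z := fun e he h => hzW (h ▸ he)
  have hv0 : ∀ e ∈ W, P0.eval (s e) = (μ e)⁻¹ * ev (p e) ψ0 := fun e he => by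
    rw [← ev_nu (k := k) (s e) P0 (pull_deg M ψ0), ← hp e he]
    exact ev_sc M _ _ _
  have hv1 : ∀ e ∈ W, P1.eval (s e) = μ z * ((μ e)⁻¹ * ev (p e) ψ1) := fun e he => by
    rw [← ev_nu (k := k) (s e) P1 (degree_C_mul_lt _ (pull_deg M ψ1)), ← hp e he, hP1, ev_C_mul]
    show μ z * ev ((μ e)⁻¹ • M (p e)) (pull M ψ1) = _
    rw [ev_sc]
  have hw0 : ∀ e ∈ W, ev (p e) ψ0 ≠ 0 := fun e he => hP.ne0 e (hWA e he) (hWz e he)
  have hx0 : ∀ e ∈ W, (Δ⁻¹ * b1 - Δ⁻¹ * b0 * (s e - ζ)) * ((s e - ζ) * b.eval (s e)) =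
      (μ e)⁻¹ * ev (p e) ψ0 := fun e he => by
    rw [← hv0 e he, hq0]
    simp only [eval_mul, eval_sub, eval_C, eval_X]
  have hx1 : ∀ e ∈ W, (-(Δ⁻¹ * a1) + Δ⁻¹ * a0 * (s e - ζ)) * ((s e - ζ) * b.eval (s e)) =
      μ z * ((μ e)⁻¹ * ev (p e) ψ1) := fun e he => by
    rw [← hv1 e he, hq1]
    simp only [eval_mul, eval_sub, eval_C, eval_X, eval_add, eval_neg]
  have hy : ∀ e ∈ W, (Δ⁻¹ * b1 - Δ⁻¹ * b0 * (s e - ζ)) ≠ 0 ∧ ((s e - ζ) * b.eval (s e)) ≠ 0 :=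
    fun e he => by
      have h1 : (Δ⁻¹ * b1 - Δ⁻¹ * b0 * (s e - ζ)) * ((s e - ζ) * b.eval (s e)) ≠ 0 := by
        rw [hx0 e he]
        exact mul_ne_zero (inv_ne_zero (hμ e)) (hw0 e he)
      exact ⟨left_ne_zero_of_mul h1, right_ne_zero_of_mul h1⟩
  -- the general relation
  have hrel : ∀ u v : K, ∑ e ∈ W, (kap W s e * (u + v * (s e - ζ)) * (μ e)⁻¹) • p e = 0 := by
    intro u v
    have h1 : M (∑ e ∈ W, (kap W s e * (u + v * (s e - ζ)) * (μ e)⁻¹) • p e) = 0 := by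
      rw [map_sum]
      have h2 : ∀ e ∈ W, M ((kap W s e * (u + v * (s e - ζ)) * (μ e)⁻¹) • p e) =
          (u - v * ζ) • ((kap W s e * s e ^ 0) • nu k (s e)) +
            v • ((kap W s e * s e ^ 1) • nu k (s e)) := fun e he => by
        rw [map_smul, ← hp e he]
        show _ = (u - v * ζ) • ((kap W s e * s e ^ 0) • ((μ e)⁻¹ • M (p e))) +
            v • ((kap W s e * s e ^ 1) • ((μ e)⁻¹ • M (p e)))
        simp only [smul_smul, ← add_smul]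
        congr 1
        ring
      rw [Finset.sum_congr rfl h2, Finset.sum_add_distrib, ← Finset.smul_sum, ← Finset.smul_sum,
        sum_kap_nu hWc hs (by norm_num), sum_kap_nu hWc hs (by norm_num), smul_zero, smul_zero,
        add_zero]
    exact (M.map_eq_zero_iff).1 h1
  have hWne : W.Nonempty := Finset.card_pos.1 (by omega)
  refine ⟨fun e => kap W s e * (Δ⁻¹ * b1 + -(Δ⁻¹ * b0) * (s e - ζ)) * (μ e)⁻¹, ?_, hrel _ _, ?_⟩
  · obtain ⟨e, he⟩ := hWne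
    refine ⟨e, he, mul_ne_zero (mul_ne_zero (kap_ne hs he) ?_) (inv_ne_zero (hμ e))⟩
    have h1 := (hy e he).1
    rwa [sub_eq_add_neg, ← neg_mul] at h1
  · have h1 : ∑ e ∈ W, (kap W s e * (Δ⁻¹ * b1 + -(Δ⁻¹ * b0) * (s e - ζ)) * (μ e)⁻¹ *
        (ev (p e) ψ1 / ev (p e) ψ0)) • p e =
        (μ z)⁻¹ • ∑ e ∈ W, (kap W s e * (-(Δ⁻¹ * a1) + Δ⁻¹ * a0 * (s e - ζ)) * (μ e)⁻¹) • p e := by
      rw [Finset.smul_sum]
      refine Finset.sum_congr rfl fun e he => ?_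
      rw [smul_smul]
      congr 1
      have h2 := hx0 e he
      have h3 := hx1 e he
      have h4 := (hy e he).2
      have h5 := hw0 e he
      have h6 := hμ e
      have h7 := hμ z
      have h8 : (Δ⁻¹ * b1 + -(Δ⁻¹ * b0) * (s e - ζ)) * (ev (p e) ψ1 / ev (p e) ψ0) =
          (μ z)⁻¹ * (-(Δ⁻¹ * a1) + Δ⁻¹ * a0 * (s e - ζ)) := by
        generalize (s e - ζ) * b.eval (s e) = w at *
        have h9 : (Δ⁻¹ * b1 + -(Δ⁻¹ * b0) * (s e - ζ)) = (μ e)⁻¹ * ev (p e) ψ0 / w := by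
          rw [eq_div_iff h4]; linear_combination h2
        have h10 : (-(Δ⁻¹ * a1) + Δ⁻¹ * a0 * (s e - ζ)) = μ z * ((μ e)⁻¹ * ev (p e) ψ1) / w := by
          rw [eq_div_iff h4]; exact h3
        rw [h9, h10]
        field_simp
      linear_combination (kap W s e * (μ e)⁻¹) * h8
    rw [h1, hrel, smul_zero]

end

end Pool.Agent.Helper31.RN
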