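import Pool.Agent.Helper31.RN.Deg

/-!
# RN-1C: the identity (K*)

By `eT_sum` (`J = G`, `u = t`, `v x = bc L (p x)`) and the hypothesis (`eT_zero`): `∑_{x ∈ G} σ x * e_{t,y}(x; t_x) = 0`; by
`eT_self` all terms with `x ≠ y` are zero.
-/

open Polynomial

namespace Pool.Agent.Helper31.RN

noncomputable section

variable {K : Type*} [Field K] {ι : Type*} [DecidableEq ι] {k : ℕ}

theorem kstar {L : Type*} [CommRing L] [Algebra K L] {G : Finset ι} {p : ι → Fin k → K}
    {h : Finset ι → K[X]} (hk : 2 ≤ k) (hNZ : NZ K k) (H : L1 k G p h) (σ t : ι → L)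
    (h0 : ∀ j < 3, ∑ x ∈ G, (σ x * t x ^ j) • bc L (p x) = 0) {y : ι} (hy : y ∈ G) :
    σ y * (eT k G h t y (bc L (p y))).eval (t y) = 0 := by
  have h1 := eT_sum hk hNZ H t hy G σ t (fun x => bc L (p x))
  have h2 : ∑ j ∈ Finset.range 3,
      (eT k G h t y (∑ i ∈ G, (σ i * t i ^ j) • bc L (p i))).coeff j = 0 := by
    refine Finset.sum_eq_zero fun j hj => ?_
    rw [h0 j (Finset.mem_range.mp hj), eT_zero, coeff_zero]
  have h3 : ∑ i ∈ G, σ i * (eT k G h t y (bc L (p i))).eval (t i) =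
      σ y * (eT k G h t y (bc L (p y))).eval (t y) := by
    refine Finset.sum_eq_single y (fun x hx hxy => ?_) (fun h => absurd hy h)
    rw [eT_self H t hx hxy, mul_zero]
  rw [← h3, h1, h2]

end

end Pool.Agent.Helper31.RN
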