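import Pool.Agent.Helper31.RN.Defs

/-!
# RN-LAG: Lagrange interpolation on the nodes `s e`, `e ∈ W`

`kap W s e = 1/χ'(s e)`, `χ = ∏_{e ∈ W} (X - s e)`.
`lagr`: Lagrange interpolation (both sides have degree `< |W|` and agree at the `|W|` nodes; see
`Polynomial.eq_of_degrees_lt_of_eval_index_eq`, or `Lagrange.interpolate`).
`sum_kap`: coefficient of `X^{|W|-1}` in `lagr`.
`sum_kap_frac`: evaluate `lagr` at `a` and divide by `χ(a)`.
`lagr_alg`: coordinate `i`: `lagr` for `f = X^{i+j}` (`i + j ≤ k+1 < k+2`) evaluated at `a ∈ L` (`aeval a`).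
`sum_kap_nu`: coordinate `i`: `sum_kap` for `f = X^{i+j}`, `i + j ≤ k`.
-/

open Polynomial

namespace Pool.Agent.Helper31.RN

noncomputable section

variable {K : Type*} [Field K] {ι : Type*} [DecidableEq ι] {k : ℕ}

/-- `1/χ'(s_e)` for `χ = ∏_{e ∈ W} (X - s_e)` -/
def kap (W : Finset ι) (s : ι → K) (e : ι) : K := (∏ e' ∈ W.erase e, (s e - s e'))⁻¹

omit [DecidableEq ι] in
private theorem degree_prod82 (T : Finset ι) (s : ι → K) :
    (∏ e ∈ T, (X - C (s e))).degree = (T.card : WithBot ℕ) := by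
  rw [degree_prod]
  simp

omit [DecidableEq ι] in
private theorem eval_prod82 (T : Finset ι) (s : ι → K) (a : K) :
    (∏ e ∈ T, (X - C (s e))).eval a = ∏ e ∈ T, (a - s e) := by
  rw [eval_prod]
  simp

theorem kap_ne {W : Finset ι} {s : ι → K} (hs : Set.InjOn s W) {e : ι} (he : e ∈ W) :
    kap W s e ≠ 0 := by
  unfold kap
  refine inv_ne_zero (Finset.prod_ne_zero_iff.2 fun e' he' => sub_ne_zero.2 fun h => ?_)
  exact (Finset.ne_of_mem_erase he').symm (hs he (Finset.mem_of_mem_erase he') h)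

theorem lagr {W : Finset ι} {s : ι → K} (hs : Set.InjOn s W) {f : K[X]}
    (hf : f.degree < W.card) :
    ∑ e ∈ W, C (kap W s e * f.eval (s e)) * ∏ e' ∈ W.erase e, (X - C (s e')) = f := by
  refine Polynomial.eq_of_degrees_lt_of_eval_index_eq W hs ?_ hf ?_
  · refine degree_sum_lt' W _ fun e he => degree_C_mul_lt _ ?_
    rw [degree_prod82, Finset.card_erase_of_mem he]
    exact_mod_cast Nat.sub_lt (Finset.card_pos.2 ⟨e, he⟩) one_pos
  · intro i hi
    rw [eval_finsetSum, Finset.sum_eq_single i]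
    · rw [eval_mul, eval_C, eval_prod82]
      have h := kap_ne hs hi
      have h2 : kap W s i * ∏ e' ∈ W.erase i, (s i - s e') = 1 := by
        unfold kap at h ⊢
        exact inv_mul_cancel₀ (fun h0 => h (by rw [h0, inv_zero]))
      calc kap W s i * eval (s i) f * ∏ e' ∈ W.erase i, (s i - s e')
          = (kap W s i * ∏ e' ∈ W.erase i, (s i - s e')) * eval (s i) f := by ring
        _ = eval (s i) f := by rw [h2, one_mul]
    · intro e he hne
      rw [eval_mul, eval_prod82, Finset.prod_eq_zero (Finset.mem_erase.2 ⟨hne.symm, hi⟩) (sub_self _), mul_zero]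
    · intro h
      exact absurd hi h

theorem sum_kap {W : Finset ι} {s : ι → K} (hs : Set.InjOn s W) {f : K[X]}
    (hf : f.degree < (W.card - 1 : ℕ)) : ∑ e ∈ W, kap W s e * f.eval (s e) = 0 := by
  rcases W.eq_empty_or_nonempty with rfl | hne
  · simp
  have h1 : f.degree < W.card := lt_of_lt_of_le hf (by exact_mod_cast Nat.sub_le _ _)
  have h2 := congrArg (fun g : K[X] => g.coeff (W.card - 1)) (lagr hs h1)
  simp only [finsetSum_coeff, coeff_C_mul] at h2
  rw [coeff_eq_zero_of_degree_lt hf] at h2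
  rw [← h2]
  refine Finset.sum_congr rfl fun e he => ?_
  rw [← Finset.card_erase_of_mem he]
  have h3 : (∏ e' ∈ W.erase e, (X - C (s e'))).Monic := monic_prod_of_monic _ _ fun i _ => monic_X_sub_C _
  have h4 : (∏ e' ∈ W.erase e, (X - C (s e'))).natDegree = (W.erase e).card :=
    natDegree_eq_of_degree_eq_some (degree_prod82 _ _)
  rw [← h4, h3.coeff_natDegree, mul_one]

theorem sum_kap_frac {W : Finset ι} {s : ι → K} (hs : Set.InjOn s W) {f : K[X]}
    (hf : f.degree < W.card) {a : K} (ha : ∀ e ∈ W, s e ≠ a) :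
    ∑ e ∈ W, kap W s e * f.eval (s e) * (s e - a)⁻¹ = - f.eval a * (∏ e ∈ W, (a - s e))⁻¹ := by
  have h1 := congrArg (fun g : K[X] => g.eval a) (lagr hs hf)
  simp only [eval_finsetSum, eval_mul, eval_C, eval_prod82] at h1
  have hne : ∏ e ∈ W, (a - s e) ≠ 0 :=
    Finset.prod_ne_zero_iff.2 fun e he => sub_ne_zero.2 fun h => ha e he h.symm
  rw [← h1, ← Finset.sum_neg_distrib, Finset.sum_mul]
  refine Finset.sum_congr rfl fun e he => ?_
  have h2 : a - s e ≠ 0 := sub_ne_zero.2 fun h => ha e he h.symm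
  have h3 : s e - a ≠ 0 := sub_ne_zero.2 fun h => ha e he h
  have h5 : ∏ e' ∈ W.erase e, (a - s e') ≠ 0 :=
    Finset.prod_ne_zero_iff.2 fun e' he' =>
      sub_ne_zero.2 fun h => ha e' (Finset.mem_of_mem_erase he') h.symm
  rw [← Finset.mul_prod_erase W (fun e => a - s e) he]
  have h6 : (s e - a)⁻¹ = -(a - s e)⁻¹ := by rw [← neg_sub, inv_neg]
  rw [h6, mul_inv]
  have h7 : (∏ e' ∈ W.erase e, (a - s e')) * (∏ e' ∈ W.erase e, (a - s e'))⁻¹ = 1 := mul_inv_cancel₀ h5
  linear_combination (kap W s e * eval (s e) f * (a - s e)⁻¹) * h7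

theorem lagr_alg {L : Type*} [CommRing L] [Algebra K L] {W : Finset ι} (hW : W.card = k + 2)
    {s : ι → K} (hs : Set.InjOn s W) (a : L) {j : ℕ} (hj : j < 3) :
    ∑ e ∈ W, (algebraMap K L (kap W s e * s e ^ j) *
      ∏ e' ∈ W.erase e, (a - algebraMap K L (s e'))) • bc L (nu k (s e)) = a ^ j • nu k a := by
  ext i
  have hi := i.2
  have h1 : (X ^ ((i : ℕ) + j) : K[X]).degree < W.card := by
    rw [degree_X_pow, hW]
    exact_mod_cast (by omega : (i : ℕ) + j < k + 2)
  have h2 := congrArg (fun g : K[X] => aeval a g) (lagr hs h1)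
  simp only [map_sum, map_mul, map_prod, map_sub, map_pow, aeval_C, aeval_X, eval_pow, eval_X] at h2
  rw [Finset.sum_apply]
  simp only [Pi.smul_apply, smul_eq_mul, bc, nu, map_mul, map_pow]
  rw [← pow_add, add_comm j, ← h2]
  refine Finset.sum_congr rfl fun e _ => ?_
  rw [pow_add]
  ring

theorem sum_kap_nu {W : Finset ι} (hW : W.card = k + 2) {s : ι → K} (hs : Set.InjOn s W) {j : ℕ}
    (hj : j < 2) : ∑ e ∈ W, (kap W s e * s e ^ j) • nu k (s e) = 0 := by
  ext i
  have hi := i.2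
  have h1 : (X ^ ((i : ℕ) + j) : K[X]).degree < (W.card - 1 : ℕ) := by
    rw [degree_X_pow, hW]
    exact_mod_cast (by omega : (i : ℕ) + j < k + 2 - 1)
  have h2 := sum_kap hs h1
  rw [Finset.sum_apply, Pi.zero_apply, ← h2]
  refine Finset.sum_congr rfl fun e _ => ?_
  rw [Pi.smul_apply, smul_eq_mul, nu, eval_pow, eval_X, pow_add]
  ring

end

end Pool.Agent.Helper31.RN
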