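import Pool.Agent.Helper31.RN.Case1
import Pool.Agent.Helper31.RN.Case2

/-!
# RN-M: the main theorem over an algebraically closed field
-/

open Polynomial

namespace Pool.Agent.Helper31.RN

noncomputable section

variable {K : Type*} [Field K] {ι : Type*} [DecidableEq ι] {k : ℕ}

theorem main [IsAlgClosed K] [Infinite K] (hk : 3 ≤ k) (hNZ : NZ K k) {S : Finset ι}
    {p : ι → Fin k → K} {D : Finset ι → K[X]} {c : Finset ι → K} (H : Sys k S p D c)
    (hS : 2 * k + 2 ≤ S.card) : DetZero k S p D := by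
  by_cases h0 : LamZero k S p D c
  · exact case2 hk H hS h0
  · unfold LamZero at h0
    push Not at h0
    obtain ⟨A, W, z, ψ0, ψ1, δ, hA, hW, hAW, hAc, hWc, hz, hzA, hzW, hP, hlam⟩ := h0
    obtain ⟨M, hM⟩ := case1 hk hNZ H hS hA hW hAW hAc hWc hz hzA hzW hP hlam
    exact det_of_nuh hk H.toGP M hM

end

end Pool.Agent.Helper31.RN
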