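import Pool.Agent.Helper31.RN.KStar
import Pool.Agent.Helper31.RN.Lag

/-!
# RN-6B: the square factor over `L`

`L` a commutative `K`-algebra, `a ∈ L`, `s x - a` a unit for `x ∈ W`, `∑_{y ∈ A} r_y • bc L (p y) = nu k a`. Put `t x = algebraMap (s x)` for
`x ∈ W`, `t y = a` for `y ∈ A`, `σ x = algebraMap (kap W s x) * ∏_{e' ∈ W.erase x} (a - algebraMap (s e'))` for `x ∈ W`, `σ y = - r y` for `y ∈ A`.
By `lagr_alg` the hypothesis of `kstar` holds: `∑_{x ∈ W} (σ x * t x ^ j) • v_x = a^j • nu k a`, `∑_{y ∈ A} = - a^j • nu k a`.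
(i) `x ∈ W`: `σ x` is a unit, so `e_x := eT .. x (bc (p x))` vanishes at `t x`. It has degree `≤ 2` and `fT (bc (p x)) = (C (t x) - X) * e_x` has degree
`≤ 2`, so `e_x` has degree `≤ 1`, `e_x = C ε_x * (X - C (t x))`, `fT (bc (p x)) = - C ε_x * (X - C (t x))^2`. So with
`c_j(v) = (fT v).coeff j`: `c_1(x) = - 2 (t x) c_2(x)`, `c_0(x) = (t x)^2 c_2(x)`.
(ii) `c_j` as a polynomial: `P_j = ∑_{B ∈ G.powersetCard (k-1)} C ((∏_{x ∈ G \ B} (C (t x) - X)).coeff j) * (h B).map (algebraMap K L)`, degree `< k`, and
`ev v P_j = (fT v).coeff j` for all `v : Fin k → L`. `P_1 + 2 X P_2` (degree `≤ k`) and `P_0 - X^2 P_2` (degree `≤ k+1`) vanish at the `k+2` elements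
`algebraMap (s x)`, `x ∈ W` (`bc_nu`, `ev_nu`), so they are zero: (a polynomial over `L` of degree `< n` with `n` zeros in `K` is zero: divide by the monic
`X - C (s x)` successively, differences of the `s x` are units; or coefficientwise with `lagr`.) Put `b = P_2`. Then `P_0 = X^2 b`, so `b` has degree
`< k - 2`; and `(fT v) = C (ev v P_0) + C (ev v P_1) X + C (ev v P_2) X^2`, `(fT v).eval u = ev v ((X - C u)^2 * b)`.
(iii) `u = a`: `(fT v).eval a = ∑_B ev v (h B) ∏_{x ∈ G \ B} (t x - a)`, only `B ⊇ A` count: `B = insert e A`. As this holds for all `v`, `eq` follows (compare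
coefficients `< k`, take `v = Pi.single i 1`; both sides have degree `< k`). `sq`: `fT_self` for `y ∈ A`.
(iv) `y ∈ A`: `(C a - X) * e_y = fT (bc (p y)) = C (ev (X^2 b)) - 2 C (ev (X b)) X + C (ev b) X^2` (`ev` at `y`) has the root `a`, and
`= (X - C a) * (C (ev b) * (X - C a) - 2 C (ev ((X - C a) * b)))`; cancel the monic factor, `e_y.eval a = 2 ev ((X - C a) * b)`. `kstar`:
`r_y * 2 * ev (..) = 0`, and `2` is a unit (`NZ`).
-/

open Polynomial

namespace Pool.Agent.Helper31.RN

noncomputable section

variable {K : Type*} [Field K] {ι : Type*} [DecidableEq ι] {k : ℕ}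

/-- a polynomial over `L` of degree `< |W|` with the zeros `s x`, `x ∈ W`, is zero -/
theorem zero_of_nodes11 {L : Type*} [CommRing L] [Algebra K L] {W : Finset ι} {s : ι → K}
    (hs : Set.InjOn s W) (F : L[X]) (hF : F.degree < W.card)
    (h0 : ∀ x ∈ W, F.eval (algebraMap K L (s x)) = 0) : F = 0 := by
  rcases subsingleton_or_nontrivial L with hL | hL
  · exact Subsingleton.elim _ _
  induction W using Finset.induction_on generalizing F with
  | empty =>
    rw [Finset.card_empty, Nat.cast_zero] at hF
    by_contra hne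
    exact absurd (zero_le_degree_iff.mpr hne) (not_le.mpr hF)
  | insert x W hx ih =>
    have h1 : F.IsRoot (algebraMap K L (s x)) := h0 x (Finset.mem_insert_self x W)
    obtain ⟨F', rfl⟩ := dvd_iff_isRoot.mpr h1
    have hmon : (X - C (algebraMap K L (s x))).Monic := monic_X_sub_C _
    have hF' : F' = 0 := by
      refine ih (hs.mono (by simp)) F' ?_ ?_
      · rw [mul_comm, hmon.degree_mul, degree_X_sub_C, Finset.card_insert_of_notMem hx] at hF
        rcases eq_or_ne F' 0 with rfl | hne
        · rw [degree_zero]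
          exact WithBot.bot_lt_coe _
        · rw [degree_eq_natDegree hne] at hF ⊢
          norm_cast at hF ⊢
          omega
      · intro y hy
        have h2 := h0 y (Finset.mem_insert_of_mem hy)
        rw [eval_mul, eval_sub, eval_X, eval_C, ← map_sub] at h2
        have hne : s y - s x ≠ 0 := by
          rw [sub_ne_zero]
          intro h3
          have := hs (Finset.mem_insert_of_mem hy) (Finset.mem_insert_self x W) h3
          exact hx (this ▸ hy)
        exact ((Ne.isUnit hne).map (algebraMap K L)).mul_right_eq_zero.mp h2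
    rw [hF', mul_zero]

/-- the coefficient of `u^j` of `fT` as a polynomial -/
def PP (k : ℕ) (G : Finset ι) (h : Finset ι → K[X]) {L : Type*} [CommRing L] [Algebra K L]
    (t : ι → L) (j : ℕ) : L[X] :=
  ∑ B ∈ G.powersetCard (k - 1), C ((∏ x ∈ G \ B, (C (t x) - X)).coeff j) *
    (h B).map (algebraMap K L)

theorem PP_degree {G : Finset ι} {h : Finset ι → K[X]} (hd : ∀ B, (h B).degree < k) {L : Type*}
    [CommRing L] [Algebra K L] (t : ι → L) (j : ℕ) : (PP k G h t j).degree < k := by
  refine degree_sum_lt' _ _ fun B _ => degree_C_mul_lt _ ?_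
  exact lt_of_le_of_lt degree_map_le (hd B)

theorem ev_PP {G : Finset ι} {h : Finset ι → K[X]} {L : Type*} [CommRing L] [Algebra K L]
    (t : ι → L) (j : ℕ) (v : Fin k → L) : ev v (PP k G h t j) = (fT k G h t v).coeff j := by
  rw [PP, fT, ev_sum, finsetSum_coeff]
  refine Finset.sum_congr rfl fun B _ => ?_
  rw [ev_C_mul, ev_map, coeff_C_mul, smul_eq_mul, mul_comm]

/-- polynomials of degree `< k` with the same values are equal -/
theorem ev_ext11 {L : Type*} [CommRing L] {f g : L[X]} (hf : f.degree < k) (hg : g.degree < k)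
    (h : ∀ v : Fin k → L, ev v f = ev v g) : f = g := by
  ext n
  by_cases hn : n < k
  · have h1 := h (Pi.single ⟨n, hn⟩ 1)
    rw [ev_single, ev_single] at h1
    exact h1
  · rw [coeff_eq_zero_of_degree_lt (lt_of_lt_of_le hf (by exact_mod_cast not_lt.mp hn)),
      coeff_eq_zero_of_degree_lt (lt_of_lt_of_le hg (by exact_mod_cast not_lt.mp hn))]

theorem coeff_quad11 {L : Type*} [CommRing L] (α β γ : L) :
    (C α * X ^ 2 + C β * X + C γ).coeff 2 = α ∧ (C α * X ^ 2 + C β * X + C γ).coeff 1 = β ∧
      (C α * X ^ 2 + C β * X + C γ).coeff 0 = γ := by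
  refine ⟨?_, ?_, ?_⟩ <;> simp [coeff_X, coeff_C]

/-- a polynomial of degree `≤ 2` divisible by `(X - C t)` twice -/
theorem sq_form11 {L : Type*} [CommRing L] {F E : L[X]} {t : L} (hF : F.natDegree ≤ 2)
    (h1 : F = (C t - X) * E) (h2 : E.eval t = 0) :
    F.coeff 1 = - (2 * t * F.coeff 2) ∧ F.coeff 0 = t ^ 2 * F.coeff 2 := by
  rcases subsingleton_or_nontrivial L with hL | hL
  · exact ⟨Subsingleton.elim _ _, Subsingleton.elim _ _⟩
  obtain ⟨E', rfl⟩ := dvd_iff_isRoot.mpr (show E.IsRoot t from h2)
  have hmon : ((X - C t) ^ 2).Monic := (monic_X_sub_C t).pow 2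
  have h3 : F = (X - C t) ^ 2 * (-E') := by rw [h1]; ring
  have h4 : ∃ ε : L, E' = C ε := by
    rcases eq_or_ne E' 0 with rfl | hne
    · exact ⟨0, by simp⟩
    have h5 : F.natDegree = 2 + E'.natDegree := by
      rw [h3, hmon.natDegree_mul' (neg_ne_zero.mpr hne), natDegree_neg,
        (monic_X_sub_C t).natDegree_pow, natDegree_X_sub_C]
    exact ⟨E'.coeff 0, eq_C_of_natDegree_eq_zero (by omega)⟩
  obtain ⟨ε, rfl⟩ := h4
  have h6 : F = C (-ε) * X ^ 2 + C (2 * t * ε) * X + C (-(t ^ 2 * ε)) := by
    rw [h3]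
    simp only [map_neg, map_mul, map_pow, map_ofNat]
    ring
  obtain ⟨c2, c1, c0⟩ := coeff_quad11 (-ε) (2 * t * ε) (-(t ^ 2 * ε))
  rw [← h6] at c0 c1 c2
  rw [c0, c1, c2]
  constructor <;> ring

theorem exists_b {L : Type*} [CommRing L] [Algebra K L] (hk : 3 ≤ k) (hNZ : NZ K k)
    {A W : Finset ι} {p : ι → Fin k → K} {h : Finset ι → K[X]} (hAW : Disjoint A W)
    (hA : A.card = k - 2) (hW : W.card = k + 2) (H : L1 k (A ∪ W) p h) {s : ι → K}
    (hs : Set.InjOn s W) (hp : ∀ x ∈ W, p x = nu k (s x)) {a : L}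
    (ha : ∀ x ∈ W, IsUnit (a - algebraMap K L (s x))) {r : ι → L}
    (hr : ∑ y ∈ A, r y • bc L (p y) = nu k a) :
    ∃ b : L[X], b.degree < (k - 2 : ℕ) ∧
      (∑ e ∈ W, C (∏ e' ∈ W.erase e, (algebraMap K L (s e') - a)) *
        (h (insert e A)).map (algebraMap K L) = (X - C a) ^ 2 * b) ∧
      (∀ y ∈ A, ev (bc L (p y)) ((X - C a) ^ 2 * b) = 0) ∧
      ∀ y ∈ A, r y * ev (bc L (p y)) ((X - C a) * b) = 0 := by
  classical
  rcases subsingleton_or_nontrivial L with hL | hL
  · refine ⟨0, ?_, Subsingleton.elim _ _, fun _ _ => Subsingleton.elim _ _,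
      fun _ _ => Subsingleton.elim _ _⟩
    rw [degree_zero]
    exact WithBot.bot_lt_coe _
  set G : Finset ι := A ∪ W with hG
  have hk2 : 2 ≤ k := by omega
  -- the parameters
  set t : ι → L := fun x => if x ∈ W then algebraMap K L (s x) else a with ht
  set σ : ι → L := fun x => if x ∈ W then
    algebraMap K L (kap W s x) * ∏ e' ∈ W.erase x, (a - algebraMap K L (s e')) else - r x with hσ
  have htW : ∀ x ∈ W, t x = algebraMap K L (s x) := fun x hx => by simp [ht, hx]
  have hnot : ∀ y ∈ A, y ∉ W := fun y hy => Finset.disjoint_left.mp hAW hy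
  have htA : ∀ y ∈ A, t y = a := fun y hy => by simp [ht, hnot y hy]
  have hσW : ∀ x ∈ W, σ x = algebraMap K L (kap W s x) *
      ∏ e' ∈ W.erase x, (a - algebraMap K L (s e')) := fun x hx => by simp [hσ, hx]
  have hσA : ∀ y ∈ A, σ y = - r y := fun y hy => by simp [hσ, hnot y hy]
  have hrel : ∀ j < 3, ∑ x ∈ G, (σ x * t x ^ j) • bc L (p x) = 0 := by
    intro j hj
    rw [hG, Finset.sum_union hAW]
    have h1 : ∑ x ∈ W, (σ x * t x ^ j) • bc L (p x) = a ^ j • nu k a := by
      rw [← lagr_alg hW hs a hj]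
      refine Finset.sum_congr rfl fun x hx => ?_
      rw [hσW x hx, htW x hx, hp x hx, map_mul, map_pow]
      congr 1
      ring
    have h2 : ∑ x ∈ A, (σ x * t x ^ j) • bc L (p x) = - (a ^ j • nu k a) := by
      rw [← hr, Finset.smul_sum, ← Finset.sum_neg_distrib]
      refine Finset.sum_congr rfl fun y hy => ?_
      rw [hσA y hy, htA y hy, smul_smul, ← neg_smul]
      congr 1
      ring
    rw [h1, h2, neg_add_cancel]
  have hks := fun {y : ι} (hy : y ∈ G) => kstar hk2 hNZ H σ t hrel hy
  have hWG : W ⊆ G := Finset.subset_union_right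
  have hAG : A ⊆ G := Finset.subset_union_left
  set b : L[X] := PP k G h t 2 with hb
  -- the square form at the points of `W`
  have hsq : ∀ x ∈ W, (fT k G h t (bc L (p x))).coeff 1 =
      - (2 * t x * (fT k G h t (bc L (p x))).coeff 2) ∧
      (fT k G h t (bc L (p x))).coeff 0 = t x ^ 2 * (fT k G h t (bc L (p x))).coeff 2 := by
    intro x hx
    refine sq_form11 (fT_natDegree hk2 hNZ H t _) (fT_eq H t (hWG hx)) ?_
    have h1 := hks (hWG hx)
    have h2 : IsUnit (σ x) := by
      rw [hσW x hx]
      refine IsUnit.mul ?_ ?_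
      · exact (Ne.isUnit (kap_ne hs hx)).map (algebraMap K L)
      · rw [IsUnit.prod_iff]
        exact fun e he => ha e (Finset.mem_of_mem_erase he)
    exact h2.mul_right_eq_zero.mp h1
  have hevalP : ∀ j, ∀ x ∈ W, (PP k G h t j).eval (algebraMap K L (s x)) =
      (fT k G h t (bc L (p x))).coeff j := by
    intro j x hx
    rw [← ev_PP, hp x hx, bc_nu, ev_nu _ _ (PP_degree H.deg t j)]
  have hPd := PP_degree (G := G) H.deg t
  have hkW : ((W.card : ℕ) : WithBot ℕ) = ((k + 2 : ℕ) : WithBot ℕ) := by rw [hW]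
  have hXd : ∀ (f : L[X]) (n : ℕ), f.degree < k → n ≤ 2 →
      (X ^ n * f).degree < ((W.card : ℕ) : WithBot ℕ) := by
    intro f n hf hn
    rcases eq_or_ne f 0 with rfl | hne
    · rw [mul_zero, degree_zero]
      exact WithBot.bot_lt_coe _
    · rw [mul_comm, (monic_X_pow n).degree_mul, degree_X_pow, degree_eq_natDegree hne, hkW]
      rw [degree_eq_natDegree hne] at hf
      norm_cast at hf ⊢
      omega
  have hP1 : PP k G h t 1 = - (2 * (X * b)) := by
    rw [← sub_eq_zero]
    refine zero_of_nodes11 hs _ ?_ ?_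
    · refine lt_of_le_of_lt (degree_sub_le _ _) (max_lt ?_ ?_)
      · have := hXd _ 0 (hPd 1) (by norm_num)
        rwa [pow_zero, one_mul] at this
      · rw [degree_neg]
        have h1 : (2 : L[X]) * (X * b) = C 2 * (X ^ 1 * b) := by
          rw [pow_one, map_ofNat]
        rw [h1]
        exact degree_C_mul_lt _ (hXd _ 1 (hPd 2) (by norm_num))
    · intro x hx
      simp only [eval_sub, eval_neg, eval_mul, eval_X, eval_ofNat, hb]
      rw [hevalP 1 x hx, hevalP 2 x hx, (hsq x hx).1, htW x hx]
      ring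
  have hP0 : PP k G h t 0 = X ^ 2 * b := by
    rw [← sub_eq_zero]
    refine zero_of_nodes11 hs _ ?_ ?_
    · refine lt_of_le_of_lt (degree_sub_le _ _) (max_lt ?_ ?_)
      · have := hXd _ 0 (hPd 0) (by norm_num)
        rwa [pow_zero, one_mul] at this
      · exact hXd _ 2 (hPd 2) le_rfl
    · intro x hx
      simp only [eval_sub, eval_mul, eval_X, eval_pow, hb]
      rw [hevalP 0 x hx, hevalP 2 x hx, (hsq x hx).2, htW x hx]
      ring
  -- `fT` in terms of `b`
  have hfT : ∀ v : Fin k → L, fT k G h t v =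
      C (ev v (X ^ 2 * b)) + C (ev v (- (2 * (X * b)))) * X + C (ev v b) * X ^ 2 := by
    intro v
    have h1 : (fT k G h t v).natDegree < 3 := Nat.lt_succ_of_le (fT_natDegree hk2 hNZ H t v)
    rw [as_sum_range_C_mul_X_pow' (fT k G h t v) h1, Finset.sum_range_succ, Finset.sum_range_succ,
      Finset.sum_range_one, ← ev_PP, ← ev_PP, ← ev_PP, hP0, hP1]
    simp [hb]
  have hevb : ∀ v : Fin k → L, ∀ u : L, ev v ((X - C u) ^ 2 * b) =
      ev v (X ^ 2 * b) + u * ev v (- (2 * (X * b))) + u ^ 2 * ev v b := by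
    intro v u
    have h1 : (X - C u) ^ 2 * b = X ^ 2 * b + C u * (- (2 * (X * b))) + C (u ^ 2) * b := by
      rw [C_pow]; ring
    rw [h1, ev_add, ev_add, ev_C_mul, ev_C_mul, smul_eq_mul, smul_eq_mul]
  have heval : ∀ v : Fin k → L, ∀ u : L, (fT k G h t v).eval u = ev v ((X - C u) ^ 2 * b) := by
    intro v u
    rw [hfT v, hevb v u]
    simp only [eval_add, eval_mul, eval_C, eval_X, eval_pow]
    ring
  have hbd : b.degree < (k - 2 : ℕ) := by
    rcases eq_or_ne b 0 with h0 | hne
    · rw [h0, degree_zero]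
      exact WithBot.bot_lt_coe _
    · have h1 := hPd 0
      rw [hP0, mul_comm, (monic_X_pow 2).degree_mul, degree_X_pow, degree_eq_natDegree hne] at h1
      rw [degree_eq_natDegree hne]
      norm_cast at h1 ⊢
      omega
  refine ⟨b, hbd, ?_, ?_, ?_⟩
  · -- the sum over `W`
    refine ev_ext11 (k := k) ?_ ?_ ?_
    · refine degree_sum_lt' _ _ fun e _ => degree_C_mul_lt _ ?_
      exact lt_of_le_of_lt degree_map_le (H.deg _)
    · rcases eq_or_ne b 0 with h0 | hne
      · rw [h0, mul_zero, degree_zero]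
        exact WithBot.bot_lt_coe _
      · rw [mul_comm, ((monic_X_sub_C a).pow 2).degree_mul, degree_eq_natDegree hne,
          degree_eq_natDegree ((monic_X_sub_C a).pow 2).ne_zero,
          (monic_X_sub_C a).natDegree_pow, natDegree_X_sub_C]
        rw [degree_eq_natDegree hne] at hbd
        norm_cast at hbd ⊢
        omega
    · intro v
      rw [← heval v a, fT, eval_finsetSum, ev_sum]
      simp only [eval_mul, eval_C, eval_prod, eval_sub, eval_X, ev_C_mul, ev_map, smul_eq_mul]
      symm
      -- only the sets `insert e A` count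
      have himg : ∀ e ∈ W, insert e A ∈ G.powersetCard (k - 1) := by
        intro e he
        rw [Finset.mem_powersetCard]
        refine ⟨Finset.insert_subset (hWG he) hAG, ?_⟩
        rw [Finset.card_insert_of_notMem (fun h1 => hnot e h1 he), hA]
        omega
      have hinj : Set.InjOn (fun e => insert e A) (W : Set ι) := by
        intro e he e' he' hee
        have h1 : e ∈ insert e' A := by
          have h2 : insert e A = insert e' A := hee
          rw [← h2]
          exact Finset.mem_insert_self e A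
        rcases Finset.mem_insert.mp h1 with h2 | h2
        · exact h2
        · exact absurd he (hnot e h2)
      rw [← Finset.sum_subset (s₁ := W.image (fun e => insert e A))
        (Finset.image_subset_iff.mpr himg) ?_, Finset.sum_image hinj]
      · refine Finset.sum_congr rfl fun e he => ?_
        have h1 : G \ insert e A = W.erase e := by
          ext x
          simp only [hG, Finset.mem_sdiff, Finset.mem_union, Finset.mem_insert, Finset.mem_erase]
          constructor
          · rintro ⟨h2 | h2, h3⟩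
            · exact absurd (Or.inr h2) h3
            · exact ⟨fun h4 => h3 (Or.inl h4), h2⟩
          · rintro ⟨h2, h3⟩
            refine ⟨Or.inr h3, ?_⟩
            rintro (h4 | h4)
            · exact h2 h4
            · exact hnot x h4 h3
        rw [h1, mul_comm]
        congr 1
        refine Finset.prod_congr rfl fun x hx => ?_
        rw [htW x (Finset.mem_of_mem_erase hx)]
      · intro B hB hBn
        rw [Finset.mem_powersetCard] at hB
        have h1 : ¬ A ⊆ B := by
          intro h2
          apply hBn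
          rw [Finset.mem_image]
          have h3 : (B \ A).card = 1 := by
            rw [Finset.card_sdiff_of_subset h2, hB.2, hA]
            omega
          obtain ⟨e, he⟩ := Finset.card_eq_one.mp h3
          have h4 : e ∈ B \ A := by rw [he]; exact Finset.mem_singleton_self e
          rw [Finset.mem_sdiff] at h4
          refine ⟨e, ?_, ?_⟩
          · have h5 := hB.1 h4.1
            rw [hG, Finset.mem_union] at h5
            exact h5.resolve_left h4.2
          · rw [Finset.insert_eq, ← he, Finset.sdiff_union_of_subset h2]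
        obtain ⟨y, hyA, hyB⟩ := Finset.not_subset.mp h1
        rw [Finset.prod_eq_zero (Finset.mem_sdiff.mpr ⟨hAG hyA, hyB⟩), mul_zero]
        rw [htA y hyA, sub_self]
  · intro y hy
    rw [← heval, ← htA y hy]
    exact fT_self H t (hAG hy)
  · intro y hy
    have h1 := hks (hAG hy)
    rw [hσA y hy, htA y hy] at h1
    have h2 := congrArg (fun f : L[X] => f.derivative.eval a) (fT_eq H t (hAG hy))
    simp only [hfT, htA y hy] at h2
    simp only [derivative_add, derivative_mul, derivative_C, derivative_X, derivative_sub,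
      derivative_X_pow, eval_add, eval_mul, eval_sub, eval_C, eval_X, eval_pow, eval_zero,
      eval_one] at h2
    have h3 : ev (bc L (p y)) ((X - C a) * b) = ev (bc L (p y)) (X * b) -
        a * ev (bc L (p y)) b := by
      rw [sub_mul, ev_sub, ev_C_mul, smul_eq_mul]
    have h4 : ev (bc L (p y)) (- (2 * (X * b))) = - (2 * ev (bc L (p y)) (X * b)) := by
      have h5 : (2 : L[X]) * (X * b) = C 2 * (X * b) := by rw [map_ofNat]
      rw [ev_neg, h5, ev_C_mul, smul_eq_mul]
    have h6 : (eT k G h t y (bc L (p y))).eval a = 2 * ev (bc L (p y)) ((X - C a) * b) := by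
      rw [h3]
      rw [h4] at h2
      norm_num at h2
      linear_combination h2
    rw [h6] at h1
    have h7 : IsUnit (2 : L) := by
      have h8 : (2 : K) ≠ 0 := by
        have := hNZ 2 (by norm_num) (by omega)
        exact_mod_cast this
      have h9 := (Ne.isUnit h8).map (algebraMap K L)
      rwa [map_ofNat] at h9
    have h10 : 2 * (r y * ev (bc L (p y)) ((X - C a) * b)) = 0 := by linear_combination -h1
    exact h7.mul_right_eq_zero.mp h10

end

end Pool.Agent.Helper31.RN
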