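import Pool.Agent.Helper31.RN.Lag
import Pool.Agent.Helper3.RN.Planar

/-!
# RN-F1: the planar identity over a finite field

`x_j = a_j / b_j` are different elements of `K`, `n = |J|`, `q = |K|`. `∏_{i ∈ J.erase j} (a_i b_j - a_j b_i) = b_j^{n-2} (∏_{i ∈ J} b_i) ∏_{i ≠ j} (x_i - x_j)`
(`n ≥ 2`; note `n = (m+q+3)/2`), so the `j`-th term is `(∏ b_i)⁻² b_j^{m - 2(n-2)}` times `∏_l (α_l x_j + β_l) / ∏_{i ≠ j} (x_i - x_j)²`, and `m - 2(n-2) = -(q-1) `, `b_j^{q-1} = 1`.
Wilson: `∏_{i ∈ J.erase j} (x_j - x_i) * ∏_{y ∉ x(J)} (x_j - y) = ∏_{y ≠ x_j} (x_j - y) = -1` (`FiniteField.prod_univ_units_id_eq_neg_one` or the derivative of `X^q - X`), so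
`1/∏_{i ≠ j} (x_i - x_j)² = - f(x_j) kap J x j` with `f = ∏_{y ∉ x(J)} (X - C y)` of degree `q - n` (signs: the square does not see them). The sum is
`- (∏ b_i)⁻² ∑_j kap J x j * (f * ∏_l (C α_l * X + C β_l))(x_j)`, degree `≤ q - n + m = n - 3 < n - 1`: zero by `sum_kap`.
-/

open Polynomial

namespace Pool.Agent.Helper31.RN

noncomputable section

variable {K : Type*} [Field K] [Fintype K] {ι : Type*} [DecidableEq ι]

theorem planar {J : Finset ι} {a b : ι → K} (hb : ∀ j ∈ J, b j ≠ 0)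
    (hne : ∀ i ∈ J, ∀ j ∈ J, i ≠ j → a i * b j - a j * b i ≠ 0) {τ : Type*} (T : Finset τ)
    (hm : T.card + Fintype.card K + 3 = 2 * J.card) (α β : τ → K) :
    ∑ j ∈ J, (∏ l ∈ T, (α l * a j + β l * b j)) *
      (∏ i ∈ J.erase j, (a i * b j - a j * b i) ^ 2)⁻¹ = 0 := by
  classical
  have e : Fin T.card ≃ T := T.equivFin.symm
  have h := Helper3.RN.planar_seg_aux (L := K) J a b hb
    (fun i hi j hj hij h0 => hne i hi j hj hij (by linear_combination h0)) T.card hm
    (fun i => -β (e i)) (fun i => α (e i))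
  rw [← h]
  refine Finset.sum_congr rfl fun j _ => ?_
  have h1 : ∏ i : Fin T.card, (algebraMap K K (a j) * α (e i) - algebraMap K K (b j) * -β (e i))
      = ∏ l ∈ T, (α l * a j + β l * b j) := by
    rw [← Finset.prod_coe_sort T, ← Equiv.prod_comp e]
    refine Finset.prod_congr rfl fun i _ => ?_
    simp only [Algebra.algebraMap_self, RingHom.id_apply]
    ring
  have h2 : algebraMap K K (((∏ e' ∈ J.erase j, (a j * b e' - b j * a e'))⁻¹) ^ 2)
      = (∏ i ∈ J.erase j, (a i * b j - a j * b i) ^ 2)⁻¹ := by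
    rw [Algebra.algebraMap_self, RingHom.id_apply, inv_pow, ← Finset.prod_pow]
    congr 1
    refine Finset.prod_congr rfl fun i _ => ?_
    ring
  rw [h1, h2]

end

end Pool.Agent.Helper31.RN
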