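import Pool.Agent.Helper31.RN.Lin

/-!
# RN-8A: plane coordinates seen from `D0`, `|D0| = k-3`

`det3` is the 3x3 determinant. `exists_plane`: choose three different points `b_0, b_1, b_2` of `S \ D0`, and forms `χ_i` = multiples of
`D (D0 + b_{i+1} + b_{i+2})` with `ev (p b_i) χ_i = 1`. `P u = (i ↦ ev (p u) χ_i)`. For `x ≠ y` in `S \ D0` the form
`Q = C (cofactor_0) * χ_0 + C (cofactor_1) * χ_1 + C (cofactor_2) * χ_2` with `ev (p u) Q = det3 (P x) (P y) (P u)` (for all `u`) vanishes at the points of `D0`, at `x` and at `y`, so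
`Q = C a * D (insert x (insert y D0))` (`form_unique`). `a ≠ 0`: otherwise all cofactors are zero (evaluate at `u = b_i`: `P b_i = e_i`), so `P x`, `P y` are
proportional, `α P x + β P y = 0` with `(α,β) ≠ 0`; every form that vanishes on `D0` is a combination of the `χ_i` (`interp_form` for `D0 + b_0 + b_1 + b_2`), so it vanishes
at `α p_x + β p_y`; take `D (insert x (insert t D0))`, `D (insert y (insert t D0))`, `t ≠ x, y`: `β = 0`, `α = 0`. `Δ x y = a⁻¹`.
`pencil3`: Cramer: `det3 a g h • u = det3 u g h • a + det3 a u h • g + det3 a g u • h`.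
-/

open Polynomial

namespace Pool.Agent.Helper31.RN

noncomputable section

variable {K : Type*} [Field K] {ι : Type*} [DecidableEq ι] {k : ℕ}

/-- the determinant of three vectors of `K³` -/
def det3 (u v w : Fin 3 → K) : K :=
  u 0 * (v 1 * w 2 - v 2 * w 1) - u 1 * (v 0 * w 2 - v 2 * w 0) + u 2 * (v 0 * w 1 - v 1 * w 0)

theorem det3_self_left (u v : Fin 3 → K) : det3 u v u = 0 := by simp only [det3]; ring

theorem det3_self_right (u v : Fin 3 → K) : det3 u v v = 0 := by simp only [det3]; ring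

theorem det3_swap (u v w : Fin 3 → K) : det3 v u w = - det3 u v w := by simp only [det3]; ring

theorem exists_plane (hk : 3 ≤ k) {S : Finset ι} {p : ι → Fin k → K} {D : Finset ι → K[X]}
    (H : GP k S p D) (hS : k ≤ S.card) {D0 : Finset ι} (hD0 : D0 ⊆ S) (hD0c : D0.card = k - 3) :
    ∃ (P : ι → Fin 3 → K) (Δ : ι → ι → K), ∀ x ∈ S \ D0, ∀ y ∈ S \ D0, x ≠ y →
      Δ x y ≠ 0 ∧ Δ y x = - Δ x y ∧
        ∀ u, ev (p u) (D (insert x (insert y D0))) = Δ x y * det3 (P x) (P y) (P u) := by
  classical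
  have hcS : 3 ≤ (S \ D0).card := by
    rw [Finset.card_sdiff_of_subset hD0, hD0c]; omega
  obtain ⟨T, hT, hTc⟩ := Finset.exists_subset_card_eq hcS
  obtain ⟨b0, b1, b2, h01, h02, h12, rfl⟩ := Finset.card_eq_three.mp hTc
  have hb0 := Finset.mem_sdiff.mp (hT (show b0 ∈ ({b0, b1, b2} : Finset ι) by simp))
  have hb1 := Finset.mem_sdiff.mp (hT (show b1 ∈ ({b0, b1, b2} : Finset ι) by simp))
  have hb2 := Finset.mem_sdiff.mp (hT (show b2 ∈ ({b0, b1, b2} : Finset ι) by simp))
  set B : Finset ι := insert b0 (insert b1 (insert b2 D0)) with hBdef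
  have hBS : B ⊆ S := by
    intro e he
    simp only [hBdef, Finset.mem_insert] at he
    rcases he with rfl | rfl | rfl | he
    · exact hb0.1
    · exact hb1.1
    · exact hb2.1
    · exact hD0 he
  have hBc : B.card = k := by
    rw [hBdef, Finset.card_insert_of_notMem, Finset.card_insert_of_notMem,
      Finset.card_insert_of_notMem hb2.2, hD0c]
    · omega
    · simp [h12, hb1.2]
    · simp [h01, h02, hb0.2]
  have m0 : b0 ∈ B := by simp [hBdef]
  have m1 : b1 ∈ B := by simp [hBdef]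
  have m2 : b2 ∈ B := by simp [hBdef]
  have mD : ∀ e ∈ D0, e ∈ B := fun e he => by simp [hBdef, he]
  have hsub : ∀ b, B.erase b ⊆ S := fun b => (Finset.erase_subset _ _).trans hBS
  have hcard : ∀ b ∈ B, (B.erase b).card = k - 1 := fun b hb => by
    rw [Finset.card_erase_of_mem hb, hBc]
  have hne : ∀ b ∈ B, ev (p b) (D (B.erase b)) ≠ 0 := fun b hb =>
    H.ne _ (hsub b) (hcard b hb) b (Finset.mem_sdiff.mpr ⟨hBS hb, Finset.notMem_erase b B⟩)
  have hze : ∀ b ∈ B, ∀ e ∈ B, e ≠ b → ev (p e) (D (B.erase b)) = 0 := fun b hb e he hn =>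
    H.zero _ (hsub b) (hcard b hb) e (Finset.mem_erase.mpr ⟨hn, he⟩)
  obtain ⟨χ, hχ⟩ : ∃ χ : ι → K[X], ∀ b, χ b = C (ev (p b) (D (B.erase b)))⁻¹ * D (B.erase b) :=
    ⟨_, fun _ => rfl⟩
  have χdeg : ∀ b, (χ b).degree < k := fun b => by rw [hχ]; exact degree_C_mul_lt _ (H.deg _)
  have χself : ∀ b ∈ B, ev (p b) (χ b) = 1 := fun b hb => by
    rw [hχ, ev_C_mul, smul_eq_mul, inv_mul_cancel₀ (hne b hb)]
  have χzero : ∀ b ∈ B, ∀ e ∈ B, e ≠ b → ev (p e) (χ b) = 0 := fun b hb e he hn => by
    rw [hχ, ev_C_mul, hze b hb e he hn, smul_zero]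
  have nb0 : ∀ e ∈ D0, e ≠ b0 := fun e he h => hb0.2 (h ▸ he)
  have nb1 : ∀ e ∈ D0, e ≠ b1 := fun e he h => hb1.2 (h ▸ he)
  have nb2 : ∀ e ∈ D0, e ≠ b2 := fun e he h => hb2.2 (h ▸ he)
  -- every form vanishing on D0
  have hform : ∀ f : K[X], f.degree < k → (∀ e ∈ D0, ev (p e) f = 0) →
      f = C (ev (p b0) f) * χ b0 + C (ev (p b1) f) * χ b1 + C (ev (p b2) f) * χ b2 := by
    intro f hf hf0
    have h1 := H.interp_form (by omega) hBS hBc hf
    conv_lhs => rw [h1]
    rw [hBdef, Finset.sum_insert, Finset.sum_insert, Finset.sum_insert hb2.2]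
    · have h2 : ∑ b ∈ D0, C (ev (p b) f / ev (p b) (D ((insert b0 (insert b1 (insert b2 D0))).erase b))) *
          D ((insert b0 (insert b1 (insert b2 D0))).erase b) = 0 := by
        refine Finset.sum_eq_zero fun e he => ?_
        rw [hf0 e he, zero_div, C_0, zero_mul]
      rw [h2, ← hBdef]
      simp only [hχ, div_eq_mul_inv, C_mul]
      ring
    · simp [h12, hb1.2]
    · simp [h01, h02, hb0.2]
  let P : ι → Fin 3 → K := fun u => ![ev (p u) (χ b0), ev (p u) (χ b1), ev (p u) (χ b2)]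
  have hP0 : P b0 = ![1, 0, 0] := by
    simp only [P]
    rw [χself b0 m0, χzero b1 m1 b0 m0 h01, χzero b2 m2 b0 m0 h02]
  have hP1 : P b1 = ![0, 1, 0] := by
    simp only [P]
    rw [χself b1 m1, χzero b0 m0 b1 m1 h01.symm, χzero b2 m2 b1 m1 h12]
  have hP2 : P b2 = ![0, 0, 1] := by
    simp only [P]
    rw [χself b2 m2, χzero b0 m0 b2 m2 h02.symm, χzero b1 m1 b2 m2 h12.symm]
  have hPD : ∀ e ∈ D0, P e = ![0, 0, 0] := fun e he => by
    simp only [P]
    rw [χzero b0 m0 e (mD e he) (nb0 e he), χzero b1 m1 e (mD e he) (nb1 e he),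
      χzero b2 m2 e (mD e he) (nb2 e he)]
  have hthird : ∀ x ∈ S \ D0, ∀ y ∈ S \ D0, x ≠ y → ∃ t ∈ S \ D0, t ≠ x ∧ t ≠ y := by
    intro x hx y hy hxy
    by_contra hcon
    push Not at hcon
    have h1 : S \ D0 ⊆ {x, y} := by
      intro t ht
      rw [Finset.mem_insert, Finset.mem_singleton]
      by_cases h : t = x
      · exact Or.inl h
      · exact Or.inr (hcon t ht h)
    have h2 := Finset.card_le_card h1
    rw [Finset.card_pair hxy] at h2
    omega
  have hB'c : ∀ x ∈ S \ D0, ∀ y ∈ S \ D0, x ≠ y → (insert x (insert y D0)).card = k - 1 := by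
    intro x hx y hy hxy
    rw [Finset.mem_sdiff] at hx hy
    rw [Finset.card_insert_of_notMem, Finset.card_insert_of_notMem hy.2, hD0c]
    · omega
    · simp [hxy, hx.2]
  have hB'S : ∀ x ∈ S \ D0, ∀ y ∈ S \ D0, insert x (insert y D0) ⊆ S := by
    intro x hx y hy e he
    rw [Finset.mem_sdiff] at hx hy
    rw [Finset.mem_insert, Finset.mem_insert] at he
    rcases he with rfl | rfl | he
    · exact hx.1
    · exact hy.1
    · exact hD0 he
  -- values of a form vanishing on D0
  have hval : ∀ f : K[X], f.degree < k → (∀ e ∈ D0, ev (p e) f = 0) → ∀ u,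
      ev (p u) f = ev (p b0) f * P u 0 + ev (p b1) f * P u 1 + ev (p b2) f * P u 2 := by
    intro f hf hf0 u
    conv_lhs => rw [hform f hf hf0]
    rw [ev_add, ev_add, ev_C_mul, ev_C_mul, ev_C_mul]
    simp [P]
  have key : ∀ x y, ∃ a : K, x ∈ S \ D0 → y ∈ S \ D0 → x ≠ y → a ≠ 0 ∧
      ∀ u, ev (p u) (D (insert x (insert y D0))) = a * det3 (P x) (P y) (P u) := by
    intro x y
    by_cases hx : x ∈ S \ D0
    swap
    · exact ⟨0, fun h => absurd h hx⟩
    by_cases hy : y ∈ S \ D0
    swap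
    · exact ⟨0, fun _ h => absurd h hy⟩
    by_cases hxy : x = y
    · exact ⟨0, fun _ _ h => absurd hxy h⟩
    set c0 := P x 1 * P y 2 - P x 2 * P y 1 with hc0
    set c1 := P x 2 * P y 0 - P x 0 * P y 2 with hc1
    set c2 := P x 0 * P y 1 - P x 1 * P y 0 with hc2
    set Q : K[X] := C c0 * χ b0 + C c1 * χ b1 + C c2 * χ b2 with hQ
    have hQev : ∀ u, ev (p u) Q = det3 (P x) (P y) (P u) := by
      intro u
      rw [hQ, ev_add, ev_add, ev_C_mul, ev_C_mul, ev_C_mul]
      simp only [smul_eq_mul, det3, hc0, hc1, hc2]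
      simp only [P, Matrix.cons_val_zero, Matrix.cons_val_one, Matrix.cons_val]
      ring
    have hQdeg : Q.degree < k := by
      rw [hQ]
      refine lt_of_le_of_lt (degree_add_le _ _) (max_lt (lt_of_le_of_lt (degree_add_le _ _)
        (max_lt ?_ ?_)) ?_)
      · exact degree_C_mul_lt _ (χdeg b0)
      · exact degree_C_mul_lt _ (χdeg b1)
      · exact degree_C_mul_lt _ (χdeg b2)
    have hQ0 : ∀ e ∈ insert x (insert y D0), ev (p e) Q = 0 := by
      intro e he
      rw [hQev]
      rw [Finset.mem_insert, Finset.mem_insert] at he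
      rcases he with rfl | rfl | he
      · exact det3_self_left _ _
      · exact det3_self_right _ _
      · rw [hPD e he]; simp [det3]
    obtain ⟨a, ha⟩ := H.form_unique (by omega) hS (hB'S x hx y hy) (hB'c x hx y hy hxy) hQdeg hQ0
    have ha0 : a ≠ 0 := by
      rintro rfl
      rw [C_0, zero_mul] at ha
      have e0 : c0 = 0 := by
        have := hQev b0
        rw [ha, ev_zero, hP0] at this
        simp only [det3, Matrix.cons_val_zero, Matrix.cons_val_one, Matrix.cons_val] at this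
        rw [hc0]; linear_combination -this
      have e1 : c1 = 0 := by
        have := hQev b1
        rw [ha, ev_zero, hP1] at this
        simp only [det3, Matrix.cons_val_zero, Matrix.cons_val_one, Matrix.cons_val] at this
        rw [hc1]; linear_combination -this
      have e2 : c2 = 0 := by
        have := hQev b2
        rw [ha, ev_zero, hP2] at this
        simp only [det3, Matrix.cons_val_zero, Matrix.cons_val_one, Matrix.cons_val] at this
        rw [hc2]; linear_combination -this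
      obtain ⟨t, ht, htx, hty⟩ := hthird x hx y hy hxy
      -- forms fx, fy
      have hx' := Finset.mem_sdiff.mp hx
      have hy' := Finset.mem_sdiff.mp hy
      have ht' := Finset.mem_sdiff.mp ht
      set fx := D (insert x (insert t D0)) with hfx
      set fy := D (insert y (insert t D0)) with hfy
      have zx := H.zero _ (hB'S x hx t ht) (hB'c x hx t ht htx.symm)
      have zy := H.zero _ (hB'S y hy t ht) (hB'c y hy t ht hty.symm)
      have nx := H.ne _ (hB'S x hx t ht) (hB'c x hx t ht htx.symm) y (Finset.mem_sdiff.mpr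
        ⟨hy'.1, by simp [Ne.symm hxy, hty.symm, hy'.2]⟩)
      have ny := H.ne _ (hB'S y hy t ht) (hB'c y hy t ht hty.symm) x (Finset.mem_sdiff.mpr
        ⟨hx'.1, by simp [hxy, htx.symm, hx'.2]⟩)
      have zxx := zx x (by simp)
      have zyy := zy y (by simp)
      have vx := hval fx (H.deg _) (fun e he => zx e (by simp [he]))
      have vy := hval fy (H.deg _) (fun e he => zy e (by simp [he]))
      rw [← hfx] at zxx nx
      rw [← hfy] at zyy ny
      have a1 := vx x
      have a2 := vx y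
      have a3 := vy x
      rw [zxx] at a1
      set α0 := ev (p b0) fx
      set α1 := ev (p b1) fx
      set α2 := ev (p b2) fx
      have hPx : ∀ j, ev (p y) fx * P x j = 0 := by
        intro j
        rw [hc0] at e0
        rw [hc1] at e1
        rw [hc2] at e2
        rw [a2]
        fin_cases j
        · simp only [Fin.zero_eta]
          linear_combination (-P y 0) * a1 + α1 * e2 - α2 * e1
        · simp only [Fin.mk_one]
          linear_combination (-P y 1) * a1 - α0 * e2 + α2 * e0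
        · simp only [Fin.reduceFinMk]
          linear_combination (-P y 2) * a1 + α0 * e1 - α1 * e0
      have hPx0 : ∀ j, P x j = 0 := fun j => (mul_eq_zero.mp (hPx j)).resolve_left nx
      rw [hPx0 0, hPx0 1, hPx0 2] at a3
      exact ny (by rw [a3]; ring)
    refine ⟨a⁻¹, fun _ _ _ => ⟨inv_ne_zero ha0, fun u => ?_⟩⟩
    rw [← hQev u, ha, ev_C_mul, smul_eq_mul, inv_mul_cancel_left₀ ha0]
  choose Δ hΔ using key
  refine ⟨P, Δ, fun x hx y hy hxy => ?_⟩
  obtain ⟨h1, h2⟩ := hΔ x y hx hy hxy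
  obtain ⟨h3, h4⟩ := hΔ y x hy hx (Ne.symm hxy)
  refine ⟨h1, ?_, h2⟩
  obtain ⟨t, ht, htx, hty⟩ := hthird x hx y hy hxy
  have hx' := Finset.mem_sdiff.mp hx
  have hy' := Finset.mem_sdiff.mp hy
  have ht' := Finset.mem_sdiff.mp ht
  have h5 := h2 t
  have h6 := h4 t
  rw [Finset.insert_comm, h5, det3_swap (P x) (P y) (P t)] at h6
  have h7 := H.ne _ (hB'S x hx y hy) (hB'c x hx y hy hxy) t (Finset.mem_sdiff.mpr
    ⟨ht'.1, by simp [htx, hty, ht'.2]⟩)
  rw [h5] at h7
  have h8 : det3 (P x) (P y) (P t) ≠ 0 := right_ne_zero_of_mul h7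
  have h9 : (Δ y x + Δ x y) * det3 (P x) (P y) (P t) = 0 := by
    linear_combination h6
  have h10 := (mul_eq_zero.mp h9).resolve_right h8
  linear_combination h10

theorem pencil3 {a g h : Fin 3 → K} (hd : det3 a g h ≠ 0) {ψ : Fin 3 → K}
    (hψ : ∑ i, ψ i * a i = 0) : ∃ α β : K, ∀ u : Fin 3 → K,
      ∑ i, ψ i * u i = α * det3 a u g + β * det3 a u h := by
  refine ⟨-(∑ i, ψ i * h i) / det3 a g h, (∑ i, ψ i * g i) / det3 a g h, fun u => ?_⟩
  rw [div_mul_eq_mul_div, div_mul_eq_mul_div, ← add_div, eq_div_iff hd]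
  simp only [Fin.sum_univ_three] at hψ ⊢
  simp only [det3]
  linear_combination (u 0 * (g 1 * h 2 - g 2 * h 1) - u 1 * (g 0 * h 2 - g 2 * h 0) + u 2 * (g 0 * h 1 - g 1 * h 0)) * hψ

end

end Pool.Agent.Helper31.RN
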