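import Pool.Agent.Helper31.RN.S1
import Pool.Agent.Helper31.RN.Gcd
import Pool.Agent.Helper31.RN.OverL
import Pool.Agent.Helper31.RN.Desc

/-!
# RN-6D: `λ ≠ 0` gives `(X - ζ) b, (X - ζ)² b ∈ Ψ_A` (standard coordinates)

`ω e = c (insert e A) * (∏_{g ∈ S \ (A ∪ W)} ev (p g) (D (insert e A))) * δ e`, `h = hG S (A ∪ W) p D c` (`Sys.toL1`), so for `e ∈ W`
`h (insert e A) = C (ω e) * (C (ψ0.eval (s e)) * ψ1 - C (ψ1.eval (s e)) * ψ0)` (`Pen.form`, `ev_nu`). `seg` for `A`: `∑_{e ∈ W} h (insert e A) = 0`, so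
`C (∑ ω ψ0(s_e)) * ψ1 = C (∑ ω ψ1(s_e)) * ψ0`; `ev (p z)`: `∑ ω ψ0(s_e) = 0`, then (`ψ0 ≠ 0`) `∑ ω ψ1(s_e) = 0`. `z1_prod`: `EE ψ0 * ψ1 = EE ψ1 * ψ0`.
`ψ0.eval (s e) ≠ 0` (`Pen.ne0`). `htop`: `Pen.span`. So `exists_pole` gives `ζ, M`. `ζ ≠ s e` for `e ∈ W` (`ψ0(ζ) = 0`).
Let `L = AdjoinRoot ((X - C ζ)^(M+1))`, `a` its root. `a - s e = (ζ - s e) + (a - ζ)` is a unit (unit + nilpotent). Let `x₁ ≠ x₂` in `W`, `B = insert x₁
(insert x₂ A)`, `interp_vec` for `v = nu k a`: `ev v (D (B.erase b)) = aeval a (D (B.erase b))` (`ev_nu_alg`); for `b = x₁, x₂` it is zero: `D (insert x₂ A)`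
is a combination of `ψ0, ψ1` (`Pen.span`), divisible by `(X - ζ)^(M+1)`. So `nu k a = ∑_{y ∈ A} aeval a (R y) • bc L (p y)` with
`R y = C (ev (p y) (D (B.erase y)))⁻¹ * D (B.erase y)`. `exists_b` gives `b`. Its first equation: `∏ (s e' - a) = (-1)^{k+1} aeval a (∏ (X - C (s e')))`, so
`(X - C a)^2 * b = (-1)^{k+1} (C (aeval a (EE ψ0)) * ψ1 - C (aeval a (EE ψ1)) * ψ0)` (mapped to `L`); `EE ψi = (X - C ζ)^M * G_i`,
`(a - ζ)^M * aeval a G_i = (a - ζ)^M * G_i(ζ)`. So `hb` of `exists_b0` holds with `Φ = (-1)^{k+1} (C G_0(ζ) * ψ1 - C G_1(ζ) * ψ0)`, not zero since not both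
`G_i(ζ)` are zero and `ψ0, ψ1` are independent (`ev (p z)`), and `ev (p y) Φ = 0` for `y ∈ A`. So `b0 ≠ 0`, `(X - C ζ)^2 * b0 = Φ` has degree `< k`.
Let `F = {y ∈ A | (R y).eval ζ ≠ 0}`. `ev (p y) ((X - C ζ) * b0) = 0` for `y ∈ F`. `interp_vec` over `K` for `nu k ζ` and `B`: `nu k ζ = ∑_{y ∈ F} (R y)(ζ) • p y`, so
forms that vanish on `F` vanish at `ζ`. For `y ∈ A \ F` apply `s1` with `F`, `g = y`, `f = (X - C ζ)^2 * b0`; `f /ₘ (X - C ζ) = (X - C ζ) * b0`.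
-/

open Polynomial

namespace Pool.Agent.Helper31.RN

noncomputable section

variable {K : Type*} [Field K] {ι : Type*} [DecidableEq ι] {k : ℕ}

private theorem interp82 (hk : 2 ≤ k) {S A : Finset ι} {p : ι → Fin k → K} {D : Finset ι → K[X]}
    (H : GP k S p D) (hA : A ⊆ S) (hAc : A.card = k - 2) {x1 x2 : ι} (h1 : x1 ∈ S) (h2 : x2 ∈ S)
    (h1A : x1 ∉ A) (h2A : x2 ∉ A) (h12 : x1 ≠ x2) {L : Type*} [CommRing L] [Algebra K L] (a : L)
    (z1 : aeval a (D (insert x1 A)) = 0) (z2 : aeval a (D (insert x2 A)) = 0) :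
    ∑ y ∈ A, aeval a (C (ev (p y) (D ((insert x1 (insert x2 A)).erase y)))⁻¹ *
      D ((insert x1 (insert x2 A)).erase y)) • bc L (p y) = nu k a := by
  have hx1 : x1 ∉ insert x2 A := by
    rw [Finset.mem_insert, not_or]
    exact ⟨h12, h1A⟩
  have hB : insert x1 (insert x2 A) ⊆ S := Finset.insert_subset h1 (Finset.insert_subset h2 hA)
  have hBc : (insert x1 (insert x2 A)).card = k := by
    rw [Finset.card_insert_of_notMem hx1, Finset.card_insert_of_notMem h2A, hAc]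
    omega
  have e1 : (insert x1 (insert x2 A)).erase x1 = insert x2 A := Finset.erase_insert hx1
  have e2 : (insert x1 (insert x2 A)).erase x2 = insert x1 A := by
    rw [Finset.insert_comm]
    refine Finset.erase_insert ?_
    rw [Finset.mem_insert, not_or]
    exact ⟨h12.symm, h2A⟩
  have hint := H.interp_vec (by omega) hB hBc (nu k a)
  rw [Finset.sum_insert hx1, Finset.sum_insert h2A, e1, e2, ev_nu_alg _ _ (H.deg _), ev_nu_alg _ _ (H.deg _),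
    z1, z2, zero_mul, zero_mul, zero_smul, zero_smul, zero_add, zero_add] at hint
  rw [hint]
  refine Finset.sum_congr rfl fun y _ => ?_
  rw [ev_nu_alg _ _ (H.deg _), map_mul, aeval_C, mul_comm]

private theorem main82 {W : Finset ι} (hW : W.card = k + 2) {s ω : ι → K} {ψ0 ψ1 : K[X]}
    {hh : ι → K[X]} (hform : ∀ e ∈ W, hh e = C (ω e) * (C (ψ0.eval (s e)) * ψ1 - C (ψ1.eval (s e)) * ψ0))
    {L : Type*} [CommRing L] [Algebra K L] (a : L) :
    ∑ e ∈ W, C (∏ e' ∈ W.erase e, (algebraMap K L (s e') - a)) * (hh e).map (algebraMap K L) =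
      C ((-1) ^ (k + 1)) * (C (aeval a (EE W s ω ψ0)) * ψ1.map (algebraMap K L) -
        C (aeval a (EE W s ω ψ1)) * ψ0.map (algebraMap K L)) := by
  have hEE : ∀ ψ : K[X], aeval a (EE W s ω ψ) =
      ∑ e ∈ W, algebraMap K L (ω e * ψ.eval (s e)) * ∏ e' ∈ W.erase e, (a - algebraMap K L (s e')) := by
    intro ψ
    unfold EE
    rw [map_sum]
    refine Finset.sum_congr rfl fun e _ => ?_
    rw [map_mul, aeval_C, map_prod]
    congr 1
    refine Finset.prod_congr rfl fun e' _ => ?_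
    rw [map_sub, aeval_X, aeval_C]
  rw [hEE, hEE, map_sum, map_sum, Finset.sum_mul, Finset.sum_mul, ← Finset.sum_sub_distrib, Finset.mul_sum]
  refine Finset.sum_congr rfl fun e he => ?_
  have h1 : ∏ e' ∈ W.erase e, (algebraMap K L (s e') - a) =
      (-1) ^ (k + 1) * ∏ e' ∈ W.erase e, (a - algebraMap K L (s e')) := by
    have h2 : (W.erase e).card = k + 1 := by
      rw [Finset.card_erase_of_mem he, hW]
      omega
    rw [← h2, ← Finset.prod_const, ← Finset.prod_mul_distrib]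
    refine Finset.prod_congr rfl fun e' _ => ?_
    ring
  rw [h1, hform e he]
  simp only [Polynomial.map_mul, Polynomial.map_sub, map_C, map_mul]
  ring

omit [DecidableEq ι] in
private theorem eps82 {L : Type*} [CommRing L] [Algebra K L] {a : L} {ζ : K} {M : ℕ}
    (h0 : (a - algebraMap K L ζ) ^ (M + 1) = 0) (G : K[X]) :
    aeval a ((X - C ζ) ^ M * G) = (a - algebraMap K L ζ) ^ M * algebraMap K L (G.eval ζ) := by
  obtain ⟨g, hg⟩ : (X - C ζ) ∣ G - C (G.eval ζ) := by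
    rw [dvd_iff_isRoot]
    simp
  have h6 : G = C (G.eval ζ) + (X - C ζ) * g := by rw [← hg]; ring
  have h7 : aeval a G = algebraMap K L (G.eval ζ) + (a - algebraMap K L ζ) * aeval a g := by
    conv_lhs => rw [h6]
    simp
  rw [map_mul, map_pow, map_sub, aeval_X, aeval_C, h7, mul_add, ← mul_assoc, ← pow_succ, h0, zero_mul, add_zero]

omit [DecidableEq ι] in
private theorem eps0_82 (ζ : K) (M : ℕ) :
    (AdjoinRoot.root ((X - C ζ) ^ (M + 1) : K[X]) -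
      algebraMap K (AdjoinRoot ((X - C ζ) ^ (M + 1) : K[X])) ζ) ^ (M + 1) = 0 := by
  have h := AdjoinRoot.mk_self (f := ((X - C ζ) ^ (M + 1) : K[X]))
  rw [map_pow, map_sub, AdjoinRoot.mk_X, AdjoinRoot.mk_C] at h
  exact h

theorem pole_std [IsAlgClosed K] [Infinite K] (hk : 3 ≤ k) (hNZ : NZ K k) {S : Finset ι}
    {p : ι → Fin k → K} {D : Finset ι → K[X]} {c : Finset ι → K} (H : Sys k S p D c)
    (hS : 2 * k + 2 ≤ S.card) {A W : Finset ι} (hA : A ⊆ S) (hW : W ⊆ S) (hAW : Disjoint A W)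
    (hAc : A.card = k - 2) (hWc : W.card = k + 2) {s : ι → K} (hs : Set.InjOn s W)
    (hp : ∀ x ∈ W, p x = nu k (s x)) {z : ι} (hz : z ∈ S) (hzA : z ∉ A) (hzW : z ∉ W)
    {ψ0 ψ1 : K[X]} {δ : ι → K} (hP : Pen k S A p D z ψ0 ψ1 δ)
    (htop : ∃ f : K[X], f.degree < k ∧ (∀ a ∈ A, ev (p a) f = 0) ∧ f.coeff (k - 1) ≠ 0)
    (hlam : ∑ e ∈ W, (c (insert e A) * (∏ g ∈ S \ (A ∪ W), ev (p g) (D (insert e A))) * δ e) • p e
      ≠ 0) :
    ∃ (ζ : K) (b : K[X]), b ≠ 0 ∧ b.degree < (k - 2 : ℕ) ∧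
      (∀ y ∈ A, ev (p y) ((X - C ζ) * b) = 0) ∧ ∀ y ∈ A, ev (p y) ((X - C ζ) ^ 2 * b) = 0 := by
  classical
  have hk2 : 2 ≤ k := by omega
  have hk1 : 1 ≤ k := by omega
  have hGS : A ∪ W ⊆ S := Finset.union_subset hA hW
  have hGc : (A ∪ W).card = 2 * k := by
    rw [Finset.card_union_of_disjoint hAW, hAc, hWc]
    omega
  have hWA : ∀ e ∈ W, e ∉ A := fun e he hA' => Finset.disjoint_left.1 hAW hA' he
  have hWSA : ∀ e ∈ W, e ∈ S \ A := fun e he => Finset.mem_sdiff.2 ⟨hW he, hWA e he⟩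
  have hWz : ∀ e ∈ W, e ≠ z := fun e he h => hzW (h ▸ he)
  obtain ⟨ω, hω⟩ : ∃ ω : ι → K, ∀ e, ω e = c (insert e A) *
    (∏ g ∈ S \ (A ∪ W), ev (p g) (D (insert e A))) * δ e := ⟨_, fun _ => rfl⟩
  have H1 : L1 k (A ∪ W) p (hG S (A ∪ W) p D c) := H.toL1 hGS hGc
  have he0 : ∀ e ∈ W, ev (p e) ψ0 = ψ0.eval (s e) := fun e he => by rw [hp e he, ev_nu _ _ hP.deg0]
  have he1 : ∀ e ∈ W, ev (p e) ψ1 = ψ1.eval (s e) := fun e he => by rw [hp e he, ev_nu _ _ hP.deg1]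
  have hform : ∀ e ∈ W, hG S (A ∪ W) p D c (insert e A) =
      C (ω e) * (C (ψ0.eval (s e)) * ψ1 - C (ψ1.eval (s e)) * ψ0) := by
    intro e he
    unfold hG
    rw [hω e, ← he0 e he, ← he1 e he, C_mul (b := δ e)]
    conv_lhs => rw [hP.form e (hWSA e he)]
    have h1 := hP.form e (hWSA e he)
    rw [← h1]
    conv_rhs => rw [mul_assoc, ← h1]
  have hψ0 : ψ0 ≠ 0 := by
    obtain ⟨e, he⟩ : W.Nonempty := by
      rw [← Finset.card_pos, hWc]
      omega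
    rintro rfl
    exact hP.ne0 e (hWSA e he) (hWz e he) (ev_zero _)
  have hne0 : ∀ e ∈ W, ψ0.eval (s e) ≠ 0 := fun e he => by
    rw [← he0 e he]
    exact hP.ne0 e (hWSA e he) (hWz e he)
  have hsd : (A ∪ W) \ A = W := by
    rw [Finset.union_sdiff_left]
    exact Finset.sdiff_eq_self_of_disjoint hAW.symm
  have hseg := H1.seg A Finset.subset_union_left hAc
  rw [hsd, Finset.sum_congr rfl hform] at hseg
  have hseg2 : C (∑ e ∈ W, ω e * ψ0.eval (s e)) * ψ1 - C (∑ e ∈ W, ω e * ψ1.eval (s e)) * ψ0 = 0 := by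
    rw [← hseg, map_sum, map_sum, Finset.sum_mul, Finset.sum_mul, ← Finset.sum_sub_distrib]
    refine Finset.sum_congr rfl fun e _ => ?_
    rw [C_mul, C_mul]
    ring
  have hkey : ∀ α β : K, C α * ψ1 - C β * ψ0 = 0 → α = 0 ∧ β = 0 := by
    intro α β h
    have h1 : ev (p z) (C α * ψ1 - C β * ψ0) = 0 := by rw [h, ev_zero]
    rw [ev_sub, ev_C_mul, ev_C_mul, hP.z0, hP.z1, smul_zero, sub_zero, smul_eq_mul, mul_one] at h1
    subst h1
    rw [C_0, zero_mul, zero_sub, neg_eq_zero] at h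
    exact ⟨rfl, by simpa using (mul_eq_zero.1 h).resolve_right hψ0⟩
  obtain ⟨hα0, hα1⟩ := hkey _ _ hseg2
  have hEE : EE W s ω ψ0 * ψ1 = EE W s ω ψ1 * ψ0 := by
    have h1 := z1_prod hk2 hNZ hAW hAc hWc H1 hs hp
    rw [← sub_eq_zero, ← h1]
    unfold EE
    rw [Finset.sum_mul, Finset.sum_mul, ← Finset.sum_sub_distrib]
    refine Finset.sum_congr rfl fun e he => ?_
    rw [hform e he, C_mul, C_mul]
    ring
  have htop' : ψ0.coeff (k - 1) ≠ 0 ∨ ψ1.coeff (k - 1) ≠ 0 := by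
    obtain ⟨f, hf1, hf2, hf3⟩ := htop
    obtain ⟨α, β, hf⟩ := hP.span f hf1 hf2
    by_contra hcon
    push Not at hcon
    apply hf3
    rw [hf, coeff_add, coeff_C_mul, coeff_C_mul, hcon.1, hcon.2, mul_zero, mul_zero, add_zero]
  have hωne : ∑ e ∈ W, ω e • nu k (s e) ≠ 0 := by
    intro h
    apply hlam
    rw [← h]
    refine Finset.sum_congr rfl fun e he => ?_
    rw [hp e he, hω e]
  obtain ⟨ζ, M, hd0, hd1, hE0, hE1, hnot⟩ := exists_pole hk1 hWc hs hP.deg0 hP.deg1 htop'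
    (fun e he => Or.inl (hne0 e he)) hα0 hα1 hEE hωne
  obtain ⟨G0, hG0⟩ := hE0
  obtain ⟨G1, hG1⟩ := hE1
  have hroot : ∀ ψ : K[X], (X - C ζ) ^ (M + 1) ∣ ψ → ψ.eval ζ = 0 := by
    rintro _ ⟨g, rfl⟩
    rw [eval_mul, eval_pow, eval_sub, eval_X, eval_C, sub_self, pow_succ, mul_zero, zero_mul]
  have hζs : ∀ e ∈ W, ζ - s e ≠ 0 := by
    intro e he h
    apply hne0 e he
    rw [← sub_eq_zero.1 h]
    exact hroot _ hd0
  have hGne : ¬ (G0.eval ζ = 0 ∧ G1.eval ζ = 0) := by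
    rintro ⟨h0, h1⟩
    apply hnot
    rw [hG0, hG1, pow_succ]
    exact ⟨mul_dvd_mul_left _ (dvd_iff_isRoot.2 h0), mul_dvd_mul_left _ (dvd_iff_isRoot.2 h1)⟩
  -- two points of `W`
  obtain ⟨x1, hx1, x2, hx2, hx12⟩ := Finset.one_lt_card.1 (show 1 < W.card by omega)
  have hdiv : ∀ x ∈ W, ∀ {L : Type _} [CommRing L] [Algebra K L] (a : L), aeval a ψ0 = 0 → aeval a ψ1 = 0 →
      aeval a (D (insert x A)) = 0 := by
    intro x hx L _ _ a h0 h1
    rw [hP.form x (hWSA x hx), map_mul, map_sub, map_mul, map_mul, h0, h1, mul_zero, mul_zero, sub_zero, mul_zero]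
  obtain ⟨R, hR⟩ : ∃ R : ι → K[X], ∀ y, R y = C (ev (p y) (D ((insert x1 (insert x2 A)).erase y)))⁻¹ *
      D ((insert x1 (insert x2 A)).erase y) := ⟨_, fun _ => rfl⟩
  -- the algebra `L`
  have hua : ∀ x ∈ W, IsUnit (AdjoinRoot.root ((X - C ζ) ^ (M + 1) : K[X]) -
      algebraMap K (AdjoinRoot ((X - C ζ) ^ (M + 1) : K[X])) (s x)) := by
    intro x hx
    have h1 : IsNilpotent (AdjoinRoot.root ((X - C ζ) ^ (M + 1) : K[X]) -
        algebraMap K (AdjoinRoot ((X - C ζ) ^ (M + 1) : K[X])) ζ) := ⟨M + 1, eps0_82 ζ M⟩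
    have h2 : IsUnit (algebraMap K (AdjoinRoot ((X - C ζ) ^ (M + 1) : K[X])) (ζ - s x)) :=
      (Ne.isUnit (hζs x hx)).map _
    have h3 := h1.isUnit_add_left_of_commute h2 (Commute.all _ _)
    have h4 : AdjoinRoot.root ((X - C ζ) ^ (M + 1) : K[X]) -
        algebraMap K (AdjoinRoot ((X - C ζ) ^ (M + 1) : K[X])) (s x) =
        algebraMap K (AdjoinRoot ((X - C ζ) ^ (M + 1) : K[X])) (ζ - s x) +
        (AdjoinRoot.root ((X - C ζ) ^ (M + 1) : K[X]) -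
        algebraMap K (AdjoinRoot ((X - C ζ) ^ (M + 1) : K[X])) ζ) := by
      rw [map_sub]
      ring
    rw [h4]
    exact h3
  have hra : ∑ y ∈ A, (fun y => aeval (AdjoinRoot.root ((X - C ζ) ^ (M + 1) : K[X])) (R y)) y •
      bc (AdjoinRoot ((X - C ζ) ^ (M + 1) : K[X])) (p y) = nu k (AdjoinRoot.root ((X - C ζ) ^ (M + 1) : K[X])) := by
    have hr1 : ∀ ψ : K[X], (X - C ζ) ^ (M + 1) ∣ ψ →
        aeval (AdjoinRoot.root ((X - C ζ) ^ (M + 1) : K[X])) ψ = 0 := by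
      intro ψ hψ
      rw [AdjoinRoot.aeval_eq]
      exact AdjoinRoot.mk_eq_zero.2 hψ
    have h5 := interp82 hk2 H.toGP hA hAc (hW hx1) (hW hx2) (hWA x1 hx1) (hWA x2 hx2) hx12
      (AdjoinRoot.root ((X - C ζ) ^ (M + 1) : K[X])) (hdiv x1 hx1 _ (hr1 _ hd0) (hr1 _ hd1))
      (hdiv x2 hx2 _ (hr1 _ hd0) (hr1 _ hd1))
    rw [← h5]
    refine Finset.sum_congr rfl fun y _ => ?_
    simp only [hR y]
  obtain ⟨b, hb1, hb2, hb3, hb4⟩ := exists_b (L := AdjoinRoot ((X - C ζ) ^ (M + 1) : K[X])) hk hNZ hAW hAc hWc H1 hs hp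
    hua hra
  obtain ⟨Φ, hΦ⟩ : ∃ Φ : K[X], Φ = C ((-1) ^ (k + 1)) * (C (G0.eval ζ) * ψ1 - C (G1.eval ζ) * ψ0) := ⟨_, rfl⟩
  obtain ⟨b0, hb01, hb02⟩ := exists_b0 (A := A) (p := p) (Φ := Φ) b (by
    rw [← hb2, main82 hWc hform, hG0, hG1, eps82 (eps0_82 ζ M), eps82 (eps0_82 ζ M), hΦ]
    simp only [Polynomial.map_mul, Polynomial.map_sub, map_C, map_mul, map_pow, map_neg, map_one,
      Polynomial.map_pow, Polynomial.map_neg, Polynomial.map_one]
    ring) R hb4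
  have hΦne : Φ ≠ 0 := by
    intro h
    rw [hΦ] at h
    have h1 : (C ((-1 : K) ^ (k + 1)) : K[X]) ≠ 0 := by
      rw [Ne, C_eq_zero]
      exact pow_ne_zero _ (neg_ne_zero.2 one_ne_zero)
    exact hGne (hkey _ _ ((mul_eq_zero.1 h).resolve_left h1))
  have hΦdeg : Φ.degree < k := by
    rw [hΦ]
    refine degree_C_mul_lt _ (lt_of_le_of_lt (degree_sub_le _ _) (max_lt ?_ ?_))
    · exact degree_C_mul_lt _ hP.deg1
    · exact degree_C_mul_lt _ hP.deg0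
  have hΦA : ∀ y ∈ A, ev (p y) Φ = 0 := by
    intro y hy
    rw [hΦ, ev_C_mul, ev_sub, ev_C_mul, ev_C_mul, hP.zero0 y hy, hP.zero1 y hy, smul_zero, smul_zero, sub_zero,
      smul_zero]
  have hb0 : b0 ≠ 0 := by
    rintro rfl
    rw [mul_zero] at hb01
    exact hΦne hb01.symm
  refine ⟨ζ, b0, hb0, ?_, ?_, ?_⟩
  · rw [← hb01, degree_mul, degree_pow, degree_X_sub_C, degree_eq_natDegree hb0] at hΦdeg
    rw [degree_eq_natDegree hb0]
    have h1 : 2 + b0.natDegree < k := by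
      have h2 : (2 : ℕ) • (1 : WithBot ℕ) + (b0.natDegree : WithBot ℕ) = ((2 + b0.natDegree : ℕ) : WithBot ℕ) := by
        push_cast
        norm_num
      rw [h2] at hΦdeg
      exact_mod_cast hΦdeg
    exact_mod_cast (by omega : b0.natDegree < k - 2)
  · intro y hy
    by_cases hyF : (R y).eval ζ = 0
    · have hz := interp82 hk2 H.toGP hA hAc (hW hx1) (hW hx2) (hWA x1 hx1) (hWA x2 hx2) hx12 ζ
        (hdiv x1 hx1 ζ (by rw [coe_aeval_eq_eval]; exact hroot _ hd0) (by rw [coe_aeval_eq_eval]; exact hroot _ hd1))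
        (hdiv x2 hx2 ζ (by rw [coe_aeval_eq_eval]; exact hroot _ hd0) (by rw [coe_aeval_eq_eval]; exact hroot _ hd1))
      have h1 := s1 hk hNZ H hS (F := A.filter fun y => (R y).eval ζ ≠ 0)
        ((Finset.filter_subset _ _).trans hA) hW (hAW.mono_left (Finset.filter_subset _ _)) hWc
        ((Finset.card_le_card (Finset.filter_subset _ _)).trans hAc.le) hs hp (ζ := ζ) ?_ (hA hy)
        (fun h => (Finset.mem_filter.1 h).2 hyF) (fun h => hWA y h hy) (f := Φ) hΦdeg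
        (fun a ha => hΦA a (Finset.mem_filter.1 ha).1) (hΦA y hy)
      · rw [← hb01, pow_two, mul_assoc, mul_divByMonic_cancel_left _ (monic_X_sub_C ζ)] at h1
        exact h1
      · intro f hf hfF
        rw [← ev_nu ζ f hf, ← hz, ev_sum_vec]
        refine Finset.sum_eq_zero fun y' hy' => ?_
        rw [ev_smul_vec, ← hR y', coe_aeval_eq_eval]
        by_cases h2 : (R y').eval ζ = 0
        · rw [h2, zero_mul]
        · have h3 : bc K (p y') = p y' := by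
            ext i
            simp [bc]
          rw [h3, hfF y' (Finset.mem_filter.2 ⟨hy', h2⟩), mul_zero]
    · exact (mul_eq_zero.1 (hb02 y hy)).resolve_left hyF
  · intro y hy
    rw [hb01]
    exact hΦA y hy

end

end Pool.Agent.Helper31.RN
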