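import Pool.Agent.Helper31.RN.Plane

/-!
# RN-8E: the relations in the plane if all `λ` are zero

`Y` has `k+4` elements, disjoint from `D0`, `Y ∪ D0 ⊆ S`. `wY x y = c (insert x (insert y D0)) * (∏_{g ∈ S \ (D0 ∪ Y)} ev (p g) (D (insert x (insert y D0)))) * Δ x y ^ 2`.
For `g ∈ Y`, `g ≠ b`: `A = insert b D0`, `W = (Y.erase b).erase g` (`k+2` elements), `z = g`, `Pen` from `exists_pen` (`ψ0 = D (insert g A)`, `S \ (A ∪ W) = insert g (S \ (D0 ∪ Y))`).
`ev (p g) (D (insert e A)) = δ e * ev (p e) ψ0` (`Pen.form`, `z0`, `z1`), i.e. `Δ e b * det3 (P e) (P b) (P g) = δ e * Δ g b * det3 (P g) (P b) (P e)`, so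
`δ e = Δ b e / Δ g b`. So the coefficient of `p e` in `h0` is `wY b e * det3 (P b) (P e) (P g) / Δ g b`; the terms `e = g` and `e = b` of
`∑_{e ∈ Y.erase b} (wY b e * det3 (P b) (P e) (P g)) • p e` are zero/absent. Hence this sum is zero for all `g ∈ Y`, `g ≠ b`. For a general `ψ` with `ψ(P b) = 0` use `pencil3` with two such `g`
(`det3 (P b) (P g) (P g') ≠ 0` from `exists_plane` and `GP.ne`).
-/

open Polynomial

namespace Pool.Agent.Helper31.RN

noncomputable section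

variable {K : Type*} [Field K] {ι : Type*} [DecidableEq ι] {k : ℕ}

/-- the weights in the plane -/
def wY (S : Finset ι) (p : ι → Fin k → K) (D : Finset ι → K[X]) (c : Finset ι → K)
    (D0 Y : Finset ι) (Δ : ι → ι → K) (x y : ι) : K :=
  c (insert x (insert y D0)) * (∏ g ∈ S \ (D0 ∪ Y), ev (p g) (D (insert x (insert y D0)))) *
    Δ x y ^ 2

/-- all `λ` are zero -/
def LamZero (k : ℕ) (S : Finset ι) (p : ι → Fin k → K) (D : Finset ι → K[X])
    (c : Finset ι → K) : Prop :=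
  ∀ (A W : Finset ι) (z : ι) (ψ0 ψ1 : K[X]) (δ : ι → K), A ⊆ S → W ⊆ S → Disjoint A W →
    A.card = k - 2 → W.card = k + 2 → z ∈ S → z ∉ A → z ∉ W → Pen k S A p D z ψ0 ψ1 δ →
    ∑ e ∈ W, (c (insert e A) * (∏ g ∈ S \ (A ∪ W), ev (p g) (D (insert e A))) * δ e) • p e = 0

private theorem rel_aux (hk : 3 ≤ k) {S : Finset ι} {p : ι → Fin k → K} {D : Finset ι → K[X]}
    {c : Finset ι → K} (H : Sys k S p D c) (h0 : LamZero k S p D c) {D0 Y : Finset ι}
    (hD0 : D0 ⊆ S) (hY : Y ⊆ S) (hDY : Disjoint D0 Y) (hD0c : D0.card = k - 3)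
    (hYc : Y.card = k + 4) {P : ι → Fin 3 → K} {Δ : ι → ι → K}
    (hΔ : ∀ x ∈ S \ D0, ∀ y ∈ S \ D0, x ≠ y → Δ x y ≠ 0 ∧ Δ y x = - Δ x y ∧
        ∀ u, ev (p u) (D (insert x (insert y D0))) = Δ x y * det3 (P x) (P y) (P u))
    {b : ι} (hb : b ∈ Y) {g : ι} (hg : g ∈ Y) (hgb : g ≠ b) :
    ∑ e ∈ Y.erase b, (wY S p D c D0 Y Δ b e * det3 (P b) (P e) (P g)) • p e = 0 := by
  have hnD : ∀ y ∈ Y, y ∉ D0 := fun y hy hy' => Finset.disjoint_left.1 hDY hy' hy
  have hSD : ∀ y ∈ Y, y ∈ S \ D0 := fun y hy => Finset.mem_sdiff.2 ⟨hY hy, hnD y hy⟩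
  have hScard : k ≤ S.card := by
    have := Finset.card_le_card hY
    omega
  have hA : insert b D0 ⊆ S := Finset.insert_subset (hY hb) hD0
  have hAc : (insert b D0).card = k - 2 := by
    rw [Finset.card_insert_of_notMem (hnD b hb), hD0c]
    omega
  have hgA : g ∉ insert b D0 := by
    rw [Finset.mem_insert, not_or]
    exact ⟨hgb, hnD g hg⟩
  have hgYb : g ∈ Y.erase b := Finset.mem_erase.2 ⟨hgb, hg⟩
  obtain ⟨ψ1, δ, hP⟩ := H.toGP.exists_pen (by omega) hScard hA hAc (hY hg) hgA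
  have hW : (Y.erase b).erase g ⊆ S := ((Finset.erase_subset _ _).trans (Finset.erase_subset _ _)).trans hY
  have hWc : ((Y.erase b).erase g).card = k + 2 := by
    rw [Finset.card_erase_of_mem hgYb, Finset.card_erase_of_mem hb, hYc]
    omega
  have hdis : Disjoint (insert b D0) ((Y.erase b).erase g) := by
    rw [Finset.disjoint_left]
    intro x hx hx'
    rw [Finset.mem_erase, Finset.mem_erase] at hx'
    rcases Finset.mem_insert.1 hx with h | h
    · exact hx'.2.1 h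
    · exact hnD x hx'.2.2 h
  have hsum := h0 (insert b D0) ((Y.erase b).erase g) g (D (insert g (insert b D0))) ψ1 δ hA hW hdis hAc hWc
    (hY hg) hgA (Finset.notMem_erase _ _) hP
  have hset : S \ (insert b D0 ∪ (Y.erase b).erase g) = insert g (S \ (D0 ∪ Y)) := by
    ext x
    simp only [Finset.mem_sdiff, Finset.mem_union, Finset.mem_insert, Finset.mem_erase]
    constructor
    · rintro ⟨h1, h2⟩
      rw [not_or, not_or] at h2
      by_cases hxg : x = g
      · exact Or.inl hxg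
      · right
        refine ⟨h1, ?_⟩
        rintro (h3 | h3)
        · exact h2.1.2 h3
        · exact h2.2 ⟨hxg, h2.1.1, h3⟩
    · rintro (h1 | ⟨h1, h2⟩)
      · rw [h1]
        refine ⟨hY hg, ?_⟩
        rintro ((h3 | h3) | h3)
        · exact hgb h3
        · exact hnD g hg h3
        · exact h3.1 rfl
      · rw [not_or] at h2
        refine ⟨h1, ?_⟩
        rintro ((h3 | h3) | h3)
        · rw [h3] at h2
          exact h2.2 hb
        · exact h2.1 h3
        · exact h2.2 h3.2.2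
  have hgn : g ∉ S \ (D0 ∪ Y) := by
    rw [Finset.mem_sdiff, Finset.mem_union]
    rintro ⟨_, h2⟩
    exact h2 (Or.inr hg)
  rw [hset] at hsum
  have hgb' := hΔ g (hSD g hg) b (hSD b hb) hgb
  have hcoef : ∀ e ∈ (Y.erase b).erase g,
      (wY S p D c D0 Y Δ b e * det3 (P b) (P e) (P g)) • p e =
        Δ g b • ((c (insert e (insert b D0)) * (∏ g' ∈ insert g (S \ (D0 ∪ Y)), ev (p g') (D (insert e (insert b D0)))) * δ e) • p e) := by
    intro e he
    rw [Finset.mem_erase, Finset.mem_erase] at he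
    obtain ⟨heg, heb, heY⟩ := he
    have heb' := hΔ e (hSD e heY) b (hSD b hb) heb
    have hbe' := hΔ b (hSD b hb) e (hSD e heY) (Ne.symm heb)
    have heA : e ∈ S \ insert b D0 := by
      rw [Finset.mem_sdiff, Finset.mem_insert, not_or]
      exact ⟨hY heY, heb, hnD e heY⟩
    have h1 : ev (p g) (D (insert e (insert b D0))) = δ e * ev (p e) (D (insert g (insert b D0))) := by
      conv_lhs => rw [hP.form e heA]
      rw [ev_C_mul, ev_sub, ev_C_mul, ev_C_mul, hP.z1, hP.z0]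
      simp only [smul_eq_mul]
      ring
    have h2 := hP.ne0 e heA heg
    have h3 := heb'.2.2 g
    have h4 := hgb'.2.2 e
    rw [h4] at h2
    rw [h3, h4] at h1
    have h5 : det3 (P g) (P b) (P e) ≠ 0 := fun h => h2 (by rw [h, mul_zero])
    have h6 : δ e * Δ g b = Δ b e := by
      have h7 : det3 (P e) (P b) (P g) = - det3 (P g) (P b) (P e) := by
        unfold det3
        ring
      rw [h7, hbe'.2.1] at h1
      apply mul_right_cancel₀ h5
      linear_combination -h1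
    rw [smul_smul]
    congr 1
    rw [Finset.prod_insert hgn, h3, Finset.insert_comm e b D0]
    unfold wY
    have h8 : det3 (P e) (P b) (P g) = - det3 (P b) (P e) (P g) := by
      unfold det3
      ring
    rw [h8, hbe'.2.1]
    linear_combination (-(c (insert b (insert e D0))) * (∏ g' ∈ S \ (D0 ∪ Y), ev (p g') (D (insert b (insert e D0)))) *
      Δ b e * det3 (P b) (P e) (P g)) * h6
  rw [← Finset.sum_erase_add _ _ hgYb, Finset.sum_congr rfl hcoef, ← Finset.smul_sum, hsum, smul_zero, zero_add]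
  have h9 : det3 (P b) (P g) (P g) = 0 := by
    unfold det3
    ring
  rw [h9, mul_zero, zero_smul]

theorem rel_plane (hk : 3 ≤ k) {S : Finset ι} {p : ι → Fin k → K} {D : Finset ι → K[X]}
    {c : Finset ι → K} (H : Sys k S p D c) (h0 : LamZero k S p D c) {D0 Y : Finset ι}
    (hD0 : D0 ⊆ S) (hY : Y ⊆ S) (hDY : Disjoint D0 Y) (hD0c : D0.card = k - 3)
    (hYc : Y.card = k + 4) {P : ι → Fin 3 → K} {Δ : ι → ι → K}
    (hΔ : ∀ x ∈ S \ D0, ∀ y ∈ S \ D0, x ≠ y → Δ x y ≠ 0 ∧ Δ y x = - Δ x y ∧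
        ∀ u, ev (p u) (D (insert x (insert y D0))) = Δ x y * det3 (P x) (P y) (P u))
    {b : ι} (hb : b ∈ Y) {ψ : Fin 3 → K} (hψ : ∑ i, ψ i * P b i = 0) :
    ∑ e ∈ Y.erase b, (wY S p D c D0 Y Δ b e * ∑ i, ψ i * P e i) • p e = 0 := by
  have hnD : ∀ y ∈ Y, y ∉ D0 := fun y hy hy' => Finset.disjoint_left.1 hDY hy' hy
  have hSD : ∀ y ∈ Y, y ∈ S \ D0 := fun y hy => Finset.mem_sdiff.2 ⟨hY hy, hnD y hy⟩
  obtain ⟨g, hg, g', hg', hgg⟩ : ∃ g ∈ Y.erase b, ∃ g' ∈ Y.erase b, g ≠ g' := by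
    apply Finset.one_lt_card.1
    rw [Finset.card_erase_of_mem hb, hYc]
    omega
  rw [Finset.mem_erase] at hg hg'
  have hbg := hΔ b (hSD b hb) g (hSD g hg.2) (Ne.symm hg.1)
  have hd : det3 (P b) (P g) (P g') ≠ 0 := by
    intro h
    have h1 := hbg.2.2 g'
    rw [h, mul_zero] at h1
    refine H.ne (insert b (insert g D0)) ?_ ?_ g' ?_ h1
    · exact Finset.insert_subset (hY hb) (Finset.insert_subset (hY hg.2) hD0)
    · rw [Finset.card_insert_of_notMem, Finset.card_insert_of_notMem (hnD g hg.2), hD0c]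
      · omega
      · rw [Finset.mem_insert, not_or]
        exact ⟨Ne.symm hg.1, hnD b hb⟩
    · rw [Finset.mem_sdiff, Finset.mem_insert, Finset.mem_insert, not_or, not_or]
      exact ⟨hY hg'.2, hg'.1, Ne.symm hgg, hnD g' hg'.2⟩
  obtain ⟨α, β, hαβ⟩ := pencil3 hd hψ
  have e1 := rel_aux hk H h0 hD0 hY hDY hD0c hYc hΔ hb hg.2 hg.1
  have e2 := rel_aux hk H h0 hD0 hY hDY hD0c hYc hΔ hb hg'.2 hg'.1
  calc ∑ e ∈ Y.erase b, (wY S p D c D0 Y Δ b e * ∑ i, ψ i * P e i) • p e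
      = α • ∑ e ∈ Y.erase b, (wY S p D c D0 Y Δ b e * det3 (P b) (P e) (P g)) • p e +
        β • ∑ e ∈ Y.erase b, (wY S p D c D0 Y Δ b e * det3 (P b) (P e) (P g')) • p e := by
        rw [Finset.smul_sum, Finset.smul_sum, ← Finset.sum_add_distrib]
        refine Finset.sum_congr rfl fun e _ => ?_
        rw [hαβ (P e), smul_smul, smul_smul, ← add_smul]
        congr 1
        ring
    _ = 0 := by rw [e1, e2, smul_zero, smul_zero, add_zero]

end

end Pool.Agent.Helper31.RN
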