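import Pool.Agent.Helper31.RN.Star

/-!
# RN-4: (S1)

`δ = k-1-|F| ≥ 1`. Choose `Y ⊆ S \ (W ∪ F ∪ {g})`, `|Y| = δ` (possible: `|S| - (k+2) - |F| - 1 ≥ δ`). `B = insert g (F ∪ Y)` has `k`
elements. For `z ∈ Y` let `A_z = F ∪ Y.erase z` (`k-2` elements, disjoint from `W`, `g ∉ A_z`), `S_z = insert g (A_z ∪ W) ⊆ S`;
`star` for `Sys.restrict` to `S_z` gives `ev (p g) (D (insert g A_z) /ₘ (X - C ζ)) = 0` (forms vanishing on `A_z` vanish on `F`, so at
`ζ`), and `insert g A_z = B.erase z`. By `interp_form` (`B`): `h = ∑_{b ∈ B} C(..) * D (B.erase b)`, the terms `b ∈ insert g F` are zero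
since `ev (p b) h = 0`; `/ₘ (X - C ζ)` is linear (`Polynomial.add_divByMonic`, `smul_divByMonic`, or `Polynomial.divModByMonic` API).
-/

open Polynomial

namespace Pool.Agent.Helper31.RN

noncomputable section

variable {K : Type*} [Field K] {ι : Type*} [DecidableEq ι] {k : ℕ}

private theorem h28_mul_div (f : K[X]) (ζ : K) : (X - C ζ) * (f /ₘ (X - C ζ)) = f - C (f.eval ζ) := by
  have h := modByMonic_add_div f (X - C ζ)
  rw [modByMonic_X_sub_C_eq_C_eval] at h
  exact eq_sub_of_add_eq' h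

private theorem h28_div_sum {α : Type*} (t : Finset α) (a : α → K) (f : α → K[X]) (ζ : K) :
    (∑ i ∈ t, C (a i) * f i) /ₘ (X - C ζ) = ∑ i ∈ t, C (a i) * (f i /ₘ (X - C ζ)) := by
  refine mul_left_cancel₀ (X_sub_C_ne_zero ζ) ?_
  rw [h28_mul_div, Finset.mul_sum, eval_finsetSum, map_sum, ← Finset.sum_sub_distrib]
  refine Finset.sum_congr rfl fun i _ => ?_
  rw [mul_left_comm, h28_mul_div, eval_mul, eval_C, C_mul]
  ring

theorem s1 [Infinite K] (hk : 3 ≤ k) (hNZ : NZ K k) {S : Finset ι} {p : ι → Fin k → K}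
    {D : Finset ι → K[X]} {c : Finset ι → K} (H : Sys k S p D c) (hS : 2 * k + 2 ≤ S.card)
    {F W : Finset ι} (hF : F ⊆ S) (hW : W ⊆ S) (hFW : Disjoint F W) (hWc : W.card = k + 2)
    (hFc : F.card ≤ k - 2) {s : ι → K} (hs : Set.InjOn s W) (hp : ∀ x ∈ W, p x = nu k (s x))
    {ζ : K} (hζ : ∀ f : K[X], f.degree < k → (∀ a ∈ F, ev (p a) f = 0) → f.eval ζ = 0) {g : ι}
    (hg : g ∈ S) (hgF : g ∉ F) (hgW : g ∉ W) {f : K[X]} (hf : f.degree < k)
    (hfF : ∀ a ∈ F, ev (p a) f = 0) (hfg : ev (p g) f = 0) :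
    ev (p g) (f /ₘ (X - C ζ)) = 0 := by
  classical
  have hcard : k - 1 - F.card ≤ (S \ insert g (W ∪ F)).card := by
    have h1 : (insert g (W ∪ F)).card ≤ (W.card + F.card) + 1 :=
      (Finset.card_insert_le _ _).trans (Nat.add_le_add_right (Finset.card_union_le _ _) 1)
    have h2 := Finset.le_card_sdiff (insert g (W ∪ F)) S
    omega
  obtain ⟨Y, hYs, hYc⟩ := Finset.exists_subset_card_eq hcard
  have hYS : Y ⊆ S := fun x hx => (Finset.mem_sdiff.mp (hYs hx)).1
  have hYn : ∀ x ∈ Y, x ≠ g ∧ x ∉ W ∧ x ∉ F := by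
    intro x hx
    have h := (Finset.mem_sdiff.mp (hYs hx)).2
    simp only [Finset.mem_insert, Finset.mem_union, not_or] at h
    exact ⟨h.1, h.2.1, h.2.2⟩
  have hFY : Disjoint F Y := Finset.disjoint_left.mpr fun x hx hy => (hYn x hy).2.2 hx
  have hgY : g ∉ Y := fun h => (hYn g h).1 rfl
  have hgFY : g ∉ F ∪ Y := by
    simp only [Finset.mem_union, not_or]
    exact ⟨hgF, hgY⟩
  have hBS : insert g (F ∪ Y) ⊆ S := by
    intro x hx
    simp only [Finset.mem_insert, Finset.mem_union] at hx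
    rcases hx with rfl | hx | hx
    · exact hg
    · exact hF hx
    · exact hYS hx
  have hBc : (insert g (F ∪ Y)).card = k := by
    rw [Finset.card_insert_of_notMem hgFY, Finset.card_union_of_disjoint hFY, hYc]
    omega
  have hint := GP.interp_form (by omega) H.toGP hBS hBc hf
  rw [hint, h28_div_sum, ev_sum]
  refine Finset.sum_eq_zero fun b hb => ?_
  rw [ev_C_mul]
  simp only [Finset.mem_insert, Finset.mem_union] at hb
  rcases hb with rfl | hb | hb
  · rw [hfg, zero_div, zero_smul]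
  · rw [hfF b hb, zero_div, zero_smul]
  · have hbn := hYn b hb
    have hbF : b ∉ F := hbn.2.2
    have hA1 : (insert g (F ∪ Y)).erase b = insert g (F ∪ Y.erase b) := by
      ext x
      simp only [Finset.mem_erase, Finset.mem_insert, Finset.mem_union]
      constructor
      · rintro ⟨h1, h2 | h2 | h2⟩
        · exact Or.inl h2
        · exact Or.inr (Or.inl h2)
        · exact Or.inr (Or.inr ⟨h1, h2⟩)
      · rintro (h2 | h2 | ⟨h1, h2⟩)
        · exact ⟨fun h => hbn.1 (h.symm.trans h2), Or.inl h2⟩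
        · exact ⟨fun h => hbF (h ▸ h2), Or.inr (Or.inl h2)⟩
        · exact ⟨h1, Or.inr (Or.inr h2)⟩
    rw [hA1]
    have hAc : (F ∪ Y.erase b).card = k - 2 := by
      rw [Finset.card_union_of_disjoint (hFY.mono_right (Finset.erase_subset _ _)),
        Finset.card_erase_of_mem hb, hYc]
      omega
    have hAW : Disjoint (F ∪ Y.erase b) W := by
      rw [Finset.disjoint_union_left]
      refine ⟨hFW, Finset.disjoint_left.mpr fun x hx hw => ?_⟩
      exact (hYn x (Finset.mem_of_mem_erase hx)).2.1 hw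
    have hgA : g ∉ F ∪ Y.erase b := by
      simp only [Finset.mem_union, not_or]
      exact ⟨hgF, fun h => hgY (Finset.mem_of_mem_erase h)⟩
    have hsub : insert g ((F ∪ Y.erase b) ∪ W) ⊆ S := by
      intro x hx
      simp only [Finset.mem_insert, Finset.mem_union] at hx
      rcases hx with rfl | (hx | hx) | hx
      · exact hg
      · exact hF hx
      · exact hYS (Finset.mem_of_mem_erase hx)
      · exact hW hx
    have h := star hk hNZ hAW hgA hgW hAc hWc (H.restrict hsub) hs hp (ζ := ζ)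
      (fun f hf0 hz => hζ f hf0 fun a ha => hz a (Finset.mem_union_left _ ha))
    rw [h, smul_zero]

end

end Pool.Agent.Helper31.RN
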