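import Pool.Agent.Helper31.RN.Z1
import Pool.Agent.Helper31.RN.B1
import Pool.Agent.Helper31.RN.Lin

/-!
# RN-3: the identity (**)

`S = insert y (A ∪ W)`, `|S| = 2k+1`, `p x = nu k (s x)` on `W`, `z` a common root of all forms vanishing on `A`
(called `ζ`). Notation: `κ_e = kap W s e`, `ψ = D (insert y A)`, `w = c (insert y A) ≠ 0`. `ζ ≠ s x` for `x ∈ W` since
`ψ(s x) = ev (p x) ψ ≠ 0` but `ψ(ζ) = 0`. The `p x`, `x ∈ W`, span `K^k`, so there is `g : ι → K` with
`p y = - ∑_{e ∈ W} (κ_e g_e) • p e` (`interp_vec` with a `k`-subset of `W`, other `g_e = 0`).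
Let `h_e = C (c (insert e A) * ev (p y) (D (insert e A))) * D (insert e A)` (`e ∈ W`): these are the forms of the level one system on
`S.erase y = A ∪ W` (`Sys.toL1`, `S \ G = {y}`), and `h_e(s_e) = 0`, `h_e(ζ) = 0`. Put `q_e = h_e /ₘ (X - C (s e))`,
`Λ = ∑_{e ∈ W} C (g e) * q_e`, degree `< k`.
(1) `∑_{e ∈ W} q_e = 0` (`z1`).
(2) For `x ∈ W`: `Λ(s x) = w ψ(s x) ∑_{e ∈ W.erase x} κ_e (g_e - g_x)² (s_e - s_x)⁻¹ ψ(s e)`.
Proof: by (1) `Λ(s x) = ∑_{e ≠ x} (g_e - g_x) q_e(s x)`, `q_e(s x) = h_e(s x)/(s x - s e)`. Now use `b1` with `U = W.erase x`, distinguished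
point `y`, the level one system on `S.erase x = A ∪ insert y U` (`S \ G = {x}`):
`h'_B = C (c B * ev (p x) (D B)) * D B`, and `c_e = κ_e (s_e - s_x)`, `m_e = κ_e (g_e - g_x)`:
`∑_U c_e p_e = 0` and `∑_U m_e p_e + p_y = 0` by `sum_kap_nu` (the term `e = x` is zero). Note
`ev (p y) (h'_{insert e A}) = c_{A+e} D_{A+e}(x) D_{A+e}(y) = h_e(s x)`, `(m_e/c_e) = (g_e-g_x)/(s_e-s_x)`,
`m_e²/c_e = κ_e (g_e-g_x)²/(s_e-s_x)`, `ev (p e) (h'_{insert y A}) = w ψ(s x) ψ(s e)`.
(3) `Λ(ζ) = 0` (all `q_e(ζ) = h_e(ζ)/(ζ - s_e) = 0`), so by `sum_kap_frac` `∑_x κ_x Λ(s x) (s x - ζ)⁻¹ = 0`.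
(4) Insert (2) and symmetrise in `(x, e)`: `1/((s_e-s_x)(s_x-ζ)) + 1/((s_x-s_e)(s_e-ζ)) = 1/((s_x-ζ)(s_e-ζ))`. With
`a_e = κ_e ψ(s e) (s_e-ζ)⁻¹`: `0 = 2 ∑_x ∑_{e ≠ x} (...) = ∑_{x,e} a_x a_e (g_e-g_x)² = 2 (∑ a_e g_e²)(∑ a_e) - 2 (∑ a_e g_e)²`.
(5) `∑ a_e = 0` by `sum_kap_frac` (`ψ(ζ) = 0`), `(2 : K) ≠ 0` (`NZ`, `k ≥ 3`), so `∑ a_e g_e = 0`; and
`ev (p y) (ψ /ₘ (X - C ζ)) = - ∑ κ_e g_e (ψ /ₘ (X - C ζ))(s e) = - ∑ a_e g_e = 0` (`ev_nu`).
-/

open Polynomial

namespace Pool.Agent.Helper31.RN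

noncomputable section

variable {K : Type*} [Field K] {ι : Type*} [DecidableEq ι] {k : ℕ}

/-- evaluation of the quotient by `X - C z` at a point `a ≠ z` -/
private theorem eval_quot15 {f : K[X]} {z a : K} (hz : f.eval z = 0) (ha : a ≠ z) :
    (f /ₘ (X - C z)).eval a = f.eval a * (a - z)⁻¹ := by
  have h1 : (X - C z) * (f /ₘ (X - C z)) = f := mul_divByMonic_eq_iff_isRoot.2 hz
  have h2 := congrArg (fun g : K[X] => g.eval a) h1
  simp only [eval_mul, eval_sub, eval_X, eval_C] at h2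
  have h3 : a - z ≠ 0 := sub_ne_zero.2 ha
  rw [← h2]
  field_simp

private theorem quot_deg15 {f : K[X]} {z : K} (hf : f.degree < k) :
    (f /ₘ (X - C z)).degree < k :=
  lt_of_le_of_lt (degree_divByMonic_le _ _) hf

omit [DecidableEq ι] in
/-- the symmetrisation -/
private theorem symm15 (W : Finset ι) (b g s : ι → K) {ζ : K} (hs : Set.InjOn s W)
    (hζ : ∀ e ∈ W, s e ≠ ζ)
    (h0 : ∑ x ∈ W, ∑ e ∈ W, b x * b e * (g e - g x) ^ 2 * (s e - s x)⁻¹ * (s x - ζ)⁻¹ = 0)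
    (h1 : ∑ e ∈ W, b e * (s e - ζ)⁻¹ = 0) (h2 : (2 : K) ≠ 0) :
    ∑ e ∈ W, b e * (s e - ζ)⁻¹ * g e = 0 := by
  have e1 : ∑ x ∈ W, ∑ e ∈ W, b x * b e * (g e - g x) ^ 2 * (s e - s x)⁻¹ * (s x - ζ)⁻¹ +
      ∑ x ∈ W, ∑ e ∈ W, b x * b e * (g e - g x) ^ 2 * (s e - s x)⁻¹ * (s x - ζ)⁻¹ =
      ∑ x ∈ W, ∑ e ∈ W, (b x * (s x - ζ)⁻¹) * (b e * (s e - ζ)⁻¹) * (g e - g x) ^ 2 := by
    nth_rewrite 2 [Finset.sum_comm]
    rw [← Finset.sum_add_distrib]
    refine Finset.sum_congr rfl fun x hx => ?_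
    rw [← Finset.sum_add_distrib]
    refine Finset.sum_congr rfl fun e he => ?_
    rcases eq_or_ne e x with rfl | hne
    · simp
    have h3 : s e - s x ≠ 0 := sub_ne_zero.2 fun h => hne (hs he hx h)
    have h4 : s x - s e ≠ 0 := sub_ne_zero.2 fun h => hne (hs he hx h.symm)
    have h5 : s e - ζ ≠ 0 := sub_ne_zero.2 (hζ e he)
    have h6 : s x - ζ ≠ 0 := sub_ne_zero.2 (hζ x hx)
    have h7 : (s x - s e)⁻¹ = -(s e - s x)⁻¹ := by rw [← neg_sub, inv_neg]
    have h8 : (s e - s x)⁻¹ * (s x - ζ)⁻¹ - (s e - s x)⁻¹ * (s e - ζ)⁻¹ =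
        (s x - ζ)⁻¹ * (s e - ζ)⁻¹ := by
      field_simp
      ring
    rw [h7]
    calc b x * b e * (g e - g x) ^ 2 * (s e - s x)⁻¹ * (s x - ζ)⁻¹ +
        b e * b x * (g x - g e) ^ 2 * -(s e - s x)⁻¹ * (s e - ζ)⁻¹
        = b x * b e * (g e - g x) ^ 2 *
          ((s e - s x)⁻¹ * (s x - ζ)⁻¹ - (s e - s x)⁻¹ * (s e - ζ)⁻¹) := by ring
      _ = _ := by rw [h8]; ring
  rw [h0, add_zero] at e1
  have e2 : ∑ x ∈ W, ∑ e ∈ W, (b x * (s x - ζ)⁻¹) * (b e * (s e - ζ)⁻¹) * (g e - g x) ^ 2 =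
      2 * ((∑ e ∈ W, b e * (s e - ζ)⁻¹) * ∑ e ∈ W, b e * (s e - ζ)⁻¹ * g e ^ 2) -
      2 * ((∑ e ∈ W, b e * (s e - ζ)⁻¹ * g e) * ∑ e ∈ W, b e * (s e - ζ)⁻¹ * g e) := by
    have e3 : ∑ x ∈ W, ∑ e ∈ W, (b x * (s x - ζ)⁻¹) * (b e * (s e - ζ)⁻¹ * g e ^ 2) =
        (∑ e ∈ W, b e * (s e - ζ)⁻¹) * ∑ e ∈ W, b e * (s e - ζ)⁻¹ * g e ^ 2 := by
      rw [Finset.sum_mul_sum]
    have e4 : ∑ x ∈ W, ∑ e ∈ W, (b x * (s x - ζ)⁻¹ * g x ^ 2) * (b e * (s e - ζ)⁻¹) =
        (∑ e ∈ W, b e * (s e - ζ)⁻¹ * g e ^ 2) * ∑ e ∈ W, b e * (s e - ζ)⁻¹ := by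
      rw [Finset.sum_mul_sum]
    have e5 : ∑ x ∈ W, ∑ e ∈ W, (b x * (s x - ζ)⁻¹ * g x) * (b e * (s e - ζ)⁻¹ * g e) =
        (∑ e ∈ W, b e * (s e - ζ)⁻¹ * g e) * ∑ e ∈ W, b e * (s e - ζ)⁻¹ * g e := by
      rw [Finset.sum_mul_sum]
    have e6 : ∑ x ∈ W, ∑ e ∈ W, (b x * (s x - ζ)⁻¹) * (b e * (s e - ζ)⁻¹) * (g e - g x) ^ 2 =
        ∑ x ∈ W, ∑ e ∈ W, (b x * (s x - ζ)⁻¹) * (b e * (s e - ζ)⁻¹ * g e ^ 2) +
        ∑ x ∈ W, ∑ e ∈ W, (b x * (s x - ζ)⁻¹ * g x ^ 2) * (b e * (s e - ζ)⁻¹) -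
        2 * ∑ x ∈ W, ∑ e ∈ W, (b x * (s x - ζ)⁻¹ * g x) * (b e * (s e - ζ)⁻¹ * g e) := by
      rw [Finset.mul_sum, ← Finset.sum_add_distrib, ← Finset.sum_sub_distrib]
      refine Finset.sum_congr rfl fun x _ => ?_
      rw [Finset.mul_sum, ← Finset.sum_add_distrib, ← Finset.sum_sub_distrib]
      refine Finset.sum_congr rfl fun e _ => ?_
      ring
    rw [e6, e3, e4, e5]
    ring
  rw [e2, h1, zero_mul, mul_zero, zero_sub] at e1
  have e7 := neg_eq_zero.1 e1.symm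
  exact mul_self_eq_zero.1 ((mul_eq_zero.1 e7).resolve_left h2)

theorem star [Infinite K] (hk : 3 ≤ k) (hNZ : NZ K k) {A W : Finset ι} {y : ι}
    {p : ι → Fin k → K} {D : Finset ι → K[X]} {c : Finset ι → K} (hAW : Disjoint A W)
    (hyA : y ∉ A) (hyW : y ∉ W) (hA : A.card = k - 2) (hW : W.card = k + 2)
    (H : Sys k (insert y (A ∪ W)) p D c) {s : ι → K} (hs : Set.InjOn s W)
    (hp : ∀ x ∈ W, p x = nu k (s x)) {ζ : K}
    (hζ : ∀ f : K[X], f.degree < k → (∀ a ∈ A, ev (p a) f = 0) → f.eval ζ = 0) :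
    ev (p y) (D (insert y A) /ₘ (X - C ζ)) = 0 := by
  have hWA : ∀ e ∈ W, e ∉ A := fun e he hA' => Finset.disjoint_left.1 hAW hA' he
  obtain ⟨S, hS⟩ : ∃ S, S = insert y (A ∪ W) := ⟨_, rfl⟩
  rw [← hS] at H
  have hyS : y ∈ S := by rw [hS]; exact Finset.mem_insert_self _ _
  have hAS : A ⊆ S := by
    rw [hS]; exact Finset.subset_union_left.trans (Finset.subset_insert _ _)
  have hWS : W ⊆ S := by
    rw [hS]; exact Finset.subset_union_right.trans (Finset.subset_insert _ _)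
  have hcA : ∀ e, e ∉ A → (insert e A).card = k - 1 := fun e he => by
    rw [Finset.card_insert_of_notMem he, hA]; omega
  have hsub : ∀ e ∈ S, insert e A ⊆ S := fun e he => Finset.insert_subset he hAS
  have hev : ∀ e ∈ W, ∀ f : K[X], f.degree < k → ev (p e) f = f.eval (s e) := fun e he f hf => by
    rw [hp e he, ev_nu _ _ hf]
  obtain ⟨ψ, hψ⟩ : ∃ ψ, ψ = D (insert y A) := ⟨_, rfl⟩
  rw [← hψ]
  have hψd : ψ.degree < k := by rw [hψ]; exact H.deg _
  have hψζ : ψ.eval ζ = 0 := hζ _ hψd fun a ha => by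
    rw [hψ]
    exact H.zero _ (hsub y hyS) (hcA y hyA) a (Finset.mem_insert_of_mem ha)
  have hψne : ∀ x ∈ W, ψ.eval (s x) ≠ 0 := fun x hx => by
    rw [← hev x hx _ hψd, hψ]
    refine H.ne _ (hsub y hyS) (hcA y hyA) x (Finset.mem_sdiff.2 ⟨hWS hx, fun h => ?_⟩)
    rcases Finset.mem_insert.1 h with rfl | h
    · exact hyW hx
    · exact hWA x hx h
  have hsζ : ∀ x ∈ W, s x ≠ ζ := fun x hx h => hψne x hx (by rw [h, hψζ])
  -- the vector `p y`
  obtain ⟨g, hg⟩ : ∃ g : ι → K, p y = -∑ e ∈ W, (kap W s e * g e) • p e := by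
    obtain ⟨B, hBW, hBc⟩ := Finset.exists_subset_card_eq (show k ≤ W.card by omega)
    have h1 := H.toGP.interp_vec (by omega) (hBW.trans hWS) hBc (p y)
    refine ⟨fun e => if e ∈ B then -(kap W s e)⁻¹ * (ev (p y) (D (B.erase e)) *
      algebraMap K K (ev (p e) (D (B.erase e)))⁻¹) else 0, ?_⟩
    rw [← Finset.sum_neg_distrib]
    nth_rewrite 1 [h1]
    have h2 : ∀ v : Fin k → K, bc K v = v := fun v => by ext i; simp [bc]
    rw [← Finset.sum_subset hBW (f := fun e => -((kap W s e * if e ∈ B then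
      -(kap W s e)⁻¹ * (ev (p y) (D (B.erase e)) * algebraMap K K (ev (p e) (D (B.erase e)))⁻¹)
      else 0) • p e)) (fun e _ he => by rw [if_neg he, mul_zero, zero_smul, neg_zero])]
    refine Finset.sum_congr rfl fun e he => ?_
    rw [if_pos he, h2, ← neg_smul]
    congr 1
    have h3 := kap_ne hs (hBW he)
    rw [← mul_assoc, mul_neg, mul_inv_cancel₀ h3]
    ring
  have hgf : ∀ f : K[X], f.degree < k → ev (p y) f = -∑ e ∈ W, kap W s e * g e * f.eval (s e) := by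
    intro f hf
    rw [hg, ev_neg_vec, ev_sum_vec]
    congr 1
    refine Finset.sum_congr rfl fun e he => ?_
    rw [ev_smul_vec, hev e he f hf]
  -- the level one system on `A ∪ W`
  have hcard1 : (A ∪ W).card = 2 * k := by
    rw [Finset.card_union_of_disjoint hAW, hA, hW]; omega
  have hsub1 : A ∪ W ⊆ S := Finset.union_subset hAS hWS
  have L1y := H.toL1 hsub1 hcard1
  have hSy : S \ (A ∪ W) = {y} := by
    rw [hS]
    ext x
    simp only [Finset.mem_sdiff, Finset.mem_insert, Finset.mem_singleton]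
    constructor
    · rintro ⟨h1 | h1, h2⟩
      · exact h1
      · exact absurd h1 h2
    · rintro rfl
      refine ⟨Or.inl rfl, fun h => ?_⟩
      rcases Finset.mem_union.1 h with h | h
      · exact hyA h
      · exact hyW h
  have hh : ∀ B, hG S (A ∪ W) p D c B = C (c B * ev (p y) (D B)) * D B := fun B => by
    unfold hG
    rw [hSy, Finset.prod_singleton]
  have hz1 := z1 (by omega) hNZ hAW hA hW L1y hs hp
  obtain ⟨q, hq⟩ : ∃ q : ι → K[X], q = fun e => hG S (A ∪ W) p D c (insert e A) /ₘ (X - C (s e)) :=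
    ⟨_, rfl⟩
  have hqd : ∀ e, (q e).degree < k := fun e => by
    rw [hq]; exact quot_deg15 (L1y.deg _)
  have hq0 : ∑ e ∈ W, q e = 0 := by rw [hq]; exact hz1
  have hhs : ∀ e ∈ W, (hG S (A ∪ W) p D c (insert e A)).eval (s e) = 0 := fun e he => by
    rw [← hev e he _ (L1y.deg _)]
    exact L1y.zero _ (Finset.insert_subset (Finset.mem_union_right _ he) Finset.subset_union_left)
      (hcA e (hWA e he)) e (Finset.mem_insert_self _ _)
  have hhζ : ∀ e ∈ W, (hG S (A ∪ W) p D c (insert e A)).eval ζ = 0 := fun e he =>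
    hζ _ (L1y.deg _) fun a ha =>
      L1y.zero _ (Finset.insert_subset (Finset.mem_union_right _ he) Finset.subset_union_left)
        (hcA e (hWA e he)) a (Finset.mem_insert_of_mem ha)
  have hqe : ∀ e ∈ W, ∀ a, a ≠ s e →
      (q e).eval a = (hG S (A ∪ W) p D c (insert e A)).eval a * (a - s e)⁻¹ := fun e he a ha => by
    rw [hq]
    exact eval_quot15 (hhs e he) ha
  obtain ⟨Λ, hΛ⟩ : ∃ Λ : K[X], Λ = ∑ e ∈ W, C (g e) * q e := ⟨_, rfl⟩
  have hΛd : Λ.degree < k := by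
    rw [hΛ]
    exact degree_sum_lt' _ _ fun e _ => degree_C_mul_lt _ (hqd e)
  have hΛζ : Λ.eval ζ = 0 := by
    rw [hΛ, eval_finsetSum]
    refine Finset.sum_eq_zero fun e he => ?_
    rw [eval_mul, hqe e he ζ (hsζ e he).symm, hhζ e he, zero_mul, mul_zero]
  -- the relations on `W`
  have r0 : ∑ e ∈ W, kap W s e • p e = 0 := by
    have h1 := sum_kap_nu (k := k) hW hs (j := 0) (by omega)
    rw [← h1]
    refine Finset.sum_congr rfl fun e he => ?_
    rw [hp e he, pow_zero, mul_one]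
  have r1 : ∑ e ∈ W, (kap W s e * s e) • p e = 0 := by
    have h1 := sum_kap_nu (k := k) hW hs (j := 1) (by omega)
    rw [← h1]
    refine Finset.sum_congr rfl fun e he => ?_
    rw [hp e he, pow_one]
  -- (2)
  have key : ∀ x ∈ W, Λ.eval (s x) = c (insert y A) * ψ.eval (s x) *
      ∑ e ∈ W.erase x, kap W s e * (g e - g x) ^ 2 * (s e - s x)⁻¹ * ψ.eval (s e) := by
    intro x hx
    have hxA := hWA x hx
    have hxy : x ≠ y := fun h => hyW (h ▸ hx)
    have hAU : Disjoint A (W.erase x) := hAW.mono_right (Finset.erase_subset _ _)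
    have hyU : y ∉ W.erase x := fun h => hyW (Finset.mem_of_mem_erase h)
    have hUc : (W.erase x).card = k + 1 := by
      rw [Finset.card_erase_of_mem hx, hW]; omega
    have hsub2 : A ∪ insert y (W.erase x) ⊆ S :=
      Finset.union_subset hAS (Finset.insert_subset hyS ((Finset.erase_subset _ _).trans hWS))
    have hcard2 : (A ∪ insert y (W.erase x)).card = 2 * k := by
      rw [Finset.card_union_of_disjoint, Finset.card_insert_of_notMem hyU, hA, hUc]
      · omega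
      · rw [Finset.disjoint_insert_right]
        exact ⟨hyA, hAU⟩
    have L1x := H.toL1 hsub2 hcard2
    have hSx : S \ (A ∪ insert y (W.erase x)) = {x} := by
      rw [hS]
      ext z
      simp only [Finset.mem_sdiff, Finset.mem_insert, Finset.mem_singleton, Finset.mem_union,
        Finset.mem_erase]
      constructor
      · rintro ⟨h1, h2⟩
        by_contra h3
        apply h2
        rcases h1 with h1 | h1 | h1
        · exact Or.inr (Or.inl h1)
        · exact Or.inl h1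
        · exact Or.inr (Or.inr ⟨h3, h1⟩)
      · rintro rfl
        refine ⟨Or.inr (Or.inr hx), fun h => ?_⟩
        rcases h with h | h | h
        · exact hxA h
        · exact hxy h
        · exact h.1 rfl
    have hh' : ∀ B, hG S (A ∪ insert y (W.erase x)) p D c B = C (c B * ev (p x) (D B)) * D B :=
      fun B => by
        unfold hG
        rw [hSx, Finset.prod_singleton]
    have hne : ∀ e ∈ W.erase x, s e - s x ≠ 0 := fun e he => sub_ne_zero.2 fun h =>
      (Finset.ne_of_mem_erase he) (hs (Finset.mem_of_mem_erase he) hx h)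
    have hb := b1 (by omega) hNZ hAU hyA hyU hA hUc L1x
      (c := fun e => kap W s e * (s e - s x)) (m := fun e => kap W s e * (g e - g x))
      (fun e he => mul_ne_zero (kap_ne hs (Finset.mem_of_mem_erase he)) (hne e he))
      (by
        have h1 : ∑ e ∈ W, (kap W s e * (s e - s x)) • p e = 0 := by
          have h2 : ∑ e ∈ W, (kap W s e * (s e - s x)) • p e =
              ∑ e ∈ W, (kap W s e * s e) • p e - s x • ∑ e ∈ W, kap W s e • p e := by
            rw [Finset.smul_sum, ← Finset.sum_sub_distrib]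
            refine Finset.sum_congr rfl fun e _ => ?_
            rw [smul_smul, ← sub_smul]
            congr 1
            ring
          rw [h2, r0, r1, smul_zero, sub_zero]
        rw [← Finset.add_sum_erase W _ hx, sub_self, mul_zero, zero_smul, zero_add] at h1
        exact h1)
      (by
        have h1 : ∑ e ∈ W, (kap W s e * (g e - g x)) • p e = -p y := by
          have h2 : ∑ e ∈ W, (kap W s e * (g e - g x)) • p e =
              ∑ e ∈ W, (kap W s e * g e) • p e - g x • ∑ e ∈ W, kap W s e • p e := by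
            rw [Finset.smul_sum, ← Finset.sum_sub_distrib]
            refine Finset.sum_congr rfl fun e _ => ?_
            rw [smul_smul, ← sub_smul]
            congr 1
            ring
          rw [h2, r0, smul_zero, sub_zero, hg, neg_neg]
        rw [← Finset.add_sum_erase W _ hx, sub_self, mul_zero, zero_smul, zero_add] at h1
        rw [h1, neg_add_cancel])
    -- evaluate
    have t1 : ∑ e ∈ W.erase x, ((kap W s e * (g e - g x)) ^ 2 / (kap W s e * (s e - s x))) *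
        ev (p e) (hG S (A ∪ insert y (W.erase x)) p D c (insert y A)) =
        c (insert y A) * ψ.eval (s x) *
      ∑ e ∈ W.erase x, kap W s e * (g e - g x) ^ 2 * (s e - s x)⁻¹ * ψ.eval (s e) := by
      rw [Finset.mul_sum]
      refine Finset.sum_congr rfl fun e he => ?_
      have heW := Finset.mem_of_mem_erase he
      rw [hh', ev_C_mul, smul_eq_mul, ← hψ, hev e heW _ hψd, hev x hx _ hψd]
      have h1 := kap_ne hs heW
      have h2 := hne e he
      field_simp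
    have t2 : ∑ e ∈ W.erase x, ((kap W s e * (g e - g x)) / (kap W s e * (s e - s x))) *
        ev (p y) (hG S (A ∪ insert y (W.erase x)) p D c (insert e A)) = - Λ.eval (s x) := by
      have h1 : Λ.eval (s x) = ∑ e ∈ W.erase x, (g e - g x) * (q e).eval (s x) := by
        have h2 : (∑ e ∈ W, q e).eval (s x) = 0 := by rw [hq0, eval_zero]
        rw [eval_finsetSum] at h2
        have h3 : ∑ e ∈ W, (g e - g x) * (q e).eval (s x) =
            ∑ e ∈ W, g e * (q e).eval (s x) - g x * ∑ e ∈ W, (q e).eval (s x) := by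
          rw [Finset.mul_sum, ← Finset.sum_sub_distrib]
          refine Finset.sum_congr rfl fun e _ => ?_
          ring
        rw [h2, mul_zero, sub_zero, ← Finset.add_sum_erase W _ hx, sub_self, zero_mul,
          zero_add] at h3
        rw [h3, hΛ, eval_finsetSum]
        refine Finset.sum_congr rfl fun e _ => ?_
        rw [eval_mul, eval_C]
      rw [h1, ← Finset.sum_neg_distrib]
      refine Finset.sum_congr rfl fun e he => ?_
      have heW := Finset.mem_of_mem_erase he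
      have h2 := hne e he
      have h3 := kap_ne hs heW
      rw [hqe e heW (s x) (fun h => h2 (by rw [h, sub_self])), hh', hh, ev_C_mul, smul_eq_mul,
        eval_mul, eval_C, ← hev x hx _ (H.deg _)]
      have h4 : (s x - s e)⁻¹ = -(s e - s x)⁻¹ := by rw [← neg_sub, inv_neg]
      rw [h4]
      field_simp
    rw [t1, t2] at hb
    linear_combination -hb
  -- (3), (4)
  have hWd : ∀ f : K[X], f.degree < k → f.degree < W.card := fun f hf => by
    rw [hW]
    exact lt_of_lt_of_le hf (by exact_mod_cast Nat.le_add_right k 2)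
  have f1 := sum_kap_frac hs (hWd _ hΛd) hsζ
  have f2 := sum_kap_frac hs (hWd _ hψd) hsζ
  rw [hΛζ, neg_zero, zero_mul] at f1
  rw [hψζ, neg_zero, zero_mul] at f2
  have hw : c (insert y A) ≠ 0 := H.cne _ (hsub y hyS) (hcA y hyA)
  have h2 : (2 : K) ≠ 0 := by
    have := hNZ 2 (by omega) (by omega)
    exact_mod_cast this
  have f3 : ∑ x ∈ W, ∑ e ∈ W, (kap W s x * ψ.eval (s x)) * (kap W s e * ψ.eval (s e)) *
      (g e - g x) ^ 2 * (s e - s x)⁻¹ * (s x - ζ)⁻¹ = 0 := by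
    have f4 : c (insert y A) * ∑ x ∈ W, ∑ e ∈ W, (kap W s x * ψ.eval (s x)) *
        (kap W s e * ψ.eval (s e)) * (g e - g x) ^ 2 * (s e - s x)⁻¹ * (s x - ζ)⁻¹ = 0 := by
      rw [← f1, Finset.mul_sum]
      refine Finset.sum_congr rfl fun x hx => ?_
      rw [key x hx, ← Finset.add_sum_erase W _ hx, Finset.mul_sum, Finset.mul_sum,
        Finset.sum_mul]
      rw [show (kap W s x * eval (s x) ψ * (kap W s x * eval (s x) ψ) * (g x - g x) ^ 2 *
        (s x - s x)⁻¹ * (s x - ζ)⁻¹) = 0 by rw [sub_self (s x), inv_zero]; ring, zero_add,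
        Finset.mul_sum]
      refine Finset.sum_congr rfl fun e _ => ?_
      ring
    exact (mul_eq_zero.1 f4).resolve_left hw
  have f5 := symm15 W (fun e => kap W s e * ψ.eval (s e)) g s hs hsζ f3 f2 h2
  rw [hgf _ (quot_deg15 hψd), neg_eq_zero, ← f5]
  refine Finset.sum_congr rfl fun e he => ?_
  rw [eval_quot15 hψζ (hsζ e he)]
  ring

end

end Pool.Agent.Helper31.RN
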