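import Pool.Agent.Helper31.RN.Lin
import Pool.Agent.Helper31.RN.Lag

/-!
# RN-S: standard coordinates

`exists_kappa`: choose `x₁ ≠ x₂` in `W`. The `k+1` vectors of `W.erase x₁` are dependent: there is a relation `c₁` (supported on
`W.erase x₁`), not zero, so all its `k+1` coefficients are `≠ 0` (`rel_zero`); in the same way `c₂` on `W.erase x₂`. Choose `b ∈ K`, `b ≠ 0`,
with `c₁ x + b c₂ x ≠ 0` for all `x ∈ W` (`K` infinite; at `x₁`, `x₂` it follows from `b ≠ 0`). `κ = c₁ + b c₂`, `z = c₁ / κ`. If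
`z x = z x'`, `x ≠ x'`, then `c₁ x' c₂ - c₂ x' c₁`... : the relation `c₁(x') c₂ - c₂(x') c₁` vanishes at `x` and `x'`, so it is zero on `W`
(`rel_zero`), but at `x₁` or at `x₂` it is not (if both `c₁(x') = 0` and `c₂(x') = 0`, impossible).
`std`: let `B ⊆ T`, `|B| = k`, `R = T \ B`, `|R| = j`. `χ' (x) = ∏_{x' ∈ T.erase x} (z x - z x')`, `μ x = (ρ x)⁻¹ * kap T z x`. The `p b` and the
`nu k (z b)`, `b ∈ B`, are bases (Vandermonde), so there is a linear equivalence `M` with `M (p b) = μ b • nu k (z b)`, `b ∈ B`.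
For `x ∈ R` put `w x = M (p x) - μ x • nu k (z x)`. Both families satisfy the relations: `∑_T (ρ z^i) • M p = 0` and
`∑_T (ρ z^i μ) • nu k (z x) = ∑_T (kap T z x * z^i) • nu k (z x) = 0` for `i < j` (`sum_kap`, degrees `≤ (k-1)+(j-1) < k+j-1`).
So `∑_{x ∈ R} (ρ x * z x ^ i) • w x = 0` for `i < j = |R|`, hence for every polynomial `f` of degree `< j`:
`∑_R (ρ x * f(z x)) • w x = 0`; take `f = ∏_{x' ∈ R.erase x} (X - z x')`: `w x = 0`.
-/

open Polynomial

namespace Pool.Agent.Helper31.RN

noncomputable section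

variable {K : Type*} [Field K] {ι : Type*} [DecidableEq ι] {k : ℕ}

variable {S : Finset ι} {p : ι → Fin k → K} {D : Finset ι → K[X]}

private theorem interp67 (hk : 1 ≤ k) (H : GP k S p D) {B : Finset ι} (hB : B ⊆ S)
    (hBc : B.card = k) {x : ι} (hx : x ∈ S) (hxB : x ∉ B) :
    ∃ c : ι → K, (∀ b ∈ B, c b ≠ 0) ∧ p x = ∑ b ∈ B, c b • p b := by
  refine ⟨fun b => ev (p x) (D (B.erase b)) * (ev (p b) (D (B.erase b)))⁻¹, ?_, ?_⟩
  · intro b hb
    have hsub : B.erase b ⊆ S := (Finset.erase_subset _ _).trans hB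
    have hc : (B.erase b).card = k - 1 := by rw [Finset.card_erase_of_mem hb, hBc]
    refine mul_ne_zero (H.ne _ hsub hc x ?_) (inv_ne_zero (H.ne _ hsub hc b ?_))
    · exact Finset.mem_sdiff.2 ⟨hx, fun h => hxB (Finset.mem_of_mem_erase h)⟩
    · exact Finset.mem_sdiff.2 ⟨hB hb, Finset.notMem_erase b B⟩
  · exact H.interp_vec hk (L := K) hB hBc (p x)

theorem exists_kappa [Infinite K] (hk : 1 ≤ k) (H : GP k S p D) {W : Finset ι} (hW : W ⊆ S)
    (hWc : W.card = k + 2) : ∃ κ z : ι → K, Set.InjOn z W ∧ (∀ e ∈ W, κ e ≠ 0) ∧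
      ∑ e ∈ W, κ e • p e = 0 ∧ ∑ e ∈ W, (κ e * z e) • p e = 0 := by
  classical
  obtain ⟨B, hBW, hBc⟩ := Finset.exists_subset_card_eq (show k ≤ W.card by omega)
  have hR : (W \ B).card = 2 := by
    rw [Finset.card_sdiff_of_subset hBW, hWc, hBc]; omega
  obtain ⟨x1, x2, h12, hR2⟩ := Finset.card_eq_two.1 hR
  have hx1 : x1 ∈ W \ B := by rw [hR2]; simp
  have hx2 : x2 ∈ W \ B := by rw [hR2]; simp
  rw [Finset.mem_sdiff] at hx1 hx2
  have hWe : W = insert x1 (insert x2 B) := by
    ext e
    rw [Finset.mem_insert, Finset.mem_insert]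
    constructor
    · intro he
      by_cases heB : e ∈ B
      · exact Or.inr (Or.inr heB)
      · have : e ∈ W \ B := Finset.mem_sdiff.2 ⟨he, heB⟩
        rw [hR2, Finset.mem_insert, Finset.mem_singleton] at this
        rcases this with h | h
        · exact Or.inl h
        · exact Or.inr (Or.inl h)
    · rintro (h | h | h)
      · rw [h]; exact hx1.1
      · rw [h]; exact hx2.1
      · exact hBW h
  have hx1n : x1 ∉ insert x2 B := by
    rw [Finset.mem_insert]
    rintro (h | h)
    · exact h12 h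
    · exact hx1.2 h
  obtain ⟨r1, hr1, hp1⟩ := interp67 hk H (hBW.trans hW) hBc (hW hx1.1) hx1.2
  obtain ⟨r2, hr2, hp2⟩ := interp67 hk H (hBW.trans hW) hBc (hW hx2.1) hx2.2
  -- `c1` vanishes at `x1`, `c2` vanishes at `x2`
  obtain ⟨c1, hc11, hc12, hc1B⟩ : ∃ c1 : ι → K, c1 x1 = 0 ∧ c1 x2 = -1 ∧ ∀ b ∈ B, c1 b = r2 b := by
    refine ⟨fun e => if e = x1 then 0 else if e = x2 then -1 else r2 e, ?_, ?_, ?_⟩
    · simp
    · simp [h12.symm]
    · intro b hb
      have h1 : b ≠ x1 := fun h => hx1.2 (h ▸ hb)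
      have h2 : b ≠ x2 := fun h => hx2.2 (h ▸ hb)
      simp [h1, h2]
  obtain ⟨c2, hc21, hc22, hc2B⟩ : ∃ c2 : ι → K, c2 x1 = -1 ∧ c2 x2 = 0 ∧ ∀ b ∈ B, c2 b = r1 b := by
    refine ⟨fun e => if e = x1 then -1 else if e = x2 then 0 else r1 e, ?_, ?_, ?_⟩
    · simp
    · simp [h12.symm]
    · intro b hb
      have h1 : b ≠ x1 := fun h => hx1.2 (h ▸ hb)
      have h2 : b ≠ x2 := fun h => hx2.2 (h ▸ hb)
      simp [h1, h2]
  have hsum : ∀ c : ι → K, ∑ e ∈ W, c e • p e = c x1 • p x1 + (c x2 • p x2 + ∑ e ∈ B, c e • p e) := by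
    intro c
    rw [hWe, Finset.sum_insert hx1n, Finset.sum_insert hx2.2]
  have hs1 : ∑ e ∈ W, c1 e • p e = 0 := by
    have h1 : ∑ e ∈ B, c1 e • p e = p x2 := by
      rw [hp2]
      exact Finset.sum_congr rfl fun b hb => by rw [hc1B b hb]
    rw [hsum, hc11, hc12, h1, zero_smul, neg_smul, one_smul]
    abel
  have hs2 : ∑ e ∈ W, c2 e • p e = 0 := by
    have h1 : ∑ e ∈ B, c2 e • p e = p x1 := by
      rw [hp1]
      exact Finset.sum_congr rfl fun b hb => by rw [hc2B b hb]
    rw [hsum, hc21, hc22, h1, zero_smul, neg_smul, one_smul]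
    abel
  obtain ⟨b, hb⟩ := Infinite.exists_notMem_finset (insert 0 (W.image fun e => -(c1 e / c2 e)))
  rw [Finset.mem_insert, not_or, Finset.mem_image] at hb
  obtain ⟨hb0, hb1⟩ := hb
  have hκ : ∀ e ∈ W, c1 e + b * c2 e ≠ 0 := by
    intro e he h0
    by_cases h2 : c2 e = 0
    · rw [h2, mul_zero, add_zero] at h0
      rw [hWe, Finset.mem_insert, Finset.mem_insert] at he
      rcases he with rfl | rfl | he
      · rw [hc21] at h2
        exact one_ne_zero (neg_eq_zero.1 h2)
      · rw [hc12] at h0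
        exact one_ne_zero (neg_eq_zero.1 h0)
      · rw [hc2B e he] at h2
        exact hr1 e he h2
    · apply hb1
      refine ⟨e, he, ?_⟩
      field_simp
      linear_combination -h0
  refine ⟨fun e => c1 e + b * c2 e, fun e => c1 e / (c1 e + b * c2 e), ?_, hκ, ?_, ?_⟩
  · intro x hx x' hx' hzz
    by_contra hne
    have hx0 := hκ x hx
    have hx0' := hκ x' hx'
    have h1 : c1 x * c2 x' = c1 x' * c2 x := by
      have h2 : c1 x / (c1 x + b * c2 x) = c1 x' / (c1 x' + b * c2 x') := hzz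
      rw [div_eq_div_iff hx0 hx0'] at h2
      apply mul_left_cancel₀ hb0
      linear_combination h2
    have hRc : ((W.erase x').erase x).card ≤ k := by
      rw [Finset.card_erase_of_mem (Finset.mem_erase.2 ⟨hne, hx⟩), Finset.card_erase_of_mem hx', hWc]
      omega
    have h3 := H.rel_zero hW (by have := Finset.card_le_card hW; omega)
      ((Finset.erase_subset x _).trans (Finset.erase_subset x' W)) hRc
      (r := fun e => c1 x' * c2 e - c2 x' * c1 e) (by
        have : ∀ e, (c1 x' * c2 e - c2 x' * c1 e) • p e =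
            c1 x' • (c2 e • p e) - c2 x' • (c1 e • p e) := by
          intro e
          rw [sub_smul, mul_smul, mul_smul]
        simp only [this]
        rw [Finset.sum_sub_distrib, ← Finset.smul_sum, ← Finset.smul_sum, hs1, hs2]
        simp) (by
        intro e he heR
        rw [Finset.mem_erase, Finset.mem_erase] at heR
        by_cases hex : e = x
        · rw [hex]
          linear_combination -h1
        · by_cases hex' : e = x'
          · rw [hex']
            ring
          · exact absurd ⟨hex, hex', he⟩ heR)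
    have h4 : c1 x' = 0 := by
      have := h3 x1 hx1.1
      simp only [hc11, hc21] at this
      linear_combination -this
    have h5 : c2 x' = 0 := by
      have := h3 x2 hx2.1
      simp only [hc12, hc22] at this
      linear_combination this
    apply hx0'
    rw [h4, h5]
    ring
  · have : ∀ e, (c1 e + b * c2 e) • p e = c1 e • p e + b • (c2 e • p e) := by
      intro e
      rw [add_smul, mul_smul]
    simp only [this]
    rw [Finset.sum_add_distrib, ← Finset.smul_sum, hs1, hs2]
    simp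
  · rw [← hs1]
    refine Finset.sum_congr rfl fun e he => ?_
    rw [mul_div_cancel₀ _ (hκ e he)]

omit [DecidableEq ι] in
private theorem degree_prod67 (T : Finset ι) (s : ι → K) :
    (∏ e ∈ T, (X - C (s e))).degree = (T.card : WithBot ℕ) := by
  rw [degree_prod]
  simp

omit [DecidableEq ι] in
private theorem eval_prod67 (T : Finset ι) (s : ι → K) (a : K) :
    (∏ e ∈ T, (X - C (s e))).eval a = ∏ e ∈ T, (a - s e) := by
  rw [eval_prod]
  simp

private theorem gp_nu67 (hk : 1 ≤ k) {T : Finset ι} {z : ι → K} (hz : Set.InjOn z T) :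
    GP k T (fun e => nu k (z e))
      (fun B => if B.card < k then ∏ e ∈ B, (X - C (z e)) else 0) where
  deg := by
    intro B
    by_cases hB : B.card < k
    · simp only [if_pos hB]
      rw [degree_prod67]
      exact_mod_cast hB
    · simp only [if_neg hB]
      rw [degree_zero]
      exact WithBot.bot_lt_coe k
  zero := by
    intro B hB hBc b hb
    have hlt : B.card < k := by omega
    simp only [if_pos hlt]
    rw [ev_nu _ _ (by rw [degree_prod67]; exact_mod_cast hlt), eval_prod67]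
    exact Finset.prod_eq_zero hb (sub_self _)
  ne := by
    intro B hB hBc y hy
    have hlt : B.card < k := by omega
    rw [Finset.mem_sdiff] at hy
    simp only [if_pos hlt]
    rw [ev_nu _ _ (by rw [degree_prod67]; exact_mod_cast hlt), eval_prod67]
    refine Finset.prod_ne_zero_iff.2 fun b hb => sub_ne_zero.2 fun h => ?_
    exact hy.2 ((hz hy.1 (hB hb) h) ▸ hb)

theorem std (hk : 1 ≤ k) (H : GP k S p D) {T : Finset ι} (hT : T ⊆ S) {j : ℕ}
    (hTc : T.card = k + j) {ρ z : ι → K} (hz : Set.InjOn z T) (hρ : ∀ e ∈ T, ρ e ≠ 0)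
    (hrel : ∀ i < j, ∑ e ∈ T, (ρ e * z e ^ i) • p e = 0) :
    ∃ (M : (Fin k → K) ≃ₗ[K] (Fin k → K)) (μ : ι → K),
      (∀ e, μ e ≠ 0) ∧ ∀ e ∈ T, M (p e) = μ e • nu k (z e) := by
  obtain ⟨B, hBT, hBc⟩ := Finset.exists_subset_card_eq (show k ≤ T.card by omega)
  have hRc : (T \ B).card = j := by
    rw [Finset.card_sdiff_of_subset hBT, hTc, hBc]; omega
  obtain ⟨μ, hμT, hμ⟩ : ∃ μ : ι → K, (∀ e ∈ T, μ e = (ρ e)⁻¹ * kap T z e) ∧ ∀ e, μ e ≠ 0 := by
    refine ⟨fun e => if e ∈ T then (ρ e)⁻¹ * kap T z e else 1, fun e he => if_pos he, fun e => ?_⟩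
    by_cases he : e ∈ T
    · simp only [if_pos he]
      exact mul_ne_zero (inv_ne_zero (hρ e he)) (kap_ne hz he)
    · simp only [if_neg he]
      exact one_ne_zero
  have H' := gp_nu67 hk hz
  have l1 := H.linInd (hBT.trans hT) hBc
  have l2 := H'.linInd hBT hBc
  have hcard : Fintype.card B = Module.finrank K (Fin k → K) := by
    rw [Fintype.card_coe, hBc, Module.finrank_fin_fun]
  have hne : Nonempty B := by
    rw [nonempty_subtype]
    exact Finset.card_pos.1 (by omega)
  obtain ⟨M, hM⟩ : ∃ M : (Fin k → K) ≃ₗ[K] (Fin k → K), ∀ b ∈ B, M (p b) = μ b • nu k (z b) := by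
    refine ⟨(basisOfLinearIndependentOfCardEqFinrank l1 hcard).equiv
      ((basisOfLinearIndependentOfCardEqFinrank l2 hcard).isUnitSMul
        (fun i => (hμ (i : ι)).isUnit)) (Equiv.refl _), ?_⟩
    intro b hb
    have h1 := (basisOfLinearIndependentOfCardEqFinrank l1 hcard).equiv_apply ⟨b, hb⟩
      ((basisOfLinearIndependentOfCardEqFinrank l2 hcard).isUnitSMul
        (fun i => (hμ (i : ι)).isUnit)) (Equiv.refl _)
    rw [Module.Basis.isUnitSMul_apply, coe_basisOfLinearIndependentOfCardEqFinrank,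
      coe_basisOfLinearIndependentOfCardEqFinrank] at h1
    exact h1
  refine ⟨M, μ, hμ, ?_⟩
  obtain ⟨w, hw⟩ : ∃ w : ι → Fin k → K, ∀ e, w e = M (p e) - μ e • nu k (z e) := ⟨_, fun _ => rfl⟩
  have hwB : ∀ b ∈ B, w b = 0 := fun b hb => by rw [hw, hM b hb, sub_self]
  have hrw : ∀ i < j, ∑ e ∈ T, (ρ e * z e ^ i) • w e = 0 := by
    intro i hi
    have h1 : ∀ e ∈ T, (ρ e * z e ^ i) • w e =
        M ((ρ e * z e ^ i) • p e) - (kap T z e * z e ^ i) • nu k (z e) := by
      intro e he
      rw [hw, smul_sub, map_smul, smul_smul, hμT e he]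
      congr 2
      field_simp [hρ e he]
    rw [Finset.sum_congr rfl h1, Finset.sum_sub_distrib, ← map_sum, hrel i hi, map_zero, zero_sub,
      neg_eq_zero]
    ext l
    have hl := l.2
    have h2 : (X ^ ((l : ℕ) + i) : K[X]).degree < (T.card - 1 : ℕ) := by
      rw [degree_X_pow, hTc]
      exact_mod_cast (by omega : (l : ℕ) + i < k + j - 1)
    have h3 := sum_kap hz h2
    rw [Finset.sum_apply, Pi.zero_apply, ← h3]
    refine Finset.sum_congr rfl fun e _ => ?_
    rw [Pi.smul_apply, smul_eq_mul, nu, eval_pow, eval_X, pow_add]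
    ring
  have hrR : ∀ i < j, ∑ e ∈ T \ B, (ρ e * z e ^ i) • w e = 0 := by
    intro i hi
    rw [← hrw i hi]
    refine Finset.sum_subset Finset.sdiff_subset fun e he he' => ?_
    have : e ∈ B := by
      by_contra hcon
      exact he' (Finset.mem_sdiff.2 ⟨he, hcon⟩)
    rw [hwB e this, smul_zero]
  have hpoly : ∀ f : K[X], f.natDegree < j → ∑ e ∈ T \ B, (ρ e * f.eval (z e)) • w e = 0 := by
    intro f hf
    have h1 : ∀ e, (ρ e * f.eval (z e)) • w e =
        ∑ i ∈ Finset.range j, f.coeff i • ((ρ e * z e ^ i) • w e) := by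
      intro e
      rw [eval_eq_sum_range' hf, Finset.mul_sum, Finset.sum_smul]
      refine Finset.sum_congr rfl fun i _ => ?_
      rw [smul_smul]
      congr 1
      ring
    simp only [h1]
    rw [Finset.sum_comm]
    refine Finset.sum_eq_zero fun i hi => ?_
    rw [← Finset.smul_sum, hrR i (Finset.mem_range.1 hi), smul_zero]
  have hwR : ∀ x ∈ T \ B, w x = 0 := by
    intro x hx
    have hd : (∏ e ∈ (T \ B).erase x, (X - C (z e))).natDegree < j := by
      rw [natDegree_eq_of_degree_eq_some (degree_prod67 _ _), Finset.card_erase_of_mem hx, hRc]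
      have : 0 < (T \ B).card := Finset.card_pos.2 ⟨x, hx⟩
      omega
    have h1 := hpoly _ hd
    rw [Finset.sum_eq_single_of_mem x hx] at h1
    · rcases smul_eq_zero.1 h1 with h2 | h2
      · exfalso
        rcases mul_eq_zero.1 h2 with h3 | h3
        · exact hρ x (Finset.mem_sdiff.1 hx).1 h3
        · rw [eval_prod67, Finset.prod_eq_zero_iff] at h3
          obtain ⟨e, he, he0⟩ := h3
          rw [Finset.mem_erase] at he
          exact he.1 (hz (Finset.mem_sdiff.1 he.2).1 (Finset.mem_sdiff.1 hx).1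
            (sub_eq_zero.1 he0).symm)
      · exact h2
    · intro e he hne
      rw [eval_prod67, Finset.prod_eq_zero (Finset.mem_erase.2 ⟨hne, he⟩) (sub_self _), mul_zero,
        zero_smul]
  intro e he
  have h0 : w e = 0 := by
    by_cases heB : e ∈ B
    · exact hwB e heB
    · exact hwR e (Finset.mem_sdiff.2 ⟨he, heB⟩)
  rw [hw, sub_eq_zero] at h0
  exact h0

end

end Pool.Agent.Helper31.RN
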