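import Pool.Agent.Helper31.RN.Deg
import Pool.Agent.Helper31.RN.Lag

/-!
# RN-2A: (Z1)

`G = A ∪ W`, `p x = nu k (s x)` for `x ∈ W`. Take `L = K[X]`, `a = X ∈ L`, `t x = C (s x) - X` on `W`, `t = 0` on `A`.
`fT_sum` with `J = W`, `σ x = algebraMap (kap W s x) * ∏_{e' ∈ W.erase x} (a - s e')`, `u = t`, `v x = bc L (p x)`: the left side
is zero (`fT_self`). By `lagr_alg` (`j = 0, 1, 2`, expand `(s x - a)^j`): `∑ σ x • v x = nu k a`,
`∑ (σ x * t x) • v x = a nu k a - a nu k a = 0`, `∑ (σ x * t x ^ 2) • v x = 0`. So the coefficient zero of `fT (nu k a)` vanishes.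
It is `∑_B ev (nu k a) (h B) * ∏_{x ∈ G \ B} t x`; only `B ⊇ A`, i.e. `B = insert e A`, `e ∈ W`, contribute (`t = 0` on `A`), and
`ev (nu k a) (h B) = aeval X (h B) = h B` (`ev_nu_alg`). This is `z1_prod` up to the sign `(-1)^{k+1}`:
`∏_{e' ∈ W.erase e} (C (s e') - X) = (-1)^{k+1} ∏ (X - C (s e'))`.
`z1`: `h (insert e A)` vanishes at `s e` (`ev (p e) (h _) = 0`), so it is `(X - C (s e)) * (h _ /ₘ (X - C (s e)))`;
`z1_prod` is `(∑_e h_e /ₘ (X - C s_e)) * ∏_{e ∈ W} (X - C (s e)) = 0`, and the product is not zero.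
-/

open Polynomial

namespace Pool.Agent.Helper31.RN

noncomputable section

variable {K : Type*} [Field K] {ι : Type*} [DecidableEq ι] {k : ℕ}

theorem z1_prod (hk : 2 ≤ k) (hNZ : NZ K k) {A W : Finset ι} {p : ι → Fin k → K}
    {h : Finset ι → K[X]} (hAW : Disjoint A W) (hA : A.card = k - 2) (hW : W.card = k + 2)
    (H : L1 k (A ∪ W) p h) {s : ι → K} (hs : Set.InjOn s W)
    (hp : ∀ x ∈ W, p x = nu k (s x)) :
    ∑ e ∈ W, h (insert e A) * ∏ e' ∈ W.erase e, (X - C (s e')) = 0 := by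
  have hWA : ∀ e ∈ W, e ∉ A := fun e he hA' => Finset.disjoint_left.1 hAW hA' he
  set t : ι → K[X] := fun x => if x ∈ W then C (s x) - X else 0 with ht
  have htW : ∀ x ∈ W, t x = C (s x) - X := fun x hx => by rw [ht]; simp only; rw [if_pos hx]
  have htA : ∀ x ∈ A, t x = 0 := fun x hx => by
    rw [ht]; simp only; rw [if_neg (fun h => hWA x h hx)]
  set σ : ι → K[X] := fun x => algebraMap K K[X] (kap W s x) * ∏ e' ∈ W.erase x, (X - algebraMap K K[X] (s e'))
    with hσ
  have hsum := fT_sum (L := K[X]) hk hNZ H t W σ t (fun x => bc K[X] (p x))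
  have hl : ∑ i ∈ W, σ i * (fT k (A ∪ W) h t (bc K[X] (p i))).eval (t i) = 0 := by
    refine Finset.sum_eq_zero fun x hx => ?_
    rw [fT_self H t (Finset.mem_union_right _ hx), mul_zero]
  rw [hl, Finset.sum_range_succ, Finset.sum_range_succ, Finset.sum_range_succ, Finset.sum_range_zero,
    zero_add] at hsum
  have hlag : ∀ j < 3, ∑ e ∈ W, (σ e * (C (s e)) ^ j) • bc K[X] (p e) = (X : K[X]) ^ j • nu k (X : K[X]) := by
    intro j hj
    rw [← lagr_alg (L := K[X]) hW hs X hj]
    refine Finset.sum_congr rfl fun e he => ?_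
    rw [hp e he, hσ]
    simp only
    congr 1
    rw [map_mul, map_pow, ← Polynomial.algebraMap_eq]
    ring
  have e0 := hlag 0 (by omega)
  have e1 := hlag 1 (by omega)
  have e2 := hlag 2 (by omega)
  have s0 : ∑ i ∈ W, (σ i * t i ^ 0) • bc K[X] (p i) = nu k (X : K[X]) := by
    simp only [pow_zero, mul_one, one_smul] at e0 ⊢
    exact e0
  have s1 : ∑ i ∈ W, (σ i * t i ^ 1) • bc K[X] (p i) = 0 := by
    have : ∑ i ∈ W, (σ i * t i ^ 1) • bc K[X] (p i) =
        ∑ e ∈ W, (σ e * (C (s e)) ^ 1) • bc K[X] (p e) - (X : K[X]) • ∑ e ∈ W, (σ e * (C (s e)) ^ 0) • bc K[X] (p e) := by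
      rw [Finset.smul_sum, ← Finset.sum_sub_distrib]
      refine Finset.sum_congr rfl fun e he => ?_
      rw [htW e he, smul_smul, ← sub_smul]
      congr 1
      ring
    rw [this, e1, e0, pow_zero, one_smul, pow_one, sub_self]
  have s2 : ∑ i ∈ W, (σ i * t i ^ 2) • bc K[X] (p i) = 0 := by
    have : ∑ i ∈ W, (σ i * t i ^ 2) • bc K[X] (p i) =
        ∑ e ∈ W, (σ e * (C (s e)) ^ 2) • bc K[X] (p e) - (2 * X : K[X]) • ∑ e ∈ W, (σ e * (C (s e)) ^ 1) • bc K[X] (p e)
          + (X ^ 2 : K[X]) • ∑ e ∈ W, (σ e * (C (s e)) ^ 0) • bc K[X] (p e) := by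
      rw [Finset.smul_sum, Finset.smul_sum, ← Finset.sum_sub_distrib, ← Finset.sum_add_distrib]
      refine Finset.sum_congr rfl fun e he => ?_
      rw [htW e he, smul_smul, smul_smul, ← sub_smul, ← add_smul]
      congr 1
      ring
    rw [this, e2, e1, e0, smul_smul, smul_smul, ← sub_smul, ← add_smul]
    have h0 : (X ^ 2 - 2 * X * X ^ 1 + X ^ 2 * X ^ 0 : K[X]) = 0 := by ring
    rw [h0, zero_smul]
  rw [s0, s1, s2, fT_zero, coeff_zero, coeff_zero, add_zero, add_zero] at hsum
  have hc : (fT k (A ∪ W) h t (nu k (X : K[X]))).coeff 0 =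
      ∑ B ∈ (A ∪ W).powersetCard (k - 1), h B * ∏ x ∈ (A ∪ W) \ B, t x := by
    rw [coeff_zero_eq_eval_zero]
    unfold fT
    rw [eval_finsetSum]
    refine Finset.sum_congr rfl fun B _ => ?_
    rw [eval_mul, eval_C, eval_prod, ev_nu_alg _ _ (H.deg B), aeval_X_left_apply]
    congr 1
    refine Finset.prod_congr rfl fun x _ => ?_
    rw [eval_sub, eval_C, eval_X, sub_zero]
  rw [hc] at hsum
  have hsub : W.image (fun e => insert e A) ⊆ (A ∪ W).powersetCard (k - 1) := by
    intro B hB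
    obtain ⟨e, he, rfl⟩ := Finset.mem_image.1 hB
    rw [Finset.mem_powersetCard]
    refine ⟨Finset.insert_subset (Finset.mem_union_right _ he) Finset.subset_union_left, ?_⟩
    rw [Finset.card_insert_of_notMem (hWA e he), hA]
    omega
  have hz : ∀ B ∈ (A ∪ W).powersetCard (k - 1), B ∉ W.image (fun e => insert e A) →
      h B * ∏ x ∈ (A ∪ W) \ B, t x = 0 := by
    intro B hB hB'
    rw [Finset.mem_powersetCard] at hB
    by_cases hAB : A ⊆ B
    · exfalso
      apply hB'
      have h1 : (B \ A).card = 1 := by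
        rw [Finset.card_sdiff_of_subset hAB, hB.2, hA]
        omega
      obtain ⟨e, he⟩ := Finset.card_eq_one.1 h1
      have heB : e ∈ B \ A := by rw [he]; exact Finset.mem_singleton_self e
      rw [Finset.mem_sdiff] at heB
      rw [Finset.mem_image]
      refine ⟨e, ?_, ?_⟩
      · rcases Finset.mem_union.1 (hB.1 heB.1) with h2 | h2
        · exact absurd h2 heB.2
        · exact h2
      · rw [← Finset.sdiff_union_of_subset hAB, he, Finset.singleton_union]
    · obtain ⟨x, hxA, hxB⟩ := Finset.not_subset.1 hAB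
      rw [Finset.prod_eq_zero (Finset.mem_sdiff.2 ⟨Finset.mem_union_left _ hxA, hxB⟩) (htA x hxA), mul_zero]
  rw [← Finset.sum_subset hsub hz, Finset.sum_image] at hsum
  · have hterm : ∀ e ∈ W, h (insert e A) * ∏ x ∈ (A ∪ W) \ insert e A, t x =
        (-1) ^ (k + 1) * (h (insert e A) * ∏ e' ∈ W.erase e, (X - C (s e'))) := by
      intro e he
      have h1 : (A ∪ W) \ insert e A = W.erase e := by
        ext x
        simp only [Finset.mem_sdiff, Finset.mem_union, Finset.mem_insert, Finset.mem_erase]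
        constructor
        · rintro ⟨h1 | h1, h2⟩
          · exact absurd (Or.inr h1) h2
          · exact ⟨fun h3 => h2 (Or.inl h3), h1⟩
        · rintro ⟨h1, h2⟩
          refine ⟨Or.inr h2, ?_⟩
          rintro (h3 | h3)
          · exact h1 h3
          · exact hWA x h2 h3
      rw [h1]
      have h2 : ∏ x ∈ W.erase e, t x = (-1) ^ (k + 1) * ∏ e' ∈ W.erase e, (X - C (s e')) := by
        have h3 : (W.erase e).card = k + 1 := by
          rw [Finset.card_erase_of_mem he, hW]
          omega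
        rw [← h3, ← Finset.prod_const, ← Finset.prod_mul_distrib]
        refine Finset.prod_congr rfl fun x hx => ?_
        rw [htW x (Finset.mem_of_mem_erase hx)]
        ring
      rw [h2]
      ring
    rw [Finset.sum_congr rfl hterm, ← Finset.mul_sum] at hsum
    have h4 : ((-1) ^ (k + 1) : K[X]) ≠ 0 := pow_ne_zero _ (neg_ne_zero.2 one_ne_zero)
    rcases mul_eq_zero.1 hsum.symm with h5 | h5
    · exact absurd h5 h4
    · exact h5
  · intro e he e' he' hee
    simp only at hee
    have h1 : e ∈ insert e' A := by rw [← hee]; exact Finset.mem_insert_self e A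
    rcases Finset.mem_insert.1 h1 with h2 | h2
    · exact h2
    · exact absurd h2 (hWA e he)

theorem z1 (hk : 2 ≤ k) (hNZ : NZ K k) {A W : Finset ι} {p : ι → Fin k → K}
    {h : Finset ι → K[X]} (hAW : Disjoint A W) (hA : A.card = k - 2) (hW : W.card = k + 2)
    (H : L1 k (A ∪ W) p h) {s : ι → K} (hs : Set.InjOn s W)
    (hp : ∀ x ∈ W, p x = nu k (s x)) :
    ∑ e ∈ W, h (insert e A) /ₘ (X - C (s e)) = 0 := by
  have hWA : ∀ e ∈ W, e ∉ A := fun e he hA' => Finset.disjoint_left.1 hAW hA' he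
  have h0 := z1_prod hk hNZ hAW hA hW H hs hp
  have hterm : ∀ e ∈ W, h (insert e A) * ∏ e' ∈ W.erase e, (X - C (s e')) =
      (h (insert e A) /ₘ (X - C (s e))) * ∏ e' ∈ W, (X - C (s e')) := by
    intro e he
    have hc : (insert e A).card = k - 1 := by
      rw [Finset.card_insert_of_notMem (hWA e he), hA]
      omega
    have h1 := H.zero (insert e A)
      (Finset.insert_subset (Finset.mem_union_right _ he) Finset.subset_union_left) hc e
      (Finset.mem_insert_self e A)
    rw [hp e he, ev_nu _ _ (H.deg _)] at h1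
    have h2 : (X - C (s e)) * (h (insert e A) /ₘ (X - C (s e))) = h (insert e A) :=
      mul_divByMonic_eq_iff_isRoot.2 h1
    rw [← Finset.mul_prod_erase W (fun e' => X - C (s e')) he]
    nth_rewrite 1 [← h2]
    ring
  rw [Finset.sum_congr rfl hterm, ← Finset.sum_mul] at h0
  rcases mul_eq_zero.1 h0 with h1 | h1
  · exact h1
  · exfalso
    rw [Finset.prod_eq_zero_iff] at h1
    obtain ⟨e, _, he⟩ := h1
    exact X_sub_C_ne_zero _ he

end

end Pool.Agent.Helper31.RN
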